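import Pool.Agent.TFC.Defs

set_option autoImplicit false

namespace Pool.Agent.TFC

open Finset

theorem asm_two {s : Finset ℕ} {p q : ℕ} (hp : p ∈ s) (hq : q ∈ s) (h : p ≠ q) : 2 ≤ s.card :=
  Finset.one_lt_card.2 ⟨p, hp, q, hq, h⟩

theorem asm_inj {G : Finset (ℕ × ℕ)} (hG : Disj G) {e e' : ℕ × ℕ} (he : e ∈ G) (he' : e' ∈ G)
    (h : e.1 = e'.1) : e = e' := by
  by_contra hne
  exact (hG e he e' he' hne).1 h

/-- the classes -/
theorem asm_classes (x z K : ℕ) (hzx : K * z ≤ x) (ω : {q : ℕ // q ∈ pz z} → ℕ)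
    (G : Finset (ℕ × ℕ)) (hG : Disj G) (hGp : ∀ e ∈ G, x < K * e.1) (Dem : Finset (ℕ × ℕ))
    (T' : Finset ℕ) (hT : ∀ p ∈ T', x < K * p ∧ ∀ e ∈ G, e.1 ≠ p) (hcard : Dem.card ≤ T'.card) :
    ∃ (a : ℕ → ℕ) (i : ℕ × ℕ → ℕ),
      (∀ (q : ℕ) (hq : q ∈ pz z), a q = ω ⟨q, hq⟩) ∧
      (∀ p, z < p → K * p ≤ x → a p = 0) ∧
      (∀ e ∈ G, a e.1 = e.2) ∧
      (∀ d ∈ Dem, i d ∈ T' ∧ a (i d) = d.1) ∧
      (∀ d ∈ Dem, ∀ d' ∈ Dem, i d = i d' → d = d') := by
  classical
  have hcard' : Fintype.card {d // d ∈ Dem} ≤ Fintype.card {p // p ∈ T'} := by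
    rw [Fintype.card_coe, Fintype.card_coe]
    exact hcard
  obtain ⟨j⟩ := Function.Embedding.nonempty_of_card_le hcard'
  have hsmall : ∀ p ∈ pz z, K * p ≤ x := by
    intro p hp
    unfold pz at hp
    rw [Finset.mem_filter, Finset.mem_range] at hp
    exact le_trans (Nat.mul_le_mul_left K (by omega)) hzx
  let a : ℕ → ℕ := fun p => if hs : p ∈ pz z then ω ⟨p, hs⟩ else
    if K * p ≤ x then 0 else
    if hg : ∃ e ∈ G, e.1 = p then hg.choose.2 else
    if hd : ∃ d : {d // d ∈ Dem}, (j d).1 = p then hd.choose.1.1 else 0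
  refine ⟨a, fun d => if hd : d ∈ Dem then (j ⟨d, hd⟩).1 else 0, ?_, ?_, ?_, ?_, ?_⟩
  · intro q hq
    exact dif_pos hq
  · intro p hp hK
    have h1 : p ∉ pz z := by
      intro h
      unfold pz at h
      rw [Finset.mem_filter, Finset.mem_range] at h
      omega
    change (if hs : p ∈ pz z then ω ⟨p, hs⟩ else _) = 0
    rw [dif_neg h1, if_pos hK]
  · intro e he
    have hx := hGp e he
    have h1 : e.1 ∉ pz z := fun h => absurd (hsmall _ h) (by omega)
    have h2 : ¬ K * e.1 ≤ x := by omega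
    have h3 : ∃ e' ∈ G, e'.1 = e.1 := ⟨e, he, rfl⟩
    change (if hs : e.1 ∈ pz z then ω ⟨e.1, hs⟩ else _) = e.2
    rw [dif_neg h1, if_neg h2, dif_pos h3]
    have h4 := h3.choose_spec
    rw [asm_inj hG h4.1 he h4.2]
  · intro d hd
    simp only [dif_pos hd]
    have hj := (j ⟨d, hd⟩).2
    refine ⟨hj, ?_⟩
    obtain ⟨hx, hne⟩ := hT _ hj
    have h1 : (j ⟨d, hd⟩).1 ∉ pz z := fun h => absurd (hsmall _ h) (by omega)
    have h2 : ¬ K * (j ⟨d, hd⟩).1 ≤ x := by omega
    have h3 : ¬ ∃ e ∈ G, e.1 = (j ⟨d, hd⟩).1 := by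
      rintro ⟨e, he, h⟩
      exact hne e he h
    have h4 : ∃ d' : {d // d ∈ Dem}, (j d').1 = (j ⟨d, hd⟩).1 := ⟨⟨d, hd⟩, rfl⟩
    change (if hs : (j ⟨d, hd⟩).1 ∈ pz z then ω ⟨(j ⟨d, hd⟩).1, hs⟩ else _) = d.1
    rw [dif_neg h1, if_neg h2, dif_neg h3, dif_pos h4]
    have h5 : h4.choose = ⟨d, hd⟩ := j.injective (Subtype.ext h4.choose_spec)
    rw [h5]
  · intro d hd d' hd' h
    simp only [dif_pos hd, dif_pos hd'] at h
    exact congrArg Subtype.val (j.injective (Subtype.ext h))

/-- ASM. Deterministic assembly. Top primes `T = {p ≤ Y prime, x < K p}`, middle primes `z < p ≤ x/K` get the class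
`0`, small primes the class `ω`, the primes of `G` the class of their pair, and the other top primes cover one
element each: `D1 \ (endpoints of G)` once, `D2` twice, `N3` once. Case analysis of the number of middle prime
divisors of `n`: `≥ 2`: done; `1`: either `n ∈ N3`, or `n ∈ N1` (a second prime factor `> x/K` is impossible as
`z p > x` for it) and `sc = 0` means `n ∈ D1`; `0`: `n ∈ N2`. -/
theorem assemble (x z K Y : ℕ) (hK : 1 ≤ K) (hKz : K ≤ z) (hzx : K * z ≤ x) (hYx : x ≤ K * Y) (hY : Y ≤ x)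
    (ω : {q : ℕ // q ∈ pz z} → ℕ) (G : Finset (ℕ × ℕ)) (hG : Disj G)
    (hGp : ∀ e ∈ G, e.1.Prime ∧ x < K * e.1 ∧ e.1 ≤ Y ∧
      e.2 ∈ (N1 x z).filter (fun n => sc z ω n = 0) ∧
      e.2 + 2 * e.1 ∈ (N1 x z).filter (fun n => sc z ω n = 0))
    (hcount : ((N1 x z).filter (fun n => sc z ω n = 0)).card +
      2 * ((N2 x z K).filter (fun n => sc z ω n ≤ 1)).card + (N3 x z).card ≤
      ((Finset.Icc 1 Y).filter (fun p => p.Prime ∧ x < K * p)).card + G.card) :
    ∃ a : ℕ → ℕ, ∀ n : ℕ, 1 ≤ n → n ≤ x →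
      2 ≤ ((pz Y).filter (fun p => n ≡ a p [MOD p])).card := by
  classical
  set D1 := (N1 x z).filter (fun n => sc z ω n = 0) with hD1
  set D2 := (N2 x z K).filter (fun n => sc z ω n ≤ 1) with hD2
  set D3 := N3 x z with hD3
  set T := (Finset.Icc 1 Y).filter (fun p => p.Prime ∧ x < K * p) with hT
  set PG := G.image Prod.fst with hPG
  set EP := G.image (fun e => e.2) ∪ G.image (fun e => e.2 + 2 * e.1) with hEP
  have hPGcard : PG.card = G.card := by
    rw [hPG]
    exact Finset.card_image_of_injOn fun e he e' he' h => asm_inj hG he he' h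
  have hPGT : PG ⊆ T := by
    intro p hp
    obtain ⟨e, he, rfl⟩ := Finset.mem_image.1 hp
    obtain ⟨h1, h2, h3, -⟩ := hGp e he
    exact Finset.mem_filter.2 ⟨Finset.mem_Icc.2 ⟨h1.one_lt.le, h3⟩, h1, h2⟩
  have hEPcard : EP.card = 2 * G.card := by
    rw [hEP, Finset.card_union_of_disjoint, Finset.card_image_of_injOn,
      Finset.card_image_of_injOn, two_mul]
    · intro e he e' he' h
      by_contra hne
      exact (hG e he e' he' hne).2.2.1 h
    · intro e he e' he' h
      by_contra hne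
      exact (hG e he e' he' hne).2.1 h
    · rw [Finset.disjoint_left]
      intro n hn hn'
      obtain ⟨e, he, rfl⟩ := Finset.mem_image.1 hn
      obtain ⟨e', he', h⟩ := Finset.mem_image.1 hn'
      by_cases hne : e = e'
      · subst hne
        have := (hGp e he).1.pos
        omega
      · exact (hG e he e' he' hne).2.2.2 h.symm
  have hEPD : EP ⊆ D1 := by
    intro n hn
    rw [hEP, Finset.mem_union] at hn
    rcases hn with hn | hn
    · obtain ⟨e, he, rfl⟩ := Finset.mem_image.1 hn
      exact (hGp e he).2.2.2.1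
    · obtain ⟨e, he, rfl⟩ := Finset.mem_image.1 hn
      exact (hGp e he).2.2.2.2
  have hD1card : (D1 \ EP).card = D1.card - 2 * G.card := by
    rw [Finset.card_sdiff_of_subset hEPD, hEPcard]
  have hTcard : (T \ PG).card = T.card - G.card := by
    rw [Finset.card_sdiff_of_subset hPGT, hPGcard]
  have hEPle : 2 * G.card ≤ D1.card := hEPcard ▸ Finset.card_le_card hEPD
  have hPGle : G.card ≤ T.card := hPGcard ▸ Finset.card_le_card hPGT
  set Dem : Finset (ℕ × ℕ) := ((D1 \ EP) ×ˢ {0}) ∪ ((D2 ×ˢ {1, 2}) ∪ (D3 ×ˢ {3})) with hDem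
  have hDemcard : Dem.card ≤ (T \ PG).card := by
    have h1 : Dem.card ≤ (D1 \ EP).card * 1 + (D2.card * 2 + D3.card * 1) := by
      refine le_trans (Finset.card_union_le _ _) ?_
      refine Nat.add_le_add ?_ (le_trans (Finset.card_union_le _ _) (Nat.add_le_add ?_ ?_))
      · rw [Finset.card_product, Finset.card_singleton]
      · rw [Finset.card_product]
        exact Nat.mul_le_mul_left _ (Finset.card_le_two)
      · rw [Finset.card_product, Finset.card_singleton]
    omega
  obtain ⟨a, i, ha1, ha2, ha3, ha4, ha5⟩ := asm_classes x z K hzx ω G hG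
    (fun e he => (hGp e he).2.1) Dem (T \ PG) (by
      intro p hp
      rw [Finset.mem_sdiff] at hp
      refine ⟨(Finset.mem_filter.1 hp.1).2.2, fun e he h => hp.2 ?_⟩
      exact Finset.mem_image.2 ⟨e, he, h⟩) hDemcard
  refine ⟨a, fun n hn1 hnx => ?_⟩
  -- membership in the covering set
  have hzY : z ≤ Y := by
    by_contra h
    have : K * Y < K * z := Nat.mul_lt_mul_of_pos_left (by omega) (by omega)
    omega
  have hcs : ∀ (q : ℕ) (hq : q ∈ pz z), n % q = ω ⟨q, hq⟩ →
      q ∈ (pz Y).filter (fun p => n ≡ a p [MOD p]) := by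
    intro q hq h
    rw [Finset.mem_filter]
    have hq' := hq
    unfold pz at hq'
    rw [Finset.mem_filter, Finset.mem_range] at hq'
    refine ⟨?_, ?_⟩
    · unfold pz
      rw [Finset.mem_filter, Finset.mem_range]
      exact ⟨by omega, hq'.2⟩
    · rw [ha1 q hq, ← h]
      exact (Nat.mod_modEq n q).symm
  have hcm : ∀ p : ℕ, p.Prime → z < p → K * p ≤ x → p ∣ n →
      p ∈ (pz Y).filter (fun p => n ≡ a p [MOD p]) := by
    intro p hp hz hKp hd
    rw [Finset.mem_filter]
    refine ⟨?_, ?_⟩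
    · unfold pz
      rw [Finset.mem_filter, Finset.mem_range]
      refine ⟨?_, hp⟩
      by_contra h
      have : K * Y < K * p := Nat.mul_lt_mul_of_pos_left (by omega) (by omega)
      omega
    · rw [ha2 p hz hKp]
      exact (Nat.modEq_zero_iff_dvd).2 hd
  have hct : ∀ d ∈ Dem, d.1 = n → i d ∈ (pz Y).filter (fun p => n ≡ a p [MOD p]) ∧
      x < K * i d := by
    intro d hd hdn
    obtain ⟨h1, h2⟩ := ha4 d hd
    rw [Finset.mem_sdiff, hT, Finset.mem_filter, Finset.mem_Icc] at h1
    refine ⟨?_, h1.1.2.2⟩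
    rw [Finset.mem_filter]
    refine ⟨?_, ?_⟩
    · unfold pz
      rw [Finset.mem_filter, Finset.mem_range]
      exact ⟨by omega, h1.1.2.1⟩
    · rw [h2, hdn]
  -- extra demand
  have hex : ∀ p : ℕ, p.Prime → z < p → K * p ≤ x → p ∣ n → (∃ d ∈ Dem, d.1 = n) →
      2 ≤ ((pz Y).filter (fun p => n ≡ a p [MOD p])).card := by
    rintro p hp hz hKp hd ⟨d, hd1, hd2⟩
    obtain ⟨h1, h2⟩ := hct d hd1 hd2
    refine asm_two (hcm p hp hz hKp hd) h1 ?_
    rintro rfl
    omega
  by_cases hmid : ∃ p : ℕ, p.Prime ∧ z < p ∧ K * p ≤ x ∧ p ∣ n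
  · obtain ⟨p, hp, hz, hKp, hd⟩ := hmid
    by_cases hmid2 : ∃ q : ℕ, q.Prime ∧ z < q ∧ K * q ≤ x ∧ q ∣ n ∧ q ≠ p
    · obtain ⟨q, hq, hzq, hKq, hdq, hne⟩ := hmid2
      exact asm_two (hcm q hq hzq hKq hdq) (hcm p hp hz hKp hd) hne
    · by_cases hsc : sc z ω n = 0
      · by_cases hN3 : n ∈ N3 x z
        · refine hex p hp hz hKp hd ⟨(n, 3), ?_, rfl⟩
          rw [hDem, Finset.mem_union, Finset.mem_union]
          exact Or.inr (Or.inr (Finset.mem_product.2 ⟨hN3, Finset.mem_singleton_self _⟩))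
        · have hN1 : n ∈ D1 := by
            rw [hD1, Finset.mem_filter]
            refine ⟨?_, hsc⟩
            obtain ⟨m, rfl⟩ := hd
            unfold N1
            rw [Finset.mem_filter, Finset.mem_Icc]
            refine ⟨⟨hn1, hnx⟩, p, m, by ring, hp, hz, fun q hq hqm => ?_⟩
            by_contra hqz
            by_cases hqp : q = p
            · subst hqp
              apply hN3
              unfold N3
              rw [Finset.mem_filter, Finset.mem_Icc]
              exact ⟨⟨hn1, hnx⟩, q, hq, hz, Nat.mul_dvd_mul_left q hqm⟩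
            · have hxq : x < K * q := by
                by_contra hlt
                exact hmid2 ⟨q, hq, by omega, by omega, Dvd.dvd.mul_left hqm p, hqp⟩
              have hm0 : 0 < m := by
                rcases Nat.eq_zero_or_pos m with h | h
                · subst h
                  omega
                · exact h
              have hqle : q ≤ m := Nat.le_of_dvd hm0 hqm
              have : K * q ≤ p * m := Nat.mul_le_mul (by omega) hqle
              omega
          by_cases hE : n ∈ EP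
          · have hcase : ∃ e ∈ G, n = e.2 ∨ n = e.2 + 2 * e.1 := by
              rw [hEP, Finset.mem_union] at hE
              rcases hE with hE | hE
              · obtain ⟨e, he, h⟩ := Finset.mem_image.1 hE
                exact ⟨e, he, Or.inl h.symm⟩
              · obtain ⟨e, he, h⟩ := Finset.mem_image.1 hE
                exact ⟨e, he, Or.inr h.symm⟩
            obtain ⟨e, he, hne⟩ := hcase
            obtain ⟨g1, g2, g3, -⟩ := hGp e he
            have hmem : e.1 ∈ (pz Y).filter (fun p => n ≡ a p [MOD p]) := by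
              rw [Finset.mem_filter]
              refine ⟨?_, ?_⟩
              · unfold pz
                rw [Finset.mem_filter, Finset.mem_range]
                exact ⟨by omega, g1⟩
              · rw [ha3 e he]
                rcases hne with h | h
                · rw [h]
                · rw [h]
                  exact (Nat.ModEq.add_left e.2
                    ((Nat.modEq_zero_iff_dvd).2 (Dvd.intro_left 2 rfl)) :
                    e.2 + 2 * e.1 ≡ e.2 + 0 [MOD e.1])
            refine asm_two (hcm p hp hz hKp hd) hmem ?_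
            intro h
            rw [h] at hKp
            omega
          · refine hex p hp hz hKp hd ⟨(n, 0), ?_, rfl⟩
            rw [hDem, Finset.mem_union]
            exact Or.inl (Finset.mem_product.2
              ⟨Finset.mem_sdiff.2 ⟨hN1, hE⟩, Finset.mem_singleton_self _⟩)
      · have h1 : ((Finset.univ : Finset {q : ℕ // q ∈ pz z}).filter
            (fun q => n % q.1 = ω q)).Nonempty := by
          rw [← Finset.card_pos]
          exact Nat.pos_of_ne_zero hsc
        obtain ⟨⟨q, hq⟩, hq2⟩ := h1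
        rw [Finset.mem_filter] at hq2
        refine asm_two (hcm p hp hz hKp hd) (hcs q hq hq2.2) ?_
        rintro rfl
        unfold pz at hq
        rw [Finset.mem_filter, Finset.mem_range] at hq
        omega
  · by_cases hsc : sc z ω n ≤ 1
    · have hN2 : n ∈ D2 := by
        rw [hD2, Finset.mem_filter]
        refine ⟨?_, hsc⟩
        unfold N2
        rw [Finset.mem_filter, Finset.mem_Icc]
        refine ⟨⟨hn1, hnx⟩, fun q hq hqn => ?_⟩
        by_contra h
        push Not at h
        exact hmid ⟨q, hq, h.1, h.2, hqn⟩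
      have m1 : (n, 1) ∈ Dem := by
        rw [hDem, Finset.mem_union, Finset.mem_union]
        exact Or.inr (Or.inl (Finset.mem_product.2 ⟨hN2, by simp⟩))
      have m2 : (n, 2) ∈ Dem := by
        rw [hDem, Finset.mem_union, Finset.mem_union]
        exact Or.inr (Or.inl (Finset.mem_product.2 ⟨hN2, by simp⟩))
      refine asm_two (hct _ m1 rfl).1 (hct _ m2 rfl).1 ?_
      intro h
      have := ha5 _ m1 _ m2 h
      simp at this
    · have h1 : 1 < ((Finset.univ : Finset {q : ℕ // q ∈ pz z}).filter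
          (fun q => n % q.1 = ω q)).card := by
        have : ¬ ((Finset.univ : Finset {q : ℕ // q ∈ pz z}).filter
          (fun q => n % q.1 = ω q)).card ≤ 1 := hsc
        omega
      obtain ⟨⟨q, hq⟩, h2, ⟨q', hq'⟩, h3, hne⟩ := Finset.one_lt_card.1 h1
      rw [Finset.mem_filter] at h2 h3
      refine asm_two (hcs q hq h2.2) (hcs q' hq' h3.2) ?_
      rintro rfl
      exact hne rfl

end Pool.Agent.TFC
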