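import Pool.Agent.TFC.Defs
import Pool.Agent.PNT.Main

set_option autoImplicit false

namespace Pool.Agent.TFC

open Finset Filter Topology

/-- Counting the primes in `(B, A]` with the Chebyshev function. -/
theorem theta_le_card (A B : ℝ) (x : ℕ) (hA : A ≤ x) (S : Finset ℕ)
    (hS : ∀ p : ℕ, p.Prime → (p : ℝ) ≤ A → ¬ (p : ℝ) ≤ B → p ∈ S) :
    Chebyshev.theta A ≤ (S.card : ℝ) * Real.log x + Chebyshev.theta B := by
  classical
  rcases lt_or_ge A 0 with hA0 | hA0
  · have h1 : Chebyshev.theta A = 0 := Chebyshev.theta_eq_zero_of_lt_two (by linarith)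
    rw [h1]
    have h2 := Chebyshev.theta_nonneg B
    have h3 : 0 ≤ Real.log (x : ℝ) := Real.log_natCast_nonneg x
    positivity
  have h1 : Chebyshev.theta A =
      ∑ p ∈ ((Finset.Ioc 0 ⌊A⌋₊).filter Nat.Prime).filter (fun p : ℕ => (p : ℝ) ≤ B),
        Real.log p +
      ∑ p ∈ ((Finset.Ioc 0 ⌊A⌋₊).filter Nat.Prime).filter (fun p : ℕ => ¬ (p : ℝ) ≤ B),
        Real.log p := by
    rw [Finset.sum_filter_add_sum_filter_not]
    rfl
  have h2 : ∑ p ∈ ((Finset.Ioc 0 ⌊A⌋₊).filter Nat.Prime).filter (fun p : ℕ => (p : ℝ) ≤ B),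
      Real.log p ≤ Chebyshev.theta B := by
    unfold Chebyshev.theta
    apply Finset.sum_le_sum_of_subset_of_nonneg
    · intro p hp
      rw [Finset.mem_filter, Finset.mem_filter, Finset.mem_Ioc] at hp
      rw [Finset.mem_filter, Finset.mem_Ioc]
      exact ⟨⟨hp.1.1.1, Nat.le_floor hp.2⟩, hp.1.2⟩
    · intro p _ _
      exact Real.log_natCast_nonneg p
  have h3 : ∑ p ∈ ((Finset.Ioc 0 ⌊A⌋₊).filter Nat.Prime).filter (fun p : ℕ => ¬ (p : ℝ) ≤ B),
      Real.log p ≤ (S.card : ℝ) * Real.log x := by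
    have h4 : ∀ p ∈ ((Finset.Ioc 0 ⌊A⌋₊).filter Nat.Prime).filter (fun p : ℕ => ¬ (p : ℝ) ≤ B),
        Real.log p ≤ Real.log x ∧ p ∈ S := by
      intro p hp
      rw [Finset.mem_filter, Finset.mem_filter, Finset.mem_Ioc] at hp
      have h5 : (p : ℝ) ≤ A := (Nat.le_floor_iff hA0).1 hp.1.1.2
      have h6 : (0 : ℝ) < p := by exact_mod_cast hp.1.1.1
      exact ⟨Real.log_le_log h6 (h5.trans hA), hS p hp.1.2 h5 hp.2⟩
    refine (Finset.sum_le_card_nsmul _ _ _ (fun p hp => (h4 p hp).1)).trans ?_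
    rw [nsmul_eq_mul]
    apply mul_le_mul_of_nonneg_right _ (Real.log_natCast_nonneg x)
    exact_mod_cast Finset.card_le_card (fun p hp => (h4 p hp).2)
  rw [h1]
  linarith

/-- The Chebyshev function of a multiple of `x`. -/
theorem tendsto_theta_mul (c : ℝ) (hc : 0 < c) :
    Tendsto (fun x : ℕ => Chebyshev.theta (c * x) / x) atTop (𝓝 c) := by
  have h1 : Tendsto (fun x : ℕ => c * (x : ℝ)) atTop atTop :=
    Tendsto.const_mul_atTop hc tendsto_natCast_atTop_atTop
  have h2 := (Pool.Agent.PNT.tendsto_theta_div.comp h1).const_mul c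
  rw [mul_one] at h2
  refine h2.congr' ?_
  filter_upwards [eventually_gt_atTop 0] with x hx
  have hx0 : (x : ℝ) ≠ 0 := by exact_mod_cast hx.ne'
  simp only [Function.comp]
  field_simp

/-- CAP (a). Number of primes in `(x/K, (1-δ)x]` (prime number theorem). -/
theorem capacity (ε δ : ℝ) (hε : 0 < ε) (hδ : 0 < δ) (hδ1 : δ < 1) (K : ℕ) (hK : 1 ≤ K) : ∀ᶠ x : ℕ in atTop,
    (1 - δ - 1 / K - ε) * (x / Real.log x) ≤
      (((Finset.Icc 1 ⌊(1 - δ) * x⌋₊).filter (fun p => p.Prime ∧ x < K * p)).card : ℝ) := by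
  have hK0 : (0 : ℝ) < K := by exact_mod_cast hK
  have h1 := tendsto_theta_mul (1 - δ) (by linarith)
  have h2 := tendsto_theta_mul (1 / K) (by positivity)
  have h3 := (h1.sub h2).eventually (lt_mem_nhds (show 1 - δ - 1 / K - ε < 1 - δ - 1 / K by linarith))
  filter_upwards [h3, eventually_gt_atTop 1] with x hx hx1
  have hx0 : (0 : ℝ) < x := by exact_mod_cast (by omega : 0 < x)
  have hl : 0 < Real.log (x : ℝ) := Real.log_pos (by exact_mod_cast hx1)
  have h4 := theta_le_card ((1 - δ) * x) (1 / K * x) x (by nlinarith)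
    ((Finset.Icc 1 ⌊(1 - δ) * x⌋₊).filter (fun p => p.Prime ∧ x < K * p)) (by
      intro p hp hpA hpB
      rw [Finset.mem_filter, Finset.mem_Icc]
      refine ⟨⟨hp.one_le, Nat.le_floor hpA⟩, hp, ?_⟩
      have h5 : 1 / (K : ℝ) * x < p := not_le.1 hpB
      have h6 : (x : ℝ) < K * p := by
        rw [one_div, inv_mul_lt_iff₀ hK0] at h5
        exact h5
      exact_mod_cast h6)
  have h7 : (1 - δ - 1 / K - ε) * x < Chebyshev.theta ((1 - δ) * x) -
      Chebyshev.theta (1 / K * x) := by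
    rw [← sub_div, lt_div_iff₀ hx0] at hx
    exact hx
  rw [mul_div_assoc', div_le_iff₀ hl]
  linarith

end Pool.Agent.TFC
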