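import Pool.Agent.TFC.Defs

set_option autoImplicit false

namespace Pool.Agent.TFC

open Finset Filter

theorem zpra_logx : Tendsto (fun x : ℕ => Real.log (x : ℝ)) atTop atTop :=
  Real.tendsto_log_atTop.comp tendsto_natCast_atTop_atTop

theorem zpra_loglogx : Tendsto (fun x : ℕ => Real.log (Real.log (x : ℝ))) atTop atTop :=
  Real.tendsto_log_atTop.comp zpra_logx

theorem zpra_sq : ∀ᶠ x : ℕ in atTop,
    101 * (Real.log (Real.log (x : ℝ))) ^ 2 ≤ Real.log (x : ℝ) := by
  have h := (Real.isLittleO_pow_log_id_atTop (n := 2)).bound (show (0 : ℝ) < 1 / 101 by norm_num)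
  have h2 := zpra_logx.eventually h
  have h3 := zpra_logx.eventually (eventually_ge_atTop (0 : ℝ))
  filter_upwards [h2, h3] with x hx hx0
  simp only [id, Real.norm_eq_abs] at hx
  rw [abs_of_nonneg (by positivity), abs_of_nonneg hx0] at hx
  linarith

/-- ZPR (a): `log z = (1+o(1)) log x / loglog x`. -/
theorem zz_log : ∀ᶠ x : ℕ in atTop,
    Real.log x / (2 * Real.log (Real.log x)) ≤ Real.log (zz x) ∧
    Real.log (zz x) ≤ Real.log x / Real.log (Real.log x) := by
  filter_upwards [zpra_sq, zpra_loglogx.eventually (eventually_ge_atTop (8 : ℝ))] with x h1 h2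
  set N := Real.log (x : ℝ) with hN
  set L := Real.log N with hL
  have hL0 : 0 < L := by linarith
  have hN0 : 0 < N := by nlinarith
  have hNL : 2 ≤ N / L / 2 := by
    rw [le_div_iff₀ (by norm_num), le_div_iff₀ hL0]
    nlinarith
  have hz : zz x = ⌊Real.exp (N / L)⌋₊ := rfl
  have hexp2 : (2 : ℝ) ≤ Real.exp (N / L / 2) := by
    have := Real.add_one_le_exp (N / L / 2)
    linarith
  have hsq : Real.exp (N / L) = Real.exp (N / L / 2) * Real.exp (N / L / 2) := by
    rw [← Real.exp_add]; ring_nf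
  have hlow : Real.exp (N / L / 2) ≤ (zz x : ℝ) := by
    have h3 : Real.exp (N / L) < (⌊Real.exp (N / L)⌋₊ : ℝ) + 1 := Nat.lt_floor_add_one _
    rw [hz]
    nlinarith
  have hzpos : 0 < (zz x : ℝ) := lt_of_lt_of_le (Real.exp_pos _) hlow
  constructor
  · have h4 : N / (2 * L) = N / L / 2 := by
      rw [div_div, mul_comm]
    rw [h4, Real.le_log_iff_exp_le hzpos]
    exact hlow
  · rw [Real.log_le_iff_le_exp hzpos, hz]
    exact Nat.floor_le (Real.exp_pos _).le

/-- ZPR (b): sizes. -/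
theorem zz_size : ∀ᶠ x : ℕ in atTop,
    (Real.log x) ^ 100 ≤ zz x ∧ (zz x) ^ 8 ≤ x ∧ 100 ≤ zz x := by
  filter_upwards [zpra_sq, zpra_loglogx.eventually (eventually_ge_atTop (8 : ℝ)),
    eventually_ge_atTop 1] with x h1 h2 hx1
  set N := Real.log (x : ℝ) with hN
  set L := Real.log N with hL
  have hL0 : 0 < L := by linarith
  have hN0 : 0 < N := by nlinarith
  have hx0 : (0 : ℝ) < x := by exact_mod_cast hx1
  have hexpN : Real.exp L = N := Real.exp_log hN0
  have hexpx : Real.exp N = x := Real.exp_log hx0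
  have hz : zz x = ⌊Real.exp (N / L)⌋₊ := rfl
  have hN2 : (2 : ℝ) ≤ N := by nlinarith
  have hNL : 101 * L ≤ N / L := by
    rw [le_div_iff₀ hL0]
    nlinarith
  have hlow : N ^ 100 ≤ (zz x : ℝ) := by
    have h3 : Real.exp (N / L) < (⌊Real.exp (N / L)⌋₊ : ℝ) + 1 := Nat.lt_floor_add_one _
    have h5 : N ^ 101 ≤ Real.exp (N / L) := by
      calc N ^ 101 = Real.exp L ^ 101 := by rw [hexpN]
        _ = Real.exp (101 * L) := by rw [← Real.exp_nat_mul]; norm_num
        _ ≤ Real.exp (N / L) := Real.exp_le_exp.mpr hNL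
    have h6 : (1 : ℝ) ≤ N ^ 100 := one_le_pow₀ (by linarith)
    have h7 : N ^ 101 = N ^ 100 * N := by ring
    rw [hz]
    nlinarith
  refine ⟨hlow, ?_, ?_⟩
  · have h8 : ((zz x : ℝ)) ^ 8 ≤ x := by
      calc ((zz x : ℝ)) ^ 8 ≤ (Real.exp (N / L)) ^ 8 := by
            apply pow_le_pow_left₀ (Nat.cast_nonneg _)
            rw [hz]; exact Nat.floor_le (Real.exp_pos _).le
        _ = Real.exp (8 * (N / L)) := by rw [← Real.exp_nat_mul]; norm_num
        _ ≤ Real.exp N := by
            apply Real.exp_le_exp.mpr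
            rw [← mul_div_assoc, div_le_iff₀ hL0]
            nlinarith
        _ = x := hexpx
    exact_mod_cast h8
  · have h9 : (2 : ℝ) ^ 100 ≤ (zz x : ℝ) :=
      le_trans (pow_le_pow_left₀ (by norm_num) hN2 100) hlow
    have h10 : (2 : ℕ) ^ 100 ≤ zz x := by exact_mod_cast h9
    exact le_trans (by norm_num) h10

end Pool.Agent.TFC
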