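import Pool.Agent.TFC.RKNB
import Pool.Agent.TFC.ZPRA
import Pool.Agent.PNT.Main

set_option autoImplicit false

namespace Pool.Agent.TFC

open Finset Filter

lemma dem_pnt (η : ℝ) (hη : 0 < η) : ∃ Y : ℝ, 2 ≤ Y ∧ ∀ y : ℝ, Y ≤ y →
    (Nat.primeCounting ⌊y⌋₊ : ℝ) ≤ (1 + η) * (y / Real.log y) := by
  have h := Pool.Agent.PNT.tendsto_primeCounting
  have h1 : ∀ᶠ y : ℝ in atTop, (Nat.primeCounting ⌊y⌋₊ : ℝ) * Real.log y / y < 1 + η :=
    (tendsto_order.1 h).2 _ (by linarith)
  obtain ⟨Y0, hY0⟩ := eventually_atTop.1 h1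
  refine ⟨max Y0 2, le_max_right _ _, fun y hy => ?_⟩
  have hy2 : 2 ≤ y := (le_max_right _ _).trans hy
  have h2 := hY0 y ((le_max_left _ _).trans hy)
  have hl : 0 < Real.log y := Real.log_pos (by linarith)
  have hy0 : 0 < y := by linarith
  rw [div_lt_iff₀ hy0] at h2
  rw [← mul_div_assoc, le_div_iff₀ hl]
  linarith

open scoped Classical in
lemma dem_cover (x z : ℕ) : ((N1 x z).card : ℝ) ≤
    ∑ m ∈ (Finset.Icc 1 x).filter (fun m => (∀ q : ℕ, q.Prime → q ∣ m → q ≤ z) ∧ m * (z + 1) ≤ x),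
      (Nat.primeCounting (x / m) : ℝ) := by
  set M := (Finset.Icc 1 x).filter
    (fun m => (∀ q : ℕ, q.Prime → q ∣ m → q ≤ z) ∧ m * (z + 1) ≤ x) with hM
  have hsub : N1 x z ⊆ M.biUnion (fun m => ((Finset.range (x / m + 1)).filter Nat.Prime).image
      (fun p => m * p)) := by
    intro n hn
    simp only [N1, Finset.mem_filter, Finset.mem_Icc] at hn
    obtain ⟨⟨hn1, hnx⟩, p, m, rfl, hp, hzp, hq⟩ := hn
    have hm : 1 ≤ m := by
      rcases Nat.eq_zero_or_pos m with h | h
      · subst h; simp at hn1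
      · exact h
    have hmx : m ≤ x := le_trans (Nat.le_mul_of_pos_right m hp.pos) hnx
    simp only [Finset.mem_biUnion, Finset.mem_image, Finset.mem_filter, Finset.mem_range, hM,
      Finset.mem_Icc]
    refine ⟨m, ⟨⟨hm, hmx⟩, hq, le_trans (Nat.mul_le_mul_left m hzp) hnx⟩, p, ⟨?_, hp⟩, rfl⟩
    have : p ≤ x / m := by
      rw [Nat.le_div_iff_mul_le hm]
      rw [mul_comm]; exact hnx
    omega
  have h1 : (N1 x z).card ≤ ∑ m ∈ M, Nat.primeCounting (x / m) := by
    refine (Finset.card_le_card hsub).trans (Finset.card_biUnion_le.trans ?_)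
    refine Finset.sum_le_sum (fun m _ => ?_)
    refine Finset.card_image_le.trans (le_of_eq ?_)
    rw [Nat.primeCounting, Nat.primeCounting', Nat.count_eq_card_filter_range]
  calc ((N1 x z).card : ℝ) ≤ ((∑ m ∈ M, Nat.primeCounting (x / m) : ℕ) : ℝ) := by exact_mod_cast h1
    _ = _ := by push_cast; rfl

/-- DEM. The main demand. `N1 ⊆ {m p}`, `m` `z`-smooth, `z < p ≤ x/m`: at most `∑_{m < x/z smooth} π(x/m)`.
`U := log x / log z ∈ [loglog x, 2 loglog x]`.
`m ≤ √x`: `π(x/m) ≤ (1+ε/4) x/(m (log x - log m)) ≤ (1+ε/4) (x/log x) (1/m)(1 + 2 log m/log x)` (PNT), then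
`VV ∑ 1/m ≤ 1` (`smooth_sum`), and `log m ≤ log z · m^(1/log z)`, so
`VV ∑ log m/m ≤ C log z` (`rankin_sum`), relative error `2C/U`.
`√x < m < x/z`: `π(x/m) ≤ 2 (x/m)/log z` (or `≤ C x/(m log z)`), and
`VV ∑_{m > √x} 1/m ≤ x^(-1/(2 log z)) VV ∑ m^(-1+1/log z) ≤ C e^(-U/2)`: total
`C' (x/log x) U e^(-U/2)`. -/
theorem demand_one (ε : ℝ) (hε : 0 < ε) : ∀ᶠ x : ℕ in atTop,
    VV (zz x) * ((N1 x (zz x)).card : ℝ) ≤ (1 + ε) * (x / Real.log x) := by
  classical
  obtain ⟨C, hC0, hC⟩ := rankin_sum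
  set η : ℝ := min ε 1 / 4 with hη
  have hη0 : 0 < η := by rw [hη]; positivity
  have hη1 : η ≤ ε / 4 := by rw [hη]; have := min_le_left ε 1; linarith
  have hη2 : η ≤ 1 := by rw [hη]; have := min_le_right ε 1; linarith
  obtain ⟨Y, hY2, hY⟩ := dem_pnt η hη0
  have hlog : Tendsto (fun x : ℕ => Real.log x) atTop atTop :=
    Real.tendsto_log_atTop.comp tendsto_natCast_atTop_atTop
  have hloglog : Tendsto (fun x : ℕ => Real.log (Real.log x)) atTop atTop :=
    Real.tendsto_log_atTop.comp hlog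
  filter_upwards [zz_log, zz_size, hlog.eventually_ge_atTop (max Y 1),
    hloglog.eventually_ge_atTop (64 * C / ε + 1),
    (tendsto_natCast_atTop_atTop (R := ℝ)).eventually_ge_atTop (Y * Y)] with x h1 h2 h3 h4 h5
  set z := zz x with hz
  set L := Real.log x with hL
  set l := Real.log z with hl
  obtain ⟨h2a, h2b, h2c⟩ := h2
  have hL1 : 1 ≤ L := (le_max_right _ _).trans h3
  have hLY : Y ≤ L := (le_max_left _ _).trans h3
  have hl4 : 4 ≤ l := rknb_log z h2c
  have hl0 : 0 < l := by linarith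
  have hL0 : 0 < L := by linarith
  have hzY : Y ≤ z := by
    have : L ≤ L ^ 100 := by
      calc L = L ^ 1 := (pow_one L).symm
        _ ≤ L ^ 100 := pow_le_pow_right₀ hL1 (by norm_num)
    linarith
  have hCε : 0 < 64 * C / ε := by positivity
  have hU : Real.log L ≤ L / l := by
    rw [le_div_iff₀ hl0]
    have h6 : 0 < Real.log L := by linarith
    have h7 := h1.2
    rw [le_div_iff₀ h6] at h7
    linarith
  set U := L / l with hUdef
  have hU1 : 64 * C / ε + 1 ≤ U := h4.trans hU
  have hU0 : 0 < U := by linarith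
  have hUl : L = U * l := by rw [hUdef]; field_simp
  have hxpos : (0 : ℝ) < x := by
    have : (0 : ℝ) < Y * Y := by positivity
    linarith
  set M := (Finset.Icc 1 x).filter
    (fun m => (∀ q : ℕ, q.Prime → q ∣ m → q ≤ z) ∧ m * (z + 1) ≤ x) with hM
  have hMs : ∀ m ∈ M, 1 ≤ m ∧ ∀ q : ℕ, q.Prime → q ∣ m → q ≤ z := by
    intro m hm
    simp only [hM, Finset.mem_filter, Finset.mem_Icc] at hm
    exact ⟨hm.1.1, hm.2.1⟩
  have hA := smooth_sum z M hMs
  have hR := hC z h2c M hMs
  have hV0 : 0 ≤ VV z := by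
    unfold VV
    refine Finset.prod_nonneg (fun p hp => ?_)
    have hp' : p.Prime := by simp only [pz, Finset.mem_filter] at hp; exact hp.2
    have h1 : (1 : ℝ) / p ≤ 1 := by
      rw [div_le_one (by exact_mod_cast hp'.pos)]; exact_mod_cast hp'.one_le
    linarith
  -- pointwise bound
  have hpt : ∀ m ∈ M, (Nat.primeCounting (x / m) : ℝ) ≤
      (1 + η) * (x / L) * (1 / (m : ℝ)) +
      ((1 + η) * (x / L) * (2 / U) + 2 * x / l * Real.exp (-(U / 2))) *
        (m : ℝ) ^ (-1 + 1 / l) := by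
    intro m hm
    have hm' := hm
    simp only [hM, Finset.mem_filter, Finset.mem_Icc] at hm'
    obtain ⟨⟨hm1, hmx⟩, _, hmz⟩ := hm'
    have hm0 : (0 : ℝ) < m := by exact_mod_cast hm1
    have hm1' : (1 : ℝ) ≤ m := by exact_mod_cast hm1
    have hfl : ⌊(x : ℝ) / m⌋₊ = x / m := Nat.floor_div_eq_div x m
    have hyz : (z : ℝ) < (x : ℝ) / m := by
      rw [lt_div_iff₀ hm0]
      have : ((m * (z + 1) : ℕ) : ℝ) ≤ x := by exact_mod_cast hmz
      push_cast at this
      nlinarith
    have hyY : Y ≤ (x : ℝ) / m := by linarith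
    have hπ := hY _ hyY
    rw [hfl] at hπ
    have hlogy : Real.log ((x : ℝ) / m) = L - Real.log m :=
      Real.log_div hxpos.ne' hm0.ne'
    have hlogm0 : 0 ≤ Real.log m := Real.log_nonneg hm1'
    have hpow : (m : ℝ) ^ (-1 + 1 / l) = Real.exp (Real.log m / l) / m := by
      rw [Real.rpow_add hm0, Real.rpow_neg_one, Real.rpow_def_of_pos hm0]
      rw [mul_one_div]
      field_simp
    rw [hpow]
    have hexp0 : 0 < Real.exp (Real.log m / l) := Real.exp_pos _
    have hlogm : Real.log m ≤ l * Real.exp (Real.log m / l) := by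
      have h8 := Real.add_one_le_exp (Real.log m / l)
      have h9 : Real.log m = l * (Real.log m / l) := by field_simp
      calc Real.log m = l * (Real.log m / l) := h9
        _ ≤ l * Real.exp (Real.log m / l) := mul_le_mul_of_nonneg_left (by linarith) hl0.le
    have hxm : 0 < (x : ℝ) / m := by positivity
    rcases le_or_gt (2 * Real.log m) L with hc | hc
    · -- small m
      have hden : 0 < L - Real.log m := by linarith
      have h10 : 1 / (L - Real.log m) ≤ 1 / L + 2 * Real.log m / L ^ 2 := by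
        rw [div_le_iff₀ hden]
        have : (1 / L + 2 * Real.log m / L ^ 2) * (L - Real.log m) =
            1 + Real.log m * (L - 2 * Real.log m) / L ^ 2 := by
          field_simp
          ring
        rw [this]
        have h11 : 0 ≤ Real.log m * (L - 2 * Real.log m) / L ^ 2 := by
          apply div_nonneg (mul_nonneg hlogm0 (by linarith)) (by positivity)
        linarith
      have h12 : (x : ℝ) / m / Real.log ((x : ℝ) / m) ≤
          (x : ℝ) / m * (1 / L + 2 * (l * Real.exp (Real.log m / l)) / L ^ 2) := by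
        rw [hlogy, div_eq_mul_one_div]
        refine mul_le_mul_of_nonneg_left (h10.trans ?_) hxm.le
        have : 2 * Real.log m / L ^ 2 ≤ 2 * (l * Real.exp (Real.log m / l)) / L ^ 2 :=
          div_le_div_of_nonneg_right (by linarith) (by positivity)
        linarith
      have h13 : (1 + η) * ((x : ℝ) / m / Real.log ((x : ℝ) / m)) ≤
          (1 + η) * (x / L) * (1 / (m : ℝ)) +
            (1 + η) * (x / L) * (2 / U) * (Real.exp (Real.log m / l) / m) := by
        refine (mul_le_mul_of_nonneg_left h12 (by linarith)).trans (le_of_eq ?_)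
        have : l / L ^ 2 = 1 / (L * U) := by
          rw [hUl]; field_simp
        have h14 : 2 * (l * Real.exp (Real.log m / l)) / L ^ 2 =
            2 * Real.exp (Real.log m / l) * (l / L ^ 2) := by ring
        rw [h14, this]
        field_simp
      refine hπ.trans (h13.trans ?_)
      have h15 : 0 ≤ 2 * x / l * Real.exp (-(U / 2)) * (Real.exp (Real.log m / l) / m) := by
        positivity
      rw [add_mul]
      linarith
    · -- large m
      have hlogyl : l ≤ Real.log ((x : ℝ) / m) := by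
        rw [hl]
        exact Real.log_le_log (by linarith) hyz.le
      have h16 : (x : ℝ) / m / Real.log ((x : ℝ) / m) ≤ (x : ℝ) / m / l :=
        div_le_div_of_nonneg_left hxm.le hl0 hlogyl
      have h17 : Real.exp (U / 2) ≤ Real.exp (Real.log m / l) := by
        apply Real.exp_le_exp.2
        rw [le_div_iff₀ hl0]
        have : U / 2 * l = L / 2 := by rw [hUl]; ring
        linarith
      have h18 : 1 ≤ Real.exp (-(U / 2)) * Real.exp (Real.log m / l) := by
        calc (1 : ℝ) = Real.exp (-(U / 2)) * Real.exp (U / 2) := by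
              rw [← Real.exp_add]; simp
          _ ≤ _ := mul_le_mul_of_nonneg_left h17 (Real.exp_pos _).le
      have h19 : (1 + η) * ((x : ℝ) / m / Real.log ((x : ℝ) / m)) ≤
          2 * x / l * Real.exp (-(U / 2)) * (Real.exp (Real.log m / l) / m) := by
        calc (1 + η) * ((x : ℝ) / m / Real.log ((x : ℝ) / m)) ≤ 2 * ((x : ℝ) / m / l) := by
              refine mul_le_mul (by linarith) h16 ?_ (by norm_num)
              exact div_nonneg hxm.le (by linarith)
          _ ≤ 2 * ((x : ℝ) / m / l) * (Real.exp (-(U / 2)) * Real.exp (Real.log m / l)) := by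
              refine le_mul_of_one_le_right (by positivity) h18
          _ = _ := by ring
      refine hπ.trans (h19.trans ?_)
      have h20 : 0 ≤ (1 + η) * (x / L) * (1 / (m : ℝ)) := by positivity
      have h21 : 0 ≤ (1 + η) * (x / L) * (2 / U) * (Real.exp (Real.log m / l) / m) := by positivity
      rw [add_mul]
      linarith
  have hsum := dem_cover x z
  rw [← hM] at hsum
  have hsum2 := hsum.trans (Finset.sum_le_sum hpt)
  rw [Finset.sum_add_distrib, ← Finset.mul_sum, ← Finset.mul_sum] at hsum2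
  set A := ∑ m ∈ M, 1 / (m : ℝ) with hAdef
  set R := ∑ m ∈ M, (m : ℝ) ^ (-1 + 1 / l) with hRdef
  have hc1 : 0 ≤ (1 + η) * (x / L) := by positivity
  have hc2 : 0 ≤ (1 + η) * (x / L) * (2 / U) + 2 * x / l * Real.exp (-(U / 2)) := by positivity
  have h22 : VV z * ((N1 x z).card : ℝ) ≤ (1 + η) * (x / L) * 1 +
      ((1 + η) * (x / L) * (2 / U) + 2 * x / l * Real.exp (-(U / 2))) * C := by
    calc VV z * ((N1 x z).card : ℝ) ≤ VV z * ((1 + η) * (x / L) * A +
          ((1 + η) * (x / L) * (2 / U) + 2 * x / l * Real.exp (-(U / 2))) * R) :=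
          mul_le_mul_of_nonneg_left hsum2 hV0
      _ = (1 + η) * (x / L) * (VV z * A) +
          ((1 + η) * (x / L) * (2 / U) + 2 * x / l * Real.exp (-(U / 2))) * (VV z * R) := by ring
      _ ≤ _ := add_le_add (mul_le_mul_of_nonneg_left hA hc1) (mul_le_mul_of_nonneg_left hR hc2)
  refine h22.trans ?_
  have h23 : (2 : ℝ) * x / l = 2 * U * (x / L) := by
    rw [hUl]; field_simp
  rw [h23]
  have hexp2 : U * Real.exp (-(U / 2)) ≤ 8 / U := by
    have h24 : (U / 2) ^ 2 / 2 ≤ Real.exp (U / 2) := by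
      have := Real.quadratic_le_exp_of_nonneg (show 0 ≤ U / 2 by linarith)
      linarith [show 0 ≤ U / 2 by linarith]
    rw [Real.exp_neg, ← div_eq_mul_inv, div_le_div_iff₀ (Real.exp_pos _) hU0]
    nlinarith
  have hCU : C / U ≤ ε / 64 := by
    rw [div_le_div_iff₀ hU0 (by norm_num)]
    have h25 : 64 * C / ε ≤ U := by linarith
    rw [div_le_iff₀ hε] at h25
    linarith
  have hxL : 0 ≤ (x : ℝ) / L := by positivity
  have h26 : (1 + η) * (2 / U) * C + 2 * (U * Real.exp (-(U / 2))) * C ≤ 3 * ε / 4 := by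
    have h27 : (1 + η) * (2 / U) * C ≤ 4 * (C / U) := by
      have : (1 + η) * (2 / U) * C = (1 + η) * 2 * (C / U) := by ring
      rw [this]
      have h28 : 0 ≤ C / U := by positivity
      nlinarith
    have h29 : 2 * (U * Real.exp (-(U / 2))) * C ≤ 16 * (C / U) := by
      calc 2 * (U * Real.exp (-(U / 2))) * C ≤ 2 * (8 / U) * C := by
            refine mul_le_mul_of_nonneg_right (mul_le_mul_of_nonneg_left hexp2 (by norm_num)) hC0.le
        _ = 16 * (C / U) := by ring
    linarith
  calc (1 + η) * (x / L) * 1 + ((1 + η) * (x / L) * (2 / U) +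
        2 * U * (x / L) * Real.exp (-(U / 2))) * C
      = (x / L) * ((1 + η) + ((1 + η) * (2 / U) * C + 2 * (U * Real.exp (-(U / 2))) * C)) := by ring
    _ ≤ (x / L) * (1 + ε) := mul_le_mul_of_nonneg_left (by linarith) hxL
    _ = (1 + ε) * (x / L) := by ring

end Pool.Agent.TFC
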