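import Pool.Agent.TFC.ZPRB
import Pool.Agent.helper32.TPC.Count

set_option autoImplicit false

namespace Pool.Agent.TFC

open Finset Filter

theorem dema_log : Tendsto (fun x : ℕ => Real.log x) atTop atTop :=
  Real.tendsto_log_atTop.comp tendsto_natCast_atTop_atTop

theorem dema_zz : Tendsto zz atTop atTop := by
  have h : Tendsto (fun x : ℕ => ((zz x : ℕ) : ℝ)) atTop atTop := by
    refine tendsto_atTop_mono' atTop ?_ dema_log
    filter_upwards [zz_size, dema_log.eventually_ge_atTop 1] with x hx hL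
    exact (le_self_pow₀ hL (by norm_num)).trans hx.1
  exact tendsto_natCast_atTop_iff.1 h

theorem dema_sum : Tendsto (fun z : ℕ => ∑ q ∈ pz z, 1 / (q : ℝ)) atTop atTop := by
  have h0 : ∀ n : ℕ, 0 ≤ Set.indicator {p : ℕ | p.Prime} (fun n : ℕ => (1 : ℝ) / n) n := by
    intro n
    exact Set.indicator_nonneg (fun _ _ => by positivity) _
  have h1 := (not_summable_iff_tendsto_nat_atTop_of_nonneg h0).1 not_summable_one_div_on_primes
  have h2 : Tendsto (fun z : ℕ => z + 1) atTop atTop := tendsto_add_atTop_nat 1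
  have h3 := h1.comp h2
  refine h3.congr ?_
  intro z
  simp only [Function.comp, pz, Finset.sum_filter, Set.indicator_apply, Set.mem_ofPred_eq]

theorem dema_VV (z : ℕ) : VV z ≤ Real.exp (-∑ q ∈ pz z, 1 / (q : ℝ)) := by
  unfold VV
  rw [← Finset.sum_neg_distrib, Real.exp_sum]
  refine Finset.prod_le_prod ?_ ?_
  · intro q hq
    have hp : q.Prime := (Finset.mem_filter.1 hq).2
    have : (1 : ℝ) ≤ q := by exact_mod_cast hp.one_lt.le
    rw [sub_nonneg, div_le_one (by linarith)]
    exact this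
  · intro q hq
    have := Real.add_one_le_exp (-(1 / (q : ℝ)))
    linarith

theorem dema_fac : Tendsto (fun x : ℕ => VV (zz x) * (1 + 2 * ∑ q ∈ pz (zz x), 1 / (q : ℝ))) atTop
    (nhds 0) := by
  have hs : Tendsto (fun x : ℕ => ∑ q ∈ pz (zz x), 1 / (q : ℝ)) atTop atTop := dema_sum.comp dema_zz
  have h1 : Tendsto (fun s : ℝ => s ^ 0 * Real.exp (-s) + 2 * (s ^ 1 * Real.exp (-s))) atTop
      (nhds (0 + 2 * 0)) :=
    (Real.tendsto_pow_mul_exp_neg_atTop_nhds_zero 0).add
      ((Real.tendsto_pow_mul_exp_neg_atTop_nhds_zero 1).const_mul 2)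
  have h2 := h1.comp hs
  simp only [mul_zero, add_zero] at h2
  refine squeeze_zero ?_ ?_ h2
  · intro x
    have h0 : 0 ≤ VV (zz x) := by
      unfold VV
      refine Finset.prod_nonneg ?_
      intro q hq
      have hp : q.Prime := (Finset.mem_filter.1 hq).2
      have : (1 : ℝ) ≤ q := by exact_mod_cast hp.one_lt.le
      rw [sub_nonneg, div_le_one (by linarith)]
      exact this
    have h3 : 0 ≤ ∑ q ∈ pz (zz x), 1 / (q : ℝ) := Finset.sum_nonneg (fun _ _ => by positivity)
    positivity
  · intro x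
    have h3 : 0 ≤ ∑ q ∈ pz (zz x), 1 / (q : ℝ) := Finset.sum_nonneg (fun _ _ => by positivity)
    have h4 := mul_le_mul_of_nonneg_right (dema_VV (zz x))
      (by positivity : 0 ≤ 1 + 2 * ∑ q ∈ pz (zz x), 1 / (q : ℝ))
    refine h4.trans (le_of_eq ?_)
    simp only [Function.comp]
    ring

theorem dema_w : ∀ᶠ x : ℕ in atTop, zz x ≤
    ⌊Real.exp (Real.log x * Real.log (Real.log (Real.log x)) / (32 * Real.log (Real.log x)))⌋₊ := by
  have hLL : Tendsto (fun x : ℕ => Real.log (Real.log x)) atTop atTop :=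
    Real.tendsto_log_atTop.comp dema_log
  have hLLL : Tendsto (fun x : ℕ => Real.log (Real.log (Real.log x))) atTop atTop :=
    Real.tendsto_log_atTop.comp hLL
  filter_upwards [dema_log.eventually_ge_atTop 1, hLL.eventually_ge_atTop 1,
    hLLL.eventually_ge_atTop 32] with x h1 h2 h3
  unfold zz
  refine Nat.floor_mono (Real.exp_le_exp.2 ?_)
  rw [div_le_div_iff₀ (by linarith) (by linarith)]
  nlinarith [mul_nonneg (mul_nonneg (by linarith : 0 ≤ Real.log x) (by linarith : 0 ≤ Real.log (Real.log x)))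
    (by linarith : 0 ≤ Real.log (Real.log (Real.log x)) - 32)]

theorem dema_pi : ∀ᶠ x : ℕ in atTop, (Nat.primeCounting x : ℝ) ≤ 2 * (x / Real.log x) := by
  have h := Pool.Agent.PNT.tendsto_primeCounting.comp (tendsto_natCast_atTop_atTop (R := ℝ))
  filter_upwards [h.eventually_le_const (by norm_num : (1 : ℝ) < 2),
    dema_log.eventually_ge_atTop 1, eventually_ge_atTop 1] with x hx hL h1
  simp only [Function.comp, Nat.floor_natCast] at hx
  have hx0 : (0 : ℝ) < x := by exact_mod_cast h1
  rw [div_le_iff₀ hx0] at hx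
  rw [← mul_div_assoc, le_div_iff₀ (by linarith)]
  exact hx

open scoped Classical in
theorem dema_split (x z w K : ℕ) (hzw : z ≤ w) :
    (N2 x z K).card ≤ ((Finset.Ico 1 x).filter (fun n => ∀ p : ℕ, p.Prime → p ∣ n → p ≤ w)).card + 1
      + K * Nat.primeCounting x := by
  have hsub : N2 x z K ⊆ ((Finset.Ico 1 x).filter (fun n => ∀ p : ℕ, p.Prime → p ∣ n → p ≤ w)) ∪ {x} ∪
      ((Finset.range K ×ˢ ((Finset.range (x + 1)).filter Nat.Prime)).image (fun a => a.1 * a.2)) := by
    intro n hn
    simp only [N2, Finset.mem_filter, Finset.mem_Icc] at hn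
    obtain ⟨⟨hn1, hnx⟩, hq⟩ := hn
    rw [Finset.mem_union, Finset.mem_union]
    by_cases hall : ∀ q : ℕ, q.Prime → q ∣ n → q ≤ z
    · left
      by_cases hnx' : n = x
      · right; simp [hnx']
      · left
        rw [Finset.mem_filter, Finset.mem_Ico]
        exact ⟨⟨hn1, by omega⟩, fun p hp hpn => (hall p hp hpn).trans hzw⟩
    · right
      push Not at hall
      obtain ⟨q, hqp, hqn, hzq⟩ := hall
      have hK : x < K * q := by
        rcases hq q hqp hqn with h | h
        · omega
        · exact h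
      obtain ⟨m, hm⟩ := hqn
      rw [Finset.mem_image]
      refine ⟨(m, q), ?_, ?_⟩
      · rw [Finset.mem_product, Finset.mem_range, Finset.mem_filter, Finset.mem_range]
        refine ⟨?_, ?_, hqp⟩
        · have h1 : q * m < K * q := by omega
          rw [mul_comm K q] at h1
          exact lt_of_mul_lt_mul_left h1 (Nat.zero_le _)
        · have : q ≤ n := Nat.le_of_dvd hn1 ⟨m, hm⟩
          show q < x + 1
          omega
      · simp only
        rw [hm, mul_comm]
  refine (Finset.card_le_card hsub).trans ?_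
  refine (Finset.card_union_le _ _).trans ?_
  refine add_le_add ?_ ?_
  · refine (Finset.card_union_le _ _).trans ?_
    simp
  · refine Finset.card_image_le.trans ?_
    rw [Finset.card_product, Finset.card_range, Nat.primeCounting, Nat.primeCounting',
      Nat.count_eq_card_filter_range]

open scoped Classical in
theorem dema_N2 (K : ℕ) : ∀ᶠ x : ℕ in atTop,
    ((N2 x (zz x) K).card : ℝ) ≤ (2 + 2 * K) * (x / Real.log x) := by
  obtain ⟨T, hT⟩ := Pool.Agent.Helper32.TPC.smooth_count
  have hLL : Tendsto (fun x : ℕ => Real.log (Real.log x)) atTop atTop :=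
    Real.tendsto_log_atTop.comp dema_log
  filter_upwards [dema_w, dema_pi, hLL.eventually_ge_atTop T, dema_log.eventually_ge_atTop 1,
    eventually_ge_atTop 1] with x hw hpi hTx hL hx1
  have h1 := dema_split x (zz x) _ K hw
  have h2 := hT x hTx _ rfl
  have hx0 : (1 : ℝ) ≤ x := by exact_mod_cast hx1
  have h3 : (x : ℝ) / (Real.log x) ^ 2 ≤ x / Real.log x := by
    refine div_le_div_of_nonneg_left (by linarith) (by linarith) ?_
    exact le_self_pow₀ hL (by norm_num)
  have h4 : (1 : ℝ) ≤ x / Real.log x := by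
    rw [one_le_div (by linarith)]
    exact (Real.log_le_sub_one_of_pos (by linarith)).trans (by linarith)
  have h5 : ((N2 x (zz x) K).card : ℝ) ≤
      (((Finset.Ico 1 x).filter (fun n => ∀ p : ℕ, p.Prime → p ∣ n → p ≤
        ⌊Real.exp (Real.log x * Real.log (Real.log (Real.log x)) / (32 * Real.log (Real.log x)))⌋₊)).card : ℝ) + 1
        + K * (Nat.primeCounting x : ℝ) := by exact_mod_cast h1
  have h6 : (K : ℝ) * (Nat.primeCounting x : ℝ) ≤ K * (2 * (x / Real.log x)) :=
    mul_le_mul_of_nonneg_left hpi (by positivity)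
  linarith

/-- DEM2 (a). Integers without middle prime factor: either `z`-smooth
(`≤ x/(log x)^2` by `Pool.Agent.Helper32.TPC.smooth_count`, whose `w` is `≥ z` for large `x`), or `n = m p` with
`p > x/K` prime, `m < K`: at most `K π(x) ≤ 2 K x/log x` (`Pool.Agent.PNT.tendsto_primeCounting`).
The factor in front is `≤ C (loglog x)²/log x`. -/
theorem demand_two (ε : ℝ) (hε : 0 < ε) (K : ℕ) (hK : 1 ≤ K) : ∀ᶠ x : ℕ in atTop,
    VV (zz x) * (1 + 2 * ∑ q ∈ pz (zz x), 1 / (q : ℝ)) * ((N2 x (zz x) K).card : ℝ) ≤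
      ε * (x / Real.log x) := by
  have hpos : (0 : ℝ) < ε / (2 + 2 * K) := by positivity
  filter_upwards [dema_fac.eventually_le_const hpos, dema_N2 K, dema_log.eventually_ge_atTop 1]
    with x h1 h2 hL
  have h3 : (0 : ℝ) ≤ x / Real.log x := by positivity
  calc VV (zz x) * (1 + 2 * ∑ q ∈ pz (zz x), 1 / (q : ℝ)) * ((N2 x (zz x) K).card : ℝ)
      ≤ ε / (2 + 2 * K) * ((N2 x (zz x) K).card : ℝ) := mul_le_mul_of_nonneg_right h1 (by positivity)
    _ ≤ ε / (2 + 2 * K) * ((2 + 2 * K) * (x / Real.log x)) := mul_le_mul_of_nonneg_left h2 hpos.le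
    _ = ε * (x / Real.log x) := by field_simp

end Pool.Agent.TFC
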