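import Pool.Agent.TFC.ZPRA

set_option autoImplicit false

namespace Pool.Agent.TFC

open Finset Filter

theorem demb_count (x z : ℕ) (hz : 1 ≤ z) (hzx : z ≤ x) : ((N3 x z).card : ℝ) ≤ x / z := by
  classical
  have hsub : N3 x z ⊆ (Finset.Ioc z x).biUnion (fun p => (Finset.Ioc 0 x).filter (fun n => p ^ 2 ∣ n)) := by
    intro n hn
    simp only [N3, Finset.mem_filter, Finset.mem_Icc] at hn
    obtain ⟨⟨hn1, hnx⟩, p, hp, hzp, hpn⟩ := hn
    rw [Finset.mem_biUnion]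
    refine ⟨p, ?_, ?_⟩
    · rw [Finset.mem_Ioc]
      refine ⟨hzp, ?_⟩
      have : p * p ≤ n := Nat.le_of_dvd hn1 hpn
      have h2 : p ≤ p * p := Nat.le_mul_of_pos_left p hp.pos
      omega
    · rw [Finset.mem_filter, Finset.mem_Ioc]
      refine ⟨⟨hn1, hnx⟩, ?_⟩
      rwa [pow_two]
  have h1 : (N3 x z).card ≤ ∑ p ∈ Finset.Ioc z x, x / p ^ 2 := by
    refine (Finset.card_le_card hsub).trans (Finset.card_biUnion_le.trans ?_)
    refine Finset.sum_le_sum ?_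
    intro p hp
    rw [Nat.Ioc_filter_dvd_card_eq_div]
  have h2 : ((N3 x z).card : ℝ) ≤ ∑ p ∈ Finset.Ioc z x, ((x / p ^ 2 : ℕ) : ℝ) := by exact_mod_cast h1
  have h3 : ∑ p ∈ Finset.Ioc z x, ((x / p ^ 2 : ℕ) : ℝ) ≤ ∑ p ∈ Finset.Ioc z x, (x : ℝ) * ((p : ℝ) ^ 2)⁻¹ := by
    refine Finset.sum_le_sum ?_
    intro p hp
    have := @Nat.cast_div_le ℝ _ _ _ x (p ^ 2)
    rw [← div_eq_mul_inv]
    push_cast at this
    exact this
  rw [← Finset.mul_sum] at h3
  have h4 := sum_Ioc_inv_sq_le_sub (α := ℝ) (k := z) (n := x) (by omega) hzx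
  have h5 : (0 : ℝ) ≤ (x : ℝ)⁻¹ := by positivity
  calc ((N3 x z).card : ℝ) ≤ (x : ℝ) * ∑ p ∈ Finset.Ioc z x, ((p : ℝ) ^ 2)⁻¹ := h2.trans h3
    _ ≤ (x : ℝ) * (z : ℝ)⁻¹ := by
        refine mul_le_mul_of_nonneg_left ?_ (by positivity)
        linarith
    _ = x / z := by rw [div_eq_mul_inv]

/-- DEM2 (b). `≤ ∑_{p > z} x/p² ≤ x/z`. -/
theorem demand_three (ε : ℝ) (hε : 0 < ε) : ∀ᶠ x : ℕ in atTop,
    ((N3 x (zz x)).card : ℝ) ≤ ε * (x / Real.log x) := by
  have hlog : Tendsto (fun x : ℕ => Real.log x) atTop atTop :=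
    Real.tendsto_log_atTop.comp tendsto_natCast_atTop_atTop
  filter_upwards [zz_size, hlog.eventually_ge_atTop (max 1 (1 / ε))] with x hx hxL
  obtain ⟨h100, h8, hz⟩ := hx
  have hL1 : 1 ≤ Real.log x := (le_max_left _ _).trans hxL
  have hLe : 1 / ε ≤ Real.log x := (le_max_right _ _).trans hxL
  have hzx : zz x ≤ x := by
    have : zz x ≤ (zz x) ^ 8 := Nat.le_self_pow (by norm_num) _
    omega
  have hL0 : 0 < Real.log x := by linarith
  have hz0 : (0 : ℝ) < zz x := by exact_mod_cast (by omega : 0 < zz x)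
  refine (demb_count x (zz x) (by omega) hzx).trans ?_
  have h1 : Real.log x / ε ≤ zz x := by
    have h2 : Real.log x / ε ≤ (Real.log x) ^ 2 := by
      rw [pow_two, div_eq_mul_one_div]
      exact mul_le_mul_of_nonneg_left hLe hL0.le
    have h3 : (Real.log x) ^ 2 ≤ (Real.log x) ^ 100 := pow_le_pow_right₀ hL1 (by norm_num)
    linarith
  have hx0 : (0 : ℝ) ≤ x := by positivity
  have h4 : (x : ℝ) / zz x ≤ x / (Real.log x / ε) :=
    div_le_div_of_nonneg_left hx0 (by positivity) h1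
  have h5 : (x : ℝ) / (Real.log x / ε) = ε * (x / Real.log x) := by
    field_simp
  rw [← h5]; exact h4

end Pool.Agent.TFC
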