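import Pool.Agent.TFC.GAIN
import Pool.Agent.TFC.ASM
import Pool.Agent.TFC.DEM
import Pool.Agent.TFC.DEM2A
import Pool.Agent.TFC.DEM2B
import Pool.Agent.TFC.CAPA

set_option autoImplicit false

namespace Pool.Agent.TFC

open Finset Filter

theorem fin_Ex_exists_le {z : ℕ} (f : ({q : ℕ // q ∈ pz z} → ℕ) → ℝ) :
    ∃ ω ∈ OM z, f ω ≤ Ex z f := by
  have hc : (0 : ℝ) < (OM z).card := by exact_mod_cast gain_OM_pos z
  have hne : (OM z).Nonempty := Finset.card_pos.1 (gain_OM_pos z)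
  by_contra hcon
  push Not at hcon
  have h1 : ∑ ω ∈ OM z, Ex z f < ∑ ω ∈ OM z, f ω := Finset.sum_lt_sum_of_nonempty hne hcon
  rw [Finset.sum_const, nsmul_eq_mul] at h1
  have h2 : ((OM z).card : ℝ) * Ex z f = ∑ ω ∈ OM z, f ω := by
    unfold Ex; field_simp
  linarith

theorem fin_Ex_card {z : ℕ} (A : Finset ℕ) (P : ({q : ℕ // q ∈ pz z} → ℕ) → ℕ → Prop)
    [∀ ω, DecidablePred (P ω)] (c : ℝ)
    (h : ∀ n ∈ A, Ex z (fun ω => if P ω n then 1 else 0) ≤ c) :
    Ex z (fun ω => ((A.filter (P ω)).card : ℝ)) ≤ c * A.card := by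
  have hc : (0 : ℝ) < (OM z).card := by exact_mod_cast gain_OM_pos z
  have h1 : Ex z (fun ω => ((A.filter (P ω)).card : ℝ)) =
      ∑ n ∈ A, Ex z (fun ω => if P ω n then (1 : ℝ) else 0) := by
    unfold Ex
    rw [← Finset.sum_div, Finset.sum_comm]
    congr 1
    apply Finset.sum_congr rfl
    intro ω _
    simp only [Finset.card_filter]
    push_cast
    rfl
  rw [h1]
  calc ∑ n ∈ A, Ex z (fun ω => if P ω n then (1 : ℝ) else 0) ≤ ∑ n ∈ A, c := Finset.sum_le_sum h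
    _ = c * A.card := by rw [Finset.sum_const, nsmul_eq_mul, mul_comm]

/-- elements of `SS` have exactly one prime factor `> z` -/
theorem fin_SS {x n : ℕ} (hz : (zz x) ^ 2 ≤ x) (ω : {q : ℕ // q ∈ pz (zz x)} → ℕ) (hn : n ∈ SS x ω) :
    n ∈ (N1 x (zz x)).filter (fun n => sc (zz x) ω n = 0) := by
  classical
  unfold SS at hn
  rw [Finset.mem_filter, Finset.mem_Icc] at hn
  obtain ⟨⟨h1, h2⟩, ⟨p, hp, hpn⟩, h3⟩ := hn
  unfold DD at hp
  rw [Finset.mem_filter, Finset.mem_Icc] at hp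
  obtain ⟨⟨hp1, hp2⟩, hpp, hpz, -⟩ := hp
  obtain ⟨m, rfl⟩ := hpn
  rw [Finset.mem_filter]
  refine ⟨?_, h3⟩
  unfold N1
  rw [Finset.mem_filter, Finset.mem_Icc]
  refine ⟨⟨h1, h2⟩, p, m, Nat.mul_comm p m, hpp, ?_, ?_⟩
  · by_contra hcon
    push Not at hcon
    have : zz x * p ≤ zz x * zz x := Nat.mul_le_mul_left _ hcon
    have h4 : zz x * zz x ≤ x := by rw [← pow_two]; exact hz
    omega
  · intro q hq hqm
    have hm0 : 0 < m := by
      rcases Nat.eq_zero_or_pos m with h | h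
      · subst h; simp at h1
      · exact h
    have hqm' : q ≤ m := Nat.le_of_dvd hm0 hqm
    have hmz : m < zz x := by
      have h5 : p * m < p * zz x := by
        rw [Nat.mul_comm p (zz x)]
        omega
      exact Nat.lt_of_mul_lt_mul_left h5
    omega

/-- FIN. -/
theorem two_fold : ∃ δ : ℝ, 0 < δ ∧ ∃ X : ℕ, ∀ x : ℕ, X ≤ x → ∃ a : ℕ → ℕ, ∀ n : ℕ, 1 ≤ n → n ≤ x →
    2 ≤ ((pz ⌊(1 - δ) * x⌋₊).filter (fun p => n ≡ a p [MOD p])).card := by
  obtain ⟨c0, hc0, hgain⟩ := gain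
  set c : ℝ := min c0 1 with hc
  have hcpos : 0 < c := lt_min hc0 one_pos
  have hc1 : c ≤ 1 := min_le_right _ _
  have hcc0 : c ≤ c0 := min_le_left _ _
  set ε : ℝ := c / 40 with hε
  set δ : ℝ := c / 8 with hδ
  have hε0 : 0 < ε := by positivity
  have hδ0 : 0 < δ := by positivity
  have hδ1 : δ < 1 := by rw [hδ]; linarith
  obtain ⟨K, hK⟩ := exists_nat_ge (16 / c)
  have hK16 : (16 : ℝ) ≤ K := by
    refine le_trans ?_ hK
    rw [le_div_iff₀ hcpos]
    linarith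
  have hK16' : 16 ≤ K := by exact_mod_cast hK16
  have hK1 : 1 ≤ K := by omega
  have hKc : 1 / (K : ℝ) ≤ c / 16 := by
    rw [div_le_div_iff₀ (by linarith) (by norm_num), one_mul]
    rw [div_le_iff₀ hcpos] at hK
    linarith
  have hlog : Tendsto (fun x : ℕ => Real.log x) atTop atTop :=
    Real.tendsto_log_atTop.comp tendsto_natCast_atTop_atTop
  have hev : ∀ᶠ x : ℕ in atTop, ∃ a : ℕ → ℕ, ∀ n : ℕ, 1 ≤ n → n ≤ x →
      2 ≤ ((pz ⌊(1 - δ) * x⌋₊).filter (fun p => n ≡ a p [MOD p])).card := by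
    filter_upwards [hgain, demand_one ε hε0, demand_two ε hε0 K hK1, demand_three ε hε0,
      capacity ε δ hε0 hδ0 hδ1 K hK1, zz_size, hlog.eventually_ge_atTop (max 1 K),
      Filter.eventually_ge_atTop (max 16 (K ^ 2))] with x hG hN1 hN2 hN3 hcap hz hlogx hx
    have hx16 : 16 ≤ x := le_trans (le_max_left _ _) hx
    have hxK : K ^ 2 ≤ x := le_trans (le_max_right _ _) hx
    have hx0 : (0 : ℝ) < x := by exact_mod_cast (by omega : 0 < x)
    have hN1' : (1 : ℝ) ≤ Real.log x := le_trans (le_max_left _ _) hlogx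
    have hNK : (K : ℝ) ≤ Real.log x := le_trans (le_max_right _ _) hlogx
    have hN0 : 0 < Real.log x := by linarith
    set X : ℝ := x / Real.log x with hX
    have hX0 : 0 < X := by positivity
    obtain ⟨G, hG1, hG2⟩ := hG
    -- sizes
    have hKz : K ≤ (zz x) := by
      have h1 : (K : ℝ) ≤ (zz x) := by
        calc (K : ℝ) ≤ Real.log x := hNK
          _ ≤ Real.log x ^ 100 := le_self_pow₀ hN1' (by norm_num)
          _ ≤ (zz x) := hz.1
      exact_mod_cast h1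
    have hz1 : 1 ≤ (zz x) := by omega
    have hz2 : (zz x) ^ 2 ≤ x := le_trans (Nat.pow_le_pow_right hz1 (by norm_num)) hz.2.1
    have hKzx : K * (zz x) ≤ x := by
      calc K * (zz x) ≤ (zz x) * (zz x) := Nat.mul_le_mul_right _ hKz
        _ = (zz x) ^ 2 := (pow_two (zz x)).symm
        _ ≤ x := hz2
    set Y := ⌊(1 - δ) * (x : ℝ)⌋₊ with hYdef
    have hY0 : 0 ≤ (1 - δ) * (x : ℝ) := by
      apply mul_nonneg <;> linarith
    have hYle : (Y : ℝ) ≤ (1 - δ) * x := Nat.floor_le hY0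
    have hYge : (1 - δ) * x - 1 < Y := by
      have := Nat.lt_floor_add_one ((1 - δ) * (x : ℝ))
      linarith
    have hYx : Y ≤ x := by
      have : (Y : ℝ) ≤ x := hYle.trans (by nlinarith)
      exact_mod_cast this
    have hxKY : x ≤ K * Y := by
      have hx16r : (16 : ℝ) ≤ x := by exact_mod_cast hx16
      have h1 : (x : ℝ) / 4 ≤ Y := by nlinarith
      have h2 : (x : ℝ) ≤ K * Y := by nlinarith
      exact_mod_cast h2
    -- the expectation
    set D1 : ({q : ℕ // q ∈ pz (zz x)} → ℕ) → Finset ℕ :=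
      fun ω => (N1 x (zz x)).filter (fun n => sc (zz x) ω n = 0) with hD1
    set D2 : ({q : ℕ // q ∈ pz (zz x)} → ℕ) → Finset ℕ :=
      fun ω => (N2 x (zz x) K).filter (fun n => sc (zz x) ω n ≤ 1) with hD2
    have hE1 : Ex (zz x) (fun ω => ((D1 ω).card : ℝ)) ≤ VV (zz x) * (N1 x (zz x)).card :=
      fin_Ex_card (N1 x (zz x)) (fun ω n => sc (zz x) ω n = 0) (VV (zz x)) (fun n _ => (surv_one (zz x) n).le)
    have hE2 : Ex (zz x) (fun ω => ((D2 ω).card : ℝ)) ≤
        VV (zz x) * (1 + 2 * ∑ q ∈ pz (zz x), 1 / (q : ℝ)) * (N2 x (zz x) K).card :=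
      fin_Ex_card (N2 x (zz x) K) (fun ω n => sc (zz x) ω n ≤ 1) _ (fun n _ => surv_le_one (zz x) n)
    obtain ⟨ω, hω, hωle⟩ := fin_Ex_exists_le (z := zz x)
      (fun ω => ((D1 ω).card : ℝ) + (2 * ((D2 ω).card : ℝ) + (((N3 x (zz x)).card : ℝ) +
        (-1) * ((G ω).card : ℝ))))
    rw [gain_Ex_add, gain_Ex_add, gain_Ex_add, gain_Ex_mul, gain_Ex_mul, Ex_const] at hωle
    have hfin : ((D1 ω).card : ℝ) + 2 * ((D2 ω).card : ℝ) + ((N3 x (zz x)).card : ℝ) ≤
        (((Finset.Icc 1 Y).filter (fun p => p.Prime ∧ x < K * p)).card : ℝ) + ((G ω).card : ℝ) := by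
      have h1 : (1 + ε) * X + 2 * (ε * X) + ε * X - c * X ≤ (1 - δ - 1 / K - ε) * X := by
        have : (1 + ε) * X + 2 * (ε * X) + ε * X - c * X = (1 + 4 * ε - c) * X := by ring
        rw [this]
        apply mul_le_mul_of_nonneg_right _ hX0.le
        rw [hε, hδ]
        linarith
      have h2 : c * X ≤ c0 * X := mul_le_mul_of_nonneg_right hcc0 hX0.le
      linarith
    refine assemble x (zz x) K Y hK1 hKz hKzx hxKY hYx ω (G ω) (hG1 ω).2 ?_ ?_
    · intro e he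
      have he2 := (hG1 ω).1 he
      unfold EG at he2
      rw [Finset.mem_filter, Finset.mem_product] at he2
      obtain ⟨⟨hp, -⟩, h3, h4⟩ := he2
      unfold PP at hp
      rw [Finset.mem_filter, Finset.mem_Icc] at hp
      obtain ⟨-, hpp, hp16, hp4⟩ := hp
      refine ⟨hpp, lt_of_lt_of_le hp16 (Nat.mul_le_mul_right _ hK16'), ?_,
        fin_SS hz2 ω h3, fin_SS hz2 ω h4⟩
      rw [hYdef]
      apply Nat.le_floor
      have h5 : (4 : ℝ) * e.1 ≤ x := by exact_mod_cast hp4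
      nlinarith
    · have h6 : (((D1 ω).card + 2 * (D2 ω).card + (N3 x (zz x)).card : ℕ) : ℝ) ≤
          ((((Finset.Icc 1 Y).filter (fun p => p.Prime ∧ x < K * p)).card + (G ω).card : ℕ) : ℝ) := by
        push_cast
        exact hfin
      exact_mod_cast h6
  obtain ⟨X, hX⟩ := Filter.eventually_atTop.1 hev
  exact ⟨δ, hδ0, X, hX⟩

end Pool.Agent.TFC
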