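import Pool.Agent.TFC.Defs

set_option autoImplicit false

namespace Pool.Agent.TFC

open Finset

theorem blk_dz (y lo hi : ℝ) (k : ℤ) (h1 : k + lo ≤ y) (h2 : y ≤ k + 1 - hi) :
    min lo hi ≤ dz y := by
  unfold dz
  rcases le_or_gt (round y) k with h | h
  · have h3 : (round y : ℝ) ≤ k := by exact_mod_cast h
    refine (min_le_left _ _).trans ?_
    refine le_trans ?_ (le_abs_self _)
    linarith
  · have h3 : (k : ℝ) + 1 ≤ (round y : ℝ) := by exact_mod_cast h
    refine (min_le_right _ _).trans ?_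
    refine le_trans ?_ (neg_le_abs _)
    linarith

/-- the residue -/
noncomputable def blkv (q : ℕ) (a C : ℤ) (r : ℕ) : ℕ := ((C + a * r) % q).toNat

theorem blk_v (q : ℕ) (hq : 1 ≤ q) (a C : ℤ) (r : ℕ) :
    ((blkv q a C r : ℕ) : ℤ) = (C + a * r) % q ∧ blkv q a C r < q := by
  have hq' : (0 : ℤ) < q := by exact_mod_cast hq
  have h1 := Int.emod_nonneg (C + a * r) hq'.ne'
  have h2 := Int.emod_lt_of_pos (C + a * r) hq'
  have h3 : ((blkv q a C r : ℕ) : ℤ) = (C + a * r) % q := Int.toNat_of_nonneg h1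
  refine ⟨h3, ?_⟩
  have : ((blkv q a C r : ℕ) : ℤ) < q := by rw [h3]; exact h2
  exact_mod_cast this

theorem blk_inj (q : ℕ) (hq : 1 ≤ q) (a C : ℤ) (hc : IsCoprime a (q : ℤ)) :
    Set.InjOn (blkv q a C) (Finset.range q : Set ℕ) := by
  intro r hr r' hr' h
  have hr1 : r < q := Finset.mem_range.1 (Finset.mem_coe.1 hr)
  have hr2 : r' < q := Finset.mem_range.1 (Finset.mem_coe.1 hr')
  have h1 := (blk_v q hq a C r).1
  have h2 := (blk_v q hq a C r').1
  have h3 : (C + a * r) % q = (C + a * r') % q := by rw [← h1, ← h2, h]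
  have h4 : (q : ℤ) ∣ (C + a * r') - (C + a * r) := Int.ModEq.dvd h3
  have h5 : (q : ℤ) ∣ a * ((r' : ℤ) - r) := by
    have : (C + a * r') - (C + a * r) = a * ((r' : ℤ) - r) := by ring
    rwa [this] at h4
  have h6 : (q : ℤ) ∣ (r' : ℤ) - r := hc.symm.dvd_of_dvd_mul_left h5
  have h7 : (r' : ℤ) - r = 0 := by
    apply Int.eq_zero_of_abs_lt_dvd h6
    rw [abs_lt]
    constructor <;> omega
  omega

/-- the majorant -/
noncomputable def blkG (q : ℕ) (X : ℝ) (v : ℕ) : ℝ :=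
  (if v < 2 ∨ q < v + 3 then X else 0) +
    (q : ℝ) / 2 * (3 * ((v : ℝ) + 1)⁻¹ + 3 * ((q : ℝ) - v)⁻¹)

theorem blk_G_nonneg (q : ℕ) (X : ℝ) (hX : 0 ≤ X) (v : ℕ) (hv : v < q) : 0 ≤ blkG q X v := by
  unfold blkG
  have h1 : (v : ℝ) < q := by exact_mod_cast hv
  have h2 : 0 < (q : ℝ) - v := by linarith
  have h3 : (0 : ℝ) ≤ if v < 2 ∨ q < v + 3 then X else 0 := by
    split_ifs <;> linarith
  positivity

theorem blk_harm (q : ℕ) : ∑ v ∈ Finset.range q, ((v : ℝ) + 1)⁻¹ ≤ 1 + Real.log q := by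
  have h := harmonic_le_one_add_log q
  unfold harmonic at h
  push_cast at h
  exact h

theorem blk_harm' (q : ℕ) : ∑ v ∈ Finset.range q, ((q : ℝ) - v)⁻¹ ≤ 1 + Real.log q := by
  have h : ∑ v ∈ Finset.range q, ((q : ℝ) - v)⁻¹ = ∑ v ∈ Finset.range q, ((v : ℝ) + 1)⁻¹ := by
    rw [← Finset.sum_range_reflect]
    apply Finset.sum_congr rfl
    intro v hv
    have hv' : v < q := Finset.mem_range.1 hv
    congr 1
    have : ((q - 1 - v : ℕ) : ℝ) = (q : ℝ) - 1 - v := by
      rw [Nat.sub_sub, Nat.cast_sub (by omega)]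
      push_cast
      ring
    rw [this]
    ring
  rw [h]
  exact blk_harm q

theorem blk_card (q : ℕ) :
    ((Finset.range q).filter (fun v => v < 2 ∨ q < v + 3)).card ≤ 4 := by
  have h : (Finset.range q).filter (fun v => v < 2 ∨ q < v + 3) ⊆ {0, 1, q - 2, q - 1} := by
    intro v hv
    rw [Finset.mem_filter, Finset.mem_range] at hv
    simp only [Finset.mem_insert, Finset.mem_singleton]
    omega
  exact (Finset.card_le_card h).trans Finset.card_le_four

theorem blk_sum_G (q : ℕ) (hq : 1 ≤ q) (X : ℝ) (hX : 0 ≤ X) :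
    ∑ v ∈ Finset.range q, blkG q X v ≤ 8 * X + 8 * q * (1 + Real.log q) := by
  unfold blkG
  rw [Finset.sum_add_distrib, ← Finset.mul_sum, Finset.sum_add_distrib, ← Finset.mul_sum,
    ← Finset.mul_sum, ← Finset.sum_filter, Finset.sum_const, nsmul_eq_mul]
  have h1 := blk_harm q
  have h2 := blk_harm' q
  have h3 : (((Finset.range q).filter (fun v => v < 2 ∨ q < v + 3)).card : ℝ) ≤ 4 := by
    exact_mod_cast blk_card q
  have h4 : (((Finset.range q).filter (fun v => v < 2 ∨ q < v + 3)).card : ℝ) * X ≤ 4 * X :=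
    mul_le_mul_of_nonneg_right h3 hX
  have hq' : (1 : ℝ) ≤ q := by exact_mod_cast hq
  have h5 : 0 ≤ Real.log q := Real.log_nonneg hq'
  have h6 : (q : ℝ) / 2 * (3 * ∑ v ∈ Finset.range q, ((v : ℝ) + 1)⁻¹ +
      3 * ∑ v ∈ Finset.range q, ((q : ℝ) - v)⁻¹) ≤
      (q : ℝ) / 2 * (3 * (1 + Real.log q) + 3 * (1 + Real.log q)) := by
    apply mul_le_mul_of_nonneg_left _ (by positivity)
    linarith
  have h7 : 0 ≤ (q : ℝ) * (1 + Real.log q) := by positivity
  nlinarith

/-- BLK. Sum over a block of `q` consecutive integers, `|α - a/q| ≤ 1/q²`, `(a,q) = 1`.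
Proof: put `c = α s`, `C0 = ⌊c q⌋`, `γ = c q - C0 ∈ [0,1)`, `v r = (a r + C0) mod q`: a bijection of
`range q` (a is a unit mod q). Then `α (s+r) = (v r + γ)/q + (integer) + θ`, `|θ| = |α - a/q| r ≤ 1/q`.
For `2 ≤ v ≤ q-3`: `dz ≥ min ((v-1)/q) ((q-v-2)/q)`, so `Φ ≤ (q/2) (1/(v-1) + 1/(q-v-2))`, sum
`≤ q (1 + log q)`. For the at most four other values of `v` use `Φ ≤ X`. -/
theorem block_bound (α : ℝ) (a : ℤ) (q : ℕ) (hq : 1 ≤ q) (hc : IsCoprime a (q : ℤ))
    (h : |α - (a : ℝ) / q| ≤ 1 / (q : ℝ) ^ 2) (X : ℝ) (hX : 0 ≤ X) (s : ℤ) (Φ : ℤ → ℝ)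
    (h0 : ∀ r : ℕ, r < q → 0 ≤ Φ (s + r)) (h1 : ∀ r : ℕ, r < q → Φ (s + r) ≤ X)
    (h2 : ∀ r : ℕ, r < q → Φ (s + r) * (2 * dz (α * ((s + r : ℤ) : ℝ))) ≤ 1) :
    ∑ r ∈ Finset.range q, Φ (s + r) ≤ 8 * X + 8 * q * (1 + Real.log q) := by
  have hqR : (0 : ℝ) < q := by exact_mod_cast hq
  obtain ⟨C, hC⟩ : ∃ C : ℤ, C = ⌊α * s * q⌋ := ⟨_, rfl⟩
  have hC1 : (C : ℝ) ≤ α * s * q := by rw [hC]; exact Int.floor_le _
  have hC2 : α * s * q < C + 1 := by rw [hC]; exact Int.lt_floor_add_one _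
  have key : ∀ r : ℕ, r < q → Φ (s + r) ≤ blkG q X (blkv q a C r) := by
    intro r hr
    obtain ⟨hv1, hv2⟩ := blk_v q hq a C r
    obtain ⟨v, hv⟩ : ∃ v, v = blkv q a C r := ⟨_, rfl⟩
    rw [← hv] at hv1 hv2 ⊢
    have hvq : (v : ℝ) < q := by exact_mod_cast hv2
    have hnn : 0 ≤ (q : ℝ) / 2 * (3 * ((v : ℝ) + 1)⁻¹ + 3 * ((q : ℝ) - v)⁻¹) := by
      have : 0 < (q : ℝ) - v := by linarith
      positivity
    unfold blkG
    by_cases hex : v < 2 ∨ q < v + 3
    · rw [if_pos hex]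
      have := h1 r hr
      linarith
    · rw [if_neg hex, zero_add]
      push Not at hex
      obtain ⟨hv2', hv3⟩ := hex
      obtain ⟨k, hk⟩ : ∃ k : ℤ, k = (C + a * r) / q := ⟨_, rfl⟩
      have hdiv : (C + a * r : ℤ) = q * k + v := by
        rw [hv1, hk]
        exact (Int.mul_ediv_add_emod _ _).symm
      have hdivR : (C : ℝ) + a * r = q * k + v := by exact_mod_cast hdiv
      obtain ⟨δ, hδ⟩ : ∃ δ, δ = α - (a : ℝ) / q := ⟨_, rfl⟩
      rw [← hδ] at h
      have hrq : (r : ℝ) ≤ q := by exact_mod_cast hr.le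
      have hδr : |δ * r| ≤ 1 / q := by
        rw [abs_mul, abs_of_nonneg (Nat.cast_nonneg r : (0 : ℝ) ≤ (r : ℝ))]
        calc |δ| * r ≤ 1 / (q : ℝ) ^ 2 * q :=
              mul_le_mul h hrq (Nat.cast_nonneg r) (by positivity)
          _ = 1 / q := by
              field_simp
      obtain ⟨hδ1, hδ2⟩ := abs_le.1 hδr
      have hy : α * ((s + r : ℤ) : ℝ) = (k : ℝ) + ((v : ℝ) + (α * s * q - C)) / q + δ * r := by
        push_cast
        have ha : (a : ℝ) = (α - δ) * q := by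
          rw [hδ]
          field_simp
          ring
        have hC' : (C : ℝ) = q * k + v - a * r := by linarith
        rw [hC', ha]
        field_simp
        ring
      have hlow : (k : ℝ) + ((v : ℝ) - 1) / q ≤ α * ((s + r : ℤ) : ℝ) := by
        rw [hy]
        have e1 : ((v : ℝ) - 1) / q = (v : ℝ) / q - 1 / q := by ring
        have e2 : (v : ℝ) / q ≤ ((v : ℝ) + (α * s * q - C)) / q := by
          apply div_le_div_of_nonneg_right _ hqR.le
          linarith
        rw [e1]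
        linarith
      have hhigh : α * ((s + r : ℤ) : ℝ) ≤ (k : ℝ) + 1 - ((q : ℝ) - v - 2) / q := by
        rw [hy]
        have e1 : 1 - ((q : ℝ) - v - 2) / q = ((v : ℝ) + 1) / q + 1 / q := by
          field_simp
          ring
        have e2 : ((v : ℝ) + (α * s * q - C)) / q ≤ ((v : ℝ) + 1) / q := by
          apply div_le_div_of_nonneg_right _ hqR.le
          linarith
        linarith
      have hdz := blk_dz _ _ _ k hlow hhigh
      obtain ⟨m, hm⟩ : ∃ m : ℝ, m = min ((v : ℝ) - 1) ((q : ℝ) - v - 2) := ⟨_, rfl⟩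
      have hmin : min (((v : ℝ) - 1) / q) (((q : ℝ) - v - 2) / q) = m / q := by
        rw [hm]
        rcases le_total ((v : ℝ) - 1) ((q : ℝ) - v - 2) with hh | hh
        · rw [min_eq_left hh, min_eq_left (div_le_div_of_nonneg_right hh hqR.le)]
        · rw [min_eq_right hh, min_eq_right (div_le_div_of_nonneg_right hh hqR.le)]
      rw [hmin] at hdz
      have hv2R : (2 : ℝ) ≤ v := by exact_mod_cast hv2'
      have hv3R : (v : ℝ) + 3 ≤ q := by exact_mod_cast hv3
      have hm1 : 1 ≤ m := by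
        rw [hm]
        apply le_min <;> linarith
      have hm0 : 0 < m := by linarith
      have h3 := h2 r hr
      have h4 := h0 r hr
      have h5 : Φ (s + r) * (2 * (m / q)) ≤ 1 := by
        refine le_trans ?_ h3
        apply mul_le_mul_of_nonneg_left _ h4
        linarith
      have h6 : Φ (s + r) ≤ (q : ℝ) / 2 * m⁻¹ := by
        have e : (2 * (m / q) : ℝ) = ((q : ℝ) / 2 * m⁻¹)⁻¹ := by
          field_simp
        rw [e] at h5
        have h7 : 0 < (q : ℝ) / 2 * m⁻¹ := by positivity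
        rwa [← div_eq_mul_inv, div_le_one h7] at h5
      refine h6.trans ?_
      apply mul_le_mul_of_nonneg_left _ (by positivity)
      have hA : ((v : ℝ) - 1)⁻¹ ≤ 3 * ((v : ℝ) + 1)⁻¹ := by
        rw [← div_eq_mul_inv, inv_eq_one_div, div_le_div_iff₀ (by linarith) (by linarith)]
        linarith
      have hB : ((q : ℝ) - v - 2)⁻¹ ≤ 3 * ((q : ℝ) - v)⁻¹ := by
        rw [← div_eq_mul_inv, inv_eq_one_div, div_le_div_iff₀ (by linarith) (by linarith)]
        linarith
      have hA0 : 0 < ((v : ℝ) - 1)⁻¹ := inv_pos.2 (by linarith)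
      have hB0 : 0 < ((q : ℝ) - v - 2)⁻¹ := inv_pos.2 (by linarith)
      rcases le_total ((v : ℝ) - 1) ((q : ℝ) - v - 2) with hh | hh
      · rw [hm, min_eq_left hh]
        linarith
      · rw [hm, min_eq_right hh]
        linarith
  calc ∑ r ∈ Finset.range q, Φ (s + r)
      ≤ ∑ r ∈ Finset.range q, blkG q X (blkv q a C r) :=
        Finset.sum_le_sum fun r hr => key r (Finset.mem_range.1 hr)
    _ = ∑ v ∈ (Finset.range q).image (blkv q a C), blkG q X v :=
        (Finset.sum_image (blk_inj q hq a C hc)).symm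
    _ ≤ ∑ v ∈ Finset.range q, blkG q X v := by
        apply Finset.sum_le_sum_of_subset_of_nonneg
        · intro v hv
          obtain ⟨r, _, rfl⟩ := Finset.mem_image.1 hv
          exact Finset.mem_range.2 (blk_v q hq a C r).2
        · intro v hv _
          exact blk_G_nonneg q X hX v (Finset.mem_range.1 hv)
    _ ≤ 8 * X + 8 * q * (1 + Real.log q) := blk_sum_G q hq X hX

end Pool.Agent.TFC
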