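import Pool.Agent.TFC.Defs
import Pool.Agent.HP.BTI

set_option autoImplicit false

namespace Pool.Agent.TFC

open Finset

/-- number of primes up to `x`, with the constant of `bti` -/
theorem btc_card {C : ℝ} (hC : ∀ r c Z : ℕ, 1 ≤ r → 2 ≤ Z → r ^ 2 ≤ Z →
      (((Finset.Icc 1 Z).filter (fun q => q.Prime ∧ q ≡ c [MOD r])).card : ℝ) ≤
        C * Z / ((Nat.totient r : ℝ) * Real.log Z)) (x : ℕ) (hx : 3 ≤ x) :
    ((PP x).card : ℝ) ≤ C * x / Real.log x := by
  have h1 := hC 1 0 x le_rfl (by omega) (by omega)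
  rw [Nat.totient_one, Nat.cast_one, one_mul] at h1
  refine le_trans ?_ h1
  have h2 : (PP x).card ≤
      ((Finset.Icc 1 x).filter (fun q => q.Prime ∧ q ≡ 0 [MOD 1])).card := by
    apply Finset.card_le_card
    intro p hp
    unfold PP at hp
    rw [Finset.mem_filter] at hp ⊢
    exact ⟨hp.1, hp.2.1, Nat.modEq_one⟩
  exact_mod_cast h2

/-- BTC. Second moment of the primes of `PP x` over residue classes (Brun-Titchmarsh,
`Pool.Agent.HP.bti` with `Z = x`): classes with `(b,e) > 1` are empty as `p > e`, the others have at most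
`C x/(φ(e) log x)` elements, and the classes add up to `≤ C x / log x` (the case `r = 1`). -/
theorem class_sq : ∃ C : ℝ, 0 < C ∧ ∀ x e : ℕ, 3 ≤ x → 1 ≤ e → e ^ 2 ≤ x → 16 * e ≤ x →
    ∑ b ∈ Finset.range e, ((((PP x).filter (fun p => p % e = b)).card : ℝ)) ^ 2 ≤
      C * (x / Real.log x) ^ 2 / (Nat.totient e : ℝ) := by
  obtain ⟨C, hC0, hC⟩ := Pool.Agent.HP.bti
  refine ⟨C * C, mul_pos hC0 hC0, ?_⟩
  intro x e hx he hex _
  set M : ℝ := C * x / ((Nat.totient e : ℝ) * Real.log x) with hM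
  have hx1 : (1 : ℝ) < (x : ℝ) := by exact_mod_cast (by omega : 1 < x)
  have hlog : 0 < Real.log x := Real.log_pos hx1
  have hφ : (0 : ℝ) < (Nat.totient e : ℝ) := by
    exact_mod_cast Nat.totient_pos.mpr (by omega)
  have hM0 : 0 ≤ M := by
    rw [hM]
    positivity
  have hb : ∀ b ∈ Finset.range e, (((PP x).filter (fun p => p % e = b)).card : ℝ) ≤ M := by
    intro b hb
    rw [Finset.mem_range] at hb
    refine le_trans ?_ (hC e b x he (by omega) hex)
    have h2 : ((PP x).filter (fun p => p % e = b)).card ≤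
        ((Finset.Icc 1 x).filter (fun q => q.Prime ∧ q ≡ b [MOD e])).card := by
      apply Finset.card_le_card
      intro p hp
      rw [Finset.mem_filter] at hp
      obtain ⟨hp1, hp2⟩ := hp
      unfold PP at hp1
      rw [Finset.mem_filter] at hp1 ⊢
      refine ⟨hp1.1, hp1.2.1, ?_⟩
      unfold Nat.ModEq
      rw [hp2, Nat.mod_eq_of_lt hb]
    exact_mod_cast h2
  have hsum : ∑ b ∈ Finset.range e, (((PP x).filter (fun p => p % e = b)).card : ℝ) =
      ((PP x).card : ℝ) := by
    have h3 := Finset.card_eq_sum_card_fiberwise (s := PP x) (t := Finset.range e)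
      (f := fun p => p % e) (fun p _ => Finset.mem_coe.mpr
        (Finset.mem_range.mpr (Nat.mod_lt p (by omega))))
    rw [h3]
    push_cast
    rfl
  calc ∑ b ∈ Finset.range e, ((((PP x).filter (fun p => p % e = b)).card : ℝ)) ^ 2
      ≤ ∑ b ∈ Finset.range e, M * (((PP x).filter (fun p => p % e = b)).card : ℝ) := by
        apply Finset.sum_le_sum
        intro b hb'
        rw [pow_two]
        exact mul_le_mul_of_nonneg_right (hb b hb') (Nat.cast_nonneg _)
    _ = M * ((PP x).card : ℝ) := by rw [← Finset.mul_sum, hsum]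
    _ ≤ M * (C * x / Real.log x) := mul_le_mul_of_nonneg_left (btc_card hC x hx) hM0
    _ = C * C * (x / Real.log x) ^ 2 / (Nat.totient e : ℝ) := by
        rw [hM]
        field_simp

/-- number of primes up to `x` -/
theorem PP_card_le : ∃ C : ℝ, 0 < C ∧ ∀ x : ℕ, 3 ≤ x → ((PP x).card : ℝ) ≤ C * x / Real.log x := by
  obtain ⟨C, hC0, hC⟩ := Pool.Agent.HP.bti
  exact ⟨C, hC0, fun x hx => btc_card hC x hx⟩

end Pool.Agent.TFC
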