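import Pool.Agent.TFC.Defs
import Pool.Agent.TFC.CAPA

set_option autoImplicit false

namespace Pool.Agent.TFC

open Finset Filter

/-- CAP (b). -/
theorem PP_card_ge : ∀ᶠ x : ℕ in atTop, (1 / 8) * (x / Real.log x) ≤ ((PP x).card : ℝ) := by
  have h1 := tendsto_theta_mul (1 / 4) (by norm_num)
  have h2 := tendsto_theta_mul (1 / 16) (by norm_num)
  have h3 := (h1.sub h2).eventually (lt_mem_nhds (show (1 / 8 : ℝ) < 1 / 4 - 1 / 16 by norm_num))
  filter_upwards [h3, eventually_gt_atTop 1] with x hx hx1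
  have hx0 : (0 : ℝ) < x := by exact_mod_cast (by omega : 0 < x)
  have hl : 0 < Real.log (x : ℝ) := Real.log_pos (by exact_mod_cast hx1)
  have h4 := theta_le_card (1 / 4 * x) (1 / 16 * x) x (by linarith) (PP x) (by
      intro p hp hpA hpB
      unfold PP
      rw [Finset.mem_filter, Finset.mem_Icc]
      have h5 : 1 / 16 * (x : ℝ) < p := not_le.1 hpB
      have h6 : (x : ℝ) < 16 * p := by linarith
      have h7 : 4 * (p : ℝ) ≤ x := by linarith
      have h8 : x < 16 * p := by exact_mod_cast h6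
      have h9 : 4 * p ≤ x := by exact_mod_cast h7
      exact ⟨⟨hp.one_le, by omega⟩, hp, h8, h9⟩)
  have h7 : (1 / 8) * (x : ℝ) < Chebyshev.theta (1 / 4 * x) - Chebyshev.theta (1 / 16 * x) := by
    rw [← sub_div, lt_div_iff₀ hx0] at hx
    exact hx
  rw [mul_div_assoc', div_le_iff₀ hl]
  linarith

end Pool.Agent.TFC
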