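import Pool.Agent.TFC.Defs

set_option autoImplicit false

namespace Pool.Agent.TFC

open Finset

/-- the number of `n ∈ [1,y]`, `n ≡ c mod r`, is within one of `y/r` -/
theorem cnt_modEq (y : ℕ) (r : ℤ) (hr : 0 < r) (c : ℤ) :
    |((((Finset.Icc (1 : ℤ) y).filter (fun n => r ∣ n - c)).card : ℕ) : ℝ) - (y : ℝ) / r| ≤ 1 := by
  have h1 : (Finset.Icc (1 : ℤ) y).filter (fun n => r ∣ n - c) =
      (Finset.Ioc (0 : ℤ) y).filter (fun n => n ≡ c [ZMOD r]) := by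
    ext n
    simp only [mem_filter, mem_Icc, mem_Ioc, Int.modEq_iff_dvd]
    constructor
    · rintro ⟨⟨h1, h2⟩, h3⟩
      refine ⟨⟨by omega, h2⟩, ?_⟩
      rw [← neg_sub]
      exact (dvd_neg).2 h3
    · rintro ⟨⟨h1, h2⟩, h3⟩
      refine ⟨⟨by omega, h2⟩, ?_⟩
      rw [← neg_sub]
      exact (dvd_neg).2 h3
  have h2 := Int.Ioc_filter_modEq_card (0 : ℤ) (y : ℤ) hr c
  rw [← h1] at h2
  set N : ℕ := ((Finset.Icc (1 : ℤ) y).filter (fun n => r ∣ n - c)).card with hN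
  have hrq : (0 : ℚ) < (r : ℚ) := by exact_mod_cast hr
  have hbc : (((0 : ℤ) : ℚ) - (c : ℚ)) / (r : ℚ) ≤ (((y : ℤ) : ℚ) - (c : ℚ)) / (r : ℚ) := by
    apply div_le_div_of_nonneg_right _ hrq.le
    have : (0 : ℚ) ≤ ((y : ℤ) : ℚ) := by exact_mod_cast Int.natCast_nonneg y
    push_cast
    push_cast at this
    linarith
  have hfl := Int.floor_le_floor hbc
  rw [max_eq_left (by linarith)] at h2
  have e1 := Int.floor_le ((((y : ℤ) : ℚ) - (c : ℚ)) / (r : ℚ))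
  have e2 := Int.lt_floor_add_one ((((y : ℤ) : ℚ) - (c : ℚ)) / (r : ℚ))
  have e3 := Int.floor_le ((((0 : ℤ) : ℚ) - (c : ℚ)) / (r : ℚ))
  have e4 := Int.lt_floor_add_one ((((0 : ℤ) : ℚ) - (c : ℚ)) / (r : ℚ))
  have hsub : (((y : ℤ) : ℚ) - (c : ℚ)) / (r : ℚ) - (((0 : ℤ) : ℚ) - (c : ℚ)) / (r : ℚ) = (y : ℚ) / r := by
    rw [← sub_div]
    push_cast
    congr 1
    ring
  have h3 : (N : ℚ) = (⌊(((y : ℤ) : ℚ) - (c : ℚ)) / (r : ℚ)⌋ : ℚ) - (⌊(((0 : ℤ) : ℚ) - (c : ℚ)) / (r : ℚ)⌋ : ℚ) := by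
    have : ((N : ℤ) : ℚ) = ((⌊(((y : ℤ) : ℚ) - (c : ℚ)) / (r : ℚ)⌋ - ⌊(((0 : ℤ) : ℚ) - (c : ℚ)) / (r : ℚ)⌋ : ℤ) : ℚ) := by
      rw [h2]
    push_cast at this ⊢
    linarith
  have h4 : |(N : ℚ) - (y : ℚ) / r| ≤ 1 := by
    rw [abs_le]
    constructor <;> linarith
  have h5 : ((|(N : ℚ) - (y : ℚ) / r| : ℚ) : ℝ) ≤ ((1 : ℚ) : ℝ) := by exact_mod_cast h4
  push_cast at h5
  exact h5

/-- `ff` as a sum of indicators on `[1,x]` -/
theorem cnt_ff_eq {D : Finset ℕ} {x : ℕ} {n : ℤ} (h1 : 1 ≤ n) (h2 : n ≤ x) :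
    ff D x n = ∑ p ∈ D, if (p : ℤ) ∣ n then (1 : ℝ) else 0 := by
  unfold ff
  rw [if_pos ⟨h1, h2⟩, Finset.card_filter]
  push_cast
  rfl

theorem cnt_card_le_one {D : Finset ℕ} {x E : ℕ} {S : ℝ} (h : Good D x E S) {n : ℤ} (h1 : 1 ≤ n)
    (h2 : n ≤ x) : (D.filter (fun p : ℕ => (p : ℤ) ∣ n)).card ≤ 1 := by
  rw [Finset.card_le_one]
  intro p hp q hq
  simp only [mem_filter] at hp hq
  by_contra hne
  have hcop : Nat.Coprime p q := (Nat.coprime_primes (h.prime p hp.1) (h.prime q hq.1)).2 hne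
  obtain ⟨m, rfl⟩ : ∃ m : ℕ, n = m := ⟨n.toNat, by rw [Int.toNat_of_nonneg (by omega)]⟩
  have hp2 : p ∣ m := by exact_mod_cast hp.2
  have hq2 : q ∣ m := by exact_mod_cast hq.2
  have hdvd : p * q ∣ m := hcop.mul_dvd_of_dvd_of_dvd hp2 hq2
  have hm0 : 0 < m := by omega
  have hmx : m ≤ x := by exact_mod_cast h2
  have hle : p * q ≤ x := (Nat.le_of_dvd hm0 hdvd).trans hmx
  have hsp := h.sq p hp.1
  have hsq := h.sq q hq.1
  have : x * x < (p * p) * (q * q) := Nat.mul_lt_mul'' hsp hsq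
  have h3 : (p * p) * (q * q) = (p * q) * (p * q) := by ring
  rw [h3] at this
  have h4 : (p * q) * (p * q) ≤ x * x := Nat.mul_le_mul hle hle
  omega

/-- CNT (a): at most one element of `D` divides `n`. -/
theorem ff_le_one {D : Finset ℕ} {x E : ℕ} {S : ℝ} (h : Good D x E S) (n : ℤ) :
    0 ≤ ff D x n ∧ ff D x n ≤ 1 := by
  by_cases hn : 1 ≤ n ∧ n ≤ x
  · unfold ff
    rw [if_pos hn]
    refine ⟨Nat.cast_nonneg _, ?_⟩
    have := cnt_card_le_one h hn.1 hn.2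
    exact_mod_cast this
  · unfold ff
    rw [if_neg hn]
    norm_num

theorem cnt_kap_nonneg (D : Finset ℕ) : 0 ≤ kap D := by
  unfold kap
  exact Finset.sum_nonneg (fun p _ => by positivity)

theorem cnt_f0_eq {D : Finset ℕ} {x : ℕ} {n : ℤ} (h1 : 1 ≤ n) (h2 : n ≤ x) :
    f0 D x n = ff D x n - kap D := by
  unfold f0 ff
  rw [if_pos ⟨h1, h2⟩, if_pos ⟨h1, h2⟩]

/-- CNT (b): `|f0| ≤ 2`. -/
theorem f0_abs_le {D : Finset ℕ} {x E : ℕ} {S : ℝ} (h : Good D x E S) (n : ℤ) :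
    |f0 D x n| ≤ 2 := by
  by_cases hn : 1 ≤ n ∧ n ≤ x
  · rw [cnt_f0_eq hn.1 hn.2]
    have h1 := ff_le_one h n
    have h2 := h.kle
    have h3 := cnt_kap_nonneg D
    rw [abs_le]
    constructor <;> linarith [h1.1, h1.2]
  · unfold f0
    rw [if_neg hn]
    norm_num

/-- CNT (c): the values of `ff` in a residue class modulo `e ≤ E`, up to `y ≤ x`. For `p ∈ D`, `(p,e)=1`, the
integers `n ∈ [1,y]` with `p ∣ n`, `n ≡ b mod e` form one residue class modulo `p e`: their number is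
between `y/(pe) - 1` and `y/(pe) + 1`. -/
theorem ff_class {D : Finset ℕ} {x E : ℕ} {S : ℝ} (h : Good D x E S) (e : ℕ) (he : 1 ≤ e) (heE : e ≤ E)
    (b : ℤ) (y : ℕ) (hy : y ≤ x) :
    |∑ n ∈ (Finset.Icc (1 : ℤ) y).filter (fun n => (e : ℤ) ∣ n - b), ff D x n - kap D * y / e|
      ≤ D.card := by
  have hyx : (y : ℤ) ≤ x := by exact_mod_cast hy
  have h1 : ∑ n ∈ (Finset.Icc (1 : ℤ) y).filter (fun n => (e : ℤ) ∣ n - b), ff D x n =
      ∑ p ∈ D, ((((Finset.Icc (1 : ℤ) y).filter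
        (fun n => (e : ℤ) ∣ n - b ∧ (p : ℤ) ∣ n)).card : ℕ) : ℝ) := by
    rw [Finset.sum_congr rfl (g := fun n => ∑ p ∈ D, if (p : ℤ) ∣ n then (1 : ℝ) else 0)
      (fun n hn => by
        simp only [mem_filter, mem_Icc] at hn
        exact cnt_ff_eq hn.1.1 (hn.1.2.trans hyx))]
    rw [Finset.sum_comm]
    refine Finset.sum_congr rfl (fun p _ => ?_)
    rw [Finset.sum_ite, Finset.sum_const_zero, add_zero, Finset.sum_const, Finset.filter_filter]
    simp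
  have h2 : kap D * y / e = ∑ p ∈ D, (y : ℝ) / ((p : ℝ) * e) := by
    unfold kap
    rw [Finset.sum_mul, Finset.sum_div]
    refine Finset.sum_congr rfl (fun p hp => ?_)
    have hp0 : (p : ℝ) ≠ 0 := by exact_mod_cast (h.prime p hp).ne_zero
    have he0 : (e : ℝ) ≠ 0 := by
      have : e ≠ 0 := by omega
      exact_mod_cast this
    field_simp
  rw [h1, h2, ← Finset.sum_sub_distrib]
  refine (Finset.abs_sum_le_sum_abs _ _).trans ?_
  have h3 : ∀ p ∈ D, |((((Finset.Icc (1 : ℤ) y).filter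
        (fun n => (e : ℤ) ∣ n - b ∧ (p : ℤ) ∣ n)).card : ℕ) : ℝ) - (y : ℝ) / ((p : ℝ) * e)| ≤ 1 := by
    intro p hp
    have hpp := h.prime p hp
    have hpe : e < p := lt_of_le_of_lt heE (h.big p hp)
    have hcop : IsCoprime (p : ℤ) (e : ℤ) := by
      rw [Nat.isCoprime_iff_coprime]
      exact (Nat.Prime.coprime_iff_not_dvd hpp).2 (fun hd => absurd (Nat.le_of_dvd (by omega) hd) (by omega))
    obtain ⟨u, v, huv⟩ := hcop
    -- `c = b u p`
    have h4 : (Finset.Icc (1 : ℤ) y).filter (fun n => (e : ℤ) ∣ n - b ∧ (p : ℤ) ∣ n) =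
        (Finset.Icc (1 : ℤ) y).filter (fun n => ((p : ℤ) * e) ∣ n - b * (u * p)) := by
      ext n
      simp only [mem_filter, and_congr_right_iff]
      intro _
      constructor
      · rintro ⟨ha, hb⟩
        have hc : IsCoprime (p : ℤ) (e : ℤ) := ⟨u, v, huv⟩
        refine hc.mul_dvd ?_ ?_
        · exact dvd_sub hb (Dvd.intro_left (b * u) (by ring))
        · have : n - b * (u * p) = (n - b) + b * (v * e) := by
            have : u * p = 1 - v * e := by linarith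
            rw [this]; ring
          rw [this]
          exact dvd_add ha (Dvd.intro_left (b * v) (by ring))
      · intro ha
        have hpd : (p : ℤ) ∣ n - b * (u * p) := (Dvd.intro _ rfl).trans ha
        have hed : (e : ℤ) ∣ n - b * (u * p) := (Dvd.intro_left _ rfl).trans ha
        constructor
        · have : n - b = (n - b * (u * p)) - b * (v * e) := by
            have : u * p = 1 - v * e := by linarith
            rw [this]; ring
          rw [this]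
          exact dvd_sub hed (Dvd.intro_left (b * v) (by ring))
        · have : n = (n - b * (u * p)) + b * (u * p) := by ring
          rw [this]
          exact dvd_add hpd (Dvd.intro_left (b * u) (by ring))
    rw [h4]
    have hpe0 : (0 : ℤ) < (p : ℤ) * e := by
      have h5 : 0 < p := hpp.pos
      positivity
    have h6 := cnt_modEq y ((p : ℤ) * e) hpe0 (b * (u * p))
    push_cast at h6
    exact h6
  calc ∑ p ∈ D, |((((Finset.Icc (1 : ℤ) y).filter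
        (fun n => (e : ℤ) ∣ n - b ∧ (p : ℤ) ∣ n)).card : ℕ) : ℝ) - (y : ℝ) / ((p : ℝ) * e)|
      ≤ ∑ p ∈ D, (1 : ℝ) := Finset.sum_le_sum h3
    _ = D.card := by simp

/-- CNT (d): the same for `f0`. -/
theorem f0_class {D : Finset ℕ} {x E : ℕ} {S : ℝ} (h : Good D x E S) (e : ℕ) (he : 1 ≤ e) (heE : e ≤ E)
    (b : ℤ) (y : ℕ) (hy : y ≤ x) :
    |∑ n ∈ (Finset.Icc (1 : ℤ) y).filter (fun n => (e : ℤ) ∣ n - b), f0 D x n| ≤ D.card + 2 := by
  have hyx : (y : ℤ) ≤ x := by exact_mod_cast hy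
  have h1 : ∑ n ∈ (Finset.Icc (1 : ℤ) y).filter (fun n => (e : ℤ) ∣ n - b), f0 D x n =
      ∑ n ∈ (Finset.Icc (1 : ℤ) y).filter (fun n => (e : ℤ) ∣ n - b), ff D x n -
        kap D * ((((Finset.Icc (1 : ℤ) y).filter (fun n => (e : ℤ) ∣ n - b)).card : ℕ) : ℝ) := by
    rw [Finset.sum_congr rfl (g := fun n => ff D x n - kap D)
      (fun n hn => by
        simp only [mem_filter, mem_Icc] at hn
        exact cnt_f0_eq hn.1.1 (hn.1.2.trans hyx))]
    rw [Finset.sum_sub_distrib, Finset.sum_const, nsmul_eq_mul]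
    ring
  have h2 := ff_class h e he heE b y hy
  have he0 : (0 : ℤ) < (e : ℤ) := by exact_mod_cast he
  have h3 := cnt_modEq y (e : ℤ) he0 b
  push_cast at h3
  rw [h1]
  set A := ∑ n ∈ (Finset.Icc (1 : ℤ) y).filter (fun n => (e : ℤ) ∣ n - b), ff D x n
  set N : ℝ := ((((Finset.Icc (1 : ℤ) y).filter (fun n => (e : ℤ) ∣ n - b)).card : ℕ) : ℝ)
  have hk0 := cnt_kap_nonneg D
  have hk2 := h.kle
  have h4 : A - kap D * N = (A - kap D * y / e) - kap D * (N - y / e) := by ring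
  rw [h4]
  have h5 : |kap D * (N - y / e)| ≤ 2 := by
    rw [abs_mul, abs_of_nonneg hk0]
    calc kap D * |N - y / e| ≤ 2 * 1 := mul_le_mul hk2 h3 (abs_nonneg _) (by norm_num)
      _ = 2 := by norm_num
  calc |(A - kap D * y / e) - kap D * (N - y / e)|
      ≤ |A - kap D * y / e| + |kap D * (N - y / e)| := abs_sub _ _
    _ ≤ D.card + 2 := add_le_add h2 h5

end Pool.Agent.TFC
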