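import Pool.Agent.TFC.Defs

set_option autoImplicit false

namespace Pool.Agent.TFC

open Finset

private theorem cnv_ee_add (s t : ℝ) : ee (s + t) = ee s * ee t := by
  rw [ee, ee, ee, ← Complex.exp_add]
  congr 1
  push_cast
  ring

private theorem cnv_conj_ee (t : ℝ) : (starRingEnd ℂ) (ee t) = ee (-t) := by
  rw [ee, ee, ← Complex.exp_conj]
  congr 1
  rw [map_mul, Complex.conj_ofReal, Complex.conj_I]
  push_cast
  ring

private theorem cnv_ee_nat_mul (t : ℝ) (k : ℕ) : ee (k * t) = ee t ^ k := by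
  rw [ee, ee, ← Complex.exp_nat_mul]
  congr 1
  push_cast
  ring

private theorem cnv_ee_int (j : ℤ) : ee (j : ℝ) = 1 := by
  rw [ee, Complex.exp_eq_one_iff]
  exact ⟨j, by push_cast; ring⟩

private theorem cnv_ee_eq_one (M : ℕ) (hM : 0 < M) (j : ℤ) (h : ee ((j : ℝ) / M) = 1) :
    (M : ℤ) ∣ j := by
  rw [ee, Complex.exp_eq_one_iff] at h
  obtain ⟨n, hn⟩ := h
  have hM' : (M : ℝ) ≠ 0 := by positivity
  have h1 : ((2 * Real.pi * ((j : ℝ) / M) : ℝ) : ℂ) = ((n * (2 * Real.pi) : ℝ) : ℂ) := by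
    have h2 : ((2 * Real.pi * ((j : ℝ) / M) : ℝ) : ℂ) * Complex.I =
        ((n * (2 * Real.pi) : ℝ) : ℂ) * Complex.I := by
      rw [hn]
      push_cast
      ring
    exact mul_right_cancel₀ Complex.I_ne_zero h2
  have h3 : 2 * Real.pi * ((j : ℝ) / M) = n * (2 * Real.pi) := Complex.ofReal_injective h1
  have h4 : (j : ℝ) / M = n := by
    have hpi := Real.pi_pos
    have : 2 * Real.pi * ((j : ℝ) / M) = 2 * Real.pi * n := by rw [h3]; ring
    exact mul_left_cancel₀ (by positivity) this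
  rw [div_eq_iff hM'] at h4
  have h5 : j = n * (M : ℤ) := by exact_mod_cast h4
  exact ⟨n, by rw [h5]; ring⟩

/-- orthogonality of the characters -/
private theorem cnv_orth (M : ℕ) (hM : 0 < M) (j : ℤ) :
    ∑ k ∈ range M, ee ((j : ℝ) * ((k : ℝ) / M)) = if (M : ℤ) ∣ j then (M : ℂ) else 0 := by
  have hM' : (M : ℝ) ≠ 0 := by positivity
  have h0 : ∀ k : ℕ, ee ((j : ℝ) * ((k : ℝ) / M)) = ee ((j : ℝ) / M) ^ k := by
    intro k
    rw [← cnv_ee_nat_mul]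
    congr 1
    ring
  simp_rw [h0]
  split_ifs with hd
  · obtain ⟨n, rfl⟩ := hd
    have h1 : ((((M : ℤ) * n : ℤ) : ℝ) / M) = (n : ℝ) := by
      push_cast
      field_simp
    rw [h1, cnv_ee_int]
    simp
  · have h1 : ee ((j : ℝ) / M) ≠ 1 := fun h => hd (cnv_ee_eq_one M hM j h)
    have h2 : ee ((j : ℝ) / M) ^ M = 1 := by
      rw [← cnv_ee_nat_mul]
      have : (M : ℝ) * ((j : ℝ) / M) = (j : ℝ) := by field_simp
      rw [this, cnv_ee_int]
    rw [geom_sum_eq h1, h2, sub_self, zero_div]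

/-- Parseval -/
private theorem cnv_parseval (M : ℕ) (hM : 0 < M) (J : Finset ℤ)
    (hJ : ∀ i ∈ J, ∀ j ∈ J, (M : ℤ) ∣ i - j → i = j) (f : ℤ → ℝ) :
    ∑ k ∈ range M, ‖∑ j ∈ J, ((f j : ℝ) : ℂ) * ee ((j : ℝ) * ((k : ℝ) / M))‖ ^ 2 =
      M * ∑ j ∈ J, f j ^ 2 := by
  have h1 : ∀ k : ℕ, ((‖∑ j ∈ J, ((f j : ℝ) : ℂ) * ee ((j : ℝ) * ((k : ℝ) / M))‖ ^ 2 : ℝ) : ℂ) =
      ∑ i ∈ J, ∑ j ∈ J, ((f i : ℝ) : ℂ) * ((f j : ℝ) : ℂ) *
        ee (((i - j : ℤ) : ℝ) * ((k : ℝ) / M)) := by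
    intro k
    rw [← Complex.normSq_eq_norm_sq, ← Complex.mul_conj, map_sum, Finset.sum_mul_sum]
    refine Finset.sum_congr rfl fun i _ => Finset.sum_congr rfl fun j _ => ?_
    rw [map_mul, Complex.conj_ofReal, cnv_conj_ee]
    have h2 : ee (((i - j : ℤ) : ℝ) * ((k : ℝ) / M)) =
        ee ((i : ℝ) * ((k : ℝ) / M)) * ee (-((j : ℝ) * ((k : ℝ) / M))) := by
      rw [← cnv_ee_add]
      congr 1
      push_cast
      ring
    rw [h2]
    ring
  have h2 : ((∑ k ∈ range M, ‖∑ j ∈ J, ((f j : ℝ) : ℂ) * ee ((j : ℝ) * ((k : ℝ) / M))‖ ^ 2 : ℝ) :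
      ℂ) = ((M * ∑ j ∈ J, f j ^ 2 : ℝ) : ℂ) := by
    rw [Complex.ofReal_sum, Finset.sum_congr rfl fun k _ => h1 k, Finset.sum_comm]
    push_cast
    rw [Finset.mul_sum]
    refine Finset.sum_congr rfl fun i hi => ?_
    rw [Finset.sum_comm]
    have h3 : ∀ j ∈ J, ∑ k ∈ range M, ((f i : ℝ) : ℂ) * ((f j : ℝ) : ℂ) *
        ee (((i : ℝ) - (j : ℝ)) * ((k : ℝ) / M)) =
        if i = j then (M : ℂ) * ((f i : ℝ) : ℂ) ^ 2 else 0 := by
      intro j hj
      rw [← Finset.mul_sum]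
      have h4 := cnv_orth M hM (i - j)
      push_cast at h4
      rw [h4]
      by_cases hij : i = j
      · subst hij
        rw [if_pos (by simp), if_pos rfl]
        ring
      · rw [if_neg fun h => hij (hJ i hi j hj h), if_neg hij, mul_zero]
    rw [Finset.sum_congr rfl h3, Finset.sum_ite_eq, if_pos hi]
  exact Complex.ofReal_injective h2

/-- CNV. Convolution with `b` has operator norm at most the sup of its Fourier transform.
Proof: choose `M` so large that all `m + d`, all `n ∈ [1,x]`, and all `d ∈ I` (and the sums needed) are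
distinct modulo `M`, i.e. `M > 2 (max|m| + max|d| + x)`. With `ζ = e(1/M)`,
`A(k) = ∑_{m ∈ A} a(m) ζ^{km}`, `B(k) = ∑_n b(n) ζ^{kn}` (`‖B(k)‖ ≤ S`, take `α = k/M`), the correlation
`c(d) = ∑_{m ∈ A} a(m) b(m+d)` has transform `conj A(k) * B(k)`; Parseval on `ZMod M`:
`∑_d |c(d)|² = (1/M) ∑_k |A(k)|² |B(k)|² ≤ S² (1/M) ∑_k |A(k)|² = S² ∑ |a(m)|²`
(orthogonality of characters). Or use `∫_0^1` and Fourier coefficients instead of `ZMod M`. -/
theorem conv_bound (x : ℕ) (b : ℤ → ℝ) (hb : ∀ n : ℤ, n < 1 ∨ (x : ℤ) < n → b n = 0) (S : ℝ)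
    (hS : ∀ α : ℝ, ‖∑ n ∈ Finset.Icc (1 : ℤ) x, ((b n : ℝ) : ℂ) * ee (n * α)‖ ≤ S)
    (I A : Finset ℤ) (a : ℤ → ℝ) :
    ∑ d ∈ I, (∑ m ∈ A, a m * b (m + d)) ^ 2 ≤ S ^ 2 * ∑ m ∈ A, a m ^ 2 := by
  -- a common bound
  obtain ⟨R, hRA, hRI, hRx⟩ : ∃ R : ℕ, (∀ m ∈ A, |m| ≤ R) ∧ (∀ d ∈ I, |d| ≤ R) ∧ x ≤ R := by
    refine ⟨∑ m ∈ A, m.natAbs + ∑ d ∈ I, d.natAbs + x, fun m hm => ?_, fun d hd => ?_, by omega⟩
    · have h1 : m.natAbs ≤ ∑ m ∈ A, m.natAbs :=
        Finset.single_le_sum (f := fun m : ℤ => m.natAbs) (fun _ _ => Nat.zero_le _) hm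
      rw [Int.abs_eq_natAbs]
      exact_mod_cast (by omega : m.natAbs ≤ ∑ m ∈ A, m.natAbs + ∑ d ∈ I, d.natAbs + x)
    · have h1 : d.natAbs ≤ ∑ d ∈ I, d.natAbs :=
        Finset.single_le_sum (f := fun m : ℤ => m.natAbs) (fun _ _ => Nat.zero_le _) hd
      rw [Int.abs_eq_natAbs]
      exact_mod_cast (by omega : d.natAbs ≤ ∑ m ∈ A, m.natAbs + ∑ d ∈ I, d.natAbs + x)
  set M : ℕ := 4 * R + 1 with hM
  have hM0 : 0 < M := by omega
  set J : Finset ℤ := Finset.Icc (-(2 * (R : ℤ))) (2 * R) with hJ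
  set c : ℤ → ℝ := fun d => ∑ m ∈ A, a m * b (m + d) with hc
  have hinj : ∀ s : Finset ℤ, (∀ i ∈ s, |i| ≤ 2 * (R : ℤ)) →
      ∀ i ∈ s, ∀ j ∈ s, (M : ℤ) ∣ i - j → i = j := by
    intro s hs i hi j hj hd
    have h1 := hs i hi
    have h2 := hs j hj
    rw [abs_le] at h1 h2
    have h3 : i - j = 0 := by
      refine Int.eq_zero_of_abs_lt_dvd hd ?_
      rw [abs_lt]
      constructor <;> omega
    omega
  have hIJ : I ⊆ J := by
    intro d hd
    have h1 := hRI d hd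
    rw [abs_le] at h1
    rw [hJ, Finset.mem_Icc]
    constructor <;> omega
  -- the transform of the correlation
  have htr : ∀ θ : ℝ, ∑ d ∈ J, ((c d : ℝ) : ℂ) * ee ((d : ℝ) * θ) =
      (∑ m ∈ A, ((a m : ℝ) : ℂ) * ee (-((m : ℝ) * θ))) *
        ∑ n ∈ Finset.Icc (1 : ℤ) x, ((b n : ℝ) : ℂ) * ee ((n : ℝ) * θ) := by
    intro θ
    have h1 : ∀ m ∈ A, ∑ d ∈ J, ((b (m + d) : ℝ) : ℂ) * ee ((d : ℝ) * θ) =
        ee (-((m : ℝ) * θ)) * ∑ n ∈ Finset.Icc (1 : ℤ) x, ((b n : ℝ) : ℂ) * ee ((n : ℝ) * θ) := by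
      intro m hm
      have hmR := hRA m hm
      rw [abs_le] at hmR
      have hsub : (Finset.Icc (1 : ℤ) x).image (fun n => n - m) ⊆ J := by
        intro d hd
        rw [Finset.mem_image] at hd
        obtain ⟨n, hn, rfl⟩ := hd
        rw [Finset.mem_Icc] at hn
        rw [hJ, Finset.mem_Icc]
        constructor <;> omega
      rw [← Finset.sum_subset hsub, Finset.sum_image, Finset.mul_sum]
      · refine Finset.sum_congr rfl fun n _ => ?_
        have h2 : m + (n - m) = n := by ring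
        rw [h2]
        have h3 : ee (((n - m : ℤ) : ℝ) * θ) = ee (-((m : ℝ) * θ)) * ee ((n : ℝ) * θ) := by
          rw [← cnv_ee_add]
          congr 1
          push_cast
          ring
        rw [h3]
        ring
      · intro n _ n' _ h
        simpa using h
      · intro d _ hd
        have h2 : b (m + d) = 0 := by
          apply hb
          by_contra hcon
          push Not at hcon
          apply hd
          rw [Finset.mem_image]
          exact ⟨m + d, Finset.mem_Icc.2 hcon, by ring⟩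
        rw [h2]
        simp
    have h2 : ∀ d : ℤ, ((c d : ℝ) : ℂ) * ee ((d : ℝ) * θ) =
        ∑ m ∈ A, ((a m : ℝ) : ℂ) * (((b (m + d) : ℝ) : ℂ) * ee ((d : ℝ) * θ)) := by
      intro d
      rw [hc]
      push_cast
      rw [Finset.sum_mul]
      refine Finset.sum_congr rfl fun m _ => ?_
      ring
    rw [Finset.sum_congr rfl fun d _ => h2 d, Finset.sum_comm, Finset.sum_mul]
    refine Finset.sum_congr rfl fun m hm => ?_
    rw [← Finset.mul_sum, h1 m hm]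
    ring
  have hpc := cnv_parseval M hM0 J (hinj J (by
    intro i hi
    rw [hJ, Finset.mem_Icc] at hi
    rw [abs_le]
    exact hi)) c
  have hpa := cnv_parseval M hM0 A (hinj A (by
    intro i hi
    have := hRA i hi
    have h0 : (0 : ℤ) ≤ R := by positivity
    omega)) a
  have hM' : (0 : ℝ) < M := by exact_mod_cast hM0
  have hle : ∑ d ∈ I, c d ^ 2 ≤ ∑ d ∈ J, c d ^ 2 :=
    Finset.sum_le_sum_of_subset_of_nonneg hIJ fun d _ _ => sq_nonneg _
  refine hle.trans ?_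
  refine le_of_mul_le_mul_left ?_ hM'
  calc (M : ℝ) * ∑ d ∈ J, c d ^ 2
      = ∑ k ∈ range M, ‖∑ j ∈ J, ((c j : ℝ) : ℂ) * ee ((j : ℝ) * ((k : ℝ) / M))‖ ^ 2 := hpc.symm
    _ ≤ ∑ k ∈ range M, S ^ 2 * ‖∑ j ∈ A, ((a j : ℝ) : ℂ) * ee ((j : ℝ) * ((k : ℝ) / M))‖ ^ 2 := by
        refine Finset.sum_le_sum fun k _ => ?_
        rw [htr, norm_mul, mul_pow, mul_comm]
        have h1 : ‖∑ m ∈ A, ((a m : ℝ) : ℂ) * ee (-((m : ℝ) * ((k : ℝ) / M)))‖ =
            ‖∑ j ∈ A, ((a j : ℝ) : ℂ) * ee ((j : ℝ) * ((k : ℝ) / M))‖ := by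
          rw [← Complex.norm_conj, map_sum]
          congr 1
          refine Finset.sum_congr rfl fun m _ => ?_
          rw [map_mul, Complex.conj_ofReal, cnv_conj_ee, neg_neg]
        rw [h1]
        refine mul_le_mul_of_nonneg_right ?_ (sq_nonneg _)
        exact pow_le_pow_left₀ (norm_nonneg _) (hS _) 2
    _ = S ^ 2 * (M * ∑ j ∈ A, a j ^ 2) := by rw [← Finset.mul_sum, hpa]
    _ = M * (S ^ 2 * ∑ m ∈ A, a m ^ 2) := by ring

end Pool.Agent.TFC
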