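import Pool.Agent.TFC.MNR

set_option autoImplicit false

namespace Pool.Agent.TFC

open Finset


theorem supb_lip (s t : ℝ) : ‖ee s - ee t‖ ≤ 2 * Real.pi * |s - t| := by
  have h1 : ee s - ee t = ee t * (ee (s - t) - 1) := by
    have h2 : ee s = ee t * ee (s - t) := by
      rw [← geo_add]
      congr 1
      ring
    rw [h2]
    ring
  rw [h1, norm_mul, geo_norm, one_mul]
  have h3 : ee (s - t) = Complex.exp (Complex.I * ((2 * Real.pi * (s - t) : ℝ) : ℂ)) := by
    unfold ee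
    rw [mul_comm]
  rw [h3]
  refine (Real.norm_exp_I_mul_ofReal_sub_one_le).trans ?_
  rw [Real.norm_eq_abs, abs_mul, abs_of_pos (by positivity : (0 : ℝ) < 2 * Real.pi)]

theorem supb_dz (a : ℤ) (q : ℕ) (hq : 1 ≤ q) (h : ¬ (q : ℤ) ∣ a) (t : ℝ)
    (ht : |t - (a : ℝ) / q| ≤ 1 / (2 * q)) : 1 / (2 * q) ≤ dz t := by
  unfold dz
  have hq0 : (0 : ℝ) < q := by exact_mod_cast hq
  have h1 : a - round t * q ≠ 0 := by
    intro h0
    apply h
    exact ⟨round t, by linarith⟩
  have h2 : (1 : ℝ) ≤ |(a : ℝ) - round t * q| := by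
    have := Int.one_le_abs h1
    exact_mod_cast this
  have h3 : (1 : ℝ) / q ≤ |(a : ℝ) / q - round t| := by
    have h4 : (a : ℝ) / q - round t = ((a : ℝ) - round t * q) / q := by
      field_simp
    rw [h4, abs_div, abs_of_pos hq0]
    exact div_le_div_of_nonneg_right h2 hq0.le
  have h5 : |(a : ℝ) / q - round t| ≤ |t - (a : ℝ) / q| + |t - round t| := by
    have := abs_sub_le ((a : ℝ) / q) t (round t)
    rw [abs_sub_comm ((a : ℝ) / q) t] at this
    exact this
  have h6 : (1 : ℝ) / q = 1 / (2 * q) + 1 / (2 * q) := by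
    field_simp
    norm_num
  linarith

theorem supb_geo (n : ℕ) (θ : ℝ) (q : ℕ) (hq : 1 ≤ q) (h : 1 / (2 * q) ≤ dz θ) :
    ‖∑ m ∈ Finset.Icc 1 n, ee (m * θ)‖ ≤ q := by
  have hq0 : (0 : ℝ) < q := by exact_mod_cast hq
  have h1 := (geom_bound n θ).2
  have h2 : ‖∑ m ∈ Finset.Icc 1 n, ee (m * θ)‖ * (1 / q) ≤ 1 := by
    refine le_trans (mul_le_mul_of_nonneg_left ?_ (norm_nonneg _)) h1
    have h6 : (1 : ℝ) / q = 2 * (1 / (2 * q)) := by
      field_simp
    rw [h6]
    linarith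
  rw [mul_one_div, div_le_one hq0] at h2
  exact h2

theorem supb_mult (x p : ℕ) (hp : 1 ≤ p) (g : ℕ → ℂ) :
    ∑ n ∈ (Finset.Icc 1 x).filter (fun n => p ∣ n), g n =
      ∑ m ∈ Finset.Icc 1 (x / p), g (m * p) := by
  refine (Finset.sum_bij (fun m _ => m * p) ?_ ?_ ?_ ?_).symm
  · intro m hm
    rw [Finset.mem_Icc] at hm
    rw [Finset.mem_filter, Finset.mem_Icc]
    refine ⟨⟨Nat.mul_pos hm.1 hp, ?_⟩, Dvd.intro_left m rfl⟩
    exact (Nat.mul_le_mul_right p hm.2).trans (Nat.div_mul_le_self x p)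
  · intro m _ m' _ h
    exact Nat.eq_of_mul_eq_mul_right hp h
  · intro n hn
    rw [Finset.mem_filter, Finset.mem_Icc] at hn
    obtain ⟨⟨h1, h2⟩, k, rfl⟩ := hn
    refine ⟨k, ?_, mul_comm _ _⟩
    rw [Finset.mem_Icc]
    constructor
    · rcases Nat.eq_zero_or_pos k with h | h
      · subst h
        omega
      · exact h
    · rw [Nat.le_div_iff_mul_le hp, mul_comm]
      exact h2
  · intro m _
    rfl

theorem supb_decomp (D : Finset ℕ) (hD : ∀ p ∈ D, 1 ≤ p) (x : ℕ) (α : ℝ) :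
    ∑ n ∈ Finset.Icc (1 : ℤ) x, ((f0 D x n : ℝ) : ℂ) * ee (n * α) =
      ∑ p ∈ D, (∑ m ∈ Finset.Icc 1 (x / p), ee (m * (α * p)) -
        (1 / (p : ℂ)) * ∑ n ∈ Finset.Icc 1 x, ee (n * α)) := by
  have h1 : ∑ n ∈ Finset.Icc (1 : ℤ) x, ((f0 D x n : ℝ) : ℂ) * ee (n * α) =
      ∑ n ∈ Finset.Icc 1 x, ((f0 D x (n : ℤ) : ℝ) : ℂ) * ee (n * α) := by
    refine (Finset.sum_bij (fun (n : ℕ) _ => (n : ℤ)) ?_ ?_ ?_ ?_).symm
    · intro n hn
      rw [Finset.mem_Icc] at hn ⊢
      omega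
    · intro n _ n' _ h
      exact_mod_cast h
    · intro n hn
      rw [Finset.mem_Icc] at hn
      refine ⟨n.toNat, ?_, ?_⟩
      · rw [Finset.mem_Icc]
        omega
      · exact Int.toNat_of_nonneg (by omega)
    · intro n _
      push_cast
      rfl
  rw [h1, Finset.sum_sub_distrib, ← Finset.sum_mul]
  have h2 : ∀ n ∈ Finset.Icc 1 x, ((f0 D x (n : ℤ) : ℝ) : ℂ) * ee (n * α) =
      (∑ p ∈ D, if p ∣ n then ee (n * α) else 0) - (∑ p ∈ D, 1 / (p : ℂ)) * ee (n * α) := by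
    intro n hn
    rw [Finset.mem_Icc] at hn
    have h3 : f0 D x (n : ℤ) = ((D.filter (fun p : ℕ => p ∣ n)).card : ℝ) - kap D := by
      unfold f0
      rw [if_pos (by omega)]
      simp only [Int.natCast_dvd_natCast]
    rw [h3, ← Finset.sum_filter, Finset.sum_const, nsmul_eq_mul]
    unfold kap
    push_cast
    ring
  rw [Finset.sum_congr rfl h2, Finset.sum_sub_distrib, ← Finset.mul_sum, Finset.sum_comm]
  congr 1
  refine Finset.sum_congr rfl fun p hp => ?_
  rw [← Finset.sum_filter, supb_mult x p (hD p hp) (fun n => ee (n * α))]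
  refine Finset.sum_congr rfl fun m _ => ?_
  congr 1
  push_cast
  ring

theorem supb_aux (β : ℝ) (p k : ℕ) :
    ‖(p : ℂ) * (∑ i ∈ Finset.range k, ee (((i : ℝ) + 1) * (β * p))) -
      ∑ i ∈ Finset.range (k * p), ee (((i : ℝ) + 1) * β)‖ ≤
      k * (p * (2 * Real.pi * (|β| * p))) := by
  induction k with
  | zero => simp
  | succ k ih =>
    have h1 : (p : ℂ) * ee (((k : ℝ) + 1) * (β * p)) =
        ∑ _i ∈ Finset.range p, ee (((k : ℝ) + 1) * (β * p)) := by
      rw [Finset.sum_const, Finset.card_range, nsmul_eq_mul]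
    have h2 : (p : ℂ) * (∑ i ∈ Finset.range (k + 1), ee (((i : ℝ) + 1) * (β * p))) -
        ∑ i ∈ Finset.range ((k + 1) * p), ee (((i : ℝ) + 1) * β) =
        ((p : ℂ) * (∑ i ∈ Finset.range k, ee (((i : ℝ) + 1) * (β * p))) -
        ∑ i ∈ Finset.range (k * p), ee (((i : ℝ) + 1) * β)) +
        ∑ i ∈ Finset.range p, (ee (((k : ℝ) + 1) * (β * p)) -
          ee ((((k * p + i : ℕ) : ℝ) + 1) * β)) := by
      rw [Finset.sum_range_succ, Nat.succ_mul, Finset.sum_range_add, mul_add, h1,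
        Finset.sum_sub_distrib]
      ring
    rw [h2]
    refine (norm_add_le _ _).trans ?_
    have h3 : ‖∑ i ∈ Finset.range p, (ee (((k : ℝ) + 1) * (β * p)) -
          ee ((((k * p + i : ℕ) : ℝ) + 1) * β))‖ ≤ p * (2 * Real.pi * (|β| * p)) := by
      refine (norm_sum_le _ _).trans ?_
      have h4 : ∀ i ∈ Finset.range p, ‖ee (((k : ℝ) + 1) * (β * p)) -
          ee ((((k * p + i : ℕ) : ℝ) + 1) * β)‖ ≤ 2 * Real.pi * (|β| * p) := by
        intro i hi
        rw [Finset.mem_range] at hi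
        refine (supb_lip _ _).trans ?_
        refine mul_le_mul_of_nonneg_left ?_ (by positivity)
        have h5 : ((k : ℝ) + 1) * (β * p) - ((((k * p + i : ℕ) : ℝ) + 1) * β) =
            β * ((p : ℝ) - 1 - i) := by
          push_cast
          ring
        rw [h5, abs_mul]
        refine mul_le_mul_of_nonneg_left ?_ (abs_nonneg _)
        have h6 : ((i : ℝ) + 1) ≤ p := by exact_mod_cast hi
        rw [abs_of_nonneg (by linarith)]
        have : (0 : ℝ) ≤ i := Nat.cast_nonneg i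
        linarith
      refine (Finset.sum_le_sum h4).trans ?_
      rw [Finset.sum_const, Finset.card_range, nsmul_eq_mul]
    have h7 : ((k + 1 : ℕ) : ℝ) * (p * (2 * Real.pi * (|β| * p))) =
        k * (p * (2 * Real.pi * (|β| * p))) + p * (2 * Real.pi * (|β| * p)) := by
      push_cast
      ring
    rw [h7]
    exact add_le_add ih h3

theorem supb_Icc (n : ℕ) (g : ℕ → ℂ) :
    ∑ m ∈ Finset.Icc 1 n, g m = ∑ i ∈ Finset.range n, g (i + 1) := by
  induction n with
  | zero => simp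
  | succ n ih => rw [Finset.sum_Icc_succ_top (by omega), Finset.sum_range_succ, ih]

theorem supb_block (β : ℝ) (p x : ℕ) (hp : 1 ≤ p) :
    ‖∑ m ∈ Finset.Icc 1 (x / p), ee (m * (β * p)) -
      (1 / (p : ℂ)) * ∑ n ∈ Finset.Icc 1 x, ee (n * β)‖ ≤ 2 * Real.pi * (|β| * x) + 1 := by
  have hp0 : (0 : ℝ) < p := by exact_mod_cast hp
  have hpc : (p : ℂ) ≠ 0 := by exact_mod_cast hp0.ne'
  set k := x / p with hk
  have hkx : k * p ≤ x := Nat.div_mul_le_self x p
  have hkr : (k : ℝ) * p ≤ x := by exact_mod_cast hkx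
  have h1 := supb_aux β p k
  have h2 : ∑ m ∈ Finset.Icc 1 k, ee (m * (β * p)) =
      ∑ i ∈ Finset.range k, ee (((i : ℝ) + 1) * (β * p)) := by
    rw [supb_Icc k (fun m => ee (m * (β * p)))]
    refine Finset.sum_congr rfl fun i _ => ?_
    push_cast
    rfl
  have h3 : ∑ n ∈ Finset.Icc 1 x, ee (n * β) =
      ∑ i ∈ Finset.range (k * p), ee (((i : ℝ) + 1) * β) +
      ∑ i ∈ Finset.range (x - k * p), ee ((((k * p + i : ℕ) : ℝ) + 1) * β) := by
    rw [supb_Icc x (fun m => ee (m * β))]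
    have : x = k * p + (x - k * p) := by omega
    conv_lhs => rw [this]
    rw [Finset.sum_range_add]
    congr 1
    · refine Finset.sum_congr rfl fun i _ => ?_
      push_cast
      rfl
    · refine Finset.sum_congr rfl fun i _ => ?_
      push_cast
      rfl
  have h4 : ‖∑ i ∈ Finset.range (x - k * p), ee ((((k * p + i : ℕ) : ℝ) + 1) * β)‖ ≤ p := by
    refine (norm_sum_le _ _).trans ?_
    simp only [geo_norm, Finset.sum_const, Finset.card_range, nsmul_eq_mul, mul_one]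
    have h5 : x - k * p ≤ p := by
      have := Nat.lt_div_mul_add hp (a := x)
      rw [← hk] at this
      omega
    exact_mod_cast h5
  have h6 : ∑ m ∈ Finset.Icc 1 k, ee (m * (β * p)) -
      (1 / (p : ℂ)) * ∑ n ∈ Finset.Icc 1 x, ee (n * β) =
      (1 / (p : ℂ)) * (((p : ℂ) * (∑ i ∈ Finset.range k, ee (((i : ℝ) + 1) * (β * p))) -
      ∑ i ∈ Finset.range (k * p), ee (((i : ℝ) + 1) * β)) -
      ∑ i ∈ Finset.range (x - k * p), ee ((((k * p + i : ℕ) : ℝ) + 1) * β)) := by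
    rw [h2, h3]
    generalize (∑ i ∈ Finset.range k, ee (((i : ℝ) + 1) * (β * p))) = A1
    generalize (∑ i ∈ Finset.range (k * p), ee (((i : ℝ) + 1) * β)) = A2
    generalize (∑ i ∈ Finset.range (x - k * p), ee ((((k * p + i : ℕ) : ℝ) + 1) * β)) = A3
    field_simp
    ring
  rw [h6, norm_mul, norm_div, norm_one, Complex.norm_natCast]
  have h7 : ‖((p : ℂ) * (∑ i ∈ Finset.range k, ee (((i : ℝ) + 1) * (β * p))) -
      ∑ i ∈ Finset.range (k * p), ee (((i : ℝ) + 1) * β)) -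
      ∑ i ∈ Finset.range (x - k * p), ee ((((k * p + i : ℕ) : ℝ) + 1) * β)‖ ≤
      k * (p * (2 * Real.pi * (|β| * p))) + p :=
    (norm_sub_le _ _).trans (add_le_add h1 h4)
  refine (mul_le_mul_of_nonneg_left h7 (by positivity)).trans ?_
  have h8 : 1 / (p : ℝ) * (k * (p * (2 * Real.pi * (|β| * p))) + p) =
      2 * Real.pi * (|β| * (k * p)) + 1 := by
    field_simp
  rw [h8]
  have h9 : |β| * (k * p) ≤ |β| * x := mul_le_mul_of_nonneg_left hkr (abs_nonneg _)
  have h10 := mul_le_mul_of_nonneg_left h9 (by positivity : (0 : ℝ) ≤ 2 * Real.pi)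
  linarith

/-- SUPB. The Fourier transform of the balanced function is small everywhere.
Write `N = 1 + log x`, `K = kap D ≤ ∑_{d ≤ x} 1/d ≤ N`, `W(α) = ∑_{n ≤ x} e(nα)`. If `D = ∅` the
function is `0`; otherwise `2B ≤ M ≤ x`.
`∑_n f0(n) e(nα) = ∑_{p ∈ D} ∑_{m ≤ x/p} e(m p α) - K W(α)`.
Dirichlet (`Real.exists_int_int_abs_mul_sub_le` / `Real.exists_nat_abs_mul_sub_round_le`) with
`Q = ⌊x/B⌋`: `a/q` reduced, `1 ≤ q ≤ Q`, `|α - a/q| ≤ 1/(q(Q+1)) ≤ B/(q x)`, `≤ 1/q²`.
(1) `q ≥ B`: `minor_bound` for the first sum (`q ≤ x/B`, `x/q ≤ x/B`); and (if `q ≥ 2`)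
`‖α‖ ≥ 1/q - B/(q x) ≥ 1/(2q)` so `|W(α)| ≤ q ≤ x/B` by `geom_bound`; (if `q = 1` then `B ≤ 1`, so
`|W| ≤ x = x/B`).
(2) `2 ≤ q < B`: for `p ∈ D`, `p` prime, `p > B > q` so `p ∤ q`, `a p` is not divisible by `q`, and
`|α p - a p/q| ≤ B p/(q x) ≤ B/(q M) ≤ 1/(2q)`, so `dz (α p) ≥ 1/(2q)` and the inner sum is `≤ q ≤ B`
by `geom_bound`; total `≤ |D| B ≤ (x/M) B`; `|W(α)| ≤ q ≤ B` and `K B ≤ N B ≤ N x B/M`.
(3) `q = 1 < B`: `α = a + β`, `|β| ≤ B/x`, `e(nα) = e(nβ)`. For each `p`: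
`|∑_{m ≤ x/p} e(m p β) - (1/p) ∑_{n ≤ x} e(n β)| ≤ 2π|β| x + 1 ≤ 2πB + 1`
(compare `e(m p β)` with `e(n β)` for the `p` integers `n ∈ ((m-1)p, mp]`, `‖e(s)-e(t)‖ ≤ 2π|s-t|`;
the at most `p - 1` integers `n > p ⌊x/p⌋` give `≤ 1`). Total `≤ |D| (2πB+1) ≤ (x/M)(2πB+1)`.
Any constant is fine. -/
theorem sup_bound : ∃ C : ℝ, 0 < C ∧ ∀ (x : ℕ), 2 ≤ x → ∀ (B Z M : ℝ), 1 ≤ B → 2 * B ≤ M → 1 ≤ Z →
    ∀ D : Finset ℕ, (∀ p ∈ D, p.Prime ∧ B < p ∧ (x : ℝ) ≤ Z * p ∧ M * p ≤ x) →
      SupB D x (C * (Z + x * (1 + Real.log x) / B + x * B * (1 + Real.log x) / M)) := by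
  obtain ⟨C1, hC1, hmin⟩ := minor_bound
  refine ⟨2 * C1 + 2 * Real.pi + 3, by positivity, ?_⟩
  intro x hx B Z M hB hM hZ D hD α
  have hx0 : (0 : ℝ) < x := by exact_mod_cast (by omega : 0 < x)
  have hx1 : (1 : ℝ) ≤ x := by exact_mod_cast (by omega : 1 ≤ x)
  have hN : 1 ≤ 1 + Real.log x := by linarith [Real.log_nonneg hx1]
  set N := 1 + Real.log x with hNdef
  have hB0 : 0 < B := by linarith
  have hM0 : 0 < M := by linarith
  have hpi := Real.pi_pos
  set T1 := x * N / B with hT1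
  set T2 := x * B * N / M with hT2
  have hT1n : 0 ≤ T1 := by positivity
  have hT2n : 0 ≤ T2 := by positivity
  rw [supb_decomp D (fun p hp => (hD p hp).1.one_lt.le) x α]
  rcases D.eq_empty_or_nonempty with rfl | ⟨p0, hp0⟩
  · simp only [Finset.sum_empty, norm_zero]
    positivity
  obtain ⟨hp0p, hp0B, hp0Z, hp0M⟩ := hD p0 hp0
  have hp01 : (1 : ℝ) ≤ p0 := by exact_mod_cast hp0p.one_lt.le
  have hBx : 2 * B ≤ x := by nlinarith
  have hMx : M ≤ x := by nlinarith
  have hxB : 2 ≤ x / B := by rw [le_div_iff₀ hB0]; exact hBx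
  -- kap bound
  have hsub : D ⊆ Finset.Icc 1 ⌊(x : ℝ) / M⌋₊ := by
    intro p hp
    obtain ⟨hpp, hpB, hpZ, hpM⟩ := hD p hp
    rw [Finset.mem_Icc]
    refine ⟨hpp.one_lt.le, Nat.le_floor ?_⟩
    rw [le_div_iff₀ hM0]
    linarith
  have hcard : (D.card : ℝ) ≤ x / M := by
    have h1 := Finset.card_le_card hsub
    rw [Nat.card_Icc, Nat.add_sub_cancel] at h1
    calc (D.card : ℝ) ≤ (⌊(x : ℝ) / M⌋₊ : ℝ) := by exact_mod_cast h1
      _ ≤ x / M := Nat.floor_le (by positivity)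
  have hsub2 : D ⊆ Finset.Icc 1 x := by
    refine hsub.trans (Finset.Icc_subset_Icc_right ?_)
    have : (x : ℝ) / M ≤ x := div_le_self hx0.le (by linarith)
    calc ⌊(x : ℝ) / M⌋₊ ≤ ⌊(x : ℝ)⌋₊ := Nat.floor_le_floor this
      _ = x := Nat.floor_natCast x
  have hkap : ∑ p ∈ D, (1 : ℝ) / p ≤ N := by
    have h1 : ∑ p ∈ D, (1 : ℝ) / p ≤ ∑ p ∈ Finset.Icc 1 x, (1 : ℝ) / p :=
      Finset.sum_le_sum_of_subset_of_nonneg hsub2 fun _ _ _ => by positivity
    have h2 := harmonic_le_one_add_log x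
    rw [harmonic_eq_sum_Icc] at h2
    push_cast at h2
    simp only [one_div] at h1 ⊢
    exact h1.trans h2
  -- splitting
  have hsplit : ∀ (W : ℝ), ‖∑ n ∈ Finset.Icc 1 x, ee (n * α)‖ ≤ W →
      ‖∑ p ∈ D, (∑ m ∈ Finset.Icc 1 (x / p), ee (m * (α * p)) -
        (1 / (p : ℂ)) * ∑ n ∈ Finset.Icc 1 x, ee (n * α))‖ ≤
      ∑ p ∈ D, ‖∑ m ∈ Finset.Icc 1 (x / p), ee (m * (α * p))‖ + N * W := by
    intro W hW
    have hW0 : 0 ≤ W := (norm_nonneg _).trans hW
    rw [Finset.sum_sub_distrib]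
    refine (norm_sub_le _ _).trans ?_
    refine add_le_add (norm_sum_le _ _) ?_
    rw [← Finset.sum_mul, norm_mul]
    refine mul_le_mul ?_ hW (norm_nonneg _) (by linarith)
    refine (norm_sum_le _ _).trans ?_
    refine le_trans (le_of_eq ?_) hkap
    refine Finset.sum_congr rfl fun p _ => ?_
    rw [norm_div, norm_one, Complex.norm_natCast]
  -- Dirichlet
  have hQ : 0 < ⌊(x : ℝ) / B⌋₊ := by
    rw [Nat.floor_pos]
    linarith
  obtain ⟨r, hr1, hr2⟩ := Real.exists_rat_abs_sub_le_and_den_le α hQ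
  set Q := ⌊(x : ℝ) / B⌋₊ with hQdef
  set q := r.den with hqdef
  have hq1 : 1 ≤ q := r.pos
  have hq0 : (0 : ℝ) < q := by exact_mod_cast hq1
  have hqQ : (q : ℝ) ≤ Q := by exact_mod_cast hr2
  have hQx : (Q : ℝ) ≤ x / B := Nat.floor_le (by positivity)
  have hQ1 : (x : ℝ) / B < Q + 1 := Nat.lt_floor_add_one _
  have hqx : (q : ℝ) ≤ x / B := hqQ.trans hQx
  have hrr : (r : ℝ) = (r.num : ℝ) / q := by
    rw [hqdef]
    exact_mod_cast (Rat.num_div_den r).symm
  rw [hrr] at hr1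
  have hcop : IsCoprime r.num (q : ℤ) := by
    rw [Int.isCoprime_iff_gcd_eq_one]
    exact r.reduced
  have hd1 : |α - (r.num : ℝ) / q| ≤ B / (x * q) := by
    refine hr1.trans ?_
    rw [div_le_div_iff₀ (by positivity) (by positivity)]
    have h1 : (x : ℝ) ≤ (Q + 1) * B := by
      rw [div_lt_iff₀ hB0] at hQ1
      linarith
    nlinarith
  have hd2 : |α - (r.num : ℝ) / q| ≤ 1 / (q : ℝ) ^ 2 := by
    refine hr1.trans ?_
    rw [div_le_div_iff₀ (by positivity) (by positivity)]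
    nlinarith
  have hBM : B / M ≤ 1 / 2 := by
    rw [div_le_div_iff₀ hM0 (by norm_num)]
    linarith
  have hxM1 : 1 ≤ x / M := by rw [le_div_iff₀ hM0]; linarith
  have hBT2 : N * B ≤ T2 := by
    have h1 : T2 = N * B * (x / M) := by
      rw [hT2]
      field_simp
    rw [h1]
    exact le_mul_of_one_le_right (by positivity) hxM1
  have hcB : (x / M) * B ≤ T2 := by
    have h1 : T2 = x / M * B * N := by
      rw [hT2]
      field_simp
    rw [h1]
    exact le_mul_of_one_le_right (by positivity) hN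
  -- the small fraction bound for the full sum
  have hW2 : 2 ≤ q → ‖∑ n ∈ Finset.Icc 1 x, ee (n * α)‖ ≤ q := by
    intro hq2
    refine supb_geo x α q hq1 (supb_dz r.num q hq1 ?_ α ?_)
    · intro hdvd
      have h1 : IsUnit ((q : ℕ) : ℤ) := hcop.symm.isUnit_of_dvd' (dvd_refl _) hdvd
      rw [Int.isUnit_iff] at h1
      omega
    · refine hd1.trans ?_
      rw [div_le_div_iff₀ (by positivity) (by positivity)]
      nlinarith
  by_cases hqB : B ≤ q
  · -- case 1
    have hqxn : q ≤ x := by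
      have : (q : ℝ) ≤ x := hqx.trans (div_le_self hx0.le hB)
      exact_mod_cast this
    have h1 := hmin x hx α r.num q hq1 hqxn hcop hd2 Z M hZ (by linarith) D
      (fun p hp => ⟨(hD p hp).1.one_lt.le, (hD p hp).2.2.1, (hD p hp).2.2.2⟩)
    have hW : ‖∑ n ∈ Finset.Icc 1 x, ee (n * α)‖ ≤ x / B := by
      by_cases hq2 : 2 ≤ q
      · exact (hW2 hq2).trans hqx
      · have h2 : (q : ℝ) = 1 := by
          have : q = 1 := by omega
          rw [this]
          norm_num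
        have h3 : B = 1 := by linarith
        rw [h3, div_one]
        exact (geom_bound x α).1
    refine (hsplit _ hW).trans ?_
    have h4 : q * N ≤ T1 := by
      have : T1 = x / B * N := by rw [hT1]; ring
      rw [this]
      exact mul_le_mul_of_nonneg_right hqx (by linarith)
    have h5 : x / q * N ≤ T1 := by
      have : T1 = x / B * N := by rw [hT1]; ring
      rw [this]
      refine mul_le_mul_of_nonneg_right ?_ (by linarith)
      exact div_le_div_of_nonneg_left hx0.le hB0 hqB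
    have h6 : x / M * N ≤ T2 := by
      have : T2 = x / M * N * B := by rw [hT2]; ring
      rw [this]
      exact le_mul_of_one_le_right (by positivity) hB
    have h7 : N * (x / B) ≤ T1 := le_of_eq (by rw [hT1]; ring)
    have h8 : C1 * (Z + q * N + x / q * N + x / M * N) ≤ C1 * (Z + T1 + T1 + T2) := by
      refine mul_le_mul_of_nonneg_left ?_ hC1.le
      linarith
    have h9 : 0 ≤ C1 * Z := by positivity
    have h10 : 0 ≤ C1 * T1 := by positivity
    have h11 : 0 ≤ C1 * T2 := by positivity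
    have h12 : 0 ≤ Real.pi * Z := by positivity
    have h13 : 0 ≤ Real.pi * T1 := by positivity
    have h14 : 0 ≤ Real.pi * T2 := by positivity
    nlinarith
  push Not at hqB
  by_cases hq2 : 2 ≤ q
  · -- case 2
    have h1 : ∀ p ∈ D, ‖∑ m ∈ Finset.Icc 1 (x / p), ee (m * (α * p))‖ ≤ B := by
      intro p hp
      obtain ⟨hpp, hpB, hpZ, hpM⟩ := hD p hp
      have hpr : (0 : ℝ) < p := by exact_mod_cast hpp.pos
      refine le_trans (supb_geo _ _ q hq1 (supb_dz (r.num * p) q hq1 ?_ _ ?_)) hqB.le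
      · intro hdvd
        have h2 : (q : ℤ) ∣ (p : ℤ) := hcop.symm.dvd_of_dvd_mul_left hdvd
        have h3 : q ∣ p := by exact_mod_cast h2
        rcases (Nat.dvd_prime hpp).mp h3 with h4 | h4
        · omega
        · rw [h4] at hqB
          linarith
      · have h2 : α * p - ((r.num * p : ℤ) : ℝ) / q = (α - (r.num : ℝ) / q) * p := by
          push_cast
          ring
        rw [h2, abs_mul, abs_of_pos hpr]
        refine (mul_le_mul_of_nonneg_right hd1 hpr.le).trans ?_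
        rw [div_mul_eq_mul_div, div_le_div_iff₀ (by positivity) (by positivity)]
        have h3 : 2 * (B * p) ≤ x := by nlinarith
        nlinarith
    have h2 : ∑ p ∈ D, ‖∑ m ∈ Finset.Icc 1 (x / p), ee (m * (α * p))‖ ≤ T2 := by
      refine (Finset.sum_le_sum h1).trans ?_
      rw [Finset.sum_const, nsmul_eq_mul]
      exact (mul_le_mul_of_nonneg_right hcard hB0.le).trans hcB
    refine (hsplit _ ((hW2 hq2).trans hqB.le)).trans ?_
    have h9 : 0 ≤ C1 * Z := by positivity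
    have h10 : 0 ≤ C1 * T1 := by positivity
    have h11 : 0 ≤ C1 * T2 := by positivity
    have h12 : 0 ≤ Real.pi * Z := by positivity
    have h13 : 0 ≤ Real.pi * T1 := by positivity
    have h14 : 0 ≤ Real.pi * T2 := by positivity
    nlinarith
  · -- case 3
    have hqe : q = 1 := by omega
    have hβ : |α - (r.num : ℝ)| * x ≤ B := by
      have h1 := hd1
      rw [hqe] at h1
      simp only [Nat.cast_one, div_one, mul_one] at h1
      rwa [le_div_iff₀ hx0] at h1
    set β := α - (r.num : ℝ) with hβdef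
    have hee : ∀ (n : ℕ) (c : ℕ), ee (n * (α * c)) = ee (n * (β * c)) := by
      intro n c
      have h1 : (n : ℝ) * (α * c) = n * (β * c) + ((n * r.num * c : ℤ) : ℝ) := by
        rw [hβdef]
        push_cast
        ring
      rw [h1, geo_add, geo_int, mul_one]
    have hee' : ∀ (n : ℕ), ee (n * α) = ee (n * β) := by
      intro n
      have := hee n 1
      simpa using this
    simp_rw [hee, hee']
    refine (norm_sum_le _ _).trans ?_
    have h1 : ∀ p ∈ D, ‖∑ m ∈ Finset.Icc 1 (x / p), ee (m * (β * p)) -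
        (1 / (p : ℂ)) * ∑ n ∈ Finset.Icc 1 x, ee (n * β)‖ ≤ (2 * Real.pi + 1) * B := by
      intro p hp
      refine (supb_block β p x (hD p hp).1.one_lt.le).trans ?_
      nlinarith
    refine (Finset.sum_le_sum h1).trans ?_
    rw [Finset.sum_const, nsmul_eq_mul]
    have h2 : (D.card : ℝ) * ((2 * Real.pi + 1) * B) ≤ (2 * Real.pi + 1) * T2 := by
      have h3 : (D.card : ℝ) * B ≤ T2 := (mul_le_mul_of_nonneg_right hcard hB0.le).trans hcB
      nlinarith
    have h9 : 0 ≤ C1 * Z := by positivity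
    have h10 : 0 ≤ C1 * T1 := by positivity
    have h11 : 0 ≤ C1 * T2 := by positivity
    have h12 : 0 ≤ Real.pi * Z := by positivity
    have h13 : 0 ≤ Real.pi * T1 := by positivity
    have h14 : 0 ≤ Real.pi * T2 := by positivity
    nlinarith

end Pool.Agent.TFC
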