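import Pool.Agent.TFC.KAPB
import Pool.Agent.TFC.SUPB

set_option autoImplicit false

namespace Pool.Agent.TFC

open Finset Filter

/-- DDG. `sup_bound` with `B = (log x)^28`, `M = (log x)^60`, `Z = zz x`; `E = EE x = ⌊(log x)^6⌋`. -/
theorem good_DD : ∀ᶠ x : ℕ in atTop, Good (DD x) x (EE x) (x / (Real.log x) ^ 26) := by
  obtain ⟨C, hC, hsup⟩ := sup_bound
  have hlog : Tendsto (fun x : ℕ => Real.log x) atTop atTop :=
    Real.tendsto_log_atTop.comp tendsto_natCast_atTop_atTop
  filter_upwards [zz_size, kap_upper, hlog.eventually_ge_atTop (max 2 (5 * C)),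
    eventually_ge_atTop 3] with x hx hk hxL hx3
  obtain ⟨h100, h8, hz⟩ := hx
  set L := Real.log x with hLdef
  have hL2 : 2 ≤ L := (le_max_left _ _).trans hxL
  have hLC : 5 * C ≤ L := (le_max_right _ _).trans hxL
  have hL1 : 1 ≤ L := by linarith
  have hL0 : 0 < L := by linarith
  have hx0 : (0 : ℝ) < x := by exact_mod_cast (by omega : 0 < x)
  have hzr : (100 : ℝ) ≤ zz x := by exact_mod_cast hz
  have h8r : ((zz x : ℕ) : ℝ) ^ 8 ≤ x := by exact_mod_cast h8
  have hbig : ∀ p ∈ DD x, (zz x) ^ 7 < p := by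
    intro p hp
    simp only [DD, Finset.mem_filter, Finset.mem_Icc] at hp
    have h1 : (zz x) * (zz x) ^ 7 < (zz x) * p := by
      calc (zz x) * (zz x) ^ 7 = (zz x) ^ 8 := by ring
        _ ≤ x := h8
        _ < (zz x) * p := hp.2.2.1
    exact lt_of_mul_lt_mul_left h1 (Nat.zero_le _)
  have hz7 : zz x ≤ (zz x) ^ 7 := Nat.le_self_pow (by norm_num) _
  refine ⟨?_, ?_, ?_, hk.1, ?_, ?_⟩
  · intro p hp
    simp only [DD, Finset.mem_filter, Finset.mem_Icc] at hp
    exact hp.2.1
  · intro p hp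
    have h1 := hbig p hp
    have h2 : EE x ≤ zz x := by
      have h3 : (EE x : ℝ) ≤ (zz x : ℝ) := by
        calc (EE x : ℝ) ≤ L ^ 6 := Nat.floor_le (by positivity)
          _ ≤ L ^ 100 := pow_le_pow_right₀ hL1 (by norm_num)
          _ ≤ zz x := h100
      exact_mod_cast h3
    omega
  · intro p hp
    have h1 := hbig p hp
    simp only [DD, Finset.mem_filter, Finset.mem_Icc] at hp
    have h2 : zz x * p ≤ p * p := Nat.mul_le_mul_right _ (by omega)
    omega
  · -- the sup bound
    have h1 := hsup x (by omega) (L ^ 28) (zz x) (L ^ 60) (one_le_pow₀ hL1) ?_ (by linarith) (DD x) ?_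
    · intro α
      refine (h1 α).trans ?_
      rw [← hLdef]
      have e26 : (0 : ℝ) < L ^ 26 := by positivity
      have t1 : (zz x : ℝ) ≤ x / L ^ 27 := by
        rw [le_div_iff₀ (by positivity)]
        have h27 : L ^ 27 ≤ zz x := (pow_le_pow_right₀ hL1 (by norm_num)).trans h100
        calc (zz x : ℝ) * L ^ 27 ≤ (zz x : ℝ) * zz x := mul_le_mul_of_nonneg_left h27 (by linarith)
          _ = (zz x : ℝ) ^ 2 := by ring
          _ ≤ (zz x : ℝ) ^ 8 := pow_le_pow_right₀ (by linarith) (by norm_num)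
          _ ≤ x := h8r
      have t2 : (x : ℝ) * (1 + L) / L ^ 28 ≤ 2 * (x / L ^ 27) := by
        rw [div_le_iff₀ (by positivity)]
        have : 2 * ((x : ℝ) / L ^ 27) * L ^ 28 = x * (2 * L) := by
          field_simp
        rw [this]
        exact mul_le_mul_of_nonneg_left (by linarith) hx0.le
      have t3 : (x : ℝ) * L ^ 28 * (1 + L) / L ^ 60 ≤ 2 * (x / L ^ 27) := by
        rw [div_le_iff₀ (by positivity)]
        have : 2 * ((x : ℝ) / L ^ 27) * L ^ 60 = x * L ^ 28 * (2 * L ^ 5) := by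
          field_simp
        rw [this]
        refine mul_le_mul_of_nonneg_left ?_ (by positivity)
        have h5 : L ≤ L ^ 5 := le_self_pow₀ hL1 (by norm_num)
        linarith
      calc C * ((zz x : ℝ) + x * (1 + L) / L ^ 28 + x * L ^ 28 * (1 + L) / L ^ 60)
          ≤ C * (5 * (x / L ^ 27)) := by
            refine mul_le_mul_of_nonneg_left ?_ hC.le
            linarith
        _ = (5 * C) * (x / L ^ 27) := by ring
        _ ≤ L * (x / L ^ 27) := mul_le_mul_of_nonneg_right hLC (by positivity)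
        _ = x / L ^ 26 := by field_simp
    · calc 2 * L ^ 28 ≤ L * L ^ 28 := mul_le_mul_of_nonneg_right hL2 (by positivity)
        _ = L ^ 29 := by ring
        _ ≤ L ^ 60 := pow_le_pow_right₀ hL1 (by norm_num)
    · intro p hp
      have h1 := hbig p hp
      simp only [DD, Finset.mem_filter, Finset.mem_Icc] at hp
      refine ⟨hp.2.1, ?_, ?_, hp.2.2.2⟩
      · have h2 : (zz x : ℝ) < p := by exact_mod_cast (by omega : zz x < p)
        calc L ^ 28 ≤ L ^ 100 := pow_le_pow_right₀ hL1 (by norm_num)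
          _ ≤ zz x := h100
          _ < p := h2
      · exact_mod_cast hp.2.2.1.le
  · positivity

end Pool.Agent.TFC
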