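import Mathlib

set_option autoImplicit false

/-! TFC (MP_2068fa_nt): every integer of `[1,x]` lies in at least two of suitable residue classes
`a_p mod p`, `p ≤ x` prime. Definitions shared by all modules. -/

namespace Pool.Agent.TFC

open Finset

/-- the primes `q ≤ z` -/
def pz (z : ℕ) : Finset ℕ := (Finset.range (z + 1)).filter Nat.Prime

/-- `∏_{q ≤ z} (1 - 1/q)` -/
noncomputable def VV (z : ℕ) : ℝ := ∏ q ∈ pz z, (1 - 1 / (q : ℝ))

/-- sample space: one residue `ω q ∈ [0,q)` for every prime `q ≤ z` -/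
def OM (z : ℕ) : Finset ({q : ℕ // q ∈ pz z} → ℕ) :=
  Fintype.piFinset (fun q => Finset.range q.1)

/-- expectation over the sample space (uniform) -/
noncomputable def Ex (z : ℕ) (f : ({q : ℕ // q ∈ pz z} → ℕ) → ℝ) : ℝ :=
  (∑ ω ∈ OM z, f ω) / ((OM z).card : ℝ)

/-- number of small primes whose class contains `n` -/
def sc (z : ℕ) (ω : {q : ℕ // q ∈ pz z} → ℕ) (n : ℕ) : ℕ :=
  ((Finset.univ : Finset {q : ℕ // q ∈ pz z}).filter (fun q => n % q.1 = ω q)).card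

/-- `e(t) = exp(2 π i t)` -/
noncomputable def ee (t : ℝ) : ℂ := Complex.exp (((2 * Real.pi * t : ℝ) : ℂ) * Complex.I)

/-- distance to the nearest integer -/
noncomputable def dz (t : ℝ) : ℝ := |t - (round t : ℝ)|

/-- `∑_{p ∈ D} 1/p` -/
noncomputable def kap (D : Finset ℕ) : ℝ := ∑ p ∈ D, (1 : ℝ) / p

/-- number of elements of `D` dividing `n`, for `1 ≤ n ≤ x`, and zero outside `[1,x]` -/
noncomputable def ff (D : Finset ℕ) (x : ℕ) (n : ℤ) : ℝ :=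
  if 1 ≤ n ∧ n ≤ x then ((D.filter (fun p : ℕ => (p : ℤ) ∣ n)).card : ℝ) else 0

/-- the balanced function `ff - kap` on `[1,x]`, and zero outside `[1,x]` -/
noncomputable def f0 (D : Finset ℕ) (x : ℕ) (n : ℤ) : ℝ :=
  if 1 ≤ n ∧ n ≤ x then ((D.filter (fun p : ℕ => (p : ℤ) ∣ n)).card : ℝ) - kap D else 0

/-- `S` bounds the Fourier transform of `f0` everywhere -/
def SupB (D : Finset ℕ) (x : ℕ) (S : ℝ) : Prop :=
  ∀ α : ℝ, ‖∑ n ∈ Finset.Icc (1 : ℤ) x, ((f0 D x n : ℝ) : ℂ) * ee (n * α)‖ ≤ S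

/-- standing hypotheses on `D` -/
structure Good (D : Finset ℕ) (x E : ℕ) (S : ℝ) : Prop where
  prime : ∀ p ∈ D, p.Prime
  big : ∀ p ∈ D, E < p
  sq : ∀ p ∈ D, x < p * p
  kle : kap D ≤ 2
  sup : SupB D x S
  snn : 0 ≤ S

/-- the weight `∏_{q ∣ d} (1 + 30/q)` -/
noncomputable def HH (d : ℕ) : ℝ := ∏ q ∈ d.primeFactors, (1 + 30 / (q : ℝ))

/-- its divisor-sum coefficients -/
noncomputable def gg (e : ℕ) : ℝ :=
  if Squarefree e then ∏ q ∈ e.primeFactors, (30 / (q : ℝ)) else 0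

/-- `∏_{q ≤ z, q ∣ d} (1-1/q)⁻¹` -/
noncomputable def hh (z d : ℕ) : ℝ := ∏ q ∈ (pz z).filter (fun q => q ∣ d), (1 - 1 / (q : ℝ))⁻¹

/-! ### the parameters -/

/-- `z = exp (log x / loglog x)` -/
noncomputable def zz (x : ℕ) : ℕ := ⌊Real.exp (Real.log x / Real.log (Real.log x))⌋₊

/-- the primes `p` with `x / z < p ≤ x / (log x)^60` -/
noncomputable def DD (x : ℕ) : Finset ℕ :=
  (Finset.Icc 1 x).filter (fun p => p.Prime ∧ x < zz x * p ∧ (Real.log x) ^ 60 * (p : ℝ) ≤ x)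

/-- the primes `p` with `x/16 < p ≤ x/4` -/
def PP (x : ℕ) : Finset ℕ := (Finset.Icc 1 x).filter (fun p => p.Prime ∧ x < 16 * p ∧ 4 * p ≤ x)

/-- `⌊(log x)^6⌋` -/
noncomputable def EE (x : ℕ) : ℕ := ⌊(Real.log x) ^ 6⌋₊

/-- integers up to `x` with a prime factor in `DD x` which avoid all small classes -/
noncomputable def SS (x : ℕ) (ω : {q : ℕ // q ∈ pz (zz x)} → ℕ) : Finset ℕ :=
  (Finset.Icc 1 x).filter (fun n => (∃ p ∈ DD x, p ∣ n) ∧ sc (zz x) ω n = 0)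

/-- the pairs `(p, n)` with `n, n + 2p ∈ SS` -/
noncomputable def EG (x : ℕ) (ω : {q : ℕ // q ∈ pz (zz x)} → ℕ) : Finset (ℕ × ℕ) :=
  (PP x ×ˢ Finset.Icc 1 x).filter (fun e => e.2 ∈ SS x ω ∧ e.2 + 2 * e.1 ∈ SS x ω)

/-- pairwise disjoint pairs with pairwise distinct primes -/
def Disj (G : Finset (ℕ × ℕ)) : Prop :=
  ∀ e ∈ G, ∀ e' ∈ G, e ≠ e' → e.1 ≠ e'.1 ∧ e.2 ≠ e'.2 ∧ e.2 + 2 * e.1 ≠ e'.2 + 2 * e'.1 ∧
    e.2 ≠ e'.2 + 2 * e'.1

open scoped Classical in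
/-- integers up to `x` with exactly one prime factor `> z` (counted with multiplicity) -/
noncomputable def N1 (x z : ℕ) : Finset ℕ :=
  (Finset.Icc 1 x).filter (fun n => ∃ p m : ℕ, n = m * p ∧ p.Prime ∧ z < p ∧
    ∀ q : ℕ, q.Prime → q ∣ m → q ≤ z)

open scoped Classical in
/-- integers up to `x` all of whose prime factors are `≤ z` or `> x/K` -/
noncomputable def N2 (x z K : ℕ) : Finset ℕ :=
  (Finset.Icc 1 x).filter (fun n => ∀ q : ℕ, q.Prime → q ∣ n → q ≤ z ∨ x < K * q)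

open scoped Classical in
/-- integers up to `x` divisible by the square of a prime `> z` -/
noncomputable def N3 (x z : ℕ) : Finset ℕ :=
  (Finset.Icc 1 x).filter (fun n => ∃ p : ℕ, p.Prime ∧ z < p ∧ p * p ∣ n)

end Pool.Agent.TFC
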