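import Pool.Agent.TFC.Defs

set_option autoImplicit false

namespace Pool.Agent.TFC

open Finset

/-- MCH. A maximal family `G` of disjoint pairs with distinct primes: every `e ∈ Eg` conflicts with (or is) some
`g ∈ G`, so `|Eg| ≤ ∑_{g ∈ G} (X(g.1) + deg(g.2) + deg(g.2+2g.1))` with `X p = #{e : e.1 = p}`,
`deg v = #{e : e.2 = v} + #{e : e.2 + 2e.1 = v}`; Cauchy-Schwarz, and the primes `g.1` are distinct, the
vertices `g.2, g.2+2g.1` are all distinct. -/
theorem matching (P V : Finset ℕ) (Eg : Finset (ℕ × ℕ)) (hP : ∀ e ∈ Eg, e.1 ∈ P ∧ 1 ≤ e.1)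
    (hV : ∀ e ∈ Eg, e.2 ∈ V ∧ e.2 + 2 * e.1 ∈ V) :
    ∃ G ⊆ Eg, Disj G ∧
      (Eg.card : ℝ) ^ 2 ≤ 6 * G.card *
        (∑ p ∈ P, ((Eg.filter (fun e => e.1 = p)).card : ℝ) ^ 2 +
         ∑ v ∈ V, ((Eg.filter (fun e => e.2 = v)).card : ℝ) ^ 2 +
         ∑ v ∈ V, ((Eg.filter (fun e => e.2 + 2 * e.1 = v)).card : ℝ) ^ 2) := by
  classical
  obtain ⟨G, hG, hmax⟩ := Finset.exists_max_image (Eg.powerset.filter (fun G => Disj G))
    Finset.card ⟨∅, by simp [Disj]⟩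
  rw [Finset.mem_filter, Finset.mem_powerset] at hG
  obtain ⟨hGE, hGD⟩ := hG
  refine ⟨G, hGE, hGD, ?_⟩
  have hcov : Eg ⊆ G.biUnion (fun g => Eg.filter (fun e => e.1 = g.1) ∪
      (Eg.filter (fun e => e.2 = g.2) ∪ (Eg.filter (fun e => e.2 + 2 * e.1 = g.2 + 2 * g.1) ∪
      (Eg.filter (fun e => e.2 = g.2 + 2 * g.1) ∪ Eg.filter (fun e => e.2 + 2 * e.1 = g.2))))) := by
    intro e he
    by_contra hne
    simp only [Finset.mem_biUnion, Finset.mem_union, Finset.mem_filter, he, true_and, not_exists,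
      not_and, not_or] at hne
    have heG : e ∉ G := fun h => (hne e h).1 rfl
    have hD : Disj (insert e G) := by
      intro u hu v hv huv
      rw [Finset.mem_insert] at hu hv
      rcases hu with rfl | hu
      · rcases hv with rfl | hv
        · exact absurd rfl huv
        · obtain ⟨h1, h2, h3, h4, h5⟩ := hne v hv
          exact ⟨h1, h2, h3, h4⟩
      · rcases hv with rfl | hv
        · obtain ⟨h1, h2, h3, h4, h5⟩ := hne u hu
          exact ⟨fun h => h1 h.symm, fun h => h2 h.symm, fun h => h3 h.symm, fun h => h5 h.symm⟩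
        · exact hGD u hu v hv huv
    have h := hmax (insert e G) (by
      rw [Finset.mem_filter, Finset.mem_powerset]
      exact ⟨Finset.insert_subset he hGE, hD⟩)
    rw [Finset.card_insert_of_notMem heG] at h
    omega
  have hcardN : Eg.card ≤ ∑ g ∈ G, ((Eg.filter (fun e => e.1 = g.1)).card +
      ((Eg.filter (fun e => e.2 = g.2)).card +
      ((Eg.filter (fun e => e.2 + 2 * e.1 = g.2 + 2 * g.1)).card +
      ((Eg.filter (fun e => e.2 = g.2 + 2 * g.1)).card +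
      (Eg.filter (fun e => e.2 + 2 * e.1 = g.2)).card)))) := by
    refine (Finset.card_le_card hcov).trans (Finset.card_biUnion_le.trans ?_)
    refine Finset.sum_le_sum (fun g _ => ?_)
    refine (Finset.card_union_le _ _).trans (Nat.add_le_add_left ?_ _)
    refine (Finset.card_union_le _ _).trans (Nat.add_le_add_left ?_ _)
    refine (Finset.card_union_le _ _).trans (Nat.add_le_add_left ?_ _)
    exact Finset.card_union_le _ _
  set X : ℕ → ℝ := fun p => ((Eg.filter (fun e => e.1 = p)).card : ℝ) with hX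
  set a : ℕ → ℝ := fun v => ((Eg.filter (fun e => e.2 = v)).card : ℝ) with ha
  set b : ℕ → ℝ := fun v => ((Eg.filter (fun e => e.2 + 2 * e.1 = v)).card : ℝ) with hb
  have hcard : (Eg.card : ℝ) ≤ ∑ g ∈ G, (X g.1 + (a g.2 + (b (g.2 + 2 * g.1) +
      (a (g.2 + 2 * g.1) + b g.2)))) := by
    have h := (Nat.cast_le (α := ℝ)).2 hcardN
    rw [Nat.cast_sum] at h
    simp only [Nat.cast_add] at h
    exact h
  have hsq : (Eg.card : ℝ) ^ 2 ≤ G.card * ∑ g ∈ G, (X g.1 + (a g.2 + (b (g.2 + 2 * g.1) +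
      (a (g.2 + 2 * g.1) + b g.2)))) ^ 2 :=
    (pow_le_pow_left₀ (Nat.cast_nonneg _) hcard 2).trans sq_sum_le_card_mul_sum_sq
  have h5 : ∑ g ∈ G, (X g.1 + (a g.2 + (b (g.2 + 2 * g.1) +
      (a (g.2 + 2 * g.1) + b g.2)))) ^ 2 ≤ 5 * (∑ g ∈ G, X g.1 ^ 2 +
        (∑ g ∈ G, a g.2 ^ 2 + ∑ g ∈ G, a (g.2 + 2 * g.1) ^ 2) +
        (∑ g ∈ G, b g.2 ^ 2 + ∑ g ∈ G, b (g.2 + 2 * g.1) ^ 2)) := by
    simp only [← Finset.sum_add_distrib, Finset.mul_sum]
    refine Finset.sum_le_sum (fun g _ => ?_)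
    generalize X g.1 = x1
    generalize a g.2 = x2
    generalize b (g.2 + 2 * g.1) = x3
    generalize a (g.2 + 2 * g.1) = x4
    generalize b g.2 = x5
    nlinarith [sq_nonneg (x1 - x2), sq_nonneg (x1 - x3), sq_nonneg (x1 - x4), sq_nonneg (x1 - x5),
      sq_nonneg (x2 - x3), sq_nonneg (x2 - x4), sq_nonneg (x2 - x5), sq_nonneg (x3 - x4),
      sq_nonneg (x3 - x5), sq_nonneg (x4 - x5)]
  have hXs : ∑ g ∈ G, X g.1 ^ 2 ≤ ∑ p ∈ P, X p ^ 2 := by
    rw [← Finset.sum_image (s := G) (g := fun g => g.1) (f := fun p => X p ^ 2)]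
    · refine Finset.sum_le_sum_of_subset_of_nonneg ?_ (fun _ _ _ => sq_nonneg _)
      intro p hp
      obtain ⟨g, hg, rfl⟩ := Finset.mem_image.1 hp
      exact (hP g (hGE hg)).1
    · intro g hg g' hg' h
      by_contra hne
      exact (hGD g hg g' hg' hne).1 h
  have hV2 : ∀ F : ℕ → ℝ, (∀ v, 0 ≤ F v) →
      ∑ g ∈ G, F g.2 + ∑ g ∈ G, F (g.2 + 2 * g.1) ≤ ∑ v ∈ V, F v := by
    intro F hF
    rw [← Finset.sum_image (s := G) (g := fun g => g.2) (f := fun p => F p),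
      ← Finset.sum_image (s := G) (g := fun g => g.2 + 2 * g.1) (f := fun p => F p),
      ← Finset.sum_union]
    · refine Finset.sum_le_sum_of_subset_of_nonneg ?_ (fun _ _ _ => hF _)
      intro p hp
      rcases Finset.mem_union.1 hp with hp | hp
      · obtain ⟨g, hg, rfl⟩ := Finset.mem_image.1 hp
        exact (hV g (hGE hg)).1
      · obtain ⟨g, hg, rfl⟩ := Finset.mem_image.1 hp
        exact (hV g (hGE hg)).2
    · rw [Finset.disjoint_left]
      intro p hp hp'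
      obtain ⟨g, hg, rfl⟩ := Finset.mem_image.1 hp
      obtain ⟨g', hg', h⟩ := Finset.mem_image.1 hp'
      by_cases hgg : g = g'
      · subst hgg
        have := (hP g (hGE hg)).2
        omega
      · exact (hGD g hg g' hg' hgg).2.2.2 h.symm
    · intro g hg g' hg' h
      by_contra hne
      exact (hGD g hg g' hg' hne).2.2.1 h
    · intro g hg g' hg' h
      by_contra hne
      exact (hGD g hg g' hg' hne).2.1 h
  have hA := hV2 (fun v => a v ^ 2) (fun v => sq_nonneg _)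
  have hB := hV2 (fun v => b v ^ 2) (fun v => sq_nonneg _)
  have hGc : (0 : ℝ) ≤ G.card := Nat.cast_nonneg _
  have hT : (0 : ℝ) ≤ ∑ p ∈ P, X p ^ 2 + ∑ v ∈ V, a v ^ 2 + ∑ v ∈ V, b v ^ 2 :=
    add_nonneg (add_nonneg (Finset.sum_nonneg fun _ _ => sq_nonneg _)
      (Finset.sum_nonneg fun _ _ => sq_nonneg _)) (Finset.sum_nonneg fun _ _ => sq_nonneg _)
  have hfin : ∀ c T : ℝ, 0 ≤ c → 0 ≤ T → c * (5 * T) ≤ 6 * c * T := by
    intro c T hc hT
    nlinarith [mul_nonneg hc hT]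
  calc (Eg.card : ℝ) ^ 2 ≤ G.card * ∑ g ∈ G, (X g.1 + (a g.2 + (b (g.2 + 2 * g.1) +
      (a (g.2 + 2 * g.1) + b g.2)))) ^ 2 := hsq
    _ ≤ G.card * (5 * (∑ p ∈ P, X p ^ 2 + ∑ v ∈ V, a v ^ 2 + ∑ v ∈ V, b v ^ 2)) := by
        refine mul_le_mul_of_nonneg_left (h5.trans ?_) hGc
        refine mul_le_mul_of_nonneg_left ?_ (by norm_num)
        exact add_le_add (add_le_add hXs hA) hB
    _ ≤ 6 * G.card * (∑ p ∈ P, X p ^ 2 + ∑ v ∈ V, a v ^ 2 + ∑ v ∈ V, b v ^ 2) :=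
        hfin _ _ hGc hT

end Pool.Agent.TFC
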