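import Pool.Agent.TFC.ZPRA
import Pool.Agent.PNT.Main

set_option autoImplicit false

namespace Pool.Agent.TFC

open Finset Filter

/-- `∑_{p ≤ y} log p / p` -/
private noncomputable def kapaG (y : ℝ) : ℝ :=
  ∑ p ∈ (Finset.Ioc 0 ⌊y⌋₊).filter Nat.Prime, Real.log p / p

private theorem kapaG_sub {y w : ℝ} (h : y ≤ w) :
    kapaG w - kapaG y = ∑ p ∈ (Finset.Ioc ⌊y⌋₊ ⌊w⌋₊).filter Nat.Prime, Real.log p / p := by
  have hf : ⌊y⌋₊ ≤ ⌊w⌋₊ := Nat.floor_le_floor h
  have h1 : (Finset.Ioc 0 ⌊w⌋₊).filter Nat.Prime =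
      (Finset.Ioc 0 ⌊y⌋₊).filter Nat.Prime ∪ (Finset.Ioc ⌊y⌋₊ ⌊w⌋₊).filter Nat.Prime := by
    rw [← Finset.filter_union, Finset.Ioc_union_Ioc_eq_Ioc (Nat.zero_le _) hf]
  have h2 : Disjoint ((Finset.Ioc 0 ⌊y⌋₊).filter Nat.Prime)
      ((Finset.Ioc ⌊y⌋₊ ⌊w⌋₊).filter Nat.Prime) := by
    refine Finset.disjoint_filter_filter ?_
    rw [Finset.disjoint_left]
    intro a ha hb
    rw [Finset.mem_Ioc] at ha hb
    omega
  rw [kapaG, kapaG, h1, Finset.sum_union h2]
  ring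

private theorem kapaG_mono {y w : ℝ} (h : y ≤ w) : kapaG y ≤ kapaG w := by
  have h1 := kapaG_sub h
  have h2 : 0 ≤ ∑ p ∈ (Finset.Ioc ⌊y⌋₊ ⌊w⌋₊).filter Nat.Prime, Real.log p / p :=
    Finset.sum_nonneg fun p _ => div_nonneg (Real.log_natCast_nonneg p) (Nat.cast_nonneg p)
  linarith

private theorem kapa_theta_sub {y w : ℝ} (h : y ≤ w) :
    Chebyshev.theta w - Chebyshev.theta y =
      ∑ p ∈ (Finset.Ioc ⌊y⌋₊ ⌊w⌋₊).filter Nat.Prime, Real.log p := by
  have hf : ⌊y⌋₊ ≤ ⌊w⌋₊ := Nat.floor_le_floor h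
  have h1 : (Finset.Ioc 0 ⌊w⌋₊).filter Nat.Prime =
      (Finset.Ioc 0 ⌊y⌋₊).filter Nat.Prime ∪ (Finset.Ioc ⌊y⌋₊ ⌊w⌋₊).filter Nat.Prime := by
    rw [← Finset.filter_union, Finset.Ioc_union_Ioc_eq_Ioc (Nat.zero_le _) hf]
  have h2 : Disjoint ((Finset.Ioc 0 ⌊y⌋₊).filter Nat.Prime)
      ((Finset.Ioc ⌊y⌋₊ ⌊w⌋₊).filter Nat.Prime) := by
    refine Finset.disjoint_filter_filter ?_
    rw [Finset.disjoint_left]
    intro a ha hb
    rw [Finset.mem_Ioc] at ha hb
    omega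
  rw [Chebyshev.theta, Chebyshev.theta, h1, Finset.sum_union h2]
  ring

/-- one dyadic interval -/
private theorem kapa_step : ∃ y₀ : ℝ, 1 ≤ y₀ ∧ ∀ y : ℝ, y₀ ≤ y → 1 / 4 ≤ kapaG (2 * y) - kapaG y := by
  have h1 : ∀ᶠ y : ℝ in atTop, |Chebyshev.theta y / y - 1| < 1 / 8 := by
    have := Pool.Agent.PNT.tendsto_theta_div
    have h := this.sub_const 1
    rw [sub_self] at h
    exact (Metric.tendsto_nhds.1 h (1 / 8) (by norm_num)).mono fun y hy => by
      simpa [Real.dist_eq] using hy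
  obtain ⟨Y, hY⟩ := eventually_atTop.1 h1
  refine ⟨max Y 1, le_max_right _ _, fun y hy => ?_⟩
  have hy1 : 1 ≤ y := (le_max_right _ _).trans hy
  have hyY : Y ≤ y := (le_max_left _ _).trans hy
  have hy0 : 0 < y := by linarith
  have h2 := hY y hyY
  have h3 := hY (2 * y) (by linarith)
  rw [abs_lt] at h2 h3
  have h4 : Chebyshev.theta y ≤ (9 / 8) * y := by
    have : Chebyshev.theta y / y ≤ 9 / 8 := by linarith
    rwa [div_le_iff₀ hy0] at this
  have h5 : (7 / 8) * (2 * y) ≤ Chebyshev.theta (2 * y) := by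
    have : 7 / 8 ≤ Chebyshev.theta (2 * y) / (2 * y) := by linarith
    rwa [le_div_iff₀ (by linarith)] at this
  have h6 := kapa_theta_sub (y := y) (w := 2 * y) (by linarith)
  rw [kapaG_sub (by linarith)]
  have h7 : (∑ p ∈ (Finset.Ioc ⌊y⌋₊ ⌊2 * y⌋₊).filter Nat.Prime, Real.log p) / (2 * y) ≤
      ∑ p ∈ (Finset.Ioc ⌊y⌋₊ ⌊2 * y⌋₊).filter Nat.Prime, Real.log p / p := by
    rw [Finset.sum_div]
    refine Finset.sum_le_sum fun p hp => ?_
    rw [Finset.mem_filter, Finset.mem_Ioc] at hp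
    have hp0 : (0 : ℝ) < p := by exact_mod_cast hp.2.pos
    have hp2 : (p : ℝ) ≤ 2 * y :=
      (Nat.cast_le.2 hp.1.2).trans (Nat.floor_le (by linarith))
    exact div_le_div_of_nonneg_left (Real.log_natCast_nonneg p) hp0 hp2
  refine le_trans ?_ h7
  rw [← h6, le_div_iff₀ (by linarith)]
  linarith

private theorem kapa_iter (y₀ : ℝ) (h₀ : 1 ≤ y₀)
    (h : ∀ y : ℝ, y₀ ≤ y → 1 / 4 ≤ kapaG (2 * y) - kapaG y) (y : ℝ) (hy : y₀ ≤ y) (J : ℕ) :
    (J : ℝ) / 4 ≤ kapaG (2 ^ J * y) - kapaG y := by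
  induction J with
  | zero => simp
  | succ J ih =>
    have h1 : y₀ ≤ 2 ^ J * y := by
      have : (1 : ℝ) ≤ 2 ^ J := one_le_pow₀ (by norm_num)
      nlinarith
    have h2 := h _ h1
    have h3 : (2 : ℝ) ^ (J + 1) * y = 2 * (2 ^ J * y) := by ring
    rw [h3]
    push_cast
    linarith

/-- KAPL. Lower bound for `∑_{p ∈ DD x} 1/p`: the prime number theorem gives at least `y/(2 log y)` primes in
`(y, 2y]` for `y ≥ y0`; the about `log z/(2 log 2)` dyadic intervals between `x/z` and `x/(log x)^60`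
contribute `≥ 1/(4 log x)` each. -/
theorem kap_lower : ∃ c : ℝ, 0 < c ∧ ∀ᶠ x : ℕ in atTop, c / Real.log (Real.log x) ≤ kap (DD x) := by
  obtain ⟨y₀, hy₀, hstep⟩ := kapa_step
  refine ⟨1 / 40, by norm_num, ?_⟩
  have hlog : Tendsto (fun x : ℕ => Real.log x) atTop atTop :=
    Real.tendsto_log_atTop.comp tendsto_natCast_atTop_atTop
  have hloglog : Tendsto (fun x : ℕ => Real.log (Real.log x)) atTop atTop :=
    Real.tendsto_log_atTop.comp hlog
  filter_upwards [zz_log, zz_size, hlog.eventually_ge_atTop (max y₀ 200),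
    hloglog.eventually_gt_atTop 0, eventually_ge_atTop 1] with x h1 h2 h3 h4 h5
  set N := Real.log x with hN
  set L := Real.log N with hL
  set z := zz x with hz
  have hN1 : y₀ ≤ N := (le_max_left _ _).trans h3
  have hN2 : 200 ≤ N := (le_max_right _ _).trans h3
  have hN0 : 0 < N := by linarith
  have hx0 : (0 : ℝ) < x := by exact_mod_cast h5
  have hz100 : (100 : ℝ) ≤ z := by exact_mod_cast h2.2.2
  have hz0 : (0 : ℝ) < z := by linarith
  have hzN : N ^ 100 ≤ (z : ℝ) := h2.1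
  have hzx : (z : ℝ) ^ 8 ≤ x := by exact_mod_cast h2.2.1
  have hNz : N ≤ (z : ℝ) := (le_self_pow₀ (by linarith) (by norm_num)).trans hzN
  have hN60 : 0 < N ^ 60 := by positivity
  have hN60' : 1 ≤ N ^ 60 := one_le_pow₀ (by linarith)
  have hlz : 100 * L ≤ Real.log z := by
    have := Real.log_le_log (by positivity) hzN
    rw [Real.log_pow] at this
    exact_mod_cast this
  have hlz0 : 5 < Real.log z := by
    have h6 : (2 : ℝ) ^ 100 ≤ z := le_trans (pow_le_pow_left₀ (by norm_num) (by linarith) 100) hzN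
    have h7 := Real.log_le_log (by positivity) h6
    rw [Real.log_pow] at h7
    have h8 := Real.log_two_gt_d9
    push_cast at h7
    linarith
  -- the base point
  have hbase : y₀ ≤ x / z := by
    rw [le_div_iff₀ hz0]
    calc y₀ * z ≤ z * z := mul_le_mul_of_nonneg_right (hN1.trans hNz) hz0.le
      _ = (z : ℝ) ^ 2 := by ring
      _ ≤ (z : ℝ) ^ 8 := pow_le_pow_right₀ (by linarith) (by norm_num)
      _ ≤ x := hzx
  -- the number of dyadic intervals
  have hlq : Real.log (z / N ^ 60) = Real.log z - 60 * L := by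
    rw [Real.log_div hz0.ne' hN60.ne', Real.log_pow]
    push_cast
    ring
  have hlq0 : 0.4 * Real.log z ≤ Real.log (z / N ^ 60) := by rw [hlq]; linarith
  have hl2 : 0 < Real.log 2 := Real.log_pos (by norm_num)
  have hl2' : Real.log 2 < 1 := by have := Real.log_two_lt_d9; linarith
  set J : ℕ := ⌊Real.log (z / N ^ 60) / Real.log 2⌋₊ with hJ
  have hnn : 0 ≤ Real.log (z / N ^ 60) / Real.log 2 := by
    apply div_nonneg _ hl2.le
    linarith
  have hJ1 : (J : ℝ) ≤ Real.log (z / N ^ 60) / Real.log 2 := Nat.floor_le hnn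
  have hJ2 : Real.log (z / N ^ 60) / Real.log 2 < J + 1 := Nat.lt_floor_add_one _
  have hJ3 : Real.log (z / N ^ 60) ≤ Real.log (z / N ^ 60) / Real.log 2 := by
    rw [le_div_iff₀ hl2]
    have : 0 ≤ Real.log (z / N ^ 60) := by linarith
    nlinarith
  have hJ4 : 0.2 * Real.log z ≤ J := by linarith
  have hJ5 : N / (10 * L) ≤ J := by
    refine le_trans ?_ hJ4
    have h6 := h1.1
    have h7 : N / (10 * L) = 0.2 * (N / (2 * L)) := by
      field_simp
      norm_num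
    rw [h7]
    linarith
  have hpow : (2 : ℝ) ^ J ≤ z / N ^ 60 := by
    rw [← Real.log_le_log_iff (by positivity) (by positivity), Real.log_pow]
    rwa [le_div_iff₀ hl2] at hJ1
  have htop : 2 ^ J * ((x : ℝ) / z) ≤ x / N ^ 60 := by
    calc 2 ^ J * ((x : ℝ) / z) ≤ z / N ^ 60 * (x / z) :=
          mul_le_mul_of_nonneg_right hpow (by positivity)
      _ = x / N ^ 60 := by field_simp
  have hG := kapa_iter y₀ hy₀ hstep _ hbase J
  have hG2 := kapaG_mono htop
  have hle : (x : ℝ) / z ≤ x / N ^ 60 := by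
    refine le_trans ?_ htop
    have : (1 : ℝ) ≤ 2 ^ J := one_le_pow₀ (by norm_num)
    have h6 : 0 < (x : ℝ) / z := by positivity
    nlinarith
  have hG3 : (J : ℝ) / 4 ≤
      ∑ p ∈ (Finset.Ioc ⌊(x : ℝ) / z⌋₊ ⌊(x : ℝ) / N ^ 60⌋₊).filter Nat.Prime,
        Real.log p / p := by
    rw [← kapaG_sub hle]
    linarith
  have hsub : (Finset.Ioc ⌊(x : ℝ) / z⌋₊ ⌊(x : ℝ) / N ^ 60⌋₊).filter Nat.Prime ⊆ DD x := by
    intro p hp
    rw [Finset.mem_filter, Finset.mem_Ioc] at hp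
    have hp1 : (x : ℝ) / z < p := by
      have := Nat.lt_floor_add_one ((x : ℝ) / z)
      have h6 : ((⌊(x : ℝ) / z⌋₊ + 1 : ℕ) : ℝ) ≤ p := by exact_mod_cast hp.1.1
      push_cast at h6
      linarith
    have hp2 : (p : ℝ) ≤ x / N ^ 60 :=
      (Nat.cast_le.2 hp.1.2).trans (Nat.floor_le (by positivity))
    have hp3 : (p : ℝ) ≤ x := hp2.trans (div_le_self hx0.le hN60')
    rw [DD, Finset.mem_filter, Finset.mem_Icc]
    refine ⟨⟨hp.2.pos, by exact_mod_cast hp3⟩, hp.2, ?_, ?_⟩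
    · rw [div_lt_iff₀ hz0] at hp1
      have : (x : ℝ) < (z : ℝ) * p := by linarith
      exact_mod_cast this
    · rw [le_div_iff₀ hN60] at hp2
      linarith
  have hkap : (1 / N) * ∑ p ∈ (Finset.Ioc ⌊(x : ℝ) / z⌋₊ ⌊(x : ℝ) / N ^ 60⌋₊).filter Nat.Prime,
      Real.log p / p ≤ kap (DD x) := by
    rw [kap, Finset.mul_sum]
    refine le_trans (Finset.sum_le_sum (g := fun p : ℕ => (1 : ℝ) / p) fun p hp => ?_)
      (Finset.sum_le_sum_of_subset_of_nonneg hsub fun p _ _ => by positivity)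
    have hpD := hsub hp
    rw [DD, Finset.mem_filter, Finset.mem_Icc] at hpD
    have hp0 : (0 : ℝ) < p := by exact_mod_cast hpD.1.1
    have hlp : Real.log p ≤ N := Real.log_le_log hp0 (by exact_mod_cast hpD.1.2)
    rw [one_div, one_div, ← div_eq_inv_mul, div_div, div_le_iff₀ (by positivity)]
    have : (p : ℝ)⁻¹ * (p * N) = N := by field_simp
    rw [this]
    exact hlp
  refine le_trans ?_ hkap
  calc 1 / 40 / L = (1 / N) * (N / (10 * L) / 4) := by
        field_simp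
        norm_num
    _ ≤ (1 / N) * ((J : ℝ) / 4) := by gcongr
    _ ≤ _ := mul_le_mul_of_nonneg_left hG3 (by positivity)

end Pool.Agent.TFC
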