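import Pool.Agent.TFC.HSMA

set_option autoImplicit false

namespace Pool.Agent.TFC

open Finset

theorem hsmb_prod (f : ℕ → ℝ) (hf : ∀ q, 0 ≤ f q) (n : ℕ) :
    ∑ e ∈ (Finset.Icc 1 n).filter (fun e => Squarefree e), ∏ q ∈ e.primeFactors, f q ≤
      Real.exp (∑ q ∈ Finset.Icc 2 n, f q) := by
  classical
  have hinj : Set.InjOn (fun e : ℕ => e.primeFactors)
      ((Finset.Icc 1 n).filter (fun e => Squarefree e) : Finset ℕ) := by
    intro e he e' he' h
    have h1 := (Finset.mem_filter.1 (Finset.mem_coe.1 he)).2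
    have h2 := (Finset.mem_filter.1 (Finset.mem_coe.1 he')).2
    simp only at h
    rw [← Nat.prod_primeFactors_of_squarefree h1, ← Nat.prod_primeFactors_of_squarefree h2, h]
  have h1 : ∑ e ∈ (Finset.Icc 1 n).filter (fun e => Squarefree e), ∏ q ∈ e.primeFactors, f q =
      ∑ s ∈ ((Finset.Icc 1 n).filter (fun e => Squarefree e)).image
        (fun e : ℕ => e.primeFactors), ∏ q ∈ s, f q := by
    rw [Finset.sum_image hinj]
  rw [h1]
  calc ∑ s ∈ ((Finset.Icc 1 n).filter (fun e => Squarefree e)).image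
        (fun e : ℕ => e.primeFactors), ∏ q ∈ s, f q
      ≤ ∑ s ∈ (Finset.Icc 2 n).powerset, ∏ q ∈ s, f q := by
        refine Finset.sum_le_sum_of_subset_of_nonneg ?_
          (fun s _ _ => Finset.prod_nonneg (fun q _ => hf q))
        intro s hs
        obtain ⟨e, he, rfl⟩ := Finset.mem_image.1 hs
        rw [Finset.mem_powerset]
        intro q hq
        have he1 := Finset.mem_Icc.1 (Finset.mem_filter.1 he).1
        have hqe : q ≤ e := Nat.le_of_mem_primeFactors hq
        exact Finset.mem_Icc.2 ⟨(Nat.prime_of_mem_primeFactors hq).two_le, hqe.trans he1.2⟩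
    _ = ∏ q ∈ Finset.Icc 2 n, (1 + f q) := (Finset.prod_one_add _).symm
    _ ≤ ∏ q ∈ Finset.Icc 2 n, Real.exp (f q) := by
        refine Finset.prod_le_prod (fun q _ => ?_) (fun q _ => ?_)
        · linarith [hf q]
        · linarith [Real.add_one_le_exp (f q)]
    _ = Real.exp (∑ q ∈ Finset.Icc 2 n, f q) := (Real.exp_sum _ _).symm

/-- HSM (d): the tail `e > E` on average over `d`: `1 ≤ √(e/E)`, then
`∑_{d ≤ x} ∑_{e ∣ d} gg e √e ≤ x ∑_{e ≤ x} gg e √e / e ≤ x ∏_{q ≤ x} (1 + 30 q^(-3/2))`. -/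
theorem gg_tail : ∃ C : ℝ, 0 < C ∧ ∀ x E : ℕ, 1 ≤ E →
    ∑ d ∈ Finset.Icc 1 x, ∑ e ∈ d.divisors.filter (fun e => E < e), gg e ≤
      C * x / Real.sqrt E := by
  have hsum : Summable (fun n : ℕ => 1 / (n : ℝ) ^ (3 / 2 : ℝ)) :=
    Real.summable_one_div_nat_rpow.2 (by norm_num)
  refine ⟨Real.exp (30 * ∑' n : ℕ, 1 / (n : ℝ) ^ (3 / 2 : ℝ)), Real.exp_pos _, ?_⟩
  intro x E hE
  have hE0 : (0 : ℝ) < Real.sqrt E := Real.sqrt_pos.2 (by exact_mod_cast hE)
  have h1 : ∀ d ∈ Finset.Icc 1 x, ∑ e ∈ d.divisors.filter (fun e => E < e), gg e ≤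
      (∑ e ∈ Finset.Icc 1 x, if e ∣ d then gg e * Real.sqrt e else 0) / Real.sqrt E := by
    intro d hd
    rw [Finset.mem_Icc] at hd
    rw [← Finset.sum_filter, Finset.sum_div]
    refine le_trans (Finset.sum_le_sum (f := gg) (g := fun e : ℕ => gg e * Real.sqrt e /
      Real.sqrt E) ?_) ?_
    · intro e he
      have h2 := (Finset.mem_filter.1 he).2
      have h3 : Real.sqrt E ≤ Real.sqrt e := Real.sqrt_le_sqrt (by exact_mod_cast h2.le)
      rw [mul_div_assoc]
      exact le_mul_of_one_le_right (gg_nonneg e) ((one_le_div hE0).2 h3)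
    · refine Finset.sum_le_sum_of_subset_of_nonneg ?_ (fun e _ _ => ?_)
      · intro e he
        have h2 := Finset.mem_filter.1 he
        have h3 := Nat.mem_divisors.1 h2.1
        have h4 : e ≤ d := Nat.le_of_dvd hd.1 h3.1
        exact Finset.mem_filter.2 ⟨Finset.mem_Icc.2 ⟨Nat.pos_of_dvd_of_pos h3.1 hd.1,
          h4.trans hd.2⟩, h3.1⟩
      · exact div_nonneg (mul_nonneg (gg_nonneg e) (Real.sqrt_nonneg _)) hE0.le
  refine (Finset.sum_le_sum h1).trans ?_
  rw [← Finset.sum_div]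
  refine div_le_div_of_nonneg_right ?_ hE0.le
  rw [Finset.sum_comm]
  have h2 : ∀ e ∈ Finset.Icc 1 x, ∑ d ∈ Finset.Icc 1 x, (if e ∣ d then gg e * Real.sqrt e else 0) ≤
      x * (gg e * (Real.sqrt e / e)) := by
    intro e he
    rw [← Finset.sum_filter, Finset.sum_const, nsmul_eq_mul]
    have h3 : ((Finset.Icc 1 x).filter (fun d => e ∣ d)).card = x / e := by
      have := Nat.Ioc_filter_dvd_card_eq_div x e
      rw [← this]
      congr 1
    rw [h3]
    calc ((x / e : ℕ) : ℝ) * (gg e * Real.sqrt e) ≤ (x / e : ℝ) * (gg e * Real.sqrt e) :=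
          mul_le_mul_of_nonneg_right Nat.cast_div_le
            (mul_nonneg (gg_nonneg e) (Real.sqrt_nonneg _))
      _ = x * (gg e * (Real.sqrt e / e)) := by ring
  refine (Finset.sum_le_sum h2).trans ?_
  rw [← Finset.mul_sum, mul_comm]
  refine mul_le_mul_of_nonneg_right ?_ (Nat.cast_nonneg _)
  set f : ℕ → ℝ := fun q => 30 / (q : ℝ) * (Real.sqrt q / q) with hf
  have hf0 : ∀ q, 0 ≤ f q := fun q => by positivity
  have h4 : ∑ e ∈ Finset.Icc 1 x, gg e * (Real.sqrt e / e) =
      ∑ e ∈ (Finset.Icc 1 x).filter (fun e => Squarefree e), ∏ q ∈ e.primeFactors, f q := by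
    rw [Finset.sum_filter]
    refine Finset.sum_congr rfl (fun e he => ?_)
    unfold gg
    split_ifs with hs
    · have h5 : (e : ℝ) = ∏ q ∈ e.primeFactors, (q : ℝ) := by
        conv_lhs => rw [← Nat.prod_primeFactors_of_squarefree hs]
        rw [Nat.cast_prod]
      have h6 : Real.sqrt e = ∏ q ∈ e.primeFactors, Real.sqrt (q : ℝ) := by
        rw [h5, Real.sqrt_prod]
        intro q _
        exact Nat.cast_nonneg _
      have h7 : Real.sqrt e / e = ∏ q ∈ e.primeFactors, (Real.sqrt (q : ℝ) / q) := by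
        rw [Finset.prod_div_distrib, ← h6, ← h5]
      rw [h7, ← Finset.prod_mul_distrib]
    · rw [zero_mul]
  rw [h4]
  refine (hsmb_prod f hf0 x).trans (Real.exp_le_exp.2 ?_)
  have h8 : ∀ q ∈ Finset.Icc 2 x, f q = 30 * (1 / (q : ℝ) ^ (3 / 2 : ℝ)) := by
    intro q hq
    rw [Finset.mem_Icc] at hq
    have hq0 : (0 : ℝ) < q := by
      have : 0 < q := by omega
      exact_mod_cast this
    have h9 : (q : ℝ) ^ (3 / 2 : ℝ) = q * Real.sqrt q := by
      rw [Real.sqrt_eq_rpow, show (3 / 2 : ℝ) = 1 + 1 / 2 by norm_num, Real.rpow_add hq0,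
        Real.rpow_one]
    have h10 : Real.sqrt q * Real.sqrt q = q := Real.mul_self_sqrt hq0.le
    have h11 : 0 < Real.sqrt q := Real.sqrt_pos.2 hq0
    rw [h9, hf]
    simp only
    have h12 : Real.sqrt q / q = 1 / Real.sqrt q := by
      rw [div_eq_div_iff hq0.ne' h11.ne', h10, one_mul]
    rw [h12]
    field_simp
  rw [Finset.sum_congr rfl h8, ← Finset.mul_sum]
  refine mul_le_mul_of_nonneg_left ?_ (by norm_num)
  exact hsum.sum_le_tsum _ (fun n _ => by positivity)

theorem hsmb_tele (n : ℕ) : ∑ q ∈ Finset.Icc 2 n, 30 / ((q : ℝ) * (q - 1)) ≤ 30 := by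
  have h : ∀ n : ℕ, 1 ≤ n → ∑ q ∈ Finset.Icc 2 n, 30 / ((q : ℝ) * (q - 1)) = 30 - 30 / n := by
    intro n hn
    induction n, hn using Nat.le_induction with
    | base => simp
    | succ n hn ih =>
      have hn0 : (n : ℝ) ≠ 0 := by
        have : n ≠ 0 := by omega
        exact_mod_cast this
      have hn1 : (n : ℝ) + 1 ≠ 0 := by
        have : n + 1 ≠ 0 := by omega
        exact_mod_cast this
      rw [← Finset.insert_Icc_right_eq_Icc_add_one (by omega : 2 ≤ n + 1), Finset.sum_insert (by simp), ih]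
      push_cast
      rw [show (n : ℝ) + 1 - 1 = n by ring]
      field_simp
      ring
  rcases Nat.lt_or_ge n 1 with h0 | h1
  · have : n = 0 := by omega
    subst this
    simp
  · rw [h n h1]
    have : (0 : ℝ) ≤ 30 / n := by positivity
    linarith

/-- HSM (e): `∑_e gg e / e` and `∑_e gg e / φ(e)` converge:
`≤ ∏_{q ≤ E} (1 + 30/q²)`, `≤ ∏_{q ≤ E} (1 + 30/(q(q-1)))`. -/
theorem gg_sum : ∃ C : ℝ, 0 < C ∧ ∀ E : ℕ,
    ∑ e ∈ Finset.Icc 1 E, gg e / e ≤ C ∧ ∑ e ∈ Finset.Icc 1 E, gg e / (Nat.totient e : ℝ) ≤ C := by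
  refine ⟨Real.exp 30, Real.exp_pos _, ?_⟩
  intro E
  have h2 : ∑ e ∈ Finset.Icc 1 E, gg e / (Nat.totient e : ℝ) ≤ Real.exp 30 := by
    set f : ℕ → ℝ := fun q => if 2 ≤ q then 30 / ((q : ℝ) * (q - 1)) else 0 with hf
    have hf0 : ∀ q, 0 ≤ f q := by
      intro q
      simp only [hf]
      split_ifs with h
      · have : (2 : ℝ) ≤ q := by exact_mod_cast h
        have h1 : (0 : ℝ) < q - 1 := by linarith
        positivity
      · exact le_rfl
    have h4 : ∑ e ∈ Finset.Icc 1 E, gg e / (Nat.totient e : ℝ) =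
        ∑ e ∈ (Finset.Icc 1 E).filter (fun e => Squarefree e), ∏ q ∈ e.primeFactors, f q := by
      rw [Finset.sum_filter]
      refine Finset.sum_congr rfl (fun e he => ?_)
      rw [Finset.mem_Icc] at he
      unfold gg
      split_ifs with hs
      · have h5 : (Nat.totient e : ℝ) = ∏ q ∈ e.primeFactors, ((q : ℝ) - 1) := by
          have h6 := Nat.totient_mul_prod_primeFactors e
          rw [Nat.prod_primeFactors_of_squarefree hs, mul_comm] at h6
          have h7 : e.totient = ∏ p ∈ e.primeFactors, (p - 1) :=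
            Nat.eq_of_mul_eq_mul_left he.1 h6
          rw [h7, Nat.cast_prod]
          refine Finset.prod_congr rfl (fun q hq => ?_)
          rw [Nat.cast_sub (Nat.prime_of_mem_primeFactors hq).one_le, Nat.cast_one]
        rw [h5, ← Finset.prod_div_distrib]
        refine Finset.prod_congr rfl (fun q hq => ?_)
        have h8 := (Nat.prime_of_mem_primeFactors hq).two_le
        simp only [hf]
        rw [if_pos h8, div_div]
      · rw [zero_div]
    rw [h4]
    refine (hsmb_prod f hf0 E).trans (Real.exp_le_exp.2 ?_)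
    have h9 : ∑ q ∈ Finset.Icc 2 E, f q = ∑ q ∈ Finset.Icc 2 E, 30 / ((q : ℝ) * (q - 1)) := by
      refine Finset.sum_congr rfl (fun q hq => ?_)
      rw [Finset.mem_Icc] at hq
      simp only [hf]
      rw [if_pos hq.1]
    rw [h9]
    exact hsmb_tele E
  refine ⟨le_trans (Finset.sum_le_sum (fun e he => ?_)) h2, h2⟩
  rw [Finset.mem_Icc] at he
  have h10 : (0 : ℝ) < (Nat.totient e : ℝ) := by
    exact_mod_cast Nat.totient_pos.2 he.1
  exact div_le_div_of_nonneg_left (gg_nonneg e) h10 (by exact_mod_cast Nat.totient_le e)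

end Pool.Agent.TFC
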