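import Pool.Agent.TFC.CNV
import Pool.Agent.TFC.CNT
import Pool.Agent.TFC.HSMB
import Pool.Agent.TFC.BTC

set_option autoImplicit false

namespace Pool.Agent.TFC

open Finset

theorem ldm_ff_le {D : Finset ℕ} {x : ℕ} (n : ℤ) : ff D x n ≤ kap D + f0 D x n := by
  have hk : 0 ≤ kap D := by
    unfold kap; positivity
  unfold ff f0
  split_ifs
  · linarith
  · linarith

/-- the tail weights -/
noncomputable def ldmT (E d : ℕ) : ℝ := ∑ e ∈ d.divisors.filter (fun e => E < e), gg e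

theorem ldmT_nonneg (E d : ℕ) : 0 ≤ ldmT E d := by
  unfold ldmT
  exact Finset.sum_nonneg (fun e _ => gg_nonneg e)

theorem ldm_HH_split (E d : ℕ) (hd : d ≠ 0) :
    HH d = ∑ e ∈ Finset.Icc 1 E, (if e ∣ d then gg e else 0) + ldmT E d := by
  rw [HH_eq d hd, ← Finset.sum_filter_add_sum_filter_not d.divisors (fun e => E < e), add_comm]
  unfold ldmT
  congr 1
  rw [← Finset.sum_filter]
  apply Finset.sum_congr _ (fun _ _ => rfl)
  ext e
  simp only [Finset.mem_filter, Nat.mem_divisors, Finset.mem_Icc, not_lt]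
  constructor
  · rintro ⟨⟨h1, h2⟩, h3⟩
    exact ⟨⟨Nat.pos_of_ne_zero (fun h => by subst h; exact hd (Nat.eq_zero_of_zero_dvd h1)), h3⟩, h1⟩
  · rintro ⟨⟨h1, h2⟩, h3⟩
    exact ⟨⟨h3, hd⟩, h2⟩

theorem ldm_tail_one (x E : ℕ) (P : Finset ℕ) (hP : ∀ p ∈ P, p ≤ x) (p1 : ℕ) (h1 : p1 ≤ x) :
    ∑ p2 ∈ P, (if (p1 : ℤ) - p2 = 0 then 0 else ldmT E ((p1 : ℤ) - p2).natAbs) ≤
      2 * ∑ d ∈ Finset.Icc 1 x, ldmT E d := by
  have hsplit : ∀ p2 ∈ P, (if (p1 : ℤ) - p2 = 0 then 0 else ldmT E ((p1 : ℤ) - p2).natAbs) ≤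
      (if p2 < p1 then ldmT E (p1 - p2) else 0) + (if p1 < p2 then ldmT E (p2 - p1) else 0) := by
    intro p2 _
    rcases lt_trichotomy p2 p1 with h | h | h
    · rw [if_neg (by omega), if_pos h, if_neg (by omega), add_zero]
      apply le_of_eq
      congr 1
      omega
    · subst h
      simp
    · rw [if_neg (by omega), if_neg (by omega), if_pos h, zero_add]
      apply le_of_eq
      congr 1
      omega
  refine (Finset.sum_le_sum hsplit).trans ?_
  rw [Finset.sum_add_distrib, two_mul]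
  apply add_le_add
  · rw [← Finset.sum_filter]
    have hinj : Set.InjOn (fun p2 => p1 - p2) ((P.filter (fun p2 => p2 < p1) : Finset ℕ) : Set ℕ) := by
      intro a ha b hb hab
      rw [Finset.mem_coe, Finset.mem_filter] at ha hb
      simp only at hab
      omega
    rw [← Finset.sum_image (f := fun d => ldmT E d) hinj]
    apply Finset.sum_le_sum_of_subset_of_nonneg
    · intro d hd
      rw [Finset.mem_image] at hd
      obtain ⟨a, ha, rfl⟩ := hd
      rw [Finset.mem_filter] at ha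
      rw [Finset.mem_Icc]
      omega
    · intro d _ _
      exact ldmT_nonneg E d
  · rw [← Finset.sum_filter]
    have hinj : Set.InjOn (fun p2 => p2 - p1) ((P.filter (fun p2 => p1 < p2) : Finset ℕ) : Set ℕ) := by
      intro a ha b hb hab
      rw [Finset.mem_coe, Finset.mem_filter] at ha hb
      simp only at hab
      omega
    rw [← Finset.sum_image (f := fun d => ldmT E d) hinj]
    apply Finset.sum_le_sum_of_subset_of_nonneg
    · intro d hd
      rw [Finset.mem_image] at hd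
      obtain ⟨a, ha, rfl⟩ := hd
      rw [Finset.mem_filter] at ha
      have := hP a ha.1
      rw [Finset.mem_Icc]
      omega
    · intro d _ _
      exact ldmT_nonneg E d

/-- a double sum over congruent pairs is a sum of squares -/
theorem ldm_square (P : Finset ℕ) (F : ℕ → ℝ) (e : ℕ) (he : 1 ≤ e) :
    ∑ p1 ∈ P, ∑ p2 ∈ P, (if p1 % e = p2 % e then F p1 * F p2 else 0) =
      ∑ b ∈ Finset.range e, (∑ p ∈ P.filter (fun p => p % e = b), F p) ^ 2 := by
  have h1 : ∀ b ∈ Finset.range e, (∑ p ∈ P.filter (fun p => p % e = b), F p) ^ 2 =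
      ∑ p1 ∈ P, ∑ p2 ∈ P, (if p1 % e = b ∧ p2 % e = b then F p1 * F p2 else 0) := by
    intro b _
    rw [sq, Finset.sum_filter, Finset.sum_mul_sum]
    refine Finset.sum_congr rfl (fun p1 _ => Finset.sum_congr rfl (fun p2 _ => ?_))
    by_cases h : p1 % e = b <;> by_cases h' : p2 % e = b <;> simp [h, h']
  rw [Finset.sum_congr rfl h1]
  symm
  rw [Finset.sum_comm]
  refine Finset.sum_congr rfl (fun p1 _ => ?_)
  rw [Finset.sum_comm]
  refine Finset.sum_congr rfl (fun p2 _ => ?_)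
  by_cases h : p1 % e = p2 % e
  · rw [if_pos h]
    rw [Finset.sum_eq_single (p1 % e)]
    · rw [if_pos ⟨rfl, h.symm⟩]
    · intro b _ hb
      rw [if_neg (fun h' => hb h'.1.symm)]
    · intro h'
      exact absurd (Finset.mem_range.2 (Nat.mod_lt _ he)) h'
  · rw [if_neg h]
    apply Finset.sum_eq_zero
    intro b _
    rw [if_neg (fun h' => h (h'.1.trans h'.2.symm))]

theorem ldm_head {D : Finset ℕ} {x E : ℕ} {S : ℝ} (h : Good D x E S) (hE : 1 ≤ E)
    (P : Finset ℕ) (s : ℤ) (hs : s = 1 ∨ s = -1) (e : ℕ) (he : 1 ≤ e) :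
    ∑ n ∈ Finset.Icc (1 : ℤ) x, ff D x n * ∑ b ∈ Finset.range e,
      (∑ p ∈ P.filter (fun p => p % e = b), ff D x (n + 2 * s * p)) ^ 2 ≤
    2 * kap D ^ 2 * (kap D * x + D.card) *
      (∑ b ∈ Finset.range e, (((P.filter (fun p => p % e = b)).card : ℝ)) ^ 2) +
      2 * S ^ 2 * P.card := by
  classical
  have hk : 0 ≤ kap D := by
    unfold kap; positivity
  set π : ℕ → ℝ := fun b => ((P.filter (fun p => p % e = b)).card : ℝ) with hπ
  set R : ℕ → ℤ → ℝ := fun b n => ∑ p ∈ P.filter (fun p => p % e = b), f0 D x (n + 2 * s * p) with hR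
  -- pointwise
  have hpt : ∀ n : ℤ, ∀ b : ℕ,
      (∑ p ∈ P.filter (fun p => p % e = b), ff D x (n + 2 * s * p)) ^ 2 ≤
      2 * (kap D ^ 2 * π b ^ 2) + 2 * R b n ^ 2 := by
    intro n b
    have h0 : 0 ≤ ∑ p ∈ P.filter (fun p => p % e = b), ff D x (n + 2 * s * p) :=
      Finset.sum_nonneg (fun p _ => (ff_le_one h _).1)
    have h1 : ∑ p ∈ P.filter (fun p => p % e = b), ff D x (n + 2 * s * p) ≤ kap D * π b + R b n := by
      calc ∑ p ∈ P.filter (fun p => p % e = b), ff D x (n + 2 * s * p)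
          ≤ ∑ p ∈ P.filter (fun p => p % e = b), (kap D + f0 D x (n + 2 * s * p)) :=
            Finset.sum_le_sum (fun p _ => ldm_ff_le _)
        _ = kap D * π b + R b n := by
            rw [Finset.sum_add_distrib, Finset.sum_const, nsmul_eq_mul, mul_comm]
    have h2 : (∑ p ∈ P.filter (fun p => p % e = b), ff D x (n + 2 * s * p)) ^ 2 ≤
        (kap D * π b + R b n) ^ 2 := pow_le_pow_left₀ h0 h1 2
    nlinarith [sq_nonneg (kap D * π b - R b n)]
  -- the sum of the squares of R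
  have hconv : ∀ b : ℕ, ∑ n ∈ Finset.Icc (1 : ℤ) x, R b n ^ 2 ≤ S ^ 2 * π b := by
    intro b
    set A : Finset ℤ := (P.filter (fun p => p % e = b)).image (fun p : ℕ => 2 * s * (p : ℤ)) with hA
    have hinj : Set.InjOn (fun p : ℕ => 2 * s * (p : ℤ))
        ((P.filter (fun p => p % e = b) : Finset ℕ) : Set ℕ) := by
      intro a _ c _ hac
      simp only at hac
      rcases hs with hs | hs <;> subst hs <;> omega
    have hb : ∀ n : ℤ, n < 1 ∨ (x : ℤ) < n → f0 D x n = 0 := by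
      intro n hn
      unfold f0
      rw [if_neg (by omega)]
    have := conv_bound x (f0 D x) hb S h.sup (Finset.Icc (1 : ℤ) x) A (fun _ => 1)
    have e1 : ∀ n : ℤ, ∑ m ∈ A, (1 : ℝ) * f0 D x (m + n) = R b n := by
      intro n
      rw [hA, Finset.sum_image hinj, hR]
      refine Finset.sum_congr rfl (fun p _ => ?_)
      rw [one_mul, add_comm]
    have e2 : ∑ m ∈ A, (1 : ℝ) ^ 2 = π b := by
      rw [hA, Finset.sum_image hinj]
      simp [hπ]
    rw [e2] at this
    simpa only [e1] using this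
  -- the sum of ff
  have hff : ∑ n ∈ Finset.Icc (1 : ℤ) x, ff D x n ≤ kap D * x + D.card := by
    have := ff_class h 1 le_rfl hE 0 x le_rfl
    have e1 : (Finset.Icc (1 : ℤ) x).filter (fun n => ((1 : ℕ) : ℤ) ∣ n - 0) = Finset.Icc (1 : ℤ) x := by
      apply Finset.filter_true_of_mem
      intro n _
      simp
    rw [e1] at this
    have h3 := (abs_le.1 this).2
    simp only [Nat.cast_one, div_one] at h3
    linarith
  -- the sum of the classes
  have hπsum : ∑ b ∈ Finset.range e, π b = P.card := by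
    rw [hπ]
    rw [← Nat.cast_sum]
    congr 1
    rw [← Finset.card_eq_sum_card_fiberwise]
    intro p _
    simp only [Finset.coe_range, Set.mem_Iio]
    exact Nat.mod_lt _ he
  calc ∑ n ∈ Finset.Icc (1 : ℤ) x, ff D x n * ∑ b ∈ Finset.range e,
        (∑ p ∈ P.filter (fun p => p % e = b), ff D x (n + 2 * s * p)) ^ 2
      ≤ ∑ n ∈ Finset.Icc (1 : ℤ) x, ff D x n * ∑ b ∈ Finset.range e,
        (2 * (kap D ^ 2 * π b ^ 2) + 2 * R b n ^ 2) := by
        apply Finset.sum_le_sum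
        intro n _
        apply mul_le_mul_of_nonneg_left _ (ff_le_one h n).1
        exact Finset.sum_le_sum (fun b _ => hpt n b)
    _ = (∑ n ∈ Finset.Icc (1 : ℤ) x, ff D x n) * (2 * kap D ^ 2 * ∑ b ∈ Finset.range e, π b ^ 2) +
        2 * ∑ n ∈ Finset.Icc (1 : ℤ) x, ff D x n * ∑ b ∈ Finset.range e, R b n ^ 2 := by
        have hn : ∀ n ∈ Finset.Icc (1 : ℤ) x, ff D x n * ∑ b ∈ Finset.range e,
            (2 * (kap D ^ 2 * π b ^ 2) + 2 * R b n ^ 2) =
            ff D x n * (2 * kap D ^ 2 * ∑ b ∈ Finset.range e, π b ^ 2) +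
            2 * (ff D x n * ∑ b ∈ Finset.range e, R b n ^ 2) := by
          intro n _
          have e5 : ∑ b ∈ Finset.range e, (2 * (kap D ^ 2 * π b ^ 2) + 2 * R b n ^ 2) =
              2 * kap D ^ 2 * ∑ b ∈ Finset.range e, π b ^ 2 +
              2 * ∑ b ∈ Finset.range e, R b n ^ 2 := by
            rw [Finset.sum_add_distrib, Finset.mul_sum, Finset.mul_sum]
            congr 1
            exact Finset.sum_congr rfl (fun b _ => by ring)
          rw [e5]
          ring
        rw [Finset.sum_congr rfl hn, Finset.sum_add_distrib, ← Finset.sum_mul, ← Finset.mul_sum]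
    _ ≤ (kap D * x + D.card) * (2 * kap D ^ 2 * ∑ b ∈ Finset.range e, π b ^ 2) +
        2 * ∑ n ∈ Finset.Icc (1 : ℤ) x, ∑ b ∈ Finset.range e, R b n ^ 2 := by
        apply add_le_add
        · apply mul_le_mul_of_nonneg_right hff
          have h21 : 0 ≤ ∑ b ∈ Finset.range e, π b ^ 2 := Finset.sum_nonneg (fun b _ => sq_nonneg (π b))
          exact mul_nonneg (mul_nonneg (by norm_num) (sq_nonneg _)) h21
        · apply mul_le_mul_of_nonneg_left _ (by norm_num)
          apply Finset.sum_le_sum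
          intro n _
          have h4 : 0 ≤ ∑ b ∈ Finset.range e, R b n ^ 2 := Finset.sum_nonneg (fun b _ => sq_nonneg (R b n))
          exact mul_le_of_le_one_left h4 (ff_le_one h n).2
    _ ≤ (kap D * x + D.card) * (2 * kap D ^ 2 * ∑ b ∈ Finset.range e, π b ^ 2) +
        2 * (S ^ 2 * P.card) := by
        apply add_le_add le_rfl
        apply mul_le_mul_of_nonneg_left _ (by norm_num)
        rw [Finset.sum_comm]
        calc ∑ b ∈ Finset.range e, ∑ n ∈ Finset.Icc (1 : ℤ) x, R b n ^ 2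
            ≤ ∑ b ∈ Finset.range e, S ^ 2 * π b := Finset.sum_le_sum (fun b _ => hconv b)
          _ = S ^ 2 * P.card := by rw [← Finset.mul_sum, hπsum]
    _ = _ := by ring

/-- LDM. Second moment of the degrees, `s = 1` or `s = -1`. Expand `HH = ∑_{e ∣ p1-p2} gg e`.
`e ≤ E`: `∑_n ff(n) ∑_b B_b(n)²`, `B_b(n) = ∑_{p ≡ b (e)} ff(n+2sp) ≤ κ π_b + |R_b(n)|`,
`R_b(n) = ∑_{p ≡ b} f0(n+2sp)`, `∑_n R_b(n)² ≤ S² π_b` (`conv_bound`, `a = 1` on `{2 s p}`), so the sum is
`≤ 2 κ² (κx+|D|) ∑_b π_b² + 2 S² |P|`; then `class_sq`, `gg_sum`, `gg_crude`.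
`e > E`: `gg_tail` with all `ff ≤ 1`. -/
theorem LD : ∃ C : ℝ, 0 < C ∧ ∀ (D : Finset ℕ) (x E : ℕ) (S : ℝ), Good D x E S → 1 ≤ E → 3 ≤ x →
    E ^ 2 ≤ x → 16 * E ≤ x → ∀ s : ℤ, (s = 1 ∨ s = -1) →
    ∑ n ∈ Finset.Icc (1 : ℤ) x, ∑ p1 ∈ PP x, ∑ p2 ∈ PP x,
      (if (p1 : ℤ) - p2 = 0 then 0 else
        ff D x n * ff D x (n + 2 * s * p1) * ff D x (n + 2 * s * p2) *
        HH ((p1 : ℤ) - p2).natAbs) ≤
      C * (kap D ^ 2 * (kap D * x + D.card) * (x / Real.log x) ^ 2 + (E : ℝ) ^ 6 * (S ^ 2 * x)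
        + x ^ 3 / Real.sqrt E) := by
  classical
  obtain ⟨C1, hC1, hcl⟩ := class_sq
  obtain ⟨C2, hC2, htail⟩ := gg_tail
  obtain ⟨C3, hC3, hgs⟩ := gg_sum
  refine ⟨2 * C1 * C3 + 2 + 2 * C2, by positivity, ?_⟩
  intro D x E S h hE hx hE2 hE16 s hs
  have hk : 0 ≤ kap D := by
    unfold kap; positivity
  have hPx : ∀ p ∈ PP x, p ≤ x := by
    intro p hp
    unfold PP at hp
    rw [Finset.mem_filter, Finset.mem_Icc] at hp
    exact hp.1.2
  have hPcard : (PP x).card ≤ x := by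
    calc (PP x).card ≤ (Finset.Icc 1 x).card := Finset.card_filter_le _ _
      _ = x := by simp
  have hPcard' : ((PP x).card : ℝ) ≤ x := by exact_mod_cast hPcard
  have hx0 : (0 : ℝ) < x := by
    have : (3 : ℝ) ≤ x := by exact_mod_cast hx
    linarith
  have hf0 : ∀ n, 0 ≤ ff D x n := fun n => (ff_le_one h n).1
  have hf1 : ∀ n, ff D x n ≤ 1 := fun n => (ff_le_one h n).2
  -- pointwise splitting
  have hpt : ∀ n ∈ Finset.Icc (1 : ℤ) x, ∀ p1 ∈ PP x, ∀ p2 ∈ PP x,
      (if (p1 : ℤ) - p2 = 0 then 0 else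
        ff D x n * ff D x (n + 2 * s * p1) * ff D x (n + 2 * s * p2) *
        HH ((p1 : ℤ) - p2).natAbs) ≤
      (∑ e ∈ Finset.Icc 1 E, gg e * (if p1 % e = p2 % e then
        ff D x n * (ff D x (n + 2 * s * p1) * ff D x (n + 2 * s * p2)) else 0)) +
      (if (p1 : ℤ) - p2 = 0 then 0 else ldmT E ((p1 : ℤ) - p2).natAbs) := by
    intro n _ p1 _ p2 _
    have hA0 : 0 ≤ ff D x n * (ff D x (n + 2 * s * p1) * ff D x (n + 2 * s * p2)) :=
      mul_nonneg (hf0 _) (mul_nonneg (hf0 _) (hf0 _))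
    have hA1 : ff D x n * (ff D x (n + 2 * s * p1) * ff D x (n + 2 * s * p2)) ≤ 1 :=
      mul_le_one₀ (hf1 _) (mul_nonneg (hf0 _) (hf0 _)) (mul_le_one₀ (hf1 _) (hf0 _) (hf1 _))
    by_cases h0 : (p1 : ℤ) - p2 = 0
    · rw [if_pos h0, if_pos h0, add_zero]
      apply Finset.sum_nonneg
      intro e _
      apply mul_nonneg (gg_nonneg e)
      split_ifs
      · exact hA0
      · exact le_rfl
    · rw [if_neg h0, if_neg h0]
      have hd : ((p1 : ℤ) - p2).natAbs ≠ 0 := by
        rwa [Ne, Int.natAbs_eq_zero]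
      rw [ldm_HH_split E _ hd, mul_add]
      apply add_le_add
      · rw [Finset.mul_sum]
        apply Finset.sum_le_sum
        intro e _
        by_cases hdv : e ∣ ((p1 : ℤ) - p2).natAbs
        · rw [if_pos hdv]
          have hmod : p1 % e = p2 % e := by
            have h5 : (e : ℤ) ∣ (p1 : ℤ) - p2 := Int.natCast_dvd.2 hdv
            have h6 : (p2 : ℤ) ≡ p1 [ZMOD e] := Int.modEq_iff_dvd.2 h5
            exact ((Int.natCast_modEq_iff.1 h6).symm)
          rw [if_pos hmod]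
          apply le_of_eq
          ring
        · rw [if_neg hdv, mul_zero]
          apply mul_nonneg (gg_nonneg e)
          split_ifs
          · exact hA0
          · exact le_rfl
      · calc ff D x n * ff D x (n + 2 * s * p1) * ff D x (n + 2 * s * p2) *
              ldmT E ((p1 : ℤ) - p2).natAbs
            = (ff D x n * (ff D x (n + 2 * s * p1) * ff D x (n + 2 * s * p2))) *
              ldmT E ((p1 : ℤ) - p2).natAbs := by ring
          _ ≤ 1 * ldmT E ((p1 : ℤ) - p2).natAbs :=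
              mul_le_mul_of_nonneg_right hA1 (ldmT_nonneg _ _)
          _ = _ := one_mul _
  have hstep : ∑ n ∈ Finset.Icc (1 : ℤ) x, ∑ p1 ∈ PP x, ∑ p2 ∈ PP x,
      (if (p1 : ℤ) - p2 = 0 then 0 else
        ff D x n * ff D x (n + 2 * s * p1) * ff D x (n + 2 * s * p2) *
        HH ((p1 : ℤ) - p2).natAbs) ≤
      (∑ e ∈ Finset.Icc 1 E, gg e * ∑ n ∈ Finset.Icc (1 : ℤ) x, ff D x n *
        ∑ b ∈ Finset.range e,
          (∑ p ∈ (PP x).filter (fun p => p % e = b), ff D x (n + 2 * s * p)) ^ 2) +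
      ∑ n ∈ Finset.Icc (1 : ℤ) x, ∑ p1 ∈ PP x, ∑ p2 ∈ PP x,
        (if (p1 : ℤ) - p2 = 0 then 0 else ldmT E ((p1 : ℤ) - p2).natAbs) := by
    refine (Finset.sum_le_sum (fun n hn => Finset.sum_le_sum (fun p1 hp1 =>
      Finset.sum_le_sum (fun p2 hp2 => hpt n hn p1 hp1 p2 hp2)))).trans ?_
    simp only [Finset.sum_add_distrib]
    apply add_le_add _ le_rfl
    apply le_of_eq
    have hre : ∀ n : ℤ, ∑ p1 ∈ PP x, ∑ p2 ∈ PP x, ∑ e ∈ Finset.Icc 1 E,
        gg e * (if p1 % e = p2 % e then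
          ff D x n * (ff D x (n + 2 * s * p1) * ff D x (n + 2 * s * p2)) else 0) =
        ∑ e ∈ Finset.Icc 1 E, gg e * (ff D x n * ∑ b ∈ Finset.range e,
          (∑ p ∈ (PP x).filter (fun p => p % e = b), ff D x (n + 2 * s * p)) ^ 2) := by
      intro n
      have h7 : ∀ p1 ∈ PP x, ∑ p2 ∈ PP x, ∑ e ∈ Finset.Icc 1 E,
          gg e * (if p1 % e = p2 % e then
            ff D x n * (ff D x (n + 2 * s * p1) * ff D x (n + 2 * s * p2)) else 0) =
          ∑ e ∈ Finset.Icc 1 E, ∑ p2 ∈ PP x,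
          gg e * (if p1 % e = p2 % e then
            ff D x n * (ff D x (n + 2 * s * p1) * ff D x (n + 2 * s * p2)) else 0) :=
        fun p1 _ => Finset.sum_comm
      rw [Finset.sum_congr rfl h7, Finset.sum_comm]
      refine Finset.sum_congr rfl (fun e he => ?_)
      rw [Finset.mem_Icc] at he
      rw [← ldm_square (PP x) (fun p => ff D x (n + 2 * s * p)) e he.1]
      simp only [Finset.mul_sum]
      refine Finset.sum_congr rfl (fun p1 _ => Finset.sum_congr rfl (fun p2 _ => ?_))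
      split_ifs
      · rfl
      · simp
    rw [Finset.sum_congr rfl (fun n _ => hre n), Finset.sum_comm]
    refine Finset.sum_congr rfl (fun e _ => ?_)
    rw [Finset.mul_sum]
  refine hstep.trans ?_
  -- the head
  have hhead : ∑ e ∈ Finset.Icc 1 E, gg e * ∑ n ∈ Finset.Icc (1 : ℤ) x, ff D x n *
        ∑ b ∈ Finset.range e,
          (∑ p ∈ (PP x).filter (fun p => p % e = b), ff D x (n + 2 * s * p)) ^ 2 ≤
      2 * C1 * C3 * (kap D ^ 2 * (kap D * x + D.card) * (x / Real.log x) ^ 2) +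
        2 * ((E : ℝ) ^ 6 * (S ^ 2 * x)) := by
    set M : ℝ := kap D ^ 2 * (kap D * x + D.card) with hM
    have hM0 : 0 ≤ M := by rw [hM]; positivity
    have hone : ∀ e ∈ Finset.Icc 1 E, gg e * ∑ n ∈ Finset.Icc (1 : ℤ) x, ff D x n *
        ∑ b ∈ Finset.range e,
          (∑ p ∈ (PP x).filter (fun p => p % e = b), ff D x (n + 2 * s * p)) ^ 2 ≤
        2 * M * C1 * (x / Real.log x) ^ 2 * (gg e / (Nat.totient e : ℝ)) +
          2 * S ^ 2 * x * (gg e * e) := by
      intro e he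
      rw [Finset.mem_Icc] at he
      have h8 := ldm_head h hE (PP x) s hs e he.1
      have h9 := hcl x e hx he.1
        ((Nat.pow_le_pow_left he.2 2).trans hE2) ((Nat.mul_le_mul_left 16 he.2).trans hE16)
      have he1 : (1 : ℝ) ≤ e := by exact_mod_cast he.1
      have h10 : ∑ n ∈ Finset.Icc (1 : ℤ) x, ff D x n * ∑ b ∈ Finset.range e,
          (∑ p ∈ (PP x).filter (fun p => p % e = b), ff D x (n + 2 * s * p)) ^ 2 ≤
          2 * M * (C1 * (x / Real.log x) ^ 2 / (Nat.totient e : ℝ)) + 2 * S ^ 2 * x := by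
        refine h8.trans ?_
        apply add_le_add
        · calc 2 * kap D ^ 2 * (kap D * x + D.card) *
              (∑ b ∈ Finset.range e, ((((PP x).filter (fun p => p % e = b)).card : ℝ)) ^ 2)
              = 2 * M * (∑ b ∈ Finset.range e,
                ((((PP x).filter (fun p => p % e = b)).card : ℝ)) ^ 2) := by rw [hM]; ring
            _ ≤ _ := mul_le_mul_of_nonneg_left h9 (by positivity)
        · apply mul_le_mul_of_nonneg_left hPcard' (by positivity)
      calc gg e * ∑ n ∈ Finset.Icc (1 : ℤ) x, ff D x n * ∑ b ∈ Finset.range e,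
            (∑ p ∈ (PP x).filter (fun p => p % e = b), ff D x (n + 2 * s * p)) ^ 2
          ≤ gg e * (2 * M * (C1 * (x / Real.log x) ^ 2 / (Nat.totient e : ℝ)) + 2 * S ^ 2 * x) :=
            mul_le_mul_of_nonneg_left h10 (gg_nonneg e)
        _ = 2 * M * C1 * (x / Real.log x) ^ 2 * (gg e / (Nat.totient e : ℝ)) +
            2 * S ^ 2 * x * (gg e * 1) := by ring
        _ ≤ _ := by
            apply add_le_add le_rfl
            apply mul_le_mul_of_nonneg_left _ (by positivity)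
            exact mul_le_mul_of_nonneg_left he1 (gg_nonneg e)
    refine (Finset.sum_le_sum hone).trans ?_
    rw [Finset.sum_add_distrib, ← Finset.mul_sum, ← Finset.mul_sum]
    apply add_le_add
    · calc 2 * M * C1 * (x / Real.log x) ^ 2 * ∑ e ∈ Finset.Icc 1 E, gg e / (Nat.totient e : ℝ)
          ≤ 2 * M * C1 * (x / Real.log x) ^ 2 * C3 :=
            mul_le_mul_of_nonneg_left (hgs E).2 (by positivity)
        _ = _ := by ring
    · calc 2 * S ^ 2 * x * ∑ e ∈ Finset.Icc 1 E, gg e * e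
          ≤ 2 * S ^ 2 * x * (E : ℝ) ^ 6 := mul_le_mul_of_nonneg_left (gg_crude E) (by positivity)
        _ = _ := by ring
  -- the tail
  have htl : ∑ n ∈ Finset.Icc (1 : ℤ) x, ∑ p1 ∈ PP x, ∑ p2 ∈ PP x,
        (if (p1 : ℤ) - p2 = 0 then 0 else ldmT E ((p1 : ℤ) - p2).natAbs) ≤
      2 * C2 * (x ^ 3 / Real.sqrt E) := by
    have h11 : ∀ n ∈ Finset.Icc (1 : ℤ) x, ∑ p1 ∈ PP x, ∑ p2 ∈ PP x,
        (if (p1 : ℤ) - p2 = 0 then 0 else ldmT E ((p1 : ℤ) - p2).natAbs) ≤
        x * (2 * (C2 * x / Real.sqrt E)) := by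
      intro n _
      calc ∑ p1 ∈ PP x, ∑ p2 ∈ PP x,
          (if (p1 : ℤ) - p2 = 0 then 0 else ldmT E ((p1 : ℤ) - p2).natAbs)
          ≤ ∑ p1 ∈ PP x, 2 * (C2 * x / Real.sqrt E) := by
            apply Finset.sum_le_sum
            intro p1 hp1
            refine (ldm_tail_one x E (PP x) hPx p1 (hPx p1 hp1)).trans ?_
            apply mul_le_mul_of_nonneg_left _ (by norm_num)
            exact htail x E hE
        _ = (PP x).card * (2 * (C2 * x / Real.sqrt E)) := by
            rw [Finset.sum_const, nsmul_eq_mul]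
        _ ≤ x * (2 * (C2 * x / Real.sqrt E)) := by
            apply mul_le_mul_of_nonneg_right hPcard'
            positivity
    refine (Finset.sum_le_sum h11).trans ?_
    rw [Finset.sum_const, nsmul_eq_mul]
    have h12 : ((Finset.Icc (1 : ℤ) x).card : ℝ) = x := by
      simp
    rw [h12]
    apply le_of_eq
    ring
  have hA : 0 ≤ kap D ^ 2 * (kap D * x + D.card) * (x / Real.log x) ^ 2 := by positivity
  have hB : 0 ≤ (E : ℝ) ^ 6 * (S ^ 2 * x) := by positivity
  have hC : 0 ≤ (x : ℝ) ^ 3 / Real.sqrt E := by positivity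
  have hcc : 0 < C1 * C3 := mul_pos hC1 hC3
  nlinarith [hhead, htl, mul_nonneg hcc.le hB, mul_nonneg hcc.le hC, mul_nonneg hC2.le hA,
    mul_nonneg hC2.le hB]

end Pool.Agent.TFC
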