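import Pool.Agent.TFC.LXC
import Pool.Agent.TFC.HSMB

set_option autoImplicit false

namespace Pool.Agent.TFC

open Finset

/-- shifts permute the residue classes -/
theorem lxm_shift (e : ℕ) (he : 1 ≤ e) (c : ℤ) (a : ℤ → ℝ)
    (ha : ∀ u v : ℤ, (e : ℤ) ∣ u - v → a u = a v) :
    ∑ b ∈ Finset.range e, a (b + c) = ∑ b ∈ Finset.range e, a b := by
  have he0 : (0 : ℤ) < e := by exact_mod_cast he
  have hmem : ∀ z : ℤ, (z % e).toNat ∈ Finset.range e := by
    intro z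
    rw [Finset.mem_range]
    have h1 := Int.emod_nonneg z he0.ne'
    have h2 := Int.emod_lt_of_pos z he0
    omega
  have hcast : ∀ z : ℤ, (((z % e).toNat : ℕ) : ℤ) = z % e := fun z =>
    Int.toNat_of_nonneg (Int.emod_nonneg z he0.ne')
  have hback : ∀ b ∈ Finset.range e, ∀ z : ℤ, (e : ℤ) ∣ z - b → (z % e).toNat = b := by
    intro b hb z hz
    rw [Finset.mem_range] at hb
    have h3 : z % (e : ℤ) = (b : ℤ) % e := (Int.modEq_iff_dvd.2 hz).symm
    rw [Int.emod_eq_of_lt (by omega) (by omega : (b : ℤ) < e)] at h3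
    omega
  have hd : ∀ z : ℤ, (e : ℤ) ∣ z - z % e := fun z => Int.dvd_self_sub_emod
  refine Finset.sum_nbij' (fun b : ℕ => (((b : ℤ) + c) % e).toNat)
    (fun b : ℕ => (((b : ℤ) - c) % e).toNat) (fun b _ => hmem _) (fun b _ => hmem _) ?_ ?_ ?_
  · intro b hb
    apply hback b hb
    rw [hcast]
    have h1 := hd (b + c)
    have h2 : ((b : ℤ) + c) % e - c - b = -((b : ℤ) + c - ((b : ℤ) + c) % e) := by ring
    rw [h2]
    exact (dvd_neg).2 h1
  · intro b hb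
    apply hback b hb
    rw [hcast]
    have h1 := hd (b - c)
    have h2 : ((b : ℤ) - c) % e + c - b = -((b : ℤ) - c - ((b : ℤ) - c) % e) := by ring
    rw [h2]
    exact (dvd_neg).2 h1
  · intro b _
    apply ha
    rw [hcast]
    exact hd _

/-- the pairs in one residue class, shifted -/
theorem lxm_pairs (e : ℕ) (he : 1 ≤ e) (c : ℤ) (s : Finset ℤ) (F : ℤ → ℝ) :
    ∑ n1 ∈ s, ∑ n2 ∈ s, (if (e : ℤ) ∣ n2 - n1 - c then F n1 * F n2 else 0) ≤
      ∑ b ∈ Finset.range e, (∑ n ∈ s.filter (fun n => (e : ℤ) ∣ n - b), F n) ^ 2 := by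
  set a : ℤ → ℝ := fun z => ∑ n ∈ s.filter (fun n => (e : ℤ) ∣ n - z), F n with ha
  have hper : ∀ u v : ℤ, (e : ℤ) ∣ u - v → a u = a v := by
    intro u v huv
    rw [ha]
    simp only
    refine Finset.sum_congr (Finset.filter_congr fun n _ => ?_) fun _ _ => rfl
    constructor
    · intro h
      have : n - v = (n - u) + (u - v) := by ring
      rw [this]; exact dvd_add h huv
    · intro h
      have : n - u = (n - v) - (u - v) := by ring
      rw [this]; exact dvd_sub h huv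
  have h1 : ∑ n1 ∈ s, ∑ n2 ∈ s, (if (e : ℤ) ∣ n2 - n1 - c then F n1 * F n2 else 0) =
      ∑ b ∈ Finset.range e, a b * a (b + c) := by
    rw [← lxc_part e he s]
    refine Finset.sum_congr rfl fun b _ => ?_
    have h2 : ∀ n1 ∈ s.filter (fun n => (e : ℤ) ∣ n - b),
        ∑ n2 ∈ s, (if (e : ℤ) ∣ n2 - n1 - c then F n1 * F n2 else 0) = F n1 * a (b + c) := by
      intro n1 hn1
      rw [Finset.mem_filter] at hn1
      have h3 : a (b + c) = a (n1 + c) := by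
        apply hper
        have : (b : ℤ) + c - (n1 + c) = -(n1 - b) := by ring
        rw [this]; exact (dvd_neg).2 hn1.2
      rw [h3, ha]
      simp only
      rw [Finset.mul_sum, Finset.sum_filter]
      refine Finset.sum_congr rfl fun n2 _ => ?_
      rw [show n2 - (n1 + c) = n2 - n1 - c by ring]
    rw [Finset.sum_congr rfl h2, ← Finset.sum_mul]
  rw [h1]
  have h2 : ∑ b ∈ Finset.range e, a (b + c) ^ 2 = ∑ b ∈ Finset.range e, a b ^ 2 :=
    lxm_shift e he c (fun z => a z ^ 2) (fun u v huv => by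
      simp only [hper u v huv])
  have h3 : ∑ b ∈ Finset.range e, a b * a (b + c) ≤
      ∑ b ∈ Finset.range e, (a b ^ 2 + a (b + c) ^ 2) / 2 :=
    Finset.sum_le_sum fun b _ => by nlinarith [sq_nonneg (a b - a (b + c))]
  refine h3.trans (le_of_eq ?_)
  rw [← Finset.sum_div, Finset.sum_add_distrib, h2]
  ring

/-- sums over a shifted interval of a nonnegative function of the distance -/
theorem lxm_dist (G : ℕ → ℝ) (hG : ∀ d, 0 ≤ G d) (hG0 : G 0 = 0) (s : Finset ℤ) (c : ℤ) (M : ℕ)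
    (hs : ∀ n ∈ s, (n - c).natAbs ≤ M) :
    ∑ n ∈ s, G (n - c).natAbs ≤ 2 * ∑ d ∈ Finset.Icc 1 M, G d := by
  have h1 : ∑ n ∈ s, G (n - c).natAbs =
      ∑ n ∈ s.filter (fun n => 0 < n - c), G (n - c).natAbs +
      ∑ n ∈ s.filter (fun n => n - c < 0), G (n - c).natAbs := by
    rw [Finset.sum_filter, Finset.sum_filter, ← Finset.sum_add_distrib]
    refine Finset.sum_congr rfl fun n _ => ?_
    rcases lt_trichotomy (n - c) 0 with h | h | h
    · rw [if_neg (by omega), if_pos h, zero_add]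
    · rw [if_neg (by omega), if_neg (by omega), h, Int.natAbs_zero, hG0, zero_add]
    · rw [if_pos h, if_neg (by omega), add_zero]
  have h2 : ∀ q : ℤ → Prop, ∀ [DecidablePred q], (∀ n ∈ s.filter q, n - c ≠ 0) →
      (∀ n ∈ s.filter q, ∀ m ∈ s.filter q, (n - c).natAbs = (m - c).natAbs → n = m) →
      ∑ n ∈ s.filter q, G (n - c).natAbs ≤ ∑ d ∈ Finset.Icc 1 M, G d := by
    intro q _ hne hinj
    rw [← Finset.sum_image (f := G) (g := fun n : ℤ => (n - c).natAbs)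
      (by intro a ha b hb hab; exact hinj a ha b hb hab)]
    refine Finset.sum_le_sum_of_subset_of_nonneg ?_ fun d _ _ => hG d
    intro d hd
    rw [Finset.mem_image] at hd
    obtain ⟨n, hn, rfl⟩ := hd
    rw [Finset.mem_Icc]
    refine ⟨?_, hs n (Finset.filter_subset _ _ hn)⟩
    have := hne n hn
    have := Int.natAbs_pos.2 this
    omega
  rw [h1, two_mul]
  refine add_le_add (h2 _ ?_ ?_) (h2 _ ?_ ?_)
  · intro n hn
    rw [Finset.mem_filter] at hn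
    omega
  · intro n hn m hm h
    rw [Finset.mem_filter] at hn hm
    omega
  · intro n hn
    rw [Finset.mem_filter] at hn
    omega
  · intro n hn m hm h
    rw [Finset.mem_filter] at hn hm
    omega

/-- the bound for one `p` with the shift `c` -/
theorem lxm_one (x E : ℕ) (F : ℤ → ℝ) (hF0 : ∀ n, 0 ≤ F n) (hF1 : ∀ n, F n ≤ 1)
    (c : ℤ) (hc0 : 0 ≤ c) (hc : c ≤ x) :
    ∑ n1 ∈ Finset.Icc (1 : ℤ) x, ∑ n2 ∈ Finset.Icc (1 : ℤ) x,
      (if n2 - n1 - c = 0 then 0 else F n1 * F n2 * HH (n2 - n1 - c).natAbs) ≤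
    ∑ e ∈ Finset.Icc 1 E, gg e * ∑ b ∈ Finset.range e,
      (∑ n ∈ (Finset.Icc (1 : ℤ) x).filter (fun n => (e : ℤ) ∣ n - b), F n) ^ 2 +
    2 * x * ∑ d ∈ Finset.Icc 1 (2 * x), ∑ e ∈ d.divisors.filter (fun e => E < e), gg e := by
  set G : ℕ → ℝ := fun d => ∑ e ∈ d.divisors.filter (fun e => E < e), gg e with hG
  have hGnn : ∀ d, 0 ≤ G d := fun d => Finset.sum_nonneg fun e _ => gg_nonneg e
  have hG0 : G 0 = 0 := by rw [hG]; simp
  -- pointwise
  have h1 : ∀ n1 ∈ Finset.Icc (1 : ℤ) x, ∀ n2 ∈ Finset.Icc (1 : ℤ) x,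
      (if n2 - n1 - c = 0 then 0 else F n1 * F n2 * HH (n2 - n1 - c).natAbs) ≤
      ∑ e ∈ Finset.Icc 1 E, gg e * (if (e : ℤ) ∣ n2 - n1 - c then F n1 * F n2 else 0) +
        G (n2 - (n1 + c)).natAbs := by
    intro n1 _ n2 _
    have hFF : 0 ≤ F n1 * F n2 := mul_nonneg (hF0 _) (hF0 _)
    have hFF1 : F n1 * F n2 ≤ 1 := by
      have := mul_le_mul (hF1 n1) (hF1 n2) (hF0 n2) zero_le_one
      linarith
    by_cases h0 : n2 - n1 - c = 0
    · rw [if_pos h0]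
      refine add_nonneg (Finset.sum_nonneg fun e _ => mul_nonneg (gg_nonneg e) ?_) (hGnn _)
      split_ifs
      · exact hFF
      · exact le_rfl
    · rw [if_neg h0]
      have hd : (n2 - n1 - c).natAbs ≠ 0 := by
        rw [Ne, Int.natAbs_eq_zero]; exact h0
      rw [show n2 - (n1 + c) = n2 - n1 - c by ring, HH_eq _ hd,
        ← Finset.sum_filter_add_sum_filter_not (n2 - n1 - c).natAbs.divisors (fun e => E < e)]
      have h2 : ∑ e ∈ (n2 - n1 - c).natAbs.divisors.filter (fun e => ¬ E < e), gg e =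
          ∑ e ∈ Finset.Icc 1 E, (if (e : ℤ) ∣ n2 - n1 - c then gg e else 0) := by
        rw [← Finset.sum_filter]
        refine Finset.sum_congr ?_ fun _ _ => rfl
        ext e
        rw [Finset.mem_filter, Finset.mem_filter, Nat.mem_divisors, Finset.mem_Icc,
          Int.natCast_dvd]
        constructor
        · rintro ⟨⟨a1, a2⟩, a3⟩
          refine ⟨⟨Nat.pos_of_dvd_of_pos a1 (Nat.pos_of_ne_zero a2), by omega⟩, a1⟩
        · rintro ⟨⟨a1, a2⟩, a3⟩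
          exact ⟨⟨a3, hd⟩, by omega⟩
      rw [h2]
      have h3 : F n1 * F n2 * G (n2 - n1 - c).natAbs ≤ G (n2 - n1 - c).natAbs := by
        have := mul_le_mul_of_nonneg_right hFF1 (hGnn (n2 - n1 - c).natAbs)
        linarith
      have h4 : F n1 * F n2 * ∑ e ∈ Finset.Icc 1 E, (if (e : ℤ) ∣ n2 - n1 - c then gg e else 0) =
          ∑ e ∈ Finset.Icc 1 E, gg e * (if (e : ℤ) ∣ n2 - n1 - c then F n1 * F n2 else 0) := by
        rw [Finset.mul_sum]
        refine Finset.sum_congr rfl fun e _ => ?_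
        split_ifs <;> ring
      rw [mul_add, h4]
      linarith
  refine (Finset.sum_le_sum fun n1 hn1 => Finset.sum_le_sum fun n2 hn2 => h1 n1 hn1 n2 hn2).trans ?_
  simp only [Finset.sum_add_distrib]
  refine add_le_add ?_ ?_
  · have h2 : ∑ n1 ∈ Finset.Icc (1 : ℤ) x, ∑ n2 ∈ Finset.Icc (1 : ℤ) x,
        ∑ e ∈ Finset.Icc 1 E, gg e * (if (e : ℤ) ∣ n2 - n1 - c then F n1 * F n2 else 0) =
        ∑ e ∈ Finset.Icc 1 E, gg e * ∑ n1 ∈ Finset.Icc (1 : ℤ) x, ∑ n2 ∈ Finset.Icc (1 : ℤ) x,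
          (if (e : ℤ) ∣ n2 - n1 - c then F n1 * F n2 else 0) := by
      have h3 : ∀ n1 ∈ Finset.Icc (1 : ℤ) x, ∑ n2 ∈ Finset.Icc (1 : ℤ) x,
          ∑ e ∈ Finset.Icc 1 E, gg e * (if (e : ℤ) ∣ n2 - n1 - c then F n1 * F n2 else 0) =
          ∑ e ∈ Finset.Icc 1 E, ∑ n2 ∈ Finset.Icc (1 : ℤ) x,
            gg e * (if (e : ℤ) ∣ n2 - n1 - c then F n1 * F n2 else 0) :=
        fun n1 _ => Finset.sum_comm
      rw [Finset.sum_congr rfl h3, Finset.sum_comm]
      refine Finset.sum_congr rfl fun e _ => ?_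
      rw [Finset.mul_sum]
      refine Finset.sum_congr rfl fun n1 _ => ?_
      rw [Finset.mul_sum]
    rw [h2]
    refine Finset.sum_le_sum fun e he => ?_
    rw [Finset.mem_Icc] at he
    exact mul_le_mul_of_nonneg_left (lxm_pairs e he.1 c _ F) (gg_nonneg e)
  · calc ∑ n1 ∈ Finset.Icc (1 : ℤ) x, ∑ n2 ∈ Finset.Icc (1 : ℤ) x, G (n2 - (n1 + c)).natAbs
        ≤ ∑ _n1 ∈ Finset.Icc (1 : ℤ) x, 2 * ∑ d ∈ Finset.Icc 1 (2 * x), G d := by
          refine Finset.sum_le_sum fun n1 hn1 => ?_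
          rw [Finset.mem_Icc] at hn1
          refine lxm_dist G hGnn hG0 _ (n1 + c) (2 * x) fun n hn => ?_
          rw [Finset.mem_Icc] at hn
          omega
      _ = 2 * x * ∑ d ∈ Finset.Icc 1 (2 * x), G d := by
          rw [Finset.sum_const, Int.card_Icc, nsmul_eq_mul]
          have : ((x : ℤ) + 1 - 1).toNat = x := by omega
          rw [this]; ring

/-- both second moments -/
theorem lxm_main : ∃ C : ℝ, 0 < C ∧ ∀ (D : Finset ℕ) (x E : ℕ) (S : ℝ), Good D x E S → 1 ≤ E →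
    ∀ P : Finset ℕ, (∀ p ∈ P, 1 ≤ p ∧ 2 * p ≤ x) → ∀ c : ℕ → ℤ, (∀ p ∈ P, 0 ≤ c p ∧ c p ≤ x) →
    ∑ p ∈ P, ∑ n1 ∈ Finset.Icc (1 : ℤ) x, ∑ n2 ∈ Finset.Icc (1 : ℤ) x,
      (if n2 - n1 - c p = 0 then 0 else
        ff D x n1 * ff D x (n1 + 2 * p) * (ff D x n2 * ff D x (n2 + 2 * p)) *
        HH (n2 - n1 - c p).natAbs) ≤
      C * (P.card * kap D ^ 4 * x ^ 2 + (E : ℝ) ^ 6 * (P.card * (D.card + 1) ^ 2 + S ^ 2 * x)
        + P.card * x ^ 2 / Real.sqrt E) := by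
  obtain ⟨C1, hC1, h1⟩ := LX_class
  obtain ⟨C2, hC2, h2⟩ := gg_sum
  obtain ⟨C3, hC3, h3⟩ := gg_tail
  refine ⟨C1 * C2 + C1 + 4 * C3, by positivity, fun D x E S h hE P hP c hc => ?_⟩
  have hone : ∀ p ∈ P, ∑ n1 ∈ Finset.Icc (1 : ℤ) x, ∑ n2 ∈ Finset.Icc (1 : ℤ) x,
      (if n2 - n1 - c p = 0 then 0 else
        ff D x n1 * ff D x (n1 + 2 * p) * (ff D x n2 * ff D x (n2 + 2 * p)) *
        HH (n2 - n1 - c p).natAbs) ≤
      ∑ e ∈ Finset.Icc 1 E, gg e * ∑ b ∈ Finset.range e,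
        (∑ n ∈ (Finset.Icc (1 : ℤ) x).filter (fun n => (e : ℤ) ∣ n - b),
          ff D x n * ff D x (n + 2 * p)) ^ 2 +
      4 * C3 * (x ^ 2 / Real.sqrt E) := by
    intro p hp
    have h4 := lxm_one x E (fun n => ff D x n * ff D x (n + 2 * p))
      (fun n => mul_nonneg (ff_le_one h n).1 (ff_le_one h _).1)
      (fun n => by
        have := mul_le_mul (ff_le_one h n).2 (ff_le_one h (n + 2 * p)).2
          (ff_le_one h (n + 2 * p)).1 zero_le_one
        simpa using this) (c p) (hc p hp).1 (hc p hp).2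
    refine h4.trans (add_le_add le_rfl ?_)
    have h5 := h3 (2 * x) E hE
    calc 2 * (x : ℝ) * ∑ d ∈ Finset.Icc 1 (2 * x), ∑ e ∈ d.divisors.filter (fun e => E < e), gg e
        ≤ 2 * x * (C3 * ((2 * x : ℕ) : ℝ) / Real.sqrt E) :=
          mul_le_mul_of_nonneg_left h5 (by positivity)
      _ = 4 * C3 * (x ^ 2 / Real.sqrt E) := by push_cast; ring
  refine (Finset.sum_le_sum hone).trans ?_
  rw [Finset.sum_add_distrib, Finset.sum_const, nsmul_eq_mul, Finset.sum_comm]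
  have h6 : ∑ e ∈ Finset.Icc 1 E, ∑ p ∈ P, gg e * ∑ b ∈ Finset.range e,
        (∑ n ∈ (Finset.Icc (1 : ℤ) x).filter (fun n => (e : ℤ) ∣ n - b),
          ff D x n * ff D x (n + 2 * p)) ^ 2 ≤
      ∑ e ∈ Finset.Icc 1 E, (C1 * (P.card * kap D ^ 4 * x ^ 2) * (gg e / e) +
        C1 * (P.card * (D.card + 1) ^ 2 + S ^ 2 * x) * (gg e * e)) := by
    refine Finset.sum_le_sum fun e he => ?_
    rw [Finset.mem_Icc] at he
    rw [← Finset.mul_sum]
    have h7 := mul_le_mul_of_nonneg_left (h1 D x E S h hE P hP e he.1 he.2) (gg_nonneg e)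
    refine h7.trans ?_
    have hg := gg_nonneg e
    have he1 : (1 : ℝ) ≤ e := by exact_mod_cast he.1
    have h8 : C1 * gg e * (S ^ 2 * x) ≤ C1 * gg e * (S ^ 2 * x) * e := by
      have : 0 ≤ C1 * gg e * (S ^ 2 * x) := by positivity
      nlinarith
    have e1 : gg e * (C1 * (P.card * kap D ^ 4 * x ^ 2 / e + e * P.card * (D.card + 1) ^ 2 +
        S ^ 2 * x)) = C1 * (P.card * kap D ^ 4 * x ^ 2) * (gg e / e) +
        C1 * (P.card * (D.card + 1) ^ 2) * (gg e * e) + C1 * gg e * (S ^ 2 * x) := by ring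
    have e2 : C1 * (P.card * kap D ^ 4 * x ^ 2) * (gg e / e) +
        C1 * (P.card * (D.card + 1) ^ 2 + S ^ 2 * x) * (gg e * e) =
        C1 * (P.card * kap D ^ 4 * x ^ 2) * (gg e / e) +
        C1 * (P.card * (D.card + 1) ^ 2) * (gg e * e) + C1 * gg e * (S ^ 2 * x) * e := by ring
    rw [e1, e2]
    linarith
  have h9 := (h2 E).1
  have h10 := gg_crude E
  have hkap : 0 ≤ kap D := Finset.sum_nonneg fun p _ => by positivity
  have hA : 0 ≤ (P.card : ℝ) * kap D ^ 4 * x ^ 2 := by positivity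
  have hB : 0 ≤ (P.card : ℝ) * (D.card + 1) ^ 2 + S ^ 2 * x := by positivity
  have hE6 : (0 : ℝ) ≤ (E : ℝ) ^ 6 := by positivity
  have hT : 0 ≤ (P.card : ℝ) * x ^ 2 / Real.sqrt E := by positivity
  rw [Finset.sum_add_distrib, ← Finset.mul_sum, ← Finset.mul_sum] at h6
  set A := (P.card : ℝ) * kap D ^ 4 * x ^ 2
  set B := (P.card : ℝ) * (D.card + 1) ^ 2 + S ^ 2 * x
  set T := (P.card : ℝ) * x ^ 2 / Real.sqrt E with hTd
  have e3 : (P.card : ℝ) * (4 * C3 * (x ^ 2 / Real.sqrt E)) = 4 * C3 * T := by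
    rw [hTd]; ring
  rw [e3]
  have h11 : C1 * A * ∑ e ∈ Finset.Icc 1 E, gg e / e ≤ C1 * A * C2 :=
    mul_le_mul_of_nonneg_left h9 (by positivity)
  have h12 : C1 * B * ∑ e ∈ Finset.Icc 1 E, gg e * e ≤ C1 * B * (E : ℝ) ^ 6 :=
    mul_le_mul_of_nonneg_left h10 (by positivity)
  have p1 : 0 ≤ C1 * A := by positivity
  have p2 : 0 ≤ C3 * A := by positivity
  have p3 : 0 ≤ C1 * C2 * ((E : ℝ) ^ 6 * B) := by positivity
  have p4 : 0 ≤ C3 * ((E : ℝ) ^ 6 * B) := by positivity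
  have p5 : 0 ≤ C1 * C2 * T := by positivity
  have p6 : 0 ≤ C1 * T := by positivity
  have e4 : (C1 * C2 + C1 + 4 * C3) * (A + (E : ℝ) ^ 6 * B + T) =
      C1 * A * C2 + C1 * B * (E : ℝ) ^ 6 + 4 * C3 * T + C1 * A + 4 * (C3 * A) +
      C1 * C2 * ((E : ℝ) ^ 6 * B) + 4 * (C3 * ((E : ℝ) ^ 6 * B)) + C1 * C2 * T + C1 * T := by ring
  rw [e4]
  linarith

/-- LXM (b): second moment with the weight `HH (n2 - n1)`. Expand `HH = ∑_{e ∣ ·} gg e`, `e ≤ E` by (a)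
(`∑_{n1 ≡ n2 (e)} = ∑_b (∑_{n ≡ b} ..)²`), `e > E` by `gg_tail` with all `ff ≤ 1`. -/
theorem LX : ∃ C : ℝ, 0 < C ∧ ∀ (D : Finset ℕ) (x E : ℕ) (S : ℝ), Good D x E S → 1 ≤ E →
    ∀ P : Finset ℕ, (∀ p ∈ P, 1 ≤ p ∧ 2 * p ≤ x) →
    ∑ p ∈ P, ∑ n1 ∈ Finset.Icc (1 : ℤ) x, ∑ n2 ∈ Finset.Icc (1 : ℤ) x,
      (if n2 - n1 = 0 then 0 else ff D x n1 * ff D x (n1 + 2 * p) * (ff D x n2 * ff D x (n2 + 2 * p)) *
        HH (n2 - n1).natAbs) ≤
      C * (P.card * kap D ^ 4 * x ^ 2 + (E : ℝ) ^ 6 * (P.card * (D.card + 1) ^ 2 + S ^ 2 * x)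
        + P.card * x ^ 2 / Real.sqrt E) := by
  obtain ⟨C, hC, h⟩ := lxm_main
  refine ⟨C, hC, fun D x E S hg hE P hP => ?_⟩
  have h1 := h D x E S hg hE P hP (fun _ => 0) (fun p _ => ⟨le_rfl, by positivity⟩)
  simp only [sub_zero] at h1
  exact h1

end Pool.Agent.TFC
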