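import Pool.Agent.TFC.LXM

set_option autoImplicit false

namespace Pool.Agent.TFC

open Finset

/-- LXM (c): the same with the weight `HH (n2 - n1 - 2p)`; now
`∑_{n2 ≡ n1 + 2p (e)} = ∑_b A_{b-2p} A_b ≤ ∑_b A_b²`. -/
theorem LX' : ∃ C : ℝ, 0 < C ∧ ∀ (D : Finset ℕ) (x E : ℕ) (S : ℝ), Good D x E S → 1 ≤ E →
    ∀ P : Finset ℕ, (∀ p ∈ P, 1 ≤ p ∧ 2 * p ≤ x) →
    ∑ p ∈ P, ∑ n1 ∈ Finset.Icc (1 : ℤ) x, ∑ n2 ∈ Finset.Icc (1 : ℤ) x,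
      (if n2 - n1 - 2 * p = 0 then 0 else
        ff D x n1 * ff D x (n1 + 2 * p) * (ff D x n2 * ff D x (n2 + 2 * p)) *
        HH (n2 - n1 - 2 * p).natAbs) ≤
      C * (P.card * kap D ^ 4 * x ^ 2 + (E : ℝ) ^ 6 * (P.card * (D.card + 1) ^ 2 + S ^ 2 * x)
        + P.card * x ^ 2 / Real.sqrt E) := by
  obtain ⟨C, hC, h⟩ := lxm_main
  refine ⟨C, hC, fun D x E S hg hE P hP => ?_⟩
  exact h D x E S hg hE P hP (fun p => 2 * (p : ℤ)) (fun p hp => by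
    have := (hP p hp).2
    constructor
    · positivity
    · exact_mod_cast this)

end Pool.Agent.TFC
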