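import Pool.Agent.TFC.Defs

set_option autoImplicit false

namespace Pool.Agent.TFC

open Finset

/-- SRV: product formula for the expectation. -/
theorem Ex_prod (z : ℕ) (g : {q : ℕ // q ∈ pz z} → ℕ → ℝ) :
    Ex z (fun ω => ∏ q, g q (ω q)) = ∏ q : {q : ℕ // q ∈ pz z}, ((∑ r ∈ Finset.range q.1, g q r) / q.1) := by
  unfold Ex OM
  rw [← Finset.prod_univ_sum, Finset.prod_div_distrib]
  congr 1
  rw [Fintype.card_piFinset]
  push_cast
  simp

theorem srva_pos {z : ℕ} (q : {q : ℕ // q ∈ pz z}) : 2 ≤ q.1 := by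
  have h := q.2
  simp only [pz, Finset.mem_filter] at h
  exact h.2.two_le

theorem srva_card_pos (z : ℕ) : 0 < ((OM z).card : ℝ) := by
  unfold OM
  rw [Fintype.card_piFinset]
  push_cast
  apply Finset.prod_pos
  intro q _
  have h := srva_pos q
  rw [Finset.card_range]
  exact_mod_cast (by omega : 0 < q.1)

theorem srva_mono (z : ℕ) (f g : ({q : ℕ // q ∈ pz z} → ℕ) → ℝ) (h : ∀ ω, f ω ≤ g ω) :
    Ex z f ≤ Ex z g := by
  unfold Ex
  exact div_le_div_of_nonneg_right (Finset.sum_le_sum (fun ω _ => h ω)) (srva_card_pos z).le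

theorem srva_add (z : ℕ) (f g : ({q : ℕ // q ∈ pz z} → ℕ) → ℝ) :
    Ex z (fun ω => f ω + g ω) = Ex z f + Ex z g := by
  unfold Ex
  rw [Finset.sum_add_distrib, add_div]

theorem srva_sum {ι : Type*} (z : ℕ) (s : Finset ι) (f : ι → ({q : ℕ // q ∈ pz z} → ℕ) → ℝ) :
    Ex z (fun ω => ∑ i ∈ s, f i ω) = ∑ i ∈ s, Ex z (f i) := by
  unfold Ex
  rw [Finset.sum_comm, Finset.sum_div]

/-- SRV (a) -/
theorem Ex_const (z : ℕ) (c : ℝ) : Ex z (fun _ => c) = c := by
  unfold Ex
  rw [Finset.sum_const, nsmul_eq_mul]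
  have h := srva_card_pos z
  field_simp

theorem srva_sc_zero (z : ℕ) (ω : {q : ℕ // q ∈ pz z} → ℕ) (n : ℕ) :
    sc z ω n = 0 ↔ ∀ q, n % q.1 ≠ ω q := by
  unfold sc
  rw [Finset.card_eq_zero, Finset.filter_eq_empty_iff]
  simp

theorem srva_prod_sub (z : ℕ) (h : ℕ → ℝ) :
    ∏ q : {q : ℕ // q ∈ pz z}, h q.1 = ∏ q ∈ pz z, h q := by
  exact Finset.prod_coe_sort (pz z) h

/-- number of residues avoiding one class -/
theorem srva_sum_ne (q a : ℕ) (hq : a < q) :
    (∑ r ∈ Finset.range q, (if a = r then (0:ℝ) else 1)) = (q:ℝ) - 1 := by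
  have h1 : (∑ r ∈ Finset.range q, (if a = r then (0:ℝ) else 1)) =
      ∑ r ∈ Finset.range q, ((1:ℝ) - (if a = r then 1 else 0)) := by
    apply Finset.sum_congr rfl
    intro r _
    split_ifs <;> simp
  rw [h1, Finset.sum_sub_distrib, Finset.sum_ite_eq]
  simp [hq]

/-- SRV (b) one point -/
theorem surv_one (z n : ℕ) : Ex z (fun ω => if sc z ω n = 0 then 1 else 0) = VV z := by
  have h1 : (fun ω : {q : ℕ // q ∈ pz z} → ℕ => if sc z ω n = 0 then (1:ℝ) else 0) =
      fun ω => ∏ q : {q : ℕ // q ∈ pz z}, (if n % q.1 = ω q then (0:ℝ) else 1) := by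
    funext ω
    by_cases h : sc z ω n = 0
    · rw [if_pos h]
      rw [srva_sc_zero] at h
      symm
      apply Finset.prod_eq_one
      intro q _
      rw [if_neg (h q)]
    · rw [if_neg h]
      rw [srva_sc_zero] at h
      push Not at h
      obtain ⟨q, hq⟩ := h
      symm
      apply Finset.prod_eq_zero (Finset.mem_univ q)
      rw [if_pos hq]
  rw [h1, Ex_prod z (fun q r => if n % q.1 = r then (0:ℝ) else 1)]
  unfold VV
  rw [← srva_prod_sub z (fun q => 1 - 1 / (q : ℝ))]
  apply Finset.prod_congr rfl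
  intro q _
  have h2 := srva_pos q
  rw [srva_sum_ne q.1 (n % q.1) (Nat.mod_lt _ (by omega))]
  have h3 : (q.1 : ℝ) ≠ 0 := by
    have : q.1 ≠ 0 := by omega
    exact_mod_cast this
  field_simp

/-- SRV (c) at most one small prime: `P(sc = 1) = ∑_q (1/q) ∏_{r ≠ q} (1-1/r) = VV ∑ 1/(q-1)`. -/
theorem surv_le_one (z n : ℕ) : Ex z (fun ω => if sc z ω n ≤ 1 then 1 else 0) ≤
    VV z * (1 + 2 * ∑ q ∈ pz z, 1 / (q : ℝ)) := by
  classical
  have hb : ∀ ω : {q : ℕ // q ∈ pz z} → ℕ, (if sc z ω n ≤ 1 then (1:ℝ) else 0) ≤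
      (if sc z ω n = 0 then 1 else 0) +
        ∑ p : {q : ℕ // q ∈ pz z}, ∏ q : {q : ℕ // q ∈ pz z},
          (if q = p then (if n % q.1 = ω q then (1:ℝ) else 0) else (if n % q.1 = ω q then (0:ℝ) else 1)) := by
    intro ω
    have hnn : ∀ p : {q : ℕ // q ∈ pz z}, 0 ≤ ∏ q : {q : ℕ // q ∈ pz z},
          (if q = p then (if n % q.1 = ω q then (1:ℝ) else 0) else (if n % q.1 = ω q then (0:ℝ) else 1)) := by
      intro p
      apply Finset.prod_nonneg
      intro q _
      split_ifs <;> norm_num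
    by_cases h0 : sc z ω n = 0
    · rw [if_pos h0, if_pos (by omega)]
      have := Finset.sum_nonneg (fun p (_ : p ∈ (Finset.univ : Finset {q : ℕ // q ∈ pz z})) => hnn p)
      linarith
    · by_cases h1 : sc z ω n ≤ 1
      · rw [if_pos h1, if_neg h0]
        have h2 : sc z ω n = 1 := by omega
        unfold sc at h2
        rw [Finset.card_eq_one] at h2
        obtain ⟨p, hp⟩ := h2
        have h3 : ∏ q : {q : ℕ // q ∈ pz z},
          (if q = p then (if n % q.1 = ω q then (1:ℝ) else 0) else (if n % q.1 = ω q then (0:ℝ) else 1)) = 1 := by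
          apply Finset.prod_eq_one
          intro q _
          by_cases hq : q = p
          · rw [if_pos hq]
            have : q ∈ ({p} : Finset {q : ℕ // q ∈ pz z}) := by simp [hq]
            rw [← hp] at this
            simp only [Finset.mem_filter, Finset.mem_univ, true_and] at this
            rw [if_pos this]
          · rw [if_neg hq]
            have : q ∉ ({p} : Finset {q : ℕ // q ∈ pz z}) := by simp [hq]
            rw [← hp] at this
            simp only [Finset.mem_filter, Finset.mem_univ, true_and] at this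
            rw [if_neg this]
        have h4 := Finset.single_le_sum (fun p (_ : p ∈ (Finset.univ : Finset {q : ℕ // q ∈ pz z})) => hnn p)
          (Finset.mem_univ p)
        simp only [h3] at h4
        linarith
      · rw [if_neg h1, if_neg h0]
        have := Finset.sum_nonneg (fun p (_ : p ∈ (Finset.univ : Finset {q : ℕ // q ∈ pz z})) => hnn p)
        linarith
  refine (srva_mono z _ _ hb).trans ?_
  rw [srva_add, surv_one, srva_sum]
  have hp : ∀ p : {q : ℕ // q ∈ pz z}, Ex z (fun ω => ∏ q : {q : ℕ // q ∈ pz z},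
          (if q = p then (if n % q.1 = ω q then (1:ℝ) else 0) else (if n % q.1 = ω q then (0:ℝ) else 1))) ≤
      VV z * (2 * (1 / (p.1 : ℝ))) := by
    intro p
    rw [Ex_prod z (fun q r => if q = p then (if n % q.1 = r then (1:ℝ) else 0) else
      (if n % q.1 = r then (0:ℝ) else 1))]
    have e1 : ∀ q : {q : ℕ // q ∈ pz z}, (∑ r ∈ Finset.range q.1,
        (if q = p then (if n % q.1 = r then (1:ℝ) else 0) else (if n % q.1 = r then (0:ℝ) else 1))) / q.1 =
        (1 - 1 / (q.1:ℝ)) * (if q = p then (1 / ((q.1:ℝ) - 1)) else 1) := by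
      intro q
      have h2 := srva_pos q
      have h3 : (2:ℝ) ≤ (q.1 : ℝ) := by exact_mod_cast h2
      by_cases hq : q = p
      · simp only [if_pos hq]
        rw [Finset.sum_ite_eq]
        rw [if_pos (Finset.mem_range.2 (Nat.mod_lt _ (by omega)))]
        have h4 : (q.1:ℝ) - 1 ≠ 0 := by linarith
        have h5 : (q.1:ℝ) ≠ 0 := by linarith
        field_simp
      · simp only [if_neg hq]
        rw [srva_sum_ne q.1 (n % q.1) (Nat.mod_lt _ (by omega))]
        have h5 : (q.1:ℝ) ≠ 0 := by linarith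
        field_simp
    rw [Finset.prod_congr rfl (fun q _ => e1 q), Finset.prod_mul_distrib]
    rw [Finset.prod_ite_eq' Finset.univ p]
    rw [if_pos (Finset.mem_univ p)]
    rw [srva_prod_sub z (fun q => 1 - 1 / (q:ℝ))]
    have hV : 0 ≤ VV z := by
      unfold VV
      apply Finset.prod_nonneg
      intro q hq
      simp only [pz, Finset.mem_filter] at hq
      have h6 : (2:ℝ) ≤ (q : ℝ) := by exact_mod_cast hq.2.two_le
      have : 1 / (q:ℝ) ≤ 1 := by
        rw [div_le_one (by linarith)]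
        linarith
      linarith
    apply mul_le_mul_of_nonneg_left _ hV
    have h2 := srva_pos p
    have h3 : (2:ℝ) ≤ (p.1 : ℝ) := by exact_mod_cast h2
    rw [mul_one_div, div_le_div_iff₀ (by linarith) (by linarith)]
    linarith
  refine (add_le_add_right (Finset.sum_le_sum (fun p _ => hp p)) _).trans ?_
  rw [← Finset.mul_sum, ← Finset.mul_sum, mul_add, mul_one]
  rw [Finset.sum_coe_sort (pz z) (fun q => 1 / (q:ℝ))]

end Pool.Agent.TFC
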