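import Pool.Agent.TFC.SRVA

set_option autoImplicit false

namespace Pool.Agent.TFC

open Finset

/-- number of residues avoiding a set of classes -/
theorem srvc_sum_ne (q : ℕ) (A : Finset ℕ) (hA : A ⊆ Finset.range q) :
    (∑ r ∈ Finset.range q, (if r ∈ A then (0:ℝ) else 1)) = (q:ℝ) - A.card := by
  have h1 : (∑ r ∈ Finset.range q, (if r ∈ A then (0:ℝ) else 1)) =
      ∑ r ∈ Finset.range q, ((1:ℝ) - (if r ∈ A then 1 else 0)) := by
    apply Finset.sum_congr rfl
    intro r _
    split_ifs <;> simp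
  rw [h1, Finset.sum_sub_distrib, Finset.sum_ite_mem, Finset.inter_eq_right.2 hA]
  simp

theorem srvc_one_le {T : Finset ℕ} {f : ℕ → ℝ} (h : ∀ s ∈ T, 1 ≤ f s) : 1 ≤ ∏ s ∈ T, f s := by
  have h1 : ∏ s ∈ T, (1:ℝ) ≤ ∏ s ∈ T, f s :=
    Finset.prod_le_prod (fun _ _ => zero_le_one) h
  simpa using h1

/-- the local inequality -/
theorem srvc_local (q : ℕ) (hq : 2 ≤ q) (T : Finset ℕ) :
    (1 - 1 / (q:ℝ)) ^ (T.image (fun n => n % q)).card ≤
      (1 - 1 / (q:ℝ)) ^ T.card * ∏ t ∈ T, ∏ s ∈ T.filter (fun s => s < t),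
        (if q ∣ t - s then (1 - 1 / (q:ℝ))⁻¹ else 1) := by
  have hqr : (2:ℝ) ≤ (q:ℝ) := by exact_mod_cast hq
  have hq1 : 1 / (q:ℝ) ≤ 1 / 2 := by
    apply one_div_le_one_div_of_le <;> linarith
  have hq0 : 0 < 1 / (q:ℝ) := by positivity
  set b : ℝ := 1 - 1 / (q:ℝ) with hb
  have hb0 : 0 < b := by linarith
  have hb1 : b ≤ 1 := by linarith
  have hbi : 1 ≤ b⁻¹ := (one_le_inv₀ hb0).2 hb1
  have hF : ∀ (a s : ℕ), 1 ≤ (if q ∣ a - s then b⁻¹ else 1) := by
    intro a s
    split_ifs
    · exact hbi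
    · exact le_refl 1
  induction T using Finset.induction_on_max with
  | empty => simp
  | insert a T ha ih =>
    have hnot : a ∉ T := fun h => lt_irrefl _ (ha a h)
    rw [Finset.prod_insert hnot, Finset.card_insert_of_notMem hnot, Finset.image_insert]
    have e1 : (insert a T).filter (fun s => s < a) = T := by
      ext s
      simp only [Finset.mem_filter, Finset.mem_insert]
      constructor
      · rintro ⟨h1 | h1, h2⟩
        · omega
        · exact h1
      · intro h
        exact ⟨Or.inr h, ha s h⟩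
    have e2 : ∀ t ∈ T, (insert a T).filter (fun s => s < t) = T.filter (fun s => s < t) := by
      intro t ht
      ext s
      simp only [Finset.mem_filter, Finset.mem_insert]
      constructor
      · rintro ⟨h1 | h1, h2⟩
        · have := ha t ht
          omega
        · exact ⟨h1, h2⟩
      · rintro ⟨h1, h2⟩
        exact ⟨Or.inr h1, h2⟩
    rw [e1]
    have e3 : ∏ t ∈ T, ∏ s ∈ (insert a T).filter (fun s => s < t), (if q ∣ t - s then b⁻¹ else 1) =
        ∏ t ∈ T, ∏ s ∈ T.filter (fun s => s < t), (if q ∣ t - s then b⁻¹ else 1) :=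
      Finset.prod_congr rfl (fun t ht => by rw [e2 t ht])
    rw [e3]
    set R : ℝ := ∏ t ∈ T, ∏ s ∈ T.filter (fun s => s < t), (if q ∣ t - s then b⁻¹ else 1) with hR
    set F : ℝ := ∏ s ∈ T, (if q ∣ a - s then b⁻¹ else 1) with hFd
    have hF1 : 1 ≤ F := by
      rw [hFd]
      exact srvc_one_le (fun s _ => hF a s)
    have hb' : 0 ≤ b ^ T.card * R := le_trans (by positivity) ih
    by_cases hm : a % q ∈ T.image (fun n => n % q)
    · rw [Finset.insert_eq_of_mem hm]
      obtain ⟨s, hs, hsm⟩ := Finset.mem_image.1 hm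
      have hdvd : q ∣ a - s := by
        have h1 : s ≡ a [MOD q] := hsm
        exact (Nat.modEq_iff_dvd' (ha s hs).le).1 h1
      have hF2 : b⁻¹ ≤ F := by
        rw [hFd, ← Finset.mul_prod_erase T _ hs, if_pos hdvd]
        have h3 : 1 ≤ ∏ x ∈ T.erase s, (if q ∣ a - x then b⁻¹ else 1) :=
          srvc_one_le (fun x _ => hF a x)
        nlinarith [hbi]
      calc b ^ (T.image (fun n => n % q)).card ≤ b ^ T.card * R := ih
        _ = (b * b⁻¹) * (b ^ T.card * R) := by rw [mul_inv_cancel₀ hb0.ne', one_mul]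
        _ ≤ (b * F) * (b ^ T.card * R) := by
            apply mul_le_mul_of_nonneg_right _ hb'
            exact mul_le_mul_of_nonneg_left hF2 hb0.le
        _ = b ^ (T.card + 1) * (F * R) := by ring
    · rw [Finset.card_insert_of_notMem hm]
      calc b ^ ((T.image (fun n => n % q)).card + 1) = b * b ^ (T.image (fun n => n % q)).card := by ring
        _ ≤ b * (b ^ T.card * R) := mul_le_mul_of_nonneg_left ih hb0.le
        _ ≤ (b * F) * (b ^ T.card * R) := by
            apply mul_le_mul_of_nonneg_right _ hb'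
            nlinarith
        _ = b ^ (T.card + 1) * (F * R) := by ring

/-- SRV (e) upper bound for a finite set `T` of integers: the probability is `∏_q (1 - ν_q/q)` with `ν_q` the
number of residues of `T` mod `q`; `ν_q ≥ |T| - #{s < t in T : q ∣ t - s}` and
`1 - ν/q ≤ (1-1/q)^ν` (`ν ≤ q`). -/
theorem surv_le (z : ℕ) (T : Finset ℕ) :
    Ex z (fun ω => if ∀ n ∈ T, sc z ω n = 0 then 1 else 0) ≤
      VV z ^ T.card * ∏ t ∈ T, ∏ s ∈ T.filter (fun s => s < t), hh z (t - s) := by
  have h1 : (fun ω : {q : ℕ // q ∈ pz z} → ℕ => if ∀ n ∈ T, sc z ω n = 0 then (1:ℝ) else 0) =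
      fun ω => ∏ q : {q : ℕ // q ∈ pz z}, (if ω q ∈ T.image (fun n => n % q.1) then (0:ℝ) else 1) := by
    funext ω
    by_cases h : ∀ n ∈ T, sc z ω n = 0
    · rw [if_pos h]
      symm
      apply Finset.prod_eq_one
      intro q _
      rw [if_neg]
      intro h2
      obtain ⟨n, hn, hn2⟩ := Finset.mem_image.1 h2
      exact (srva_sc_zero z ω n).1 (h n hn) q hn2
    · rw [if_neg h]
      push Not at h
      obtain ⟨n, hn, hn2⟩ := h
      rw [Ne, srva_sc_zero] at hn2
      push Not at hn2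
      obtain ⟨q, hq⟩ := hn2
      symm
      apply Finset.prod_eq_zero (Finset.mem_univ q)
      rw [if_pos (Finset.mem_image.2 ⟨n, hn, hq⟩)]
  rw [h1, Ex_prod z (fun q r => if r ∈ T.image (fun n => n % q.1) then (0:ℝ) else 1)]
  have h2 : VV z ^ T.card * ∏ t ∈ T, ∏ s ∈ T.filter (fun s => s < t), hh z (t - s) =
      ∏ q : {q : ℕ // q ∈ pz z}, ((1 - 1 / (q.1:ℝ)) ^ T.card * ∏ t ∈ T, ∏ s ∈ T.filter (fun s => s < t),
        (if q.1 ∣ t - s then (1 - 1 / (q.1:ℝ))⁻¹ else 1)) := by
    rw [srva_prod_sub z (fun q => ((1 - 1 / (q:ℝ)) ^ T.card * ∏ t ∈ T, ∏ s ∈ T.filter (fun s => s < t),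
        (if q ∣ t - s then (1 - 1 / (q:ℝ))⁻¹ else 1)))]
    rw [Finset.prod_mul_distrib, Finset.prod_pow]
    unfold VV
    congr 1
    rw [Finset.prod_comm]
    apply Finset.prod_congr rfl
    intro t _
    rw [Finset.prod_comm]
    apply Finset.prod_congr rfl
    intro s _
    unfold hh
    rw [Finset.prod_filter]
  rw [h2]
  apply Finset.prod_le_prod
  · intro q _
    apply div_nonneg
    · apply Finset.sum_nonneg
      intro r _
      split_ifs <;> norm_num
    · positivity
  · intro q _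
    have hq2 := srva_pos q
    refine le_trans ?_ (srvc_local q.1 hq2 T)
    have hsub : T.image (fun n => n % q.1) ⊆ Finset.range q.1 := by
      intro r hr
      obtain ⟨n, _, hn⟩ := Finset.mem_image.1 hr
      rw [Finset.mem_range, ← hn]
      exact Nat.mod_lt _ (by omega)
    rw [srvc_sum_ne q.1 _ hsub]
    have h3 : (2:ℝ) ≤ (q.1 : ℝ) := by exact_mod_cast hq2
    have h4 : 1 / (q.1:ℝ) ≤ 1 / 2 := by
      apply one_div_le_one_div_of_le <;> linarith
    have h5 := one_add_mul_le_pow (a := -(1 / (q.1:ℝ))) (by linarith) (T.image (fun n => n % q.1)).card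
    rw [← sub_eq_add_neg] at h5
    refine le_trans (le_of_eq ?_) h5
    have h6 : (q.1:ℝ) ≠ 0 := by linarith
    field_simp
    ring

end Pool.Agent.TFC
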