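import Pool.Agent.TFC.Defs
import Pool.Agent.PnMn.Rankin
import Pool.Agent.PnMn.SumInv

set_option autoImplicit false

namespace Pool.Agent.TFC

open Finset

lemma rkna_pz (z : ℕ) : (z + 1).primesBelow = pz z := by
  ext p
  simp only [Nat.mem_primesBelow, pz, Finset.mem_filter, Finset.mem_range]

/-- RKN (a): Euler product for the `z`-smooth numbers (see `sum_le_euler` in `Pool.Agent.PnMn.Rankin` and its use
in `Pool.Agent.helper32.TPC.Smooth`). -/
theorem smooth_sum (z : ℕ) (T : Finset ℕ) (hT : ∀ m ∈ T, 1 ≤ m ∧ ∀ q : ℕ, q.Prime → q ∣ m → q ≤ z) :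
    VV z * ∑ m ∈ T, 1 / (m : ℝ) ≤ 1 := by
  have h := Pool.Agent.PnMn.sum_le_euler (fun n : ℕ => 1 / (n : ℝ)) (fun n => by positivity) (by simp)
    (fun m n _ => by push_cast; rw [one_div_mul_one_div])
    (fun p => 1 / (p : ℝ)) (fun p => 1 / (p : ℝ))
    (fun p hp => ⟨by positivity, by
      rw [div_lt_one (by exact_mod_cast hp.pos)]; exact_mod_cast hp.one_lt⟩)
    (fun p hp j => by
      push_cast
      rw [one_div_pow, one_div_mul_one_div, pow_succ, mul_comm])
    (z + 1) T (fun d hd => ⟨by have := (hT d hd).1; omega, fun p hp hpd => Nat.lt_succ_of_le ((hT d hd).2 p hp hpd)⟩)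
  rw [rkna_pz] at h
  have h0 : 0 ≤ VV z := by
    unfold VV
    refine Finset.prod_nonneg (fun p hp => ?_)
    have hp' : p.Prime := by simp only [pz, Finset.mem_filter] at hp; exact hp.2
    have h1 : (1 : ℝ) / p ≤ 1 := by
      rw [div_le_one (by exact_mod_cast hp'.pos)]; exact_mod_cast hp'.one_le
    linarith
  refine (mul_le_mul_of_nonneg_left h h0).trans (le_of_eq ?_)
  unfold VV
  rw [← Finset.prod_mul_distrib]
  refine Finset.prod_eq_one (fun p hp => ?_)
  have hp' : p.Prime := by simp only [pz, Finset.mem_filter] at hp; exact hp.2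
  have h2 : (1 : ℝ) < p := by exact_mod_cast hp'.one_lt
  have h3 : (p : ℝ) ≠ 0 := by positivity
  have h4 : (p : ℝ) - 1 ≠ 0 := by linarith
  have h5 : (1 : ℝ) - 1 / p ≠ 0 := by
    have h6 : (1 : ℝ) / p < 1 := by rw [div_lt_one (by linarith)]; exact h2
    intro h7
    linarith
  have h8 : (1 : ℝ) + 1 / (p : ℝ) / (1 - 1 / (p : ℝ)) = (1 - 1 / (p : ℝ))⁻¹ := by
    rw [eq_comm, inv_eq_one_div, div_eq_iff h5, add_mul, div_mul_cancel₀ _ h5]
    ring
  rw [h8, mul_inv_cancel₀ h5]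

end Pool.Agent.TFC
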