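import Pool.Agent.TFC.ZPRA
import Pool.Agent.TFC.RKNA

set_option autoImplicit false

namespace Pool.Agent.TFC

open Finset Filter

theorem zprb_pz (z : ℕ) : pz z = (Finset.Icc 1 z).filter Nat.Prime := by
  ext q
  simp only [pz, Finset.mem_filter, Finset.mem_range, Finset.mem_Icc]
  constructor
  · rintro ⟨h1, h2⟩
    exact ⟨⟨h2.one_lt.le, by omega⟩, h2⟩
  · rintro ⟨⟨_, h1⟩, h2⟩
    exact ⟨by omega, h2⟩

theorem zprb_factor {t : ℝ} (h0 : 0 ≤ t) (h1 : t ≤ 1 / 2) :
    Real.exp (-(t + 2 * t ^ 2)) ≤ 1 - t := by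
  have hpos : 0 < 1 - t := by linarith
  rw [← Real.le_log_iff_exp_le hpos]
  have h := Real.one_sub_inv_le_log_of_pos hpos
  refine le_trans ?_ h
  have h3 : (1 - t)⁻¹ ≤ 1 + t + 2 * t ^ 2 := by
    rw [inv_le_comm₀ hpos (by nlinarith)]
    rw [inv_eq_one_div, div_le_iff₀ (by nlinarith)]
    nlinarith [mul_nonneg (sq_nonneg t) (show (0:ℝ) ≤ 1 - 2 * t by linarith)]
  linarith

theorem zprb_sq (z : ℕ) (hz : 1 ≤ z) :
    ∑ q ∈ Finset.Icc 2 z, 1 / (q : ℝ) ^ 2 ≤ 1 - 1 / (z : ℝ) := by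
  induction z, hz using Nat.le_induction with
  | base => simp
  | succ n hn ih =>
    rw [Finset.sum_Icc_succ_top (by omega)]
    have hn0 : (0 : ℝ) < n := by exact_mod_cast hn
    have h : 1 / (((n + 1 : ℕ) : ℝ)) ^ 2 ≤ 1 / (n : ℝ) - 1 / ((n + 1 : ℕ) : ℝ) := by
      push_cast
      rw [div_sub_div _ _ hn0.ne' (by positivity), div_le_div_iff₀ (by positivity) (by positivity)]
      nlinarith
    linarith

theorem zprb_harm (z : ℕ) (hz : 1 ≤ z) :
    Real.log z ≤ ∑ m ∈ Finset.Icc 1 z, 1 / (m : ℝ) := by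
  have h := log_add_one_le_harmonic z
  have h2 : ((harmonic z : ℚ) : ℝ) = ∑ m ∈ Finset.Icc 1 z, 1 / (m : ℝ) := by
    rw [harmonic_eq_sum_Icc]
    push_cast
    simp
  rw [h2] at h
  refine le_trans (Real.log_le_log (by exact_mod_cast hz) ?_) h
  push_cast
  linarith

theorem zprb_lower {C : ℝ} {z : ℕ} (hz : 2 ≤ z)
    (hC : ∑ p ∈ (Finset.Icc 1 z).filter Nat.Prime, (1 : ℝ) / p ≤ Real.log (Real.log z) + C) :
    Real.exp (-(C + 2)) * (1 / Real.log z) ≤ VV z := by
  have hlz : 0 < Real.log z := Real.log_pos (by exact_mod_cast hz)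
  have h1 : Real.exp (∑ q ∈ pz z, -(1 / (q : ℝ) + 2 * (1 / (q : ℝ)) ^ 2)) ≤ VV z := by
    rw [Real.exp_sum]
    unfold VV
    refine Finset.prod_le_prod (fun q _ => (Real.exp_pos _).le) (fun q hq => ?_)
    have hq2 : 2 ≤ q := ((Finset.mem_filter.mp hq).2).two_le
    have hq2' : (2 : ℝ) ≤ q := by exact_mod_cast hq2
    refine zprb_factor (by positivity) ?_
    exact one_div_le_one_div_of_le (by norm_num) hq2'
  refine le_trans ?_ h1
  have h2 : Real.exp (-(C + 2)) * (1 / Real.log z)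
      = Real.exp (-(Real.log (Real.log z) + C + 2)) := by
    rw [show -(Real.log (Real.log z) + C + 2) = -(C + 2) + -(Real.log (Real.log z)) by ring,
      Real.exp_add, Real.exp_neg (Real.log (Real.log z)), Real.exp_log hlz, one_div]
  rw [h2]
  apply Real.exp_le_exp.mpr
  rw [Finset.sum_neg_distrib, neg_le_neg_iff, Finset.sum_add_distrib, ← Finset.mul_sum]
  have h3 : ∑ q ∈ pz z, 1 / (q : ℝ) ≤ Real.log (Real.log z) + C := by
    rw [zprb_pz]; exact hC
  have h4 : ∑ q ∈ pz z, (1 / (q : ℝ)) ^ 2 ≤ 1 := by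
    have h5 := zprb_sq z (by omega)
    have h6 : ∑ q ∈ pz z, (1 / (q : ℝ)) ^ 2 ≤ ∑ q ∈ Finset.Icc 2 z, 1 / (q : ℝ) ^ 2 := by
      calc ∑ q ∈ pz z, (1 / (q : ℝ)) ^ 2 = ∑ q ∈ pz z, 1 / (q : ℝ) ^ 2 := by
            refine Finset.sum_congr rfl (fun q _ => ?_)
            rw [div_pow, one_pow]
        _ ≤ _ := by
            refine Finset.sum_le_sum_of_subset_of_nonneg ?_ (fun q _ _ => by positivity)
            intro q hq
            have h7 := Finset.mem_filter.mp hq
            rw [Finset.mem_Icc]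
            refine ⟨h7.2.two_le, ?_⟩
            have := Finset.mem_range.mp h7.1
            omega
    have h7 : (0 : ℝ) ≤ 1 / (z : ℝ) := by positivity
    linarith
  linarith

theorem zprb_upper {z : ℕ} (hz : 2 ≤ z) : VV z ≤ 1 / Real.log z := by
  have hlz : 0 < Real.log z := Real.log_pos (by exact_mod_cast hz)
  have hV0 : 0 ≤ VV z := by
    unfold VV
    refine Finset.prod_nonneg (fun q hq => ?_)
    have hq2 : 2 ≤ q := ((Finset.mem_filter.mp hq).2).two_le
    have hq2' : (2 : ℝ) ≤ q := by exact_mod_cast hq2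
    have : 1 / (q : ℝ) ≤ 1 / 2 := one_div_le_one_div_of_le (by norm_num) hq2'
    linarith
  have h1 := smooth_sum z (Finset.Icc 1 z) (fun m hm => by
    rw [Finset.mem_Icc] at hm
    exact ⟨hm.1, fun q _ hqm => le_trans (Nat.le_of_dvd hm.1 hqm) hm.2⟩)
  have h2 := zprb_harm z (by omega)
  rw [le_div_iff₀ hlz]
  exact le_trans (mul_le_mul_of_nonneg_left h2 hV0) h1

/-- ZPR (c): `VV (zz x)` has the exact order `loglog x / log x`. Lower bound: `1-1/q ≥ exp(-1/q - 1/q²)` and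
`Pool.Agent.PnMn.sumInvPrimes`; upper bound: `VV z ∑_{m ≤ z} 1/m ≤ 1`, so `VV z ≤ 1/log z`. -/
theorem VV_order : ∃ c : ℝ, 0 < c ∧ ∀ᶠ x : ℕ in atTop,
    c * Real.log (Real.log x) / Real.log x ≤ VV (zz x) ∧
    VV (zz x) ≤ 2 * Real.log (Real.log x) / Real.log x := by
  obtain ⟨C, hC⟩ := Pool.Agent.PnMn.sumInvPrimes
  refine ⟨Real.exp (-(C + 2)), Real.exp_pos _, ?_⟩
  filter_upwards [zz_log, zz_size, zpra_logx.eventually (eventually_gt_atTop (0 : ℝ)),
    zpra_loglogx.eventually (eventually_gt_atTop (0 : ℝ))] with x h1 h2 hN hL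
  have hz2 : 2 ≤ zz x := by omega
  have hlz : 0 < Real.log (zz x) := Real.log_pos (by exact_mod_cast hz2)
  constructor
  · have h3 := zprb_lower hz2 (hC (zz x) hz2)
    refine le_trans ?_ h3
    rw [mul_div_assoc]
    refine mul_le_mul_of_nonneg_left ?_ (Real.exp_pos _).le
    rw [le_div_iff₀ hlz]
    calc Real.log (Real.log x) / Real.log x * Real.log (zz x)
        ≤ Real.log (Real.log x) / Real.log x * (Real.log x / Real.log (Real.log x)) :=
          mul_le_mul_of_nonneg_left h1.2 (by positivity)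
      _ = 1 := by field_simp
  · refine le_trans (zprb_upper hz2) ?_
    rw [div_le_iff₀ hlz]
    calc (1 : ℝ) = 2 * Real.log (Real.log x) / Real.log x *
          (Real.log x / (2 * Real.log (Real.log x))) := by field_simp
      _ ≤ _ := mul_le_mul_of_nonneg_left h1.1 (by positivity)

end Pool.Agent.TFC
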