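import Pool.Agent.TFC.DDG
import Pool.Agent.TFC.KAPA
import Pool.Agent.TFC.CAPB
import Pool.Agent.TFC.ZPRB
import Pool.Agent.TFC.SRVA
import Pool.Agent.TFC.LXM
import Pool.Agent.TFC.LXN
import Pool.Agent.TFC.SRVC
import Pool.Agent.TFC.BTC

set_option autoImplicit false

namespace Pool.Agent.TFC

open Finset Filter

theorem momx_Ex_sum {ι : Type*} (z : ℕ) (s : Finset ι)
    (F : ι → ({q : ℕ // q ∈ pz z} → ℕ) → ℝ) :
    Ex z (fun ω => ∑ i ∈ s, F i ω) = ∑ i ∈ s, Ex z (F i) := by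
  unfold Ex
  rw [Finset.sum_comm, Finset.sum_div]

theorem momx_Ex_mul (z : ℕ) (c : ℝ) (F : ({q : ℕ // q ∈ pz z} → ℕ) → ℝ) :
    Ex z (fun ω => c * F ω) = c * Ex z F := by
  unfold Ex
  rw [← Finset.mul_sum, mul_div_assoc]

theorem momx_Ex_mono (z : ℕ) {F G : ({q : ℕ // q ∈ pz z} → ℕ) → ℝ} (h : ∀ ω, F ω ≤ G ω) :
    Ex z F ≤ Ex z G := by
  unfold Ex
  exact div_le_div_of_nonneg_right (Finset.sum_le_sum fun ω _ => h ω) (Nat.cast_nonneg _)

/-- adding one point to the product over pairs -/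
theorem momx_prod_insert (g : ℕ → ℝ) (a : ℕ) (T : Finset ℕ) (ha : a ∉ T) :
    ∏ t ∈ insert a T, ∏ s ∈ (insert a T).filter (fun s => s < t), g (t - s) =
      (∏ s ∈ T, g ((a - s) + (s - a))) *
        ∏ t ∈ T, ∏ s ∈ T.filter (fun s => s < t), g (t - s) := by
  rw [Finset.prod_insert ha]
  have h1 : (insert a T).filter (fun s => s < a) = T.filter (fun s => s < a) := by
    rw [Finset.filter_insert, if_neg (lt_irrefl a)]
  have h2 : ∀ t ∈ T, ∏ s ∈ (insert a T).filter (fun s => s < t), g (t - s) =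
      (if a < t then g (t - a) else 1) * ∏ s ∈ T.filter (fun s => s < t), g (t - s) := by
    intro t ht
    rw [Finset.filter_insert]
    split_ifs with h
    · rw [Finset.prod_insert]
      simp [ha]
    · simp
  rw [h1, Finset.prod_congr rfl h2, Finset.prod_mul_distrib, ← mul_assoc]
  congr 1
  rw [Finset.prod_filter, ← Finset.prod_mul_distrib]
  refine Finset.prod_congr rfl (fun s hs => ?_)
  have hne : s ≠ a := fun h => ha (h ▸ hs)
  rcases lt_or_gt_of_ne hne with h | h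
  · rw [if_pos h, if_neg (by omega)]
    have : s - a = 0 := by omega
    rw [this]; simp
  · rw [if_neg (by omega), if_pos h]
    have : a - s = 0 := by omega
    rw [this]; simp

theorem momx_hh_two (z p : ℕ) (hp : p.Prime) (hz : z < p) : hh z (2 * p) ≤ 2 := by
  unfold hh
  have hsub : (pz z).filter (fun q => q ∣ 2 * p) ⊆ {2} := by
    intro q hq
    rw [Finset.mem_filter] at hq
    unfold pz at hq
    rw [Finset.mem_filter, Finset.mem_range] at hq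
    obtain ⟨⟨hqz, hqp⟩, hd⟩ := hq
    rw [hqp.dvd_mul] at hd
    rcases hd with h | h
    · simp [(Nat.prime_dvd_prime_iff_eq hqp Nat.prime_two).1 h]
    · exfalso
      have := (Nat.prime_dvd_prime_iff_eq hqp hp).1 h
      omega
  rcases Finset.subset_singleton_iff.1 hsub with h | h
  · rw [h]; norm_num
  · rw [h]; norm_num

theorem momx_VV_nonneg (z : ℕ) : 0 ≤ VV z := by
  unfold VV
  refine Finset.prod_nonneg (fun q hq => ?_)
  unfold pz at hq
  have hq2 : 2 ≤ q := (Finset.mem_filter.1 hq).2.two_le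
  have : (1 : ℝ) / q ≤ 1 := by
    rw [div_le_one (by positivity)]
    exact_mod_cast (by omega : 1 ≤ q)
  linarith

/-- four distinct points -/
theorem momx_prob (z p n1 n2 : ℕ) (hp : p.Prime) (hz : z < p) (h0 : n1 ≠ n2)
    (h1 : n2 ≠ n1 + 2 * p) (h2 : n1 ≠ n2 + 2 * p) :
    Ex z (fun ω => if (sc z ω n1 = 0 ∧ sc z ω (n1 + 2 * p) = 0) ∧
      (sc z ω n2 = 0 ∧ sc z ω (n2 + 2 * p) = 0) then 1 else 0) ≤
      VV z ^ 4 * (2 * HH ((n2 : ℤ) - n1).natAbs + HH ((n2 : ℤ) - n1 - 2 * p).natAbs +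
        HH ((n1 : ℤ) - n2 - 2 * p).natAbs) := by
  have hppos := hp.pos
  have ha : n1 ∉ ({n1 + 2 * p, n2, n2 + 2 * p} : Finset ℕ) := by
    simp only [Finset.mem_insert, Finset.mem_singleton, not_or]
    refine ⟨by omega, h0, h2⟩
  have hb : n1 + 2 * p ∉ ({n2, n2 + 2 * p} : Finset ℕ) := by
    simp only [Finset.mem_insert, Finset.mem_singleton, not_or]
    refine ⟨by omega, by omega⟩
  have hc : n2 ∉ ({n2 + 2 * p} : Finset ℕ) := by
    simp only [Finset.mem_singleton]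
    omega
  have hd : n2 + 2 * p ∉ (∅ : Finset ℕ) := by simp
  have hcard : (insert n1 (insert (n1 + 2 * p) (insert n2 {n2 + 2 * p})) : Finset ℕ).card = 4 := by
    rw [Finset.card_insert_of_notMem ha, Finset.card_insert_of_notMem hb,
      Finset.card_insert_of_notMem hc, Finset.card_singleton]
  obtain ⟨T, hT⟩ : ∃ T : Finset ℕ, T = insert n1 (insert (n1 + 2 * p) (insert n2 {n2 + 2 * p})) :=
    ⟨_, rfl⟩
  have hs := surv_le z T
  have hprod : VV z ^ T.card * ∏ t ∈ T, ∏ s ∈ T.filter (fun s => s < t), hh z (t - s) =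
      VV z ^ 4 * ∏ t ∈ (insert n1 (insert (n1 + 2 * p) (insert n2 {n2 + 2 * p})) : Finset ℕ),
        ∏ s ∈ (insert n1 (insert (n1 + 2 * p) (insert n2 {n2 + 2 * p})) : Finset ℕ).filter
        (fun s => s < t), hh z (t - s) := by
    rw [← hT, hT, hcard]
  rw [hprod, momx_prod_insert (hh z) _ _ ha, momx_prod_insert (hh z) _ _ hb,
    momx_prod_insert (hh z) _ _ hc] at hs
  rw [Finset.prod_insert hb, Finset.prod_insert hc, Finset.prod_insert hc,
    Finset.prod_singleton, Finset.prod_singleton, Finset.prod_singleton, Finset.prod_singleton] at hs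
  have e0 : (Finset.filter (fun s => s < n2 + 2 * p) {n2 + 2 * p} : Finset ℕ) = ∅ := by
    rw [Finset.filter_singleton, if_neg (lt_irrefl _)]
  rw [e0, Finset.prod_empty] at hs
  have e1 : (n1 - (n1 + 2 * p)) + (n1 + 2 * p - n1) = 2 * p := by omega
  have e2 : (n1 - n2) + (n2 - n1) = ((n2 : ℤ) - n1).natAbs := by omega
  have e3 : (n1 - (n2 + 2 * p)) + (n2 + 2 * p - n1) = ((n1 : ℤ) - n2 - 2 * p).natAbs := by omega
  have e4 : (n1 + 2 * p - n2) + (n2 - (n1 + 2 * p)) = ((n2 : ℤ) - n1 - 2 * p).natAbs := by omega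
  have e5 : (n1 + 2 * p - (n2 + 2 * p)) + (n2 + 2 * p - (n1 + 2 * p)) =
      ((n2 : ℤ) - n1).natAbs := by omega
  have e6 : (n2 - (n2 + 2 * p)) + (n2 + 2 * p - n2) = 2 * p := by omega
  rw [e1, e2, e3, e4, e5, e6] at hs
  have hfun : (fun ω : {q : ℕ // q ∈ pz z} → ℕ =>
      (if (sc z ω n1 = 0 ∧ sc z ω (n1 + 2 * p) = 0) ∧
      (sc z ω n2 = 0 ∧ sc z ω (n2 + 2 * p) = 0) then (1 : ℝ) else 0)) =
      (fun ω => if ∀ n ∈ T, sc z ω n = 0 then 1 else 0) := by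
    funext ω
    congr 1
    rw [hT]
    simp only [Finset.mem_insert, Finset.mem_singleton, forall_eq_or_imp, forall_eq, eq_iff_iff]
    tauto
  rw [hfun]
  refine hs.trans ?_
  refine mul_le_mul_of_nonneg_left ?_ (pow_nonneg (momx_VV_nonneg z) 4)
  have ht := momx_hh_two z p hp hz
  have ht1 := (hh_pow_le z (2 * p) (by omega)).1
  obtain ⟨a1, a2⟩ := hh_pow_le z ((n2 : ℤ) - n1).natAbs (by omega)
  obtain ⟨b1, b2⟩ := hh_pow_le z ((n2 : ℤ) - n1 - 2 * p).natAbs (by omega)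
  obtain ⟨c1, c2⟩ := hh_pow_le z ((n1 : ℤ) - n2 - 2 * p).natAbs (by omega)
  set t := hh z (2 * p)
  set a := hh z ((n2 : ℤ) - n1).natAbs
  set b := hh z ((n2 : ℤ) - n1 - 2 * p).natAbs
  set c := hh z ((n1 : ℤ) - n2 - 2 * p).natAbs
  have key : t * (a * c) * (b * a * (t * 1)) ≤ 4 * (a ^ 2 * (b * c)) := by
    have h3 : t * t ≤ 4 := by nlinarith
    have h4 : 0 ≤ a ^ 2 * (b * c) := by positivity
    nlinarith
  have am : 4 * (a ^ 2 * (b * c)) ≤ 2 * a ^ 4 + b ^ 4 + c ^ 4 := by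
    nlinarith [sq_nonneg (a ^ 2 - b * c), sq_nonneg (b ^ 2 - c ^ 2)]
  linarith

/-- sums over integer and natural intervals -/
theorem momx_int_sum (x : ℕ) (F : ℤ → ℝ) :
    ∑ n ∈ Finset.Icc (1 : ℤ) x, F n = ∑ n ∈ Finset.Icc 1 x, F (n : ℤ) := by
  symm
  refine Finset.sum_bij (fun n _ => (n : ℤ)) ?_ ?_ ?_ (fun _ _ => rfl)
  · intro n hn
    rw [Finset.mem_Icc] at hn ⊢
    omega
  · intro a _ b _ h
    exact_mod_cast h
  · intro b hb
    rw [Finset.mem_Icc] at hb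
    exact ⟨b.toNat, by rw [Finset.mem_Icc]; omega, by omega⟩

open scoped Classical in
/-- indicator of the multiples of elements of `D` in `[1,x]` -/
noncomputable def momxU (D : Finset ℕ) (x n : ℕ) : ℝ :=
  if (1 ≤ n ∧ n ≤ x) ∧ ∃ d ∈ D, d ∣ n then 1 else 0

theorem momxU_nonneg (D : Finset ℕ) (x n : ℕ) : 0 ≤ momxU D x n := by
  unfold momxU
  split_ifs <;> norm_num

theorem momxU_le_one (D : Finset ℕ) (x n : ℕ) : momxU D x n ≤ 1 := by
  unfold momxU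
  split_ifs <;> norm_num

theorem momxU_le_ff (D : Finset ℕ) (x n : ℕ) : momxU D x n ≤ ff D x (n : ℤ) := by
  unfold momxU ff
  by_cases h : 1 ≤ n ∧ n ≤ x
  · have h' : (1 : ℤ) ≤ (n : ℤ) ∧ (n : ℤ) ≤ (x : ℤ) := by omega
    rw [if_pos h']
    split_ifs with h2
    · obtain ⟨_, d, hd, hdn⟩ := h2
      have : 0 < (D.filter (fun p : ℕ => (p : ℤ) ∣ (n : ℤ))).card := by
        rw [Finset.card_pos]
        exact ⟨d, by rw [Finset.mem_filter]; exact ⟨hd, by exact_mod_cast hdn⟩⟩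
      exact_mod_cast this
    · positivity
  · have h' : ¬ ((1 : ℤ) ≤ (n : ℤ) ∧ (n : ℤ) ≤ (x : ℤ)) := by omega
    rw [if_neg h', if_neg (fun hh => h hh.1)]

theorem momx_ff_nonneg (D : Finset ℕ) (x : ℕ) (n : ℤ) : 0 ≤ ff D x n := by
  unfold ff
  split_ifs <;> positivity

theorem momx_HH_nonneg (d : ℕ) : 0 ≤ HH d := by
  unfold HH
  exact Finset.prod_nonneg (fun q _ => by positivity)

/-- the number of pairs over one prime -/
theorem momx_card (x : ℕ) (ω : {q : ℕ // q ∈ pz (zz x)} → ℕ) (p : ℕ) (hp : p ∈ PP x) :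
    (((EG x ω).filter (fun e => e.1 = p)).card : ℝ) = ∑ n ∈ Finset.Icc 1 x,
      (momxU (DD x) x n * momxU (DD x) x (n + 2 * p)) *
        (if sc (zz x) ω n = 0 ∧ sc (zz x) ω (n + 2 * p) = 0 then 1 else 0) := by
  classical
  have h1 : ((EG x ω).filter (fun e => e.1 = p)).card =
      ((Finset.Icc 1 x).filter (fun n => n ∈ SS x ω ∧ n + 2 * p ∈ SS x ω)).card := by
    symm
    refine Finset.card_bij (fun n _ => (p, n)) ?_ ?_ ?_
    · intro n hn
      rw [Finset.mem_filter] at hn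
      rw [Finset.mem_filter]
      refine ⟨?_, rfl⟩
      unfold EG
      rw [Finset.mem_filter, Finset.mem_product]
      exact ⟨⟨hp, hn.1⟩, hn.2⟩
    · intro a _ b _ h
      exact (Prod.mk.inj h).2
    · intro e he
      rw [Finset.mem_filter] at he
      obtain ⟨he1, he2⟩ := he
      unfold EG at he1
      rw [Finset.mem_filter, Finset.mem_product] at he1
      refine ⟨e.2, ?_, ?_⟩
      · rw [Finset.mem_filter]
        rw [he2] at he1
        exact ⟨he1.1.2, he1.2⟩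
      · rw [← he2]
  rw [h1, Finset.card_filter]
  push_cast
  refine Finset.sum_congr rfl (fun n hn => ?_)
  have hmem : ∀ m : ℕ, m ∈ SS x ω ↔ ((1 ≤ m ∧ m ≤ x) ∧ ∃ d ∈ DD x, d ∣ m) ∧
      sc (zz x) ω m = 0 := by
    intro m
    unfold SS
    rw [Finset.mem_filter, Finset.mem_Icc]
    tauto
  unfold momxU
  by_cases a1 : (1 ≤ n ∧ n ≤ x) ∧ ∃ d ∈ DD x, d ∣ n
  · by_cases a2 : (1 ≤ n + 2 * p ∧ n + 2 * p ≤ x) ∧ ∃ d ∈ DD x, d ∣ n + 2 * p
    · by_cases a3 : sc (zz x) ω n = 0 ∧ sc (zz x) ω (n + 2 * p) = 0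
      · rw [if_pos ⟨(hmem n).2 ⟨a1, a3.1⟩, (hmem _).2 ⟨a2, a3.2⟩⟩, if_pos a1, if_pos a2,
          if_pos a3]
        ring
      · rw [if_neg (fun hh => a3 ⟨((hmem n).1 hh.1).2, ((hmem _).1 hh.2).2⟩), if_pos a1,
          if_pos a2, if_neg a3]
        ring
    · rw [if_neg (fun hh => a2 ((hmem _).1 hh.2).1), if_neg a2]
      ring
  · rw [if_neg (fun hh => a1 ((hmem n).1 hh.1).1), if_neg a1]
    ring

/-- pointwise bound -/
theorem momx_point (z x p : ℕ) (D : Finset ℕ) (hp : p.Prime) (hz : z < p) (n1 n2 : ℕ) :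
    (momxU D x n1 * momxU D x (n1 + 2 * p) * (momxU D x n2 * momxU D x (n2 + 2 * p))) *
      Ex z (fun ω => if (sc z ω n1 = 0 ∧ sc z ω (n1 + 2 * p) = 0) ∧
      (sc z ω n2 = 0 ∧ sc z ω (n2 + 2 * p) = 0) then 1 else 0) ≤
    ((if n2 = n1 then 1 else 0) + (if n2 = n1 + 2 * p then 1 else 0) +
      (if n2 = n1 - 2 * p then 1 else 0)) +
    VV z ^ 4 * (2 * (if (n2 : ℤ) - n1 = 0 then 0 else
        ff D x n1 * ff D x ((n1 : ℤ) + 2 * p) * (ff D x n2 * ff D x ((n2 : ℤ) + 2 * p)) *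
        HH ((n2 : ℤ) - n1).natAbs) +
      (if (n2 : ℤ) - n1 - 2 * p = 0 then 0 else
        ff D x n1 * ff D x ((n1 : ℤ) + 2 * p) * (ff D x n2 * ff D x ((n2 : ℤ) + 2 * p)) *
        HH ((n2 : ℤ) - n1 - 2 * p).natAbs) +
      (if (n1 : ℤ) - n2 - 2 * p = 0 then 0 else
        ff D x n2 * ff D x ((n2 : ℤ) + 2 * p) * (ff D x n1 * ff D x ((n1 : ℤ) + 2 * p)) *
        HH ((n1 : ℤ) - n2 - 2 * p).natAbs)) := by
  have hV := momx_VV_nonneg z
  have hV4 : 0 ≤ VV z ^ 4 := pow_nonneg hV 4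
  set c := momxU D x n1 * momxU D x (n1 + 2 * p) * (momxU D x n2 * momxU D x (n2 + 2 * p)) with hc
  set f := ff D x n1 * ff D x ((n1 : ℤ) + 2 * p) * (ff D x n2 * ff D x ((n2 : ℤ) + 2 * p)) with hf
  have hf' : ff D x n2 * ff D x ((n2 : ℤ) + 2 * p) * (ff D x n1 * ff D x ((n1 : ℤ) + 2 * p)) = f := by
    rw [hf]; ring
  rw [hf']
  have u1 := momxU_nonneg D x n1
  have u2 := momxU_nonneg D x (n1 + 2 * p)
  have u3 := momxU_nonneg D x n2
  have u4 := momxU_nonneg D x (n2 + 2 * p)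
  have v1 := momxU_le_one D x n1
  have v2 := momxU_le_one D x (n1 + 2 * p)
  have v3 := momxU_le_one D x n2
  have v4 := momxU_le_one D x (n2 + 2 * p)
  have w1 := momxU_le_ff D x n1
  have w2 := momxU_le_ff D x (n1 + 2 * p)
  have w3 := momxU_le_ff D x n2
  have w4 := momxU_le_ff D x (n2 + 2 * p)
  push_cast at w2 w4
  have hc0 : 0 ≤ c := by positivity
  have hc1 : c ≤ 1 := by
    rw [hc]
    exact mul_le_one₀ (mul_le_one₀ v1 u2 v2) (mul_nonneg u3 u4) (mul_le_one₀ v3 u4 v4)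
  have hcf : c ≤ f := by
    rw [hc, hf]
    refine mul_le_mul (mul_le_mul w1 w2 u2 (u1.trans w1)) (mul_le_mul w3 w4 u4 (u3.trans w3))
      (mul_nonneg u3 u4) (mul_nonneg (u1.trans w1) (u2.trans w2))
  have hf0 : 0 ≤ f := hc0.trans hcf
  have h1 := momx_HH_nonneg ((n2 : ℤ) - n1).natAbs
  have h2 := momx_HH_nonneg ((n2 : ℤ) - n1 - 2 * p).natAbs
  have h3 := momx_HH_nonneg ((n1 : ℤ) - n2 - 2 * p).natAbs
  have i1 : 0 ≤ (if (n2 : ℤ) - n1 = 0 then 0 else f * HH ((n2 : ℤ) - n1).natAbs) := by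
    split_ifs
    · exact le_rfl
    · exact mul_nonneg hf0 h1
  have i2 : 0 ≤ (if (n2 : ℤ) - n1 - 2 * p = 0 then 0 else
      f * HH ((n2 : ℤ) - n1 - 2 * p).natAbs) := by
    split_ifs
    · exact le_rfl
    · exact mul_nonneg hf0 h2
  have i3 : 0 ≤ (if (n1 : ℤ) - n2 - 2 * p = 0 then 0 else
      f * HH ((n1 : ℤ) - n2 - 2 * p).natAbs) := by
    split_ifs
    · exact le_rfl
    · exact mul_nonneg hf0 h3
  have hEx1 : Ex z (fun ω => if (sc z ω n1 = 0 ∧ sc z ω (n1 + 2 * p) = 0) ∧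
      (sc z ω n2 = 0 ∧ sc z ω (n2 + 2 * p) = 0) then (1 : ℝ) else 0) ≤ 1 := by
    refine (momx_Ex_mono z (G := fun _ => (1 : ℝ)) (fun ω => ?_)).trans_eq (Ex_const z 1)
    show (if (sc z ω n1 = 0 ∧ sc z ω (n1 + 2 * p) = 0) ∧
      (sc z ω n2 = 0 ∧ sc z ω (n2 + 2 * p) = 0) then (1 : ℝ) else 0) ≤ 1
    split_ifs <;> norm_num
  have hEx0 : 0 ≤ Ex z (fun ω => if (sc z ω n1 = 0 ∧ sc z ω (n1 + 2 * p) = 0) ∧
      (sc z ω n2 = 0 ∧ sc z ω (n2 + 2 * p) = 0) then (1 : ℝ) else 0) := by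
    refine (Ex_const z 0).symm.trans_le (momx_Ex_mono z (F := fun _ => (0 : ℝ)) (fun ω => ?_))
    show (0 : ℝ) ≤ (if (sc z ω n1 = 0 ∧ sc z ω (n1 + 2 * p) = 0) ∧
      (sc z ω n2 = 0 ∧ sc z ω (n2 + 2 * p) = 0) then (1 : ℝ) else 0)
    split_ifs <;> norm_num
  have hj : ∀ (P : Prop) [Decidable P], 0 ≤ (if P then (1 : ℝ) else 0) := by
    intro P _
    split_ifs <;> norm_num
  by_cases hdeg : n2 = n1 ∨ n2 = n1 + 2 * p ∨ n2 = n1 - 2 * p
  · have hle : c * Ex z (fun ω => if (sc z ω n1 = 0 ∧ sc z ω (n1 + 2 * p) = 0) ∧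
      (sc z ω n2 = 0 ∧ sc z ω (n2 + 2 * p) = 0) then (1 : ℝ) else 0) ≤ 1 :=
      mul_le_one₀ hc1 hEx0 hEx1
    have hone : (1 : ℝ) ≤ (if n2 = n1 then 1 else 0) + (if n2 = n1 + 2 * p then 1 else 0) +
      (if n2 = n1 - 2 * p then 1 else 0) := by
      have j1 := hj (n2 = n1)
      have j2 := hj (n2 = n1 + 2 * p)
      have j3 := hj (n2 = n1 - 2 * p)
      rcases hdeg with h | h | h
      · rw [if_pos h]; linarith
      · rw [if_pos h]; linarith
      · rw [if_pos h]; linarith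
    have hrest := mul_nonneg hV4 (add_nonneg (add_nonneg (mul_nonneg (by norm_num : (0:ℝ) ≤ 2) i1)
      i2) i3)
    linarith
  · push Not at hdeg
    obtain ⟨d1, d2, d3⟩ := hdeg
    have hpr := momx_prob z p n1 n2 hp hz (Ne.symm d1) d2 (by omega)
    rw [if_neg d1, if_neg d2, if_neg d3]
    rw [if_neg (by omega), if_neg (by omega), if_neg (by omega)]
    have hsum0 : 0 ≤ 2 * HH ((n2 : ℤ) - n1).natAbs + HH ((n2 : ℤ) - n1 - 2 * p).natAbs +
        HH ((n1 : ℤ) - n2 - 2 * p).natAbs := by positivity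
    have k1 := mul_le_mul_of_nonneg_left hpr hc0
    have k2 := mul_le_mul_of_nonneg_right hcf (mul_nonneg hV4 hsum0)
    nlinarith

/-- the first sum, one prime -/
noncomputable def momxS1 (D : Finset ℕ) (x p : ℕ) : ℝ :=
  ∑ n1 ∈ Finset.Icc (1 : ℤ) x, ∑ n2 ∈ Finset.Icc (1 : ℤ) x,
      (if n2 - n1 = 0 then 0 else ff D x n1 * ff D x (n1 + 2 * p) * (ff D x n2 * ff D x (n2 + 2 * p)) *
        HH (n2 - n1).natAbs)

/-- the second sum, one prime -/
noncomputable def momxS2 (D : Finset ℕ) (x p : ℕ) : ℝ :=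
  ∑ n1 ∈ Finset.Icc (1 : ℤ) x, ∑ n2 ∈ Finset.Icc (1 : ℤ) x,
      (if n2 - n1 - 2 * p = 0 then 0 else
        ff D x n1 * ff D x (n1 + 2 * p) * (ff D x n2 * ff D x (n2 + 2 * p)) *
        HH (n2 - n1 - 2 * p).natAbs)

theorem momx_deg (x : ℕ) (g : ℕ → ℕ) :
    ∑ n1 ∈ Finset.Icc 1 x, ∑ n2 ∈ Finset.Icc 1 x, (if n2 = g n1 then (1 : ℝ) else 0) ≤ x := by
  have : ∀ n1 ∈ Finset.Icc 1 x, ∑ n2 ∈ Finset.Icc 1 x, (if n2 = g n1 then (1 : ℝ) else 0) ≤ 1 := by
    intro n1 _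
    rw [Finset.sum_ite_eq']
    split_ifs <;> norm_num
  refine (Finset.sum_le_sum this).trans ?_
  rw [Finset.sum_const, Nat.card_Icc]
  simp

theorem momx_one (x p : ℕ) (hp : p ∈ PP x) (hpp : p.Prime) (hz : zz x < p) :
    Ex (zz x) (fun ω => (((EG x ω).filter (fun e => e.1 = p)).card : ℝ) ^ 2) ≤
      3 * x + VV (zz x) ^ 4 * (2 * momxS1 (DD x) x p + 2 * momxS2 (DD x) x p) := by
  set D := DD x with hD
  set z := zz x with hzz
  have e1 : (fun ω : {q : ℕ // q ∈ pz z} → ℕ =>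
      (((EG x ω).filter (fun e => e.1 = p)).card : ℝ) ^ 2) =
      (fun ω => ∑ n1 ∈ Finset.Icc 1 x, ∑ n2 ∈ Finset.Icc 1 x,
        (momxU D x n1 * momxU D x (n1 + 2 * p) * (momxU D x n2 * momxU D x (n2 + 2 * p))) *
        (if (sc z ω n1 = 0 ∧ sc z ω (n1 + 2 * p) = 0) ∧
          (sc z ω n2 = 0 ∧ sc z ω (n2 + 2 * p) = 0) then 1 else 0)) := by
    funext ω
    rw [momx_card x ω p hp, sq, Finset.sum_mul_sum]
    refine Finset.sum_congr rfl (fun n1 _ => Finset.sum_congr rfl (fun n2 _ => ?_))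
    by_cases a : sc z ω n1 = 0 ∧ sc z ω (n1 + 2 * p) = 0
    · by_cases b : sc z ω n2 = 0 ∧ sc z ω (n2 + 2 * p) = 0
      · rw [if_pos a, if_pos b, if_pos ⟨a, b⟩]
        ring
      · rw [if_pos a, if_neg b, if_neg (fun hh => b hh.2)]
        ring
    · have a' : ¬ ((sc z ω n1 = 0 ∧ sc z ω (n1 + 2 * p) = 0) ∧
          (sc z ω n2 = 0 ∧ sc z ω (n2 + 2 * p) = 0)) := fun hh => a hh.1
      rw [if_neg a, if_neg a']
      ring
  rw [e1, momx_Ex_sum]
  have e2 : ∀ n1 ∈ Finset.Icc 1 x, Ex z (fun ω => ∑ n2 ∈ Finset.Icc 1 x,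
        (momxU D x n1 * momxU D x (n1 + 2 * p) * (momxU D x n2 * momxU D x (n2 + 2 * p))) *
        (if (sc z ω n1 = 0 ∧ sc z ω (n1 + 2 * p) = 0) ∧
          (sc z ω n2 = 0 ∧ sc z ω (n2 + 2 * p) = 0) then 1 else 0)) = 
      ∑ n2 ∈ Finset.Icc 1 x,
        (momxU D x n1 * momxU D x (n1 + 2 * p) * (momxU D x n2 * momxU D x (n2 + 2 * p))) *
        Ex z (fun ω => if (sc z ω n1 = 0 ∧ sc z ω (n1 + 2 * p) = 0) ∧
          (sc z ω n2 = 0 ∧ sc z ω (n2 + 2 * p) = 0) then 1 else 0) := by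
    intro n1 _
    rw [momx_Ex_sum]
    refine Finset.sum_congr rfl (fun n2 _ => ?_)
    rw [momx_Ex_mul]
  rw [Finset.sum_congr rfl e2]
  refine (Finset.sum_le_sum (fun n1 _ => Finset.sum_le_sum (fun n2 _ =>
    momx_point z x p D hpp hz n1 n2))).trans ?_
  have d1 := momx_deg x (fun n => n)
  have d2 := momx_deg x (fun n => n + 2 * p)
  have d3 := momx_deg x (fun n => n - 2 * p)
  have s1 : ∑ n1 ∈ Finset.Icc 1 x, ∑ n2 ∈ Finset.Icc 1 x, (if (n2 : ℤ) - n1 = 0 then 0 else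
        ff D x n1 * ff D x ((n1 : ℤ) + 2 * p) * (ff D x n2 * ff D x ((n2 : ℤ) + 2 * p)) *
        HH ((n2 : ℤ) - n1).natAbs) = momxS1 D x p := by
    unfold momxS1
    rw [momx_int_sum]
    refine Finset.sum_congr rfl (fun n1 _ => ?_)
    rw [momx_int_sum]
  have s2 : ∑ n1 ∈ Finset.Icc 1 x, ∑ n2 ∈ Finset.Icc 1 x, (if (n2 : ℤ) - n1 - 2 * p = 0 then 0 else
        ff D x n1 * ff D x ((n1 : ℤ) + 2 * p) * (ff D x n2 * ff D x ((n2 : ℤ) + 2 * p)) *
        HH ((n2 : ℤ) - n1 - 2 * p).natAbs) = momxS2 D x p := by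
    unfold momxS2
    rw [momx_int_sum]
    refine Finset.sum_congr rfl (fun n1 _ => ?_)
    rw [momx_int_sum]
  have s3 : ∑ n1 ∈ Finset.Icc 1 x, ∑ n2 ∈ Finset.Icc 1 x, (if (n1 : ℤ) - n2 - 2 * p = 0 then 0 else
        ff D x n2 * ff D x ((n2 : ℤ) + 2 * p) * (ff D x n1 * ff D x ((n1 : ℤ) + 2 * p)) *
        HH ((n1 : ℤ) - n2 - 2 * p).natAbs) = momxS2 D x p := by
    rw [← s2, Finset.sum_comm]
  simp only [Finset.sum_add_distrib, ← Finset.mul_sum]
  rw [s1, s2, s3]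
  nlinarith

/-- arithmetic of the parameters -/
theorem momx_arith {P K4 N X E d C3 : ℝ} (hN : 1 ≤ N) (hX : N ^ 60 ≤ X) (hC3 : 0 < C3)
    (hP : P ≤ C3 * X / N) (hP0 : 0 ≤ P) (hK : 1 / N ≤ K4) (hE0 : 0 ≤ E) (hE : E ≤ N ^ 6)
    (hE' : N ^ 4 ≤ E) (hd : d ≤ X / N ^ 60) (hd0 : 0 ≤ d) :
    P * K4 * X ^ 2 + E ^ 6 * (P * (d + 1) ^ 2 + (X / N ^ 26) ^ 2 * X) + P * X ^ 2 / Real.sqrt E ≤
      (6 * C3 + 1) * (K4 * X ^ 2 * (X / N)) := by
  have hN0 : 0 < N := by linarith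
  have hX0 : 0 < X := lt_of_lt_of_le (by positivity) hX
  have hK0 : 0 < K4 := lt_of_lt_of_le (by positivity) hK
  have hP' : P ≤ C3 * (X / N) := by rw [← mul_div_assoc]; exact hP
  -- first term
  have t1 : P * K4 * X ^ 2 ≤ C3 * (K4 * X ^ 2 * (X / N)) := by
    have := mul_le_mul_of_nonneg_right hP' (by positivity : 0 ≤ K4 * X ^ 2)
    calc P * K4 * X ^ 2 = P * (K4 * X ^ 2) := by ring
      _ ≤ C3 * (X / N) * (K4 * X ^ 2) := this
      _ = _ := by ring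
  -- the basic comparison
  have hb : (X / N) * X ^ 2 * (1 / N) ≤ K4 * X ^ 2 * (X / N) := by
    have := mul_le_mul_of_nonneg_left hK (by positivity : 0 ≤ (X / N) * X ^ 2)
    calc (X / N) * X ^ 2 * (1 / N) ≤ (X / N) * X ^ 2 * K4 := this
      _ = _ := by ring
  -- second term
  have hd1 : d + 1 ≤ 2 * (X / N ^ 60) := by
    have : 1 ≤ X / N ^ 60 := by
      rw [le_div_iff₀ (by positivity)]
      linarith
    linarith
  have hd2 : (d + 1) ^ 2 ≤ 4 * (X ^ 2 / N ^ 120) := by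
    have := pow_le_pow_left₀ (by linarith : 0 ≤ d + 1) hd1 2
    calc (d + 1) ^ 2 ≤ (2 * (X / N ^ 60)) ^ 2 := this
      _ = _ := by
        rw [mul_pow, div_pow, ← pow_mul]
        norm_num
  have hE6 : E ^ 6 ≤ N ^ 36 := by
    have := pow_le_pow_left₀ hE0 hE 6
    rw [← pow_mul] at this
    exact this
  have t2 : E ^ 6 * (P * (d + 1) ^ 2) ≤ 4 * C3 * (K4 * X ^ 2 * (X / N)) := by
    have h1 : P * (d + 1) ^ 2 ≤ C3 * (X / N) * (4 * (X ^ 2 / N ^ 120)) :=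
      mul_le_mul hP' hd2 (by positivity) (by positivity)
    have h2 : E ^ 6 * (P * (d + 1) ^ 2) ≤ N ^ 36 * (C3 * (X / N) * (4 * (X ^ 2 / N ^ 120))) :=
      mul_le_mul hE6 h1 (by positivity) (by positivity)
    have h3 : N ^ 36 * (C3 * (X / N) * (4 * (X ^ 2 / N ^ 120))) =
        4 * C3 * ((X / N) * X ^ 2 * (1 / N ^ 84)) := by
      field_simp
    have h4 : 1 / N ^ 84 ≤ 1 / N := by
      apply one_div_le_one_div_of_le hN0
      calc N = N ^ 1 := (pow_one N).symm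
        _ ≤ N ^ 84 := pow_le_pow_right₀ hN (by norm_num)
    have h5 := mul_le_mul_of_nonneg_left h4 (by positivity : 0 ≤ (X / N) * X ^ 2)
    calc E ^ 6 * (P * (d + 1) ^ 2) ≤ 4 * C3 * ((X / N) * X ^ 2 * (1 / N ^ 84)) := by
          rw [← h3]; exact h2
      _ ≤ 4 * C3 * (K4 * X ^ 2 * (X / N)) :=
          mul_le_mul_of_nonneg_left (h5.trans hb) (by positivity)
  -- third term
  have t3 : E ^ 6 * ((X / N ^ 26) ^ 2 * X) ≤ K4 * X ^ 2 * (X / N) := by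
    have h2 : E ^ 6 * ((X / N ^ 26) ^ 2 * X) ≤ N ^ 36 * ((X / N ^ 26) ^ 2 * X) :=
      mul_le_mul_of_nonneg_right hE6 (by positivity)
    have h3 : N ^ 36 * ((X / N ^ 26) ^ 2 * X) = (X / N) * X ^ 2 * (1 / N ^ 15) := by
      field_simp
    have h4 : 1 / N ^ 15 ≤ 1 / N := by
      apply one_div_le_one_div_of_le hN0
      calc N = N ^ 1 := (pow_one N).symm
        _ ≤ N ^ 15 := pow_le_pow_right₀ hN (by norm_num)
    have h5 := mul_le_mul_of_nonneg_left h4 (by positivity : 0 ≤ (X / N) * X ^ 2)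
    rw [h3] at h2
    exact h2.trans (h5.trans hb)
  -- fourth term
  have t4 : P * X ^ 2 / Real.sqrt E ≤ C3 * (K4 * X ^ 2 * (X / N)) := by
    have hs : N ≤ Real.sqrt E := by
      apply Real.le_sqrt_of_sq_le
      exact (pow_le_pow_right₀ hN (by norm_num)).trans hE'
    have h1 : P * X ^ 2 / Real.sqrt E ≤ C3 * (X / N) * X ^ 2 / N := by
      apply div_le_div₀ (by positivity) (mul_le_mul_of_nonneg_right hP' (by positivity)) hN0 hs
    calc P * X ^ 2 / Real.sqrt E ≤ C3 * (X / N) * X ^ 2 / N := h1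
      _ = C3 * ((X / N) * X ^ 2 * (1 / N)) := by ring
      _ ≤ _ := mul_le_mul_of_nonneg_left hb hC3.le
  have := add_le_add (add_le_add t1 (add_le_add t2 t3)) t4
  calc P * K4 * X ^ 2 + E ^ 6 * (P * (d + 1) ^ 2 + (X / N ^ 26) ^ 2 * X) + P * X ^ 2 / Real.sqrt E
      = P * K4 * X ^ 2 + (E ^ 6 * (P * (d + 1) ^ 2) + E ^ 6 * ((X / N ^ 26) ^ 2 * X)) +
        P * X ^ 2 / Real.sqrt E := by ring
    _ ≤ _ := this
    _ = _ := by ring

/-- `#DD x ≤ x / (log x)^60` -/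
theorem momx_DD_card (x : ℕ) (hN : 0 < Real.log x) :
    ((DD x).card : ℝ) ≤ x / (Real.log x) ^ 60 := by
  have hsub : DD x ⊆ Finset.Icc 1 ⌊(x : ℝ) / (Real.log x) ^ 60⌋₊ := by
    intro p hp
    unfold DD at hp
    rw [Finset.mem_filter, Finset.mem_Icc] at hp
    rw [Finset.mem_Icc]
    refine ⟨hp.1.1, Nat.le_floor ?_⟩
    rw [le_div_iff₀ (by positivity)]
    linarith [hp.2.2.2, mul_comm ((Real.log x) ^ 60) (p : ℝ)]
  have h1 := Finset.card_le_card hsub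
  rw [Nat.card_Icc] at h1
  have h2 : (DD x).card ≤ ⌊(x : ℝ) / (Real.log x) ^ 60⌋₊ := by omega
  calc ((DD x).card : ℝ) ≤ (⌊(x : ℝ) / (Real.log x) ^ 60⌋₊ : ℝ) := by exact_mod_cast h2
    _ ≤ _ := Nat.floor_le (by positivity)

/-- growth facts -/
theorem momx_growth (c a : ℝ) (hc : 0 < c) (ha : 0 < a) : ∀ᶠ x : ℕ in atTop,
    2 ≤ Real.log x ∧ (Real.log x) ^ 60 ≤ (x : ℝ) ∧ 1 / Real.log x ≤ (c / Real.log (Real.log x)) ^ 4 ∧
      1 ≤ a / (Real.log x) ^ 4 * x ∧ 0 < Real.log (Real.log x) := by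
  have hlog : Tendsto (fun x : ℕ => Real.log (x : ℝ)) atTop atTop :=
    Real.tendsto_log_atTop.comp tendsto_natCast_atTop_atTop
  have hlog2 : Tendsto (fun x : ℕ => Real.log (Real.log (x : ℝ))) atTop atTop :=
    Real.tendsto_log_atTop.comp hlog
  have e1 : ∀ᶠ x : ℕ in atTop, 2 ≤ Real.log (x : ℝ) := hlog.eventually_ge_atTop 2
  have e2 : ∀ᶠ x : ℕ in atTop, 1 ≤ Real.log (Real.log (x : ℝ)) := hlog2.eventually_ge_atTop 1
  have e3 : ∀ᶠ x : ℕ in atTop, (Real.log (x : ℝ)) ^ 60 ≤ (x : ℝ) := by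
    have h := (Real.isLittleO_pow_log_id_atTop (n := 60)).bound (show (0 : ℝ) < 1 by norm_num)
    have h' := (tendsto_natCast_atTop_atTop (R := ℝ)).eventually h
    filter_upwards [h', e1] with x hx h1
    simp only [id_eq, Real.norm_eq_abs, one_mul] at hx
    rw [abs_of_nonneg (by positivity), abs_of_nonneg (by positivity)] at hx
    exact hx
  have e4 : ∀ᶠ x : ℕ in atTop,
      (Real.log (Real.log (x : ℝ))) ^ 4 ≤ c ^ 4 * Real.log (x : ℝ) := by
    have h := (Real.isLittleO_pow_log_id_atTop (n := 4)).bound (show (0 : ℝ) < c ^ 4 by positivity)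
    have h' := hlog.eventually h
    filter_upwards [h', e1, e2] with x hx h1 h2
    simp only [id_eq, Real.norm_eq_abs] at hx
    rw [abs_of_nonneg (by positivity), abs_of_nonneg (by positivity)] at hx
    exact hx
  have e5 : ∀ᶠ x : ℕ in atTop, (Real.log (x : ℝ)) ^ 4 ≤ a * (x : ℝ) := by
    have h := (Real.isLittleO_pow_log_id_atTop (n := 4)).bound ha
    have h' := (tendsto_natCast_atTop_atTop (R := ℝ)).eventually h
    filter_upwards [h', e1] with x hx h1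
    simp only [id_eq, Real.norm_eq_abs] at hx
    rw [abs_of_nonneg (by positivity), abs_of_nonneg (by positivity)] at hx
    exact hx
  filter_upwards [e1, e2, e3, e4, e5] with x h1 h2 h3 h4 h5
  refine ⟨h1, h3, ?_, ?_, by linarith⟩
  · rw [div_pow, div_le_div_iff₀ (by linarith) (by positivity)]
    linarith
  · rw [div_mul_eq_mul_div, le_div_iff₀ (by positivity)]
    linarith

/-- MOM (b): second moment over the primes. `E (#pairs of p)² = ∑_{n1,n2} ...`; four distinct points: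
`surv_le` for `T = {n1, n1+2p, n2, n2+2p}`, `hh (2p) = 2`, product of the `hh` at most
`4 (2 hh(d)^4 + hh(d-2p)^4 + hh(d+2p)^4)/4`, `d = n2-n1` (AM-GM), `hh_pow_le`, then `LX`, `LX'` (twice, by
symmetry). Coinciding points (`n1 = n2`, `n2 = n1 ± 2p`): at most `3x` for each `p`. -/
theorem mom_X : ∃ C : ℝ, 0 < C ∧ ∀ᶠ x : ℕ in atTop,
    Ex (zz x) (fun ω => ∑ p ∈ PP x, (((EG x ω).filter (fun e => e.1 = p)).card : ℝ) ^ 2) ≤
      C * (VV (zz x) ^ 4 * kap (DD x) ^ 4 * x ^ 2 * (x / Real.log x)) := by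
  obtain ⟨C1, hC1, H1⟩ := LX
  obtain ⟨C2, hC2, H2⟩ := LX'
  obtain ⟨C3, hC3, H3⟩ := PP_card_le
  obtain ⟨c1, hc1, K1⟩ := kap_lower
  obtain ⟨c2, hc2, K2⟩ := VV_order
  refine ⟨3 * C3 + 2 * (C1 + C2) * (6 * C3 + 1), by positivity, ?_⟩
  filter_upwards [good_DD, K1, K2, zz_size, momx_growth c1 ((c1 * c2) ^ 4) hc1 (by positivity),
    eventually_ge_atTop 3] with x hG k1 k2 hz hg hx3
  obtain ⟨hN2, hX, hK, hA, hLL⟩ := hg
  have hN0 : 0 < Real.log (x : ℝ) := by linarith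
  have hx0 : 0 < (x : ℝ) := by positivity
  have hP : ∀ p ∈ PP x, 1 ≤ p ∧ 2 * p ≤ x := by
    intro p hp
    unfold PP at hp
    rw [Finset.mem_filter, Finset.mem_Icc] at hp
    omega
  have hPz : ∀ p ∈ PP x, p.Prime ∧ zz x < p := by
    intro p hp
    unfold PP at hp
    rw [Finset.mem_filter, Finset.mem_Icc] at hp
    refine ⟨hp.2.1, ?_⟩
    have h8 : zz x ^ 8 ≤ x := hz.2.1
    have h100 : 100 ≤ zz x := hz.2.2
    have h2 : 16 * zz x ≤ zz x ^ 8 := by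
      calc 16 * zz x ≤ zz x * zz x := Nat.mul_le_mul (by omega) le_rfl
        _ = zz x ^ 2 := by ring
        _ ≤ zz x ^ 8 := Nat.pow_le_pow_right (by omega) (by norm_num)
    omega
  have hEle : (EE x : ℝ) ≤ (Real.log x) ^ 6 := Nat.floor_le (by positivity)
  have hEge : (Real.log (x : ℝ)) ^ 4 ≤ (EE x : ℝ) := by
    have h1 : (Real.log (x : ℝ)) ^ 6 < (EE x : ℝ) + 1 := Nat.lt_floor_add_one _
    have h2 : (Real.log (x : ℝ)) ^ 6 = (Real.log (x : ℝ)) ^ 4 * (Real.log (x : ℝ)) ^ 2 := by ring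
    have h3 : 1 ≤ (Real.log (x : ℝ)) ^ 4 := one_le_pow₀ (by linarith)
    have h4 : 4 ≤ (Real.log (x : ℝ)) ^ 2 := by nlinarith
    nlinarith
  have hE1 : 1 ≤ EE x := by
    have h3 : 1 ≤ (Real.log (x : ℝ)) ^ 4 := one_le_pow₀ (by linarith)
    exact_mod_cast h3.trans hEge
  have hPc := H3 x hx3
  have hkap : 0 < kap (DD x) := lt_of_lt_of_le (by positivity) k1
  have hK4 : 1 / Real.log (x : ℝ) ≤ kap (DD x) ^ 4 :=
    hK.trans (pow_le_pow_left₀ (by positivity) k1 4)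
  have hVpos : 0 < VV (zz x) := lt_of_lt_of_le (by positivity) k2.1
  have hVK : (c1 * c2) / Real.log x ≤ VV (zz x) * kap (DD x) := by
    have := mul_le_mul k2.1 k1 (by positivity) hVpos.le
    refine le_trans (le_of_eq ?_) this
    field_simp
  have hVK4 : 1 ≤ VV (zz x) ^ 4 * kap (DD x) ^ 4 * x := by
    have h1 := pow_le_pow_left₀ (by positivity) hVK 4
    rw [div_pow, mul_pow (VV (zz x))] at h1
    exact hA.trans (mul_le_mul_of_nonneg_right h1 hx0.le)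
  have hdd := momx_DD_card x hN0
  have har := momx_arith (P := ((PP x).card : ℝ)) (K4 := kap (DD x) ^ 4) (N := Real.log (x : ℝ))
    (X := (x : ℝ)) (E := (EE x : ℝ)) (d := ((DD x).card : ℝ)) (C3 := C3) (by linarith) hX hC3 hPc
    (by positivity) hK4 (by positivity) hEle hEge hdd (by positivity)
  have L1 := H1 (DD x) x (EE x) _ hG hE1 (PP x) hP
  have L2 := H2 (DD x) x (EE x) _ hG hE1 (PP x) hP
  have L1' : ∑ p ∈ PP x, momxS1 (DD x) x p ≤
      C1 * ((6 * C3 + 1) * (kap (DD x) ^ 4 * (x : ℝ) ^ 2 * (x / Real.log x))) := by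
    refine le_trans ?_ (L1.trans (mul_le_mul_of_nonneg_left har hC1.le))
    unfold momxS1
    exact le_rfl
  have L2' : ∑ p ∈ PP x, momxS2 (DD x) x p ≤
      C2 * ((6 * C3 + 1) * (kap (DD x) ^ 4 * (x : ℝ) ^ 2 * (x / Real.log x))) := by
    refine le_trans ?_ (L2.trans (mul_le_mul_of_nonneg_left har hC2.le))
    unfold momxS2
    exact le_rfl
  rw [momx_Ex_sum]
  have hsum : ∑ p ∈ PP x, Ex (zz x) (fun ω => (((EG x ω).filter (fun e => e.1 = p)).card : ℝ) ^ 2)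
      ≤ ∑ p ∈ PP x, (3 * (x : ℝ) + VV (zz x) ^ 4 * (2 * momxS1 (DD x) x p +
        2 * momxS2 (DD x) x p)) :=
    Finset.sum_le_sum (fun p hp => momx_one x p hp (hPz p hp).1 (hPz p hp).2)
  refine hsum.trans ?_
  rw [Finset.sum_add_distrib, Finset.sum_const, ← Finset.mul_sum, Finset.sum_add_distrib,
    ← Finset.mul_sum, ← Finset.mul_sum, nsmul_eq_mul]
  have hV4 : 0 ≤ VV (zz x) ^ 4 := by positivity
  have m1 := mul_le_mul_of_nonneg_left (add_le_add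
    (mul_le_mul_of_nonneg_left L1' (by norm_num : (0 : ℝ) ≤ 2))
    (mul_le_mul_of_nonneg_left L2' (by norm_num : (0 : ℝ) ≤ 2))) hV4
  have m2 : ((PP x).card : ℝ) * (3 * (x : ℝ)) ≤
      3 * C3 * (VV (zz x) ^ 4 * kap (DD x) ^ 4 * (x : ℝ) ^ 2 * (x / Real.log x)) := by
    have h1 : ((PP x).card : ℝ) * (3 * (x : ℝ)) ≤ C3 * x / Real.log x * (3 * (x : ℝ)) :=
      mul_le_mul_of_nonneg_right hPc (by positivity)
    have h2 := mul_le_mul_of_nonneg_left hVK4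
      (by positivity : 0 ≤ 3 * C3 * ((x : ℝ) * (x / Real.log x)))
    calc ((PP x).card : ℝ) * (3 * (x : ℝ)) ≤ C3 * x / Real.log x * (3 * (x : ℝ)) := h1
      _ = 3 * C3 * ((x : ℝ) * (x / Real.log x)) * 1 := by ring
      _ ≤ 3 * C3 * ((x : ℝ) * (x / Real.log x)) * (VV (zz x) ^ 4 * kap (DD x) ^ 4 * x) := h2
      _ = _ := by ring
  refine (add_le_add m2 m1).trans (le_of_eq ?_)
  ring

end Pool.Agent.TFC
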