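import Pool.Agent.TFC.DDG
import Pool.Agent.TFC.KAPA
import Pool.Agent.TFC.CAPB
import Pool.Agent.TFC.ZPRB
import Pool.Agent.TFC.SRVA
import Pool.Agent.TFC.LDM
import Pool.Agent.TFC.SRVC
import Pool.Agent.TFC.MOMX

set_option autoImplicit false

namespace Pool.Agent.TFC

open Finset Filter

theorem momd_hh_double (z d : ℕ) : hh z (2 * d) ≤ 2 * hh z d := by
  unfold hh
  rw [← Finset.prod_filter_mul_prod_filter_not ((pz z).filter (fun q => q ∣ 2 * d)) (fun q => q ∣ d)]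
  have h1 : ((pz z).filter (fun q => q ∣ 2 * d)).filter (fun q => q ∣ d) =
      (pz z).filter (fun q => q ∣ d) := by
    ext q
    simp only [Finset.mem_filter]
    constructor
    · rintro ⟨⟨a, b⟩, c⟩
      exact ⟨a, c⟩
    · rintro ⟨a, c⟩
      exact ⟨⟨a, Dvd.dvd.mul_left c 2⟩, c⟩
  have h2 : ((pz z).filter (fun q => q ∣ 2 * d)).filter (fun q => ¬ q ∣ d) ⊆ {2} := by
    intro q hq
    simp only [Finset.mem_filter] at hq
    obtain ⟨⟨hqz, hq2⟩, hqd⟩ := hq
    unfold pz at hqz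
    rw [Finset.mem_filter] at hqz
    rw [hqz.2.dvd_mul] at hq2
    rcases hq2 with h | h
    · rw [Finset.mem_singleton]
      exact (Nat.prime_dvd_prime_iff_eq hqz.2 Nat.prime_two).1 h
    · exact absurd h hqd
  rw [h1]
  have h3 : 0 ≤ ∏ q ∈ (pz z).filter (fun q => q ∣ d), (1 - 1 / (q : ℝ))⁻¹ := by
    refine Finset.prod_nonneg (fun q hq => ?_)
    rw [Finset.mem_filter] at hq
    unfold pz at hq
    rw [Finset.mem_filter] at hq
    have hq2 : 2 ≤ q := hq.1.2.two_le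
    have : (1 : ℝ) / q ≤ 1 := by
      rw [div_le_one (by positivity)]
      exact_mod_cast (by omega : 1 ≤ q)
    apply inv_nonneg.2
    linarith
  rw [mul_comm]
  apply mul_le_mul_of_nonneg_right _ h3
  rcases Finset.subset_singleton_iff.1 h2 with h | h
  · rw [h]; norm_num
  · rw [h]; norm_num

/-- three points -/
theorem momd_prob (z a b c p1 p2 : ℕ) (hp1 : p1.Prime) (hz1 : z < p1) (hp2 : p2.Prime) (hz2 : z < p2)
    (hne : p1 ≠ p2) (hab : (a - b) + (b - a) = 2 * p1) (hac : (a - c) + (c - a) = 2 * p2)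
    (hbc : (b - c) + (c - b) = 2 * ((p1 : ℤ) - p2).natAbs) :
    Ex z (fun ω => if (sc z ω a = 0 ∧ sc z ω b = 0) ∧ (sc z ω a = 0 ∧ sc z ω c = 0) then 1 else 0) ≤
      VV z ^ 3 * (8 * HH ((p1 : ℤ) - p2).natAbs) := by
  have hpos1 := hp1.pos
  have hpos2 := hp2.pos
  have ha : a ∉ ({b, c} : Finset ℕ) := by
    simp only [Finset.mem_insert, Finset.mem_singleton, not_or]
    refine ⟨by omega, by omega⟩
  have hb : b ∉ ({c} : Finset ℕ) := by
    simp only [Finset.mem_singleton]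
    omega
  have hcard : (insert a (insert b {c}) : Finset ℕ).card = 3 := by
    rw [Finset.card_insert_of_notMem ha, Finset.card_insert_of_notMem hb, Finset.card_singleton]
  obtain ⟨T, hT⟩ : ∃ T : Finset ℕ, T = insert a (insert b {c}) := ⟨_, rfl⟩
  have hs := surv_le z T
  have hprod : VV z ^ T.card * ∏ t ∈ T, ∏ s ∈ T.filter (fun s => s < t), hh z (t - s) =
      VV z ^ 3 * ∏ t ∈ (insert a (insert b {c}) : Finset ℕ),
        ∏ s ∈ (insert a (insert b {c}) : Finset ℕ).filter (fun s => s < t), hh z (t - s) := by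
    rw [← hT, hT, hcard]
  rw [hprod, momx_prod_insert (hh z) _ _ ha, momx_prod_insert (hh z) _ _ hb] at hs
  rw [Finset.prod_insert hb, Finset.prod_singleton, Finset.prod_singleton,
    Finset.prod_singleton] at hs
  have e0 : (Finset.filter (fun s => s < c) {c} : Finset ℕ) = ∅ := by
    rw [Finset.filter_singleton, if_neg (lt_irrefl _)]
  rw [e0, Finset.prod_empty, hab, hac, hbc] at hs
  have hfun : (fun ω : {q : ℕ // q ∈ pz z} → ℕ =>
      (if (sc z ω a = 0 ∧ sc z ω b = 0) ∧ (sc z ω a = 0 ∧ sc z ω c = 0) then (1 : ℝ) else 0)) =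
      (fun ω => if ∀ n ∈ T, sc z ω n = 0 then 1 else 0) := by
    funext ω
    congr 1
    rw [hT]
    simp only [Finset.mem_insert, Finset.mem_singleton, forall_eq_or_imp, forall_eq, eq_iff_iff]
    tauto
  rw [hfun]
  refine hs.trans ?_
  refine mul_le_mul_of_nonneg_left ?_ (pow_nonneg (momx_VV_nonneg z) 3)
  have ht1 := momx_hh_two z p1 hp1 hz1
  have ht2 := momx_hh_two z p2 hp2 hz2
  have hs1 := (hh_pow_le z (2 * p1) (by omega)).1
  have hs2 := (hh_pow_le z (2 * p2) (by omega)).1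
  obtain ⟨a1, a2⟩ := hh_pow_le z ((p1 : ℤ) - p2).natAbs (by omega)
  have a3 := momd_hh_double z ((p1 : ℤ) - p2).natAbs
  have a4 := (hh_pow_le z (2 * ((p1 : ℤ) - p2).natAbs) (by omega)).1
  set t1 := hh z (2 * p1)
  set t2 := hh z (2 * p2)
  set u := hh z (2 * ((p1 : ℤ) - p2).natAbs)
  set w := hh z ((p1 : ℤ) - p2).natAbs
  have h4 : w ≤ w ^ 4 := le_self_pow₀ a1 (by norm_num)
  calc t1 * t2 * (u * 1) ≤ 2 * 2 * ((2 * w) * 1) := by
        refine mul_le_mul (mul_le_mul ht1 ht2 (by linarith) (by norm_num)) ?_ (by linarith) (by norm_num)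
        linarith
    _ = 8 * w := by ring
    _ ≤ _ := by linarith

/-- core of the two degree estimates -/
theorem momd_core {x z : ℕ} (D : Finset ℕ) (hPz : ∀ p ∈ PP x, p.Prime ∧ z < p)
    (s : ℤ) (hs : s = 1 ∨ s = -1)
    (φ : ℕ → ℕ → ℕ) (hφ : ∀ v p : ℕ, 1 ≤ φ v p → ((φ v p : ℕ) : ℤ) = v + 2 * s * p)
    (deg : ({q : ℕ // q ∈ pz z} → ℕ) → ℕ → ℕ)
    (hdeg : ∀ ω, ∀ v ∈ Finset.Icc 1 x, (deg ω v : ℝ) = ∑ p ∈ PP x,
      (momxU D x v * momxU D x (φ v p)) *
        (if sc z ω v = 0 ∧ sc z ω (φ v p) = 0 then 1 else 0)) :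
    Ex z (fun ω => ∑ v ∈ Finset.Icc 1 x, (deg ω v : ℝ) ^ 2) ≤
      x * (PP x).card + 8 * VV z ^ 3 *
        ∑ n ∈ Finset.Icc (1 : ℤ) x, ∑ p1 ∈ PP x, ∑ p2 ∈ PP x,
          (if (p1 : ℤ) - p2 = 0 then 0 else
            ff D x n * ff D x (n + 2 * s * p1) * ff D x (n + 2 * s * p2) *
            HH ((p1 : ℤ) - p2).natAbs) := by
  classical
  have hV : 0 ≤ VV z := momx_VV_nonneg z
  have e1 : Ex z (fun ω => ∑ v ∈ Finset.Icc 1 x, (deg ω v : ℝ) ^ 2) =
      ∑ v ∈ Finset.Icc 1 x, ∑ p1 ∈ PP x, ∑ p2 ∈ PP x,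
        ((momxU D x v * momxU D x (φ v p1)) * (momxU D x v * momxU D x (φ v p2))) *
        Ex z (fun ω => if (sc z ω v = 0 ∧ sc z ω (φ v p1) = 0) ∧
          (sc z ω v = 0 ∧ sc z ω (φ v p2) = 0) then 1 else 0) := by
    rw [momx_Ex_sum]
    refine Finset.sum_congr rfl (fun v hv => ?_)
    have e2 : (fun ω : {q : ℕ // q ∈ pz z} → ℕ => (deg ω v : ℝ) ^ 2) =
        (fun ω => ∑ p1 ∈ PP x, ∑ p2 ∈ PP x,
          ((momxU D x v * momxU D x (φ v p1)) * (momxU D x v * momxU D x (φ v p2))) *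
          (if (sc z ω v = 0 ∧ sc z ω (φ v p1) = 0) ∧
            (sc z ω v = 0 ∧ sc z ω (φ v p2) = 0) then 1 else 0)) := by
      funext ω
      rw [hdeg ω v hv, sq, Finset.sum_mul_sum]
      refine Finset.sum_congr rfl (fun p1 _ => Finset.sum_congr rfl (fun p2 _ => ?_))
      by_cases a : sc z ω v = 0 ∧ sc z ω (φ v p1) = 0
      · by_cases b : sc z ω v = 0 ∧ sc z ω (φ v p2) = 0
        · rw [if_pos a, if_pos b, if_pos ⟨a, b⟩]
          ring
        · rw [if_pos a, if_neg b, if_neg (fun hh => b hh.2)]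
          ring
      · have a' : ¬ ((sc z ω v = 0 ∧ sc z ω (φ v p1) = 0) ∧
            (sc z ω v = 0 ∧ sc z ω (φ v p2) = 0)) := fun hh => a hh.1
        rw [if_neg a, if_neg a']
        ring
    rw [e2, momx_Ex_sum]
    refine Finset.sum_congr rfl (fun p1 _ => ?_)
    rw [momx_Ex_sum]
    refine Finset.sum_congr rfl (fun p2 _ => ?_)
    rw [momx_Ex_mul]
  rw [e1]
  -- pointwise
  have hpt : ∀ v ∈ Finset.Icc 1 x, ∀ p1 ∈ PP x, ∀ p2 ∈ PP x,
      ((momxU D x v * momxU D x (φ v p1)) * (momxU D x v * momxU D x (φ v p2))) *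
        Ex z (fun ω => if (sc z ω v = 0 ∧ sc z ω (φ v p1) = 0) ∧
          (sc z ω v = 0 ∧ sc z ω (φ v p2) = 0) then 1 else 0) ≤
      (if p1 = p2 then 1 else 0) + 8 * VV z ^ 3 *
        (if (p1 : ℤ) - p2 = 0 then 0 else
            ff D x v * ff D x (v + 2 * s * p1) * ff D x (v + 2 * s * p2) *
            HH ((p1 : ℤ) - p2).natAbs) := by
    intro v hv p1 hp1 p2 hp2
    have u1 := momxU_nonneg D x v
    have u2 := momxU_nonneg D x (φ v p1)
    have u3 := momxU_nonneg D x (φ v p2)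
    have v1 := momxU_le_one D x v
    have v2 := momxU_le_one D x (φ v p1)
    have v3 := momxU_le_one D x (φ v p2)
    have hc0 : 0 ≤ (momxU D x v * momxU D x (φ v p1)) * (momxU D x v * momxU D x (φ v p2)) :=
      mul_nonneg (mul_nonneg u1 u2) (mul_nonneg u1 u3)
    have hc1 : (momxU D x v * momxU D x (φ v p1)) * (momxU D x v * momxU D x (φ v p2)) ≤ 1 :=
      mul_le_one₀ (mul_le_one₀ v1 u2 v2) (mul_nonneg u1 u3) (mul_le_one₀ v1 u3 v3)
    have hEx0 : 0 ≤ Ex z (fun ω => if (sc z ω v = 0 ∧ sc z ω (φ v p1) = 0) ∧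
          (sc z ω v = 0 ∧ sc z ω (φ v p2) = 0) then (1 : ℝ) else 0) := by
      refine (Ex_const z 0).symm.trans_le (momx_Ex_mono z (fun ω => ?_))
      split_ifs <;> norm_num
    have hEx1 : Ex z (fun ω => if (sc z ω v = 0 ∧ sc z ω (φ v p1) = 0) ∧
          (sc z ω v = 0 ∧ sc z ω (φ v p2) = 0) then (1 : ℝ) else 0) ≤ 1 := by
      refine (momx_Ex_mono z (G := fun _ => (1 : ℝ)) (fun ω => ?_)).trans_eq (Ex_const z 1)
      split_ifs <;> norm_num
    by_cases heq : p1 = p2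
    · subst heq
      rw [if_pos rfl, if_pos (by simp), mul_zero, add_zero]
      exact mul_le_one₀ hc1 hEx0 hEx1
    · rw [if_neg heq, if_neg (by omega), zero_add]
      have hff : 0 ≤ ff D x v * ff D x (v + 2 * s * p1) * ff D x (v + 2 * s * p2) *
            HH ((p1 : ℤ) - p2).natAbs :=
        mul_nonneg (mul_nonneg (mul_nonneg (momx_ff_nonneg _ _ _) (momx_ff_nonneg _ _ _))
          (momx_ff_nonneg _ _ _)) (momx_HH_nonneg _)
      have hrhs : 0 ≤ 8 * VV z ^ 3 * (ff D x v * ff D x (v + 2 * s * p1) *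
          ff D x (v + 2 * s * p2) * HH ((p1 : ℤ) - p2).natAbs) :=
        mul_nonneg (mul_nonneg (by norm_num) (pow_nonneg hV 3)) hff
      by_cases h1 : 1 ≤ φ v p1
      · by_cases h2 : 1 ≤ φ v p2
        · have c1 := hφ v p1 h1
          have c2 := hφ v p2 h2
          have w1 := momxU_le_ff D x v
          have w2 := momxU_le_ff D x (φ v p1)
          have w3 := momxU_le_ff D x (φ v p2)
          rw [c1] at w2
          rw [c2] at w3
          obtain ⟨q1, q2⟩ := hPz p1 hp1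
          obtain ⟨q3, q4⟩ := hPz p2 hp2
          have hprob := momd_prob z v (φ v p1) (φ v p2) p1 p2 q1 q2 q3 q4 heq
            (by rcases hs with hs | hs <;> subst hs <;> omega)
            (by rcases hs with hs | hs <;> subst hs <;> omega)
            (by rcases hs with hs | hs <;> subst hs <;> omega)
          have hcf : (momxU D x v * momxU D x (φ v p1)) * (momxU D x v * momxU D x (φ v p2)) ≤
              ff D x v * ff D x (v + 2 * s * p1) * ff D x (v + 2 * s * p2) := by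
            calc (momxU D x v * momxU D x (φ v p1)) * (momxU D x v * momxU D x (φ v p2))
                ≤ (ff D x v * ff D x (v + 2 * s * p1)) * (1 * ff D x (v + 2 * s * p2)) := by
                  refine mul_le_mul (mul_le_mul w1 w2 u2 (u1.trans w1))
                    (mul_le_mul v1 w3 u3 (by norm_num)) (mul_nonneg u1 u3)
                    (mul_nonneg (u1.trans w1) (u2.trans w2))
              _ = _ := by ring
          calc _ ≤ (ff D x v * ff D x (v + 2 * s * p1) * ff D x (v + 2 * s * p2)) *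
                (VV z ^ 3 * (8 * HH ((p1 : ℤ) - p2).natAbs)) :=
                mul_le_mul hcf hprob hEx0 (hc0.trans hcf)
            _ = _ := by ring
        · have h0 : momxU D x (φ v p2) = 0 := by
            unfold momxU
            rw [if_neg (fun hh => h2 hh.1.1)]
          rw [h0]
          simpa using hrhs
      · have h0 : momxU D x (φ v p1) = 0 := by
          unfold momxU
          rw [if_neg (fun hh => h1 hh.1.1)]
        rw [h0]
        simpa using hrhs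
  refine (Finset.sum_le_sum (fun v hv => Finset.sum_le_sum (fun p1 hp1 =>
    Finset.sum_le_sum (fun p2 hp2 => hpt v hv p1 hp1 p2 hp2)))).trans ?_
  simp only [Finset.sum_add_distrib]
  apply add_le_add
  · have h5 : ∀ v ∈ Finset.Icc 1 x, ∑ p1 ∈ PP x, ∑ p2 ∈ PP x, (if p1 = p2 then (1 : ℝ) else 0) ≤
        (PP x).card := by
      intro v _
      have h6 : ∀ p1 ∈ PP x, ∑ p2 ∈ PP x, (if p1 = p2 then (1 : ℝ) else 0) ≤ 1 := by
        intro p1 _
        rw [Finset.sum_ite_eq]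
        split_ifs <;> norm_num
      refine (Finset.sum_le_sum h6).trans ?_
      rw [Finset.sum_const, nsmul_eq_mul, mul_one]
    refine (Finset.sum_le_sum h5).trans ?_
    rw [Finset.sum_const, Nat.card_Icc, nsmul_eq_mul]
    simp
  · rw [momx_int_sum]
    apply le_of_eq
    simp only [Finset.mul_sum]

/-- arithmetic of the parameters -/
theorem momd_arith {κ N X E d : ℝ} (hN : 2 ≤ N) (hX : N ^ 60 ≤ X) (hκ0 : 0 < κ)
    (hK : 1 / N ≤ κ ^ 3) (hE0 : 0 ≤ E) (hE : E ≤ N ^ 6)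
    (hE' : N ^ 6 / 2 ≤ E) (hd : d ≤ X / N ^ 60) (hd0 : 0 ≤ d) :
    κ ^ 2 * (κ * X + d) * (X / N) ^ 2 + E ^ 6 * ((X / N ^ 26) ^ 2 * X) + X ^ 3 / Real.sqrt E ≤
      5 * (κ ^ 3 * X * (X / N) ^ 2) := by
  have hN0 : 0 < N := by linarith
  have hN1 : 1 ≤ N := by linarith
  have hX0 : 0 < X := lt_of_lt_of_le (by positivity) hX
  have hκN : 1 / N ≤ κ := by
    by_contra hcon
    rw [not_le] at hcon
    have h1 : κ < 1 := hcon.trans_le (by rw [div_le_one hN0]; exact hN1)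
    have h2 : κ ^ 3 < κ := by
      have h3 : κ ^ 2 < 1 := by nlinarith
      calc κ ^ 3 = κ ^ 2 * κ := by ring
        _ < 1 * κ := mul_lt_mul_of_pos_right h3 hκ0
        _ = κ := one_mul κ
    linarith
  -- basic comparison: X^3/N^3 ≤ κ^3 X (X/N)^2
  have hb : X ^ 3 / N ^ 3 ≤ κ ^ 3 * X * (X / N) ^ 2 := by
    calc X ^ 3 / N ^ 3 = (X * (X / N) ^ 2) * (1 / N) := by field_simp
      _ ≤ (X * (X / N) ^ 2) * κ ^ 3 := mul_le_mul_of_nonneg_left hK (by positivity)
      _ = _ := by ring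
  have t1 : κ ^ 2 * (κ * X + d) * (X / N) ^ 2 ≤ 2 * (κ ^ 3 * X * (X / N) ^ 2) := by
    have h1 : d ≤ κ * X := by
      calc d ≤ X / N ^ 60 := hd
        _ = (1 / N ^ 60) * X := by ring
        _ ≤ (1 / N) * X := by
            apply mul_le_mul_of_nonneg_right _ hX0.le
            apply one_div_le_one_div_of_le hN0
            exact le_self_pow₀ hN1 (by norm_num)
        _ ≤ κ * X := mul_le_mul_of_nonneg_right hκN hX0.le
    calc κ ^ 2 * (κ * X + d) * (X / N) ^ 2 ≤ κ ^ 2 * (κ * X + κ * X) * (X / N) ^ 2 := by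
          apply mul_le_mul_of_nonneg_right _ (by positivity)
          apply mul_le_mul_of_nonneg_left _ (by positivity)
          linarith
      _ = _ := by ring
  have hE6 : E ^ 6 ≤ N ^ 36 := by
    have := pow_le_pow_left₀ hE0 hE 6
    rw [← pow_mul] at this
    exact this
  have t2 : E ^ 6 * ((X / N ^ 26) ^ 2 * X) ≤ κ ^ 3 * X * (X / N) ^ 2 := by
    have h2 : E ^ 6 * ((X / N ^ 26) ^ 2 * X) ≤ N ^ 36 * ((X / N ^ 26) ^ 2 * X) :=
      mul_le_mul_of_nonneg_right hE6 (by positivity)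
    have h3 : N ^ 36 * ((X / N ^ 26) ^ 2 * X) = X ^ 3 * (1 / N ^ 16) := by
      field_simp
    have h4 : 1 / N ^ 16 ≤ 1 / N ^ 3 := by
      apply one_div_le_one_div_of_le (by positivity)
      exact pow_le_pow_right₀ hN1 (by norm_num)
    have h5 := mul_le_mul_of_nonneg_left h4 (by positivity : 0 ≤ X ^ 3)
    rw [h3] at h2
    calc _ ≤ X ^ 3 * (1 / N ^ 16) := h2
      _ ≤ X ^ 3 * (1 / N ^ 3) := h5
      _ = X ^ 3 / N ^ 3 := by ring
      _ ≤ _ := hb
  have t3 : X ^ 3 / Real.sqrt E ≤ 2 * (κ ^ 3 * X * (X / N) ^ 2) := by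
    have hs : N ^ 3 / 2 ≤ Real.sqrt E := by
      apply Real.le_sqrt_of_sq_le
      have : (N ^ 3 / 2) ^ 2 = N ^ 6 / 4 := by ring
      rw [this]
      have h6 : 0 ≤ N ^ 6 := by positivity
      linarith
    calc X ^ 3 / Real.sqrt E ≤ X ^ 3 / (N ^ 3 / 2) :=
          div_le_div_of_nonneg_left (by positivity) (by positivity) hs
      _ = 2 * (X ^ 3 / N ^ 3) := by field_simp
      _ ≤ _ := mul_le_mul_of_nonneg_left hb (by norm_num)
  linarith

/-- the two degree estimates together -/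
theorem momd_both (s : ℤ) (hs : s = 1 ∨ s = -1) :
    ∃ C : ℝ, 0 < C ∧ ∀ᶠ x : ℕ in atTop,
    ∀ φ : ℕ → ℕ → ℕ, (∀ v p : ℕ, 1 ≤ φ v p → ((φ v p : ℕ) : ℤ) = v + 2 * s * p) →
    ∀ deg : ({q : ℕ // q ∈ pz (zz x)} → ℕ) → ℕ → ℕ,
    (∀ ω, ∀ v ∈ Finset.Icc 1 x, (deg ω v : ℝ) = ∑ p ∈ PP x,
      (momxU (DD x) x v * momxU (DD x) x (φ v p)) *
        (if sc (zz x) ω v = 0 ∧ sc (zz x) ω (φ v p) = 0 then 1 else 0)) →
    Ex (zz x) (fun ω => ∑ v ∈ Finset.Icc 1 x, (deg ω v : ℝ) ^ 2) ≤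
      C * (VV (zz x) ^ 3 * kap (DD x) ^ 3 * x * (x / Real.log x) ^ 2) := by
  obtain ⟨C1, hC1, H1⟩ := LD
  obtain ⟨C3, hC3, H3⟩ := PP_card_le
  obtain ⟨c1, hc1, K1⟩ := kap_lower
  obtain ⟨c2, hc2, K2⟩ := VV_order
  refine ⟨C3 + 40 * C1, by positivity, ?_⟩
  filter_upwards [good_DD, K1, K2, zz_size, momx_growth c1 ((c1 * c2) ^ 3) hc1 (by positivity),
    eventually_ge_atTop 3] with x hG k1 k2 hz hg hx3
  intro φ hφ deg hdeg
  obtain ⟨hN2, hX, hK, hA, hLL⟩ := hg
  have hN0 : 0 < Real.log (x : ℝ) := by linarith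
  have hx0 : 0 < (x : ℝ) := by positivity
  have hPz : ∀ p ∈ PP x, p.Prime ∧ zz x < p := by
    intro p hp
    unfold PP at hp
    rw [Finset.mem_filter, Finset.mem_Icc] at hp
    refine ⟨hp.2.1, ?_⟩
    have h8 : zz x ^ 8 ≤ x := hz.2.1
    have h100 : 100 ≤ zz x := hz.2.2
    have h2 : 16 * zz x ≤ zz x ^ 8 := by
      calc 16 * zz x ≤ zz x * zz x := Nat.mul_le_mul (by omega) le_rfl
        _ = zz x ^ 2 := by ring
        _ ≤ zz x ^ 8 := Nat.pow_le_pow_right (by omega) (by norm_num)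
    omega
  have hEle : (EE x : ℝ) ≤ (Real.log x) ^ 6 := Nat.floor_le (by positivity)
  have h64 : (64 : ℝ) ≤ (Real.log (x : ℝ)) ^ 6 := by
    calc (64 : ℝ) = 2 ^ 6 := by norm_num
      _ ≤ _ := pow_le_pow_left₀ (by norm_num) hN2 6
  have hEge : (Real.log (x : ℝ)) ^ 6 / 2 ≤ (EE x : ℝ) := by
    have h1 : (Real.log (x : ℝ)) ^ 6 < (EE x : ℝ) + 1 := Nat.lt_floor_add_one _
    linarith
  have hE1 : 1 ≤ EE x := by
    have : (1 : ℝ) ≤ (EE x : ℝ) := by linarith
    exact_mod_cast this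
  have hEx2 : EE x ^ 2 ≤ x := by
    have h1 : ((EE x : ℝ)) ^ 2 ≤ ((Real.log x) ^ 6) ^ 2 := pow_le_pow_left₀ (by positivity) hEle 2
    have h2 : ((Real.log (x : ℝ)) ^ 6) ^ 2 ≤ (Real.log x) ^ 60 := by
      rw [← pow_mul]
      exact pow_le_pow_right₀ (by linarith) (by norm_num)
    exact_mod_cast h1.trans (h2.trans hX)
  have hEx16 : 16 * EE x ≤ x := by
    have h1 : 16 * (EE x : ℝ) ≤ (Real.log x) ^ 6 * (Real.log x) ^ 6 :=
      mul_le_mul (by linarith) hEle (by positivity) (by positivity)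
    have h2 : (Real.log (x : ℝ)) ^ 6 * (Real.log x) ^ 6 ≤ (Real.log x) ^ 60 := by
      rw [← pow_add]
      exact pow_le_pow_right₀ (by linarith) (by norm_num)
    exact_mod_cast h1.trans (h2.trans hX)
  have hPc := H3 x hx3
  have hkap : 0 < kap (DD x) := lt_of_lt_of_le (by positivity) k1
  have hK4 : 1 / Real.log (x : ℝ) ≤ kap (DD x) ^ 4 :=
    hK.trans (pow_le_pow_left₀ (by positivity) k1 4)
  have hK3 : 1 / Real.log (x : ℝ) ≤ kap (DD x) ^ 3 := by
    by_cases h1 : kap (DD x) ≤ 1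
    · exact hK4.trans (pow_le_pow_of_le_one hkap.le h1 (by norm_num))
    · rw [not_le] at h1
      have h2 : (1 : ℝ) ≤ kap (DD x) ^ 3 := one_le_pow₀ h1.le
      have h3 : 1 / Real.log (x : ℝ) ≤ 1 := by
        rw [div_le_one hN0]
        linarith
      linarith
  have hVpos : 0 < VV (zz x) := lt_of_lt_of_le (by positivity) k2.1
  have hVK : (c1 * c2) / Real.log x ≤ VV (zz x) * kap (DD x) := by
    have := mul_le_mul k2.1 k1 (by positivity) hVpos.le
    refine le_trans (le_of_eq ?_) this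
    field_simp
  -- log x ≤ (V κ)^3 x
  have hVK3 : Real.log (x : ℝ) ≤ VV (zz x) ^ 3 * kap (DD x) ^ 3 * x := by
    have h1 := pow_le_pow_left₀ (by positivity) hVK 3
    rw [div_pow, mul_pow (VV (zz x))] at h1
    have h2 := mul_le_mul_of_nonneg_right h1 hx0.le
    refine le_trans ?_ h2
    have h3 : Real.log (x : ℝ) * 1 ≤ Real.log (x : ℝ) * ((c1 * c2) ^ 3 / (Real.log x) ^ 4 * x) :=
      mul_le_mul_of_nonneg_left hA hN0.le
    rw [mul_one] at h3
    refine h3.trans (le_of_eq ?_)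
    field_simp
  have hdd := momx_DD_card x hN0
  have har := momd_arith (κ := kap (DD x)) (N := Real.log (x : ℝ))
    (X := (x : ℝ)) (E := (EE x : ℝ)) (d := ((DD x).card : ℝ)) hN2 hX hkap hK3
    (by positivity) hEle hEge hdd (by positivity)
  have L1 := (H1 (DD x) x (EE x) _ hG hE1 hx3 hEx2 hEx16 s hs).trans
    (mul_le_mul_of_nonneg_left har hC1.le)
  have hcore := momd_core (DD x) hPz s hs φ hφ deg hdeg
  refine hcore.trans ?_
  have hV3 : 0 ≤ 8 * VV (zz x) ^ 3 := by positivity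
  have m1 := mul_le_mul_of_nonneg_left L1 hV3
  have m2 : (x : ℝ) * ((PP x).card : ℝ) ≤
      C3 * (VV (zz x) ^ 3 * kap (DD x) ^ 3 * x * (x / Real.log x) ^ 2) := by
    calc (x : ℝ) * ((PP x).card : ℝ) ≤ x * (C3 * x / Real.log x) :=
          mul_le_mul_of_nonneg_left hPc hx0.le
      _ = C3 * ((x / Real.log x) ^ 2 * Real.log x) := by field_simp
      _ ≤ C3 * ((x / Real.log x) ^ 2 * (VV (zz x) ^ 3 * kap (DD x) ^ 3 * x)) := by
          apply mul_le_mul_of_nonneg_left _ hC3.le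
          exact mul_le_mul_of_nonneg_left hVK3 (by positivity)
      _ = _ := by ring
  refine (add_le_add m2 m1).trans (le_of_eq ?_)
  ring


theorem momd_mem (x : ℕ) (ω : {q : ℕ // q ∈ pz (zz x)} → ℕ) (m : ℕ) :
    m ∈ SS x ω ↔ ((1 ≤ m ∧ m ≤ x) ∧ ∃ d ∈ DD x, d ∣ m) ∧ sc (zz x) ω m = 0 := by
  unfold SS
  rw [Finset.mem_filter, Finset.mem_Icc]
  tauto

open scoped Classical in
theorem momd_term (x : ℕ) (ω : {q : ℕ // q ∈ pz (zz x)} → ℕ) (v w : ℕ) :
    (if v ∈ SS x ω ∧ w ∈ SS x ω then (1 : ℝ) else 0) =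
      (momxU (DD x) x v * momxU (DD x) x w) *
        (if sc (zz x) ω v = 0 ∧ sc (zz x) ω w = 0 then 1 else 0) := by
  have hmem := momd_mem x ω
  unfold momxU
  by_cases a1 : (1 ≤ v ∧ v ≤ x) ∧ ∃ d ∈ DD x, d ∣ v
  · by_cases a2 : (1 ≤ w ∧ w ≤ x) ∧ ∃ d ∈ DD x, d ∣ w
    · by_cases a3 : sc (zz x) ω v = 0 ∧ sc (zz x) ω w = 0
      · rw [if_pos ⟨(hmem v).2 ⟨a1, a3.1⟩, (hmem _).2 ⟨a2, a3.2⟩⟩, if_pos a1, if_pos a2,
          if_pos a3]
        ring
      · rw [if_neg (fun hh => a3 ⟨((hmem v).1 hh.1).2, ((hmem _).1 hh.2).2⟩), if_pos a1,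
          if_pos a2, if_neg a3]
        ring
    · rw [if_neg (fun hh => a2 ((hmem _).1 hh.2).1), if_neg a2]
      ring
  · rw [if_neg (fun hh => a1 ((hmem v).1 hh.1).1), if_neg a1]
    ring

theorem momd_cardL (x : ℕ) (ω : {q : ℕ // q ∈ pz (zz x)} → ℕ) (v : ℕ) (hv : v ∈ Finset.Icc 1 x) :
    (((EG x ω).filter (fun e => e.2 = v)).card : ℝ) = ∑ p ∈ PP x,
      (momxU (DD x) x v * momxU (DD x) x (v + 2 * p)) *
        (if sc (zz x) ω v = 0 ∧ sc (zz x) ω (v + 2 * p) = 0 then 1 else 0) := by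
  classical
  have h1 : ((EG x ω).filter (fun e => e.2 = v)).card =
      ((PP x).filter (fun p => v ∈ SS x ω ∧ v + 2 * p ∈ SS x ω)).card := by
    symm
    refine Finset.card_bij (fun p _ => (p, v)) ?_ ?_ ?_
    · intro p hp
      rw [Finset.mem_filter] at hp
      rw [Finset.mem_filter]
      refine ⟨?_, rfl⟩
      unfold EG
      rw [Finset.mem_filter, Finset.mem_product]
      exact ⟨⟨hp.1, hv⟩, hp.2⟩
    · intro a _ b _ h
      exact (Prod.mk.inj h).1
    · intro e he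
      rw [Finset.mem_filter] at he
      obtain ⟨he1, he2⟩ := he
      unfold EG at he1
      rw [Finset.mem_filter, Finset.mem_product] at he1
      refine ⟨e.1, ?_, ?_⟩
      · rw [Finset.mem_filter]
        rw [he2] at he1
        exact ⟨he1.1.1, he1.2⟩
      · rw [← he2]
  rw [h1, Finset.card_filter]
  push_cast
  exact Finset.sum_congr rfl (fun p _ => momd_term x ω v (v + 2 * p))

/-- MOM (c): second moment of the left degrees (`LD` with `s = 1`, `surv_le` with `T = {v, v+2p1, v+2p2}`). -/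
theorem mom_D1 : ∃ C : ℝ, 0 < C ∧ ∀ᶠ x : ℕ in atTop,
    Ex (zz x) (fun ω => ∑ v ∈ Finset.Icc 1 x, (((EG x ω).filter (fun e => e.2 = v)).card : ℝ) ^ 2) ≤
      C * (VV (zz x) ^ 3 * kap (DD x) ^ 3 * x * (x / Real.log x) ^ 2) := by
  obtain ⟨C, hC, H⟩ := momd_both 1 (Or.inl rfl)
  refine ⟨C, hC, ?_⟩
  filter_upwards [H] with x hx
  have hφ : ∀ v p : ℕ, 1 ≤ (fun v p : ℕ => v + 2 * p) v p →
      (((fun v p : ℕ => v + 2 * p) v p : ℕ) : ℤ) = v + 2 * 1 * p := by
    intro v p _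
    push_cast
    ring
  have h2 := hx (fun v p => v + 2 * p) hφ (fun ω v => ((EG x ω).filter (fun e => e.2 = v)).card)
  apply h2
  intro ω v hv
  exact momd_cardL x ω v hv

end Pool.Agent.TFC
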