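import Pool.Agent.TFC.DDG
import Pool.Agent.TFC.KAPA
import Pool.Agent.TFC.CAPB
import Pool.Agent.TFC.ZPRB
import Pool.Agent.TFC.SRVA
import Pool.Agent.TFC.LDM
import Pool.Agent.TFC.SRVC
import Pool.Agent.TFC.MOMD1

set_option autoImplicit false

namespace Pool.Agent.TFC

open Finset Filter

theorem momd_cardR (x : ℕ) (ω : {q : ℕ // q ∈ pz (zz x)} → ℕ) (v : ℕ) (hv : v ∈ Finset.Icc 1 x) :
    (((EG x ω).filter (fun e => e.2 + 2 * e.1 = v)).card : ℝ) = ∑ p ∈ PP x,
      (momxU (DD x) x v * momxU (DD x) x (v - 2 * p)) *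
        (if sc (zz x) ω v = 0 ∧ sc (zz x) ω (v - 2 * p) = 0 then 1 else 0) := by
  classical
  have hv' := Finset.mem_Icc.1 hv
  have hpos : ∀ m : ℕ, m ∈ SS x ω → 1 ≤ m ∧ m ≤ x := fun m hm => ((momd_mem x ω m).1 hm).1.1
  have h1 : ((EG x ω).filter (fun e => e.2 + 2 * e.1 = v)).card =
      ((PP x).filter (fun p => v ∈ SS x ω ∧ v - 2 * p ∈ SS x ω)).card := by
    symm
    refine Finset.card_bij (fun p _ => (p, v - 2 * p)) ?_ ?_ ?_
    · intro p hp
      rw [Finset.mem_filter] at hp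
      have h3 := hpos _ hp.2.2
      have h4 : v - 2 * p + 2 * p = v := by omega
      rw [Finset.mem_filter]
      refine ⟨?_, h4⟩
      unfold EG
      rw [Finset.mem_filter, Finset.mem_product, Finset.mem_Icc]
      simp only
      rw [h4]
      exact ⟨⟨hp.1, h3⟩, hp.2.2, hp.2.1⟩
    · intro a _ b _ h
      exact (Prod.mk.inj h).1
    · intro e he
      rw [Finset.mem_filter] at he
      obtain ⟨he1, he2⟩ := he
      unfold EG at he1
      rw [Finset.mem_filter, Finset.mem_product] at he1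
      have h5 : v - 2 * e.1 = e.2 := by omega
      refine ⟨e.1, ?_, ?_⟩
      · rw [Finset.mem_filter, h5]
        rw [he2] at he1
        exact ⟨he1.1.1, he1.2.2, he1.2.1⟩
      · rw [h5]
  rw [h1, Finset.card_filter]
  push_cast
  exact Finset.sum_congr rfl (fun p _ => momd_term x ω v (v - 2 * p))

/-- MOM (d): second moment of the right degrees (`LD` with `s = -1`). -/
theorem mom_D2 : ∃ C : ℝ, 0 < C ∧ ∀ᶠ x : ℕ in atTop,
    Ex (zz x) (fun ω => ∑ v ∈ Finset.Icc 1 x,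
      (((EG x ω).filter (fun e => e.2 + 2 * e.1 = v)).card : ℝ) ^ 2) ≤
      C * (VV (zz x) ^ 3 * kap (DD x) ^ 3 * x * (x / Real.log x) ^ 2) := by
  obtain ⟨C, hC, H⟩ := momd_both (-1) (Or.inr rfl)
  refine ⟨C, hC, ?_⟩
  filter_upwards [H] with x hx
  have hφ : ∀ v p : ℕ, 1 ≤ (fun v p : ℕ => v - 2 * p) v p →
      (((fun v p : ℕ => v - 2 * p) v p : ℕ) : ℤ) = v + 2 * (-1) * p := by
    intro v p h
    simp only at h ⊢
    omega
  have h2 := hx (fun v p => v - 2 * p) hφ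
    (fun ω v => ((EG x ω).filter (fun e => e.2 + 2 * e.1 = v)).card)
  apply h2
  intro ω v hv
  exact momd_cardR x ω v hv

end Pool.Agent.TFC
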