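import Pool.Agent.TFC.MOMT
import Pool.Agent.TFC.MOMX
import Pool.Agent.TFC.MOMD1
import Pool.Agent.TFC.MOMD2
import Pool.Agent.TFC.MCH

set_option autoImplicit false

namespace Pool.Agent.TFC

open Finset Filter

theorem gain_OM_pos (z : ℕ) : 0 < (OM z).card := by
  unfold OM
  rw [Fintype.card_piFinset]
  apply Finset.prod_pos
  intro q _
  rw [Finset.card_range]
  have := q.2
  unfold pz at this
  rw [Finset.mem_filter] at this
  exact this.2.pos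

theorem gain_Ex_mono {z : ℕ} {f g : ({q : ℕ // q ∈ pz z} → ℕ) → ℝ} (h : ∀ ω ∈ OM z, f ω ≤ g ω) :
    Ex z f ≤ Ex z g := by
  unfold Ex
  exact div_le_div_of_nonneg_right (Finset.sum_le_sum h) (Nat.cast_nonneg _)

theorem gain_Ex_add {z : ℕ} (f g : ({q : ℕ // q ∈ pz z} → ℕ) → ℝ) :
    Ex z (fun ω => f ω + g ω) = Ex z f + Ex z g := by
  unfold Ex
  rw [Finset.sum_add_distrib, add_div]

theorem gain_Ex_mul {z : ℕ} (c : ℝ) (f : ({q : ℕ // q ∈ pz z} → ℕ) → ℝ) :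
    Ex z (fun ω => c * f ω) = c * Ex z f := by
  unfold Ex
  rw [← Finset.mul_sum, mul_div_assoc]

theorem gain_Ex_nonneg {z : ℕ} {f : ({q : ℕ // q ∈ pz z} → ℕ) → ℝ} (h : ∀ ω, 0 ≤ f ω) :
    0 ≤ Ex z f := by
  unfold Ex
  exact div_nonneg (Finset.sum_nonneg (fun ω _ => h ω)) (Nat.cast_nonneg _)

theorem gain_Ex_cs {z : ℕ} (T G M : ({q : ℕ // q ∈ pz z} → ℕ) → ℝ) (hT : ∀ ω, 0 ≤ T ω)
    (hG : ∀ ω, 0 ≤ G ω) (hM : ∀ ω, 0 ≤ M ω) (h : ∀ ω, T ω ^ 2 ≤ 6 * G ω * M ω) :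
    Ex z T ^ 2 ≤ 6 * Ex z G * Ex z M := by
  have hc : (0 : ℝ) < (OM z).card := by exact_mod_cast gain_OM_pos z
  have h1 : ∀ ω, T ω ≤ Real.sqrt (6 * G ω) * Real.sqrt (M ω) := by
    intro ω
    rw [← Real.sqrt_mul (by have := hG ω; positivity)]
    exact Real.le_sqrt_of_sq_le (h ω)
  have h2 : (∑ ω ∈ OM z, T ω) ^ 2 ≤ (∑ ω ∈ OM z, 6 * G ω) * (∑ ω ∈ OM z, M ω) := by
    have h3 : (∑ ω ∈ OM z, T ω) ^ 2 ≤
        (∑ ω ∈ OM z, Real.sqrt (6 * G ω) * Real.sqrt (M ω)) ^ 2 := by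
      apply pow_le_pow_left₀ (Finset.sum_nonneg (fun ω _ => hT ω))
      exact Finset.sum_le_sum (fun ω _ => h1 ω)
    refine h3.trans ((Finset.sum_mul_sq_le_sq_mul_sq _ _ _).trans (le_of_eq ?_))
    congr 1
    · apply Finset.sum_congr rfl
      intro ω _
      exact Real.sq_sqrt (by have := hG ω; positivity)
    · apply Finset.sum_congr rfl
      intro ω _
      exact Real.sq_sqrt (hM ω)
  unfold Ex
  rw [div_pow, show 6 * ((∑ ω ∈ OM z, G ω) / ((OM z).card : ℝ)) * ((∑ ω ∈ OM z, M ω) / ((OM z).card : ℝ))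
    = ((∑ ω ∈ OM z, 6 * G ω) * (∑ ω ∈ OM z, M ω)) / ((OM z).card : ℝ) ^ 2 by
      rw [← Finset.mul_sum]; field_simp]
  exact div_le_div_of_nonneg_right h2 (by positivity)

theorem gain_VV_pos (z : ℕ) : 0 < VV z := by
  unfold VV
  apply Finset.prod_pos
  intro q hq
  unfold pz at hq
  rw [Finset.mem_filter] at hq
  have h2 : (2 : ℝ) ≤ q := by exact_mod_cast hq.2.two_le
  rw [sub_pos, div_lt_one (by linarith)]
  linarith

/-- GAIN. -/
theorem gain : ∃ c : ℝ, 0 < c ∧ ∀ᶠ x : ℕ in atTop,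
    ∃ G : ({q : ℕ // q ∈ pz (zz x)} → ℕ) → Finset (ℕ × ℕ),
      (∀ ω, G ω ⊆ EG x ω ∧ Disj (G ω)) ∧
      c * (x / Real.log x) ≤ Ex (zz x) (fun ω => ((G ω).card : ℝ)) := by
  obtain ⟨c1, hc1, hT⟩ := mom_T
  obtain ⟨C1, hC1, hX⟩ := mom_X
  obtain ⟨C2, hC2, hD1⟩ := mom_D1
  obtain ⟨C3, hC3, hD2⟩ := mom_D2
  obtain ⟨c2, hc2, hV⟩ := VV_order
  obtain ⟨c3, hc3, hK⟩ := kap_lower
  have hlog : Tendsto (fun x : ℕ => Real.log x) atTop atTop :=
    Real.tendsto_log_atTop.comp tendsto_natCast_atTop_atTop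
  have hloglog : Tendsto (fun x : ℕ => Real.log (Real.log x)) atTop atTop :=
    Real.tendsto_log_atTop.comp hlog
  set B : ℝ := C1 + (C2 + C3) / (c2 * c3) with hB
  have hB0 : 0 < B := by positivity
  refine ⟨c1 ^ 2 / (6 * B), by positivity, ?_⟩
  filter_upwards [hT, hX, hD1, hD2, hV, hK, hlog.eventually_ge_atTop 1,
    hloglog.eventually_ge_atTop 1, Filter.eventually_ge_atTop 1] with x hT hX hD1 hD2 hV hK hN hL hx1
  have hx0 : (0 : ℝ) < x := by exact_mod_cast hx1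
  set N := Real.log x with hNdef
  set L := Real.log N with hLdef
  set V := VV (zz x) with hVdef
  set κ := kap (DD x) with hκdef
  have hN0 : 0 < N := by linarith
  have hL0 : 0 < L := by linarith
  have hV0 : 0 < V := gain_VV_pos _
  have hκ0 : 0 < κ := lt_of_lt_of_le (by positivity) hK
  -- V κ ≥ c2 c3 / N
  have hVκ : c2 * c3 / N ≤ V * κ := by
    calc c2 * c3 / N = (c2 * L / N) * (c3 / L) := by field_simp
      _ ≤ V * κ := mul_le_mul hV.1 hK (by positivity) hV0.le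
  -- the matching
  have hmatch : ∀ ω : {q : ℕ // q ∈ pz (zz x)} → ℕ, ∃ G ⊆ EG x ω, Disj G ∧
      ((EG x ω).card : ℝ) ^ 2 ≤ 6 * G.card *
        (∑ p ∈ PP x, (((EG x ω).filter (fun e => e.1 = p)).card : ℝ) ^ 2 +
         ∑ v ∈ Finset.Icc 1 x, (((EG x ω).filter (fun e => e.2 = v)).card : ℝ) ^ 2 +
         ∑ v ∈ Finset.Icc 1 x, (((EG x ω).filter (fun e => e.2 + 2 * e.1 = v)).card : ℝ) ^ 2) := by
    intro ω
    refine matching (PP x) (Finset.Icc 1 x) (EG x ω) ?_ ?_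
    · intro e he
      unfold EG at he
      rw [Finset.mem_filter, Finset.mem_product] at he
      refine ⟨he.1.1, ?_⟩
      have := he.1.1
      unfold PP at this
      rw [Finset.mem_filter, Finset.mem_Icc] at this
      exact this.1.1
    · intro e he
      unfold EG at he
      rw [Finset.mem_filter, Finset.mem_product] at he
      refine ⟨he.1.2, ?_⟩
      have := he.2.2
      unfold SS at this
      rw [Finset.mem_filter] at this
      exact this.1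
  choose G hG1 hG2 hG3 using hmatch
  refine ⟨G, fun ω => ⟨hG1 ω, hG2 ω⟩, ?_⟩
  have hcs := gain_Ex_cs (z := zz x) (fun ω => ((EG x ω).card : ℝ)) (fun ω => ((G ω).card : ℝ))
    (fun ω => ∑ p ∈ PP x, (((EG x ω).filter (fun e => e.1 = p)).card : ℝ) ^ 2 +
         ∑ v ∈ Finset.Icc 1 x, (((EG x ω).filter (fun e => e.2 = v)).card : ℝ) ^ 2 +
         ∑ v ∈ Finset.Icc 1 x, (((EG x ω).filter (fun e => e.2 + 2 * e.1 = v)).card : ℝ) ^ 2)
    (fun ω => Nat.cast_nonneg _) (fun ω => Nat.cast_nonneg _)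
    (fun ω => add_nonneg (add_nonneg (Finset.sum_nonneg fun _ _ => sq_nonneg _)
      (Finset.sum_nonneg fun _ _ => sq_nonneg _)) (Finset.sum_nonneg fun _ _ => sq_nonneg _)) hG3
  rw [gain_Ex_add, gain_Ex_add] at hcs
  set A := Ex (zz x) (fun ω => ((G ω).card : ℝ)) with hA
  set W : ℝ := V ^ 4 * κ ^ 4 * x ^ 2 * (x / N) with hW
  have hW0 : 0 < W := by positivity
  have hA0 : 0 ≤ A := gain_Ex_nonneg (fun ω => Nat.cast_nonneg _)
  have hdeg : V ^ 3 * κ ^ 3 * x * (x / N) ^ 2 ≤ W / (c2 * c3) := by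
    rw [le_div_iff₀ (by positivity)]
    have h1 : c2 * c3 ≤ V * κ * N := by
      rw [div_le_iff₀ hN0] at hVκ
      exact hVκ
    calc V ^ 3 * κ ^ 3 * x * (x / N) ^ 2 * (c2 * c3) ≤ V ^ 3 * κ ^ 3 * x * (x / N) ^ 2 * (V * κ * N) :=
          mul_le_mul_of_nonneg_left h1 (by positivity)
      _ = W := by rw [hW]; field_simp
  have hM : Ex (zz x) (fun ω => ∑ p ∈ PP x, (((EG x ω).filter (fun e => e.1 = p)).card : ℝ) ^ 2) +
      Ex (zz x) (fun ω => ∑ v ∈ Finset.Icc 1 x, (((EG x ω).filter (fun e => e.2 = v)).card : ℝ) ^ 2) +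
      Ex (zz x) (fun ω => ∑ v ∈ Finset.Icc 1 x,
        (((EG x ω).filter (fun e => e.2 + 2 * e.1 = v)).card : ℝ) ^ 2) ≤ B * W := by
    have h1 := mul_le_mul_of_nonneg_left hdeg hC2.le
    have h2 := mul_le_mul_of_nonneg_left hdeg hC3.le
    have h3 : B * W = C1 * W + C2 * (W / (c2 * c3)) + C3 * (W / (c2 * c3)) := by
      rw [hB]; ring
    rw [h3]
    linarith [hX, hD1, hD2]
  have hT2 : (c1 * (V ^ 2 * κ ^ 2 * x * (x / N))) ^ 2 ≤ 6 * A * (B * W) := by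
    calc (c1 * (V ^ 2 * κ ^ 2 * x * (x / N))) ^ 2 ≤ Ex (zz x) (fun ω => ((EG x ω).card : ℝ)) ^ 2 :=
          pow_le_pow_left₀ (by positivity) hT 2
      _ ≤ _ := hcs
      _ ≤ 6 * A * (B * W) := mul_le_mul_of_nonneg_left hM (by positivity)
  have h5 : (c1 * (V ^ 2 * κ ^ 2 * x * (x / N))) ^ 2 = c1 ^ 2 * (x / N) * W := by
    rw [hW]; ring
  rw [h5] at hT2
  have h6 : c1 ^ 2 * (x / N) ≤ 6 * A * B := by
    have : c1 ^ 2 * (x / N) * W ≤ (6 * A * B) * W := by linarith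
    exact le_of_mul_le_mul_right this hW0
  rw [div_mul_eq_mul_div, div_le_iff₀ (by positivity)]
  linarith

end Pool.Agent.TFC
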