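import Pool.Agent.TFC.Defs

set_option autoImplicit false

namespace Pool.Agent.TFC

open Finset

theorem geo_norm (t : ℝ) : ‖ee t‖ = 1 := by
  unfold ee
  rw [Complex.norm_exp_ofReal_mul_I]

theorem geo_add (s t : ℝ) : ee (s + t) = ee s * ee t := by
  unfold ee
  rw [← Complex.exp_add]
  congr 1
  push_cast
  ring

theorem geo_int (k : ℤ) : ee k = 1 := by
  unfold ee
  have h : (((2 * Real.pi * (k : ℝ) : ℝ) : ℂ)) * Complex.I = (k : ℂ) * (2 * Real.pi * Complex.I) := by
    push_cast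
    ring
  rw [h, Complex.exp_int_mul_two_pi_mul_I]

theorem geo_lower (θ : ℝ) : 4 * dz θ ≤ ‖ee θ - 1‖ := by
  have h1 : ee θ = ee (θ - round θ) := by
    have h := geo_add (θ - round θ) (round θ : ℤ)
    rw [sub_add_cancel, geo_int, mul_one] at h
    exact h
  have h2 : ‖ee (θ - round θ) - 1‖ = 2 * |Real.sin (Real.pi * (θ - round θ))| := by
    unfold ee
    have h3 := Complex.norm_exp_I_mul_ofReal_sub_one (2 * Real.pi * (θ - round θ))
    rw [mul_comm Complex.I] at h3
    rw [h3, Real.norm_eq_abs, abs_mul, abs_two]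
    congr 3
    ring
  have h4 : dz θ ≤ 1 / 2 := abs_sub_round θ
  have h5 : 0 ≤ dz θ := abs_nonneg _
  have h6 : |Real.sin (Real.pi * (θ - round θ))| = Real.sin (Real.pi * dz θ) := by
    have h7 : 0 ≤ Real.sin (Real.pi * dz θ) := by
      apply Real.sin_nonneg_of_nonneg_of_le_pi (by positivity)
      nlinarith [Real.pi_pos]
    unfold dz at *
    rcases abs_cases (θ - round θ) with ⟨h8, _⟩ | ⟨h8, _⟩
    · rw [h8] at h7 ⊢
      exact abs_of_nonneg h7
    · rw [h8, mul_neg, Real.sin_neg] at h7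
      rw [h8, mul_neg, Real.sin_neg]
      exact abs_of_nonpos (by linarith)
  have h9 := Real.mul_le_sin (x := Real.pi * dz θ) (by positivity) (by nlinarith [Real.pi_pos])
  have h10 : 2 / Real.pi * (Real.pi * dz θ) = 2 * dz θ := by
    field_simp
  rw [h10] at h9
  rw [h1, h2, h6]
  linarith

/-- GEO. Geometric sums: `|∑_{m ≤ n} e(mθ)| ≤ min(n, 1/(2‖θ‖))`.
Proof: norm of each term is 1; if `θ ∉ ℤ`, the sum is `e(θ)(e(nθ)-1)/(e(θ)-1)` and
`|e(θ)-1| = 2|sin πθ| = 2 sin(π‖θ‖) ≥ 4‖θ‖` (`Real.mul_le_sin` on `[0, π/2]`, and `‖θ‖ ≤ 1/2`). -/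
theorem geom_bound (n : ℕ) (θ : ℝ) :
    ‖∑ m ∈ Finset.Icc 1 n, ee (m * θ)‖ ≤ n ∧
    ‖∑ m ∈ Finset.Icc 1 n, ee (m * θ)‖ * (2 * dz θ) ≤ 1 := by
  constructor
  · refine (norm_sum_le _ _).trans ?_
    simp [geo_norm]
  · have htel : ∀ n : ℕ, (ee θ - 1) * ∑ m ∈ Finset.Icc 1 n, ee (m * θ) =
        ee ((n + 1 : ℕ) * θ) - ee θ := by
      intro n
      induction n with
      | zero => simp
      | succ n ih =>
        rw [Finset.sum_Icc_succ_top (by omega), mul_add, ih]
        have h : ee ((n + 1 + 1 : ℕ) * θ) = ee θ * ee ((n + 1 : ℕ) * θ) := by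
          rw [← geo_add]
          congr 1
          push_cast
          ring
        rw [h]
        ring
    have h1 := congrArg norm (htel n)
    rw [norm_mul] at h1
    have h2 : ‖ee ((n + 1 : ℕ) * θ) - ee θ‖ ≤ 2 := by
      refine (norm_sub_le _ _).trans ?_
      rw [geo_norm, geo_norm]
      norm_num
    have h3 := geo_lower θ
    have h4 := norm_nonneg (∑ m ∈ Finset.Icc 1 n, ee (m * θ))
    have h5 := mul_le_mul_of_nonneg_right h3 h4
    rw [h1] at h5
    linarith

end Pool.Agent.TFC
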