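import Pool.Agent.TFC.Defs

set_option autoImplicit false

namespace Pool.Agent.TFC

open Finset

/-- HSM (a) -/
theorem gg_nonneg (e : ℕ) : 0 ≤ gg e := by
  unfold gg
  split_ifs
  · exact Finset.prod_nonneg (fun q _ => by positivity)
  · exact le_rfl

theorem hsma_squarefree_prod (s : Finset ℕ) (hpr : ∀ q ∈ s, q.Prime) :
    Squarefree (∏ q ∈ s, q) := by
  refine Finset.squarefree_prod_of_pairwise_isCoprime (fun p hp q hq hpq => ?_) ?_
  · have hp' := hpr p hp
    have hq' := hpr q hq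
    exact Nat.coprime_iff_isRelPrime.1 ((Nat.coprime_primes hp' hq').2 hpq)
  · intro p hp
    exact (hpr p hp).prime.squarefree

/-- HSM (b): `HH d = ∑_{e ∣ d} gg e` (expand the product over the prime factors). -/
theorem HH_eq (d : ℕ) (hd : d ≠ 0) : HH d = ∑ e ∈ d.divisors, gg e := by
  have h1 : ∑ e ∈ d.divisors, gg e = ∑ e ∈ d.divisors with Squarefree e, gg e := by
    rw [Finset.sum_filter]
    refine Finset.sum_congr rfl (fun e _ => ?_)
    by_cases h : Squarefree e
    · rw [if_pos h]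
    · rw [if_neg h, gg, if_neg h]
  have hps : d.primeFactors = (UniqueFactorizationMonoid.normalizedFactors d).toFinset := by
    ext q
    rw [Nat.mem_primeFactors_of_ne_zero hd, Multiset.mem_toFinset,
      UniqueFactorizationMonoid.mem_normalizedFactors_iff hd, Nat.prime_iff]
  rw [h1, Nat.sum_divisors_filter_squarefree hd, HH, Finset.prod_one_add, ← hps]
  refine Finset.sum_congr rfl (fun s hs => ?_)
  rw [Finset.mem_powerset] at hs
  have hpr : ∀ q ∈ s, q.Prime := fun q hq => Nat.prime_of_mem_primeFactors (hs hq)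
  have hprod : s.val.prod = ∏ q ∈ s, q := by
    rw [Finset.prod_val]
    rfl
  rw [hprod]
  have hpf : (∏ q ∈ s, q).primeFactors = s := Nat.primeFactors_prod hpr
  rw [gg, if_pos (hsma_squarefree_prod s hpr), hpf]

/-- HSM (c): `(1-1/q)^(-4) ≤ 1 + 30/q` for `q ≥ 2`. -/
theorem hh_pow_le (z d : ℕ) (hd : d ≠ 0) : 1 ≤ hh z d ∧ hh z d ^ 4 ≤ HH d := by
  have hq2 : ∀ q ∈ (pz z).filter (fun q => q ∣ d), (2 : ℝ) ≤ q := by
    intro q hq
    rw [Finset.mem_filter, pz, Finset.mem_filter] at hq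
    exact_mod_cast hq.1.2.two_le
  constructor
  · unfold hh
    refine Finset.one_le_prod (fun q hq => ?_)
    have h2 := hq2 q hq
    have h3 : (0 : ℝ) < 1 - 1 / q := by
      have : (1 : ℝ) / q ≤ 1 / 2 := one_div_le_one_div_of_le (by norm_num) h2
      linarith
    rw [one_le_inv₀ h3]
    have : (0 : ℝ) ≤ 1 / q := by positivity
    linarith
  · unfold hh HH
    rw [← Finset.prod_pow]
    have hsub : (pz z).filter (fun q => q ∣ d) ⊆ d.primeFactors := by
      intro q hq
      rw [Finset.mem_filter, pz, Finset.mem_filter] at hq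
      exact Nat.mem_primeFactors.2 ⟨hq.1.2, hq.2, hd⟩
    refine le_trans (Finset.prod_le_prod (g := fun q : ℕ => 1 + 30 / (q : ℝ)) ?_ ?_)
      (Finset.prod_le_prod_of_subset_of_one_le hsub ?_ ?_)
    · intro q _
      positivity
    · intro q hq
      have h2 := hq2 q hq
      have h4 : (1 : ℝ) / q ≤ 1 / 2 := one_div_le_one_div_of_le (by norm_num) h2
      have h5 : (0 : ℝ) ≤ 1 / q := by positivity
      have h6 : (30 : ℝ) / q = 30 * (1 / q) := by ring
      rw [h6]
      generalize (1 : ℝ) / q = x at h4 h5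
      have h7 : 0 < 1 - x := by linarith
      rw [inv_pow, inv_le_iff_one_le_mul₀ (by positivity)]
      have h8 : (1 + 30 * x) * (1 - x) ^ 4 - 1 =
          x * ((1 - 2 * x) * (26 - 62 * x + 52 * x ^ 2 - 15 * x ^ 3)) := by ring
      have h9 : 0 ≤ 26 - 62 * x + 52 * x ^ 2 - 15 * x ^ 3 := by
        nlinarith [mul_nonneg h5 h5, mul_nonneg h5 (by linarith : 0 ≤ 1 / 2 - x),
          mul_nonneg (mul_nonneg h5 h5) (by linarith : 0 ≤ 1 / 2 - x), sq_nonneg (x - 1 / 2)]
      have h10 : 0 ≤ x * ((1 - 2 * x) * (26 - 62 * x + 52 * x ^ 2 - 15 * x ^ 3)) :=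
        mul_nonneg h5 (mul_nonneg (by linarith) h9)
      nlinarith
    · intro q _
      positivity
    · intro q _ _
      have : (0 : ℝ) ≤ 30 / q := by positivity
      linarith

/-- HSM (f): crude bound, `30 ≤ q^5`. -/
theorem gg_crude (E : ℕ) : ∑ e ∈ Finset.Icc 1 E, gg e * e ≤ (E : ℝ) ^ 6 := by
  have h1 : ∀ e ∈ Finset.Icc 1 E, gg e * e ≤ (E : ℝ) ^ 5 := by
    intro e he
    rw [Finset.mem_Icc] at he
    unfold gg
    split_ifs with hs
    · have h2 : (e : ℝ) = ∏ q ∈ e.primeFactors, (q : ℝ) := by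
        conv_lhs => rw [← Nat.prod_primeFactors_of_squarefree hs]
        rw [Nat.cast_prod]
      have h3 : (∏ q ∈ e.primeFactors, (30 / (q : ℝ))) * e = ∏ q ∈ e.primeFactors, (30 : ℝ) := by
        conv_lhs => rw [h2]
        rw [← Finset.prod_mul_distrib]
        refine Finset.prod_congr rfl (fun q hq => ?_)
        have : (q : ℝ) ≠ 0 := by
          exact_mod_cast (Nat.prime_of_mem_primeFactors hq).ne_zero
        field_simp
      rw [h3]
      calc ∏ q ∈ e.primeFactors, (30 : ℝ) ≤ ∏ q ∈ e.primeFactors, (q : ℝ) ^ 5 := by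
            refine Finset.prod_le_prod (fun _ _ => by norm_num) (fun q hq => ?_)
            have h4 : (2 : ℝ) ≤ q := by
              exact_mod_cast (Nat.prime_of_mem_primeFactors hq).two_le
            calc (30 : ℝ) ≤ 2 ^ 5 := by norm_num
              _ ≤ (q : ℝ) ^ 5 := pow_le_pow_left₀ (by norm_num) h4 5
        _ = (e : ℝ) ^ 5 := by
            rw [Finset.prod_pow, ← h2]
        _ ≤ (E : ℝ) ^ 5 := by
            have : (e : ℝ) ≤ E := by exact_mod_cast he.2
            exact pow_le_pow_left₀ (Nat.cast_nonneg _) this 5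
    · rw [zero_mul]
      positivity
  calc ∑ e ∈ Finset.Icc 1 E, gg e * e ≤ ∑ e ∈ Finset.Icc 1 E, (E : ℝ) ^ 5 :=
        Finset.sum_le_sum h1
    _ = (E : ℝ) ^ 6 := by
        rw [Finset.sum_const, Nat.card_Icc, nsmul_eq_mul]
        simp only [Nat.add_sub_cancel]
        ring

end Pool.Agent.TFC
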