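import Pool.Agent.TFC.ZPRA

set_option autoImplicit false

namespace Pool.Agent.TFC

open Finset Filter

theorem kapb_card (x : ℕ) (hL : 1 ≤ Real.log x) :
    ((DD x).card : ℝ) ≤ x / (Real.log x) ^ 60 := by
  have hpos : (0 : ℝ) < (Real.log x) ^ 60 := by positivity
  have hsub : DD x ⊆ Finset.Icc 1 ⌊(x : ℝ) / (Real.log x) ^ 60⌋₊ := by
    intro p hp
    simp only [DD, Finset.mem_filter, Finset.mem_Icc] at hp
    rw [Finset.mem_Icc]
    refine ⟨hp.1.1, Nat.le_floor ?_⟩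
    rw [le_div_iff₀ hpos]
    linarith [hp.2.2.2, mul_comm ((Real.log x) ^ 60) (p : ℝ)]
  have h1 : (DD x).card ≤ ⌊(x : ℝ) / (Real.log x) ^ 60⌋₊ := by
    simpa using Finset.card_le_card hsub
  calc ((DD x).card : ℝ) ≤ (⌊(x : ℝ) / (Real.log x) ^ 60⌋₊ : ℝ) := by exact_mod_cast h1
    _ ≤ x / (Real.log x) ^ 60 := Nat.floor_le (by positivity)

/-- at most one element of `DD x` divides a positive `n ≤ x` -/
theorem kapb_one (x n : ℕ) (h8 : (zz x) ^ 8 ≤ x) (hz : 100 ≤ zz x) (hn : 1 ≤ n) (hnx : n ≤ x) :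
    ((DD x).filter (fun p => p ∣ n)).card ≤ 1 := by
  rw [Finset.card_le_one]
  intro p hp r hr
  simp only [DD, Finset.mem_filter, Finset.mem_Icc] at hp hr
  by_contra hne
  have hcop : Nat.Coprime p r := (Nat.coprime_primes hp.1.2.1 hr.1.2.1).2 hne
  have hdvd : p * r ∣ n := Nat.Coprime.mul_dvd_of_dvd_of_dvd hcop hp.2 hr.2
  have hle : p * r ≤ n := Nat.le_of_dvd hn hdvd
  have hp2 := hp.1.2.2.1
  have hr2 := hr.1.2.2.1
  have hz2 : (zz x) ^ 2 ≤ (zz x) ^ 8 := Nat.pow_le_pow_right (by omega) (by norm_num)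
  have hx : 0 < x := by omega
  have h1 : x * x < (zz x * p) * (zz x * r) := Nat.mul_lt_mul'' hp2 hr2
  have h2 : (zz x * p) * (zz x * r) = (zz x) ^ 2 * (p * r) := by ring
  have h3 : (zz x) ^ 2 * (p * r) ≤ x * x := Nat.mul_le_mul (hz2.trans h8) (hle.trans hnx)
  omega

/-- `κ x - |D| ≤ ∑_{n ≤ x} ff ≤ x` with `|D| ≤ x/(log x)^60`. -/
theorem kap_upper : ∀ᶠ x : ℕ in atTop, kap (DD x) ≤ 2 ∧ ((DD x).card : ℝ) ≤ x / (Real.log x) ^ 60 := by
  filter_upwards [zz_size, eventually_ge_atTop 3] with x hx hx3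
  obtain ⟨_, h8, hz⟩ := hx
  have hxr : (3 : ℝ) ≤ x := by exact_mod_cast hx3
  have hL : 1 ≤ Real.log x := by
    rw [Real.le_log_iff_exp_le (by linarith)]
    exact Real.exp_one_lt_three.le.trans hxr
  have hc := kapb_card x hL
  refine ⟨?_, hc⟩
  have hcx : ((DD x).card : ℝ) ≤ x := by
    refine hc.trans (div_le_self (by linarith) ?_)
    exact one_le_pow₀ hL
  -- double counting
  have hsum : ∑ p ∈ DD x, x / p ≤ x := by
    have e1 : ∀ p ∈ DD x, x / p = ((Finset.Ioc 0 x).filter (fun n => p ∣ n)).card := by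
      intro p hp
      rw [Nat.Ioc_filter_dvd_card_eq_div]
    rw [Finset.sum_congr rfl e1]
    have e2 := Finset.sum_card_bipartiteAbove_eq_sum_card_bipartiteBelow
      (s := DD x) (t := Finset.Ioc 0 x) (fun p n => p ∣ n)
    simp only [Finset.bipartiteAbove, Finset.bipartiteBelow] at e2
    rw [e2]
    calc ∑ n ∈ Finset.Ioc 0 x, ((DD x).filter (fun p => p ∣ n)).card
        ≤ ∑ n ∈ Finset.Ioc 0 x, 1 := by
          refine Finset.sum_le_sum ?_
          intro n hn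
          rw [Finset.mem_Ioc] at hn
          exact kapb_one x n h8 hz hn.1 hn.2
      _ = x := by simp
  have hterm : ∀ p ∈ DD x, (1 : ℝ) / p * x - 1 ≤ ((x / p : ℕ) : ℝ) := by
    intro p hp
    have h := Nat.lt_floor_add_one ((x : ℝ) / (p : ℝ))
    rw [Nat.floor_div_eq_div] at h
    have : (1 : ℝ) / p * x = (x : ℝ) / p := by ring
    rw [this]; linarith
  have h2 : kap (DD x) * x - (DD x).card ≤ x := by
    calc kap (DD x) * x - (DD x).card = ∑ p ∈ DD x, ((1 : ℝ) / p * x - 1) := by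
          rw [Finset.sum_sub_distrib, kap, Finset.sum_mul]; simp
      _ ≤ ∑ p ∈ DD x, ((x / p : ℕ) : ℝ) := Finset.sum_le_sum hterm
      _ ≤ x := by exact_mod_cast hsum
  have h3 : kap (DD x) * x ≤ 2 * x := by linarith
  exact le_of_mul_le_mul_right h3 (by linarith)

end Pool.Agent.TFC
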