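import Pool.Agent.TFC.CNV
import Pool.Agent.TFC.CNT

set_option autoImplicit false

namespace Pool.Agent.TFC

open Finset

/-- `ff` summed over `[1,y]` -/
theorem ltm_ff_sum {D : Finset ℕ} {x E : ℕ} {S : ℝ} (h : Good D x E S) (hE : 1 ≤ E) (y : ℕ)
    (hy : y ≤ x) : |∑ n ∈ Finset.Icc (1 : ℤ) y, ff D x n - kap D * y| ≤ D.card := by
  have h1 := ff_class h 1 le_rfl hE 0 y hy
  have h2 : (Finset.Icc (1 : ℤ) y).filter (fun n => ((1 : ℕ) : ℤ) ∣ n - 0) = Finset.Icc (1 : ℤ) y := by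
    apply Finset.filter_true_of_mem
    intro n _
    simp
  rw [h2] at h1
  simpa using h1

/-- `f0` summed over `[1,y]` -/
theorem ltm_f0_sum {D : Finset ℕ} {x E : ℕ} {S : ℝ} (h : Good D x E S) (hE : 1 ≤ E) (y : ℕ)
    (hy : y ≤ x) : |∑ n ∈ Finset.Icc (1 : ℤ) y, f0 D x n| ≤ D.card + 2 := by
  have h1 := f0_class h 1 le_rfl hE 0 y hy
  have h2 : (Finset.Icc (1 : ℤ) y).filter (fun n => ((1 : ℕ) : ℤ) ∣ n - 0) = Finset.Icc (1 : ℤ) y := by
    apply Finset.filter_true_of_mem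
    intro n _
    simp
  rw [h2] at h1
  simpa using h1

theorem ltm_ff_shift (D : Finset ℕ) (x : ℕ) (d : ℤ) (hd : 0 ≤ d) :
    ∑ n ∈ Finset.Icc (1 : ℤ) x, ff D x (n + d) =
      ∑ n ∈ Finset.Icc (1 : ℤ) x, ff D x n - ∑ n ∈ Finset.Icc (1 : ℤ) (min d x), ff D x n := by
  have h0 : ∑ n ∈ Finset.Icc (1 : ℤ) x, ff D x (n + d) = ∑ m ∈ Finset.Icc (1 + d) (x + d), ff D x m := by
    rw [← Finset.map_add_right_Icc, Finset.sum_map]
    rfl
  rw [h0]
  by_cases hdx : d ≤ x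
  · rw [min_eq_left hdx]
    have h1 : Finset.Icc (1 : ℤ) x = Finset.Icc (1 : ℤ) d ∪ Finset.Icc (1 + d) x := by
      ext n
      simp only [mem_Icc, mem_union]
      omega
    have hdis : Disjoint (Finset.Icc (1 : ℤ) d) (Finset.Icc (1 + d) x) := by
      rw [Finset.disjoint_left]
      intro n hn hn'
      simp only [mem_Icc] at hn hn'
      omega
    rw [h1, Finset.sum_union hdis, add_sub_cancel_left]
    have h2 : Finset.Icc (1 + d) ((x : ℤ) + d) = Finset.Icc (1 + d) x ∪ Finset.Icc ((x : ℤ) + 1) (x + d) := by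
      ext n
      simp only [mem_Icc, mem_union]
      omega
    have hdis2 : Disjoint (Finset.Icc (1 + d) (x : ℤ)) (Finset.Icc ((x : ℤ) + 1) (x + d)) := by
      rw [Finset.disjoint_left]
      intro n hn hn'
      simp only [mem_Icc] at hn hn'
      omega
    rw [h2, Finset.sum_union hdis2]
    have h3 : ∑ n ∈ Finset.Icc ((x : ℤ) + 1) (x + d), ff D x n = 0 := by
      apply Finset.sum_eq_zero
      intro n hn
      simp only [mem_Icc] at hn
      unfold ff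
      rw [if_neg]
      rintro ⟨_, h⟩
      omega
    rw [h3, add_zero]
  · rw [min_eq_right (by omega), sub_self]
    apply Finset.sum_eq_zero
    intro n hn
    simp only [mem_Icc] at hn
    unfold ff
    rw [if_neg]
    rintro ⟨_, h⟩
    omega

/-- one prime -/
theorem ltm_one {D : Finset ℕ} {x E : ℕ} {S : ℝ} (h : Good D x E S) (hE : 1 ≤ E) (p : ℕ)
    (hp : 1 ≤ p) (hpx : 4 * p ≤ x) :
    kap D ^ 2 * x / 2 - 16 * (D.card + 1) + ∑ n ∈ Finset.Icc (1 : ℤ) x, f0 D x n * f0 D x (n + 2 * p) ≤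
      ∑ n ∈ Finset.Icc (1 : ℤ) x, ff D x n * ff D x (n + 2 * p) := by
  -- `ff(n) = κ + f0(n)` on `[1,x]`
  have hkey : ∑ n ∈ Finset.Icc (1 : ℤ) x, ff D x n * ff D x (n + 2 * p) =
      kap D * ∑ n ∈ Finset.Icc (1 : ℤ) x, ff D x (n + 2 * p) +
      (kap D * ∑ n ∈ Finset.Icc (1 : ℤ) ((x - 2 * p : ℕ) : ℤ), f0 D x n +
      ∑ n ∈ Finset.Icc (1 : ℤ) x, f0 D x n * f0 D x (n + 2 * p)) := by
    have h1 : ∑ n ∈ Finset.Icc (1 : ℤ) ((x - 2 * p : ℕ) : ℤ), f0 D x n =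
        ∑ n ∈ Finset.Icc (1 : ℤ) x, if n ≤ ((x - 2 * p : ℕ) : ℤ) then f0 D x n else 0 := by
      rw [← Finset.sum_filter]
      congr 1
      ext n
      simp only [mem_Icc, mem_filter]
      omega
    rw [h1, Finset.mul_sum, Finset.mul_sum, ← Finset.sum_add_distrib, ← Finset.sum_add_distrib]
    refine Finset.sum_congr rfl (fun n hn => ?_)
    simp only [mem_Icc] at hn
    have e1 : ff D x n = kap D + f0 D x n := by
      rw [cnt_f0_eq hn.1 hn.2]; ring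
    by_cases hle : n ≤ ((x - 2 * p : ℕ) : ℤ)
    · rw [if_pos hle]
      have e2 : ff D x (n + 2 * p) = kap D + f0 D x (n + 2 * p) := by
        rw [cnt_f0_eq (by omega) (by omega)]; ring
      rw [e1, e2]
      ring
    · rw [if_neg hle]
      have e2 : ff D x (n + 2 * p) = 0 := by
        unfold ff
        rw [if_neg]
        rintro ⟨_, h⟩
        omega
      have e3 : f0 D x (n + 2 * p) = 0 := by
        unfold f0
        rw [if_neg]
        rintro ⟨_, h⟩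
        omega
      rw [e2, e3]
      ring
  rw [hkey]
  have hk0 := cnt_kap_nonneg D
  have hk2 := h.kle
  -- first sum
  have h2 : kap D * (x / 2) - 2 * D.card ≤ ∑ n ∈ Finset.Icc (1 : ℤ) x, ff D x (n + 2 * p) := by
    rw [ltm_ff_shift D x (2 * p) (by positivity)]
    have hmin : min (2 * (p : ℤ)) (x : ℤ) = ((2 * p : ℕ) : ℤ) := by
      rw [min_eq_left (by omega)]
      push_cast
      ring
    rw [hmin]
    have a1 := abs_le.1 (ltm_ff_sum h hE x le_rfl)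
    have a2 := abs_le.1 (ltm_ff_sum h hE (2 * p) (by omega))
    have a3 : kap D * ((2 * p : ℕ) : ℝ) ≤ kap D * (x / 2) := by
      apply mul_le_mul_of_nonneg_left _ hk0
      have : (4 * p : ℝ) ≤ x := by exact_mod_cast hpx
      push_cast
      linarith
    have a4 : kap D * (x / 2) = kap D * x - kap D * (x / 2) := by ring
    linarith [a1.1, a2.2]
  have h3 : -(D.card + 2 : ℝ) ≤ ∑ n ∈ Finset.Icc (1 : ℤ) ((x - 2 * p : ℕ) : ℤ), f0 D x n :=
    (abs_le.1 (ltm_f0_sum h hE (x - 2 * p) (by omega))).1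
  have h4 : kap D * (kap D * (x / 2) - 2 * D.card) ≤ kap D * ∑ n ∈ Finset.Icc (1 : ℤ) x, ff D x (n + 2 * p) :=
    mul_le_mul_of_nonneg_left h2 hk0
  have h5 : kap D * (-(D.card + 2 : ℝ)) ≤ kap D * ∑ n ∈ Finset.Icc (1 : ℤ) ((x - 2 * p : ℕ) : ℤ), f0 D x n :=
    mul_le_mul_of_nonneg_left h3 hk0
  have hD0 : (0 : ℝ) ≤ D.card := Nat.cast_nonneg _
  have h6 : kap D * (2 * D.card) ≤ 2 * (2 * D.card) := mul_le_mul_of_nonneg_right hk2 (by linarith)
  have h7 : kap D * (D.card + 2 : ℝ) ≤ 2 * (D.card + 2) := mul_le_mul_of_nonneg_right hk2 (by linarith)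
  have h8 : kap D * (kap D * (x / 2) - 2 * D.card) = kap D ^ 2 * x / 2 - kap D * (2 * D.card) := by ring
  have h9 : kap D * (-(D.card + 2 : ℝ)) = - (kap D * (D.card + 2 : ℝ)) := by ring
  rw [h8] at h4
  rw [h9] at h5
  linarith

/-- LTM. Lower bound for the number of pairs `n, n+2p` of multiples of elements of `D`.
For one `p`: `∑_n ff(n) ff(n+2p) = κ ∑_{n ∈ [1,x]} ff(n+2p) + κ ∑_{n ∈ [1,x-2p]} f0(n) + R(p)`,
`R(p) = ∑_n f0(n) f0(n+2p)`; the first sum is `∑_{m ∈ [2p+1,x]} ff(m) ≥ κ(x-2p) - |D|`, the second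
`≥ -|D|` (`ff_class`, `f0_class` with `e = 1` give this up to a bounded factor, which is all that is
needed), and `∑_p |R(p)| ≤ √|P| (∑_p R(p)²)^(1/2) ≤ √|P| S (4x)^(1/2)` by `conv_bound`. -/
theorem LT {D : Finset ℕ} {x E : ℕ} {S : ℝ} (h : Good D x E S) (hE : 1 ≤ E) (P : Finset ℕ)
    (hP : ∀ p ∈ P, 1 ≤ p ∧ 4 * p ≤ x) :
    (P.card : ℝ) * (kap D ^ 2 * x / 2 - 16 * (D.card + 1)) - 2 * S * Real.sqrt (P.card * x) ≤
      ∑ p ∈ P, ∑ n ∈ Finset.Icc (1 : ℤ) x, ff D x n * ff D x (n + 2 * p) := by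
  set R : ℕ → ℝ := fun p => ∑ n ∈ Finset.Icc (1 : ℤ) x, f0 D x n * f0 D x (n + 2 * p) with hR
  have h1 : ∑ p ∈ P, (kap D ^ 2 * x / 2 - 16 * (D.card + 1) + R p) ≤
      ∑ p ∈ P, ∑ n ∈ Finset.Icc (1 : ℤ) x, ff D x n * ff D x (n + 2 * p) :=
    Finset.sum_le_sum (fun p hp => ltm_one h hE p (hP p hp).1 (hP p hp).2)
  rw [Finset.sum_add_distrib, Finset.sum_const, nsmul_eq_mul] at h1
  -- the error
  have h2 : ∑ p ∈ P, R p ^ 2 ≤ S ^ 2 * (4 * x) := by
    have h3 := conv_bound x (f0 D x) (by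
      intro n hn
      unfold f0
      rw [if_neg]
      rintro ⟨h1, h2⟩
      omega) S h.sup (P.image (fun p : ℕ => 2 * (p : ℤ))) (Finset.Icc (1 : ℤ) x) (f0 D x)
    rw [Finset.sum_image (by
      intro a _ b _ hab
      simp only at hab
      omega)] at h3
    refine h3.trans ?_
    apply mul_le_mul_of_nonneg_left _ (sq_nonneg S)
    calc ∑ m ∈ Finset.Icc (1 : ℤ) x, f0 D x m ^ 2 ≤ ∑ m ∈ Finset.Icc (1 : ℤ) x, (4 : ℝ) := by
          apply Finset.sum_le_sum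
          intro m _
          have h4 := f0_abs_le h m
          have h5 : f0 D x m ^ 2 = |f0 D x m| ^ 2 := (sq_abs _).symm
          rw [h5]
          nlinarith [abs_nonneg (f0 D x m)]
      _ = 4 * x := by
          rw [Finset.sum_const, nsmul_eq_mul]
          simp
          ring
  have h3 : |∑ p ∈ P, R p| ≤ 2 * S * Real.sqrt (P.card * x) := by
    apply abs_le_of_sq_le_sq
    · have hcs : (∑ p ∈ P, R p) ^ 2 ≤ (P.card : ℝ) * ∑ p ∈ P, R p ^ 2 := by
        exact sq_sum_le_card_mul_sum_sq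
      calc (∑ p ∈ P, R p) ^ 2 ≤ (P.card : ℝ) * ∑ p ∈ P, R p ^ 2 := hcs
        _ ≤ (P.card : ℝ) * (S ^ 2 * (4 * x)) := mul_le_mul_of_nonneg_left h2 (Nat.cast_nonneg _)
        _ = (2 * S * Real.sqrt (P.card * x)) ^ 2 := by
            rw [mul_pow, Real.sq_sqrt (by positivity)]
            ring
    · have := h.snn
      positivity
  have h4 := neg_le_of_abs_le h3
  linarith

end Pool.Agent.TFC
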