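import Pool.Agent.TFC.CNV
import Pool.Agent.TFC.CNT

set_option autoImplicit false

namespace Pool.Agent.TFC

open Finset

/-- the classes modulo `e` partition the integers -/
theorem lxc_part (e : ℕ) (he : 1 ≤ e) (s : Finset ℤ) (g : ℤ → ℝ) :
    ∑ b ∈ Finset.range e, ∑ n ∈ s.filter (fun n => (e : ℤ) ∣ n - b), g n = ∑ n ∈ s, g n := by
  have he0 : (0 : ℤ) < e := by exact_mod_cast he
  rw [← Finset.sum_fiberwise_of_maps_to (s := s) (t := Finset.range e)
    (g := fun n : ℤ => (n % e).toNat) (fun n _ => by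
      rw [Finset.mem_range]
      have h1 := Int.emod_nonneg n he0.ne'
      have h2 := Int.emod_lt_of_pos n he0
      omega) g]
  refine Finset.sum_congr rfl fun b hb => ?_
  rw [Finset.mem_range] at hb
  refine Finset.sum_congr (Finset.filter_congr fun n _ => ?_) fun _ _ => rfl
  have h1 := Int.emod_nonneg n he0.ne'
  have h2 := Int.emod_lt_of_pos n he0
  constructor
  · intro h
    have h3 : n % (e : ℤ) = (b : ℤ) % e := (Int.modEq_iff_dvd.2 h).symm
    rw [Int.emod_eq_of_lt (by omega) (by omega : (b : ℤ) < e)] at h3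
    omega
  · intro h
    have h3 : n % (e : ℤ) = b := by omega
    have h4 := Int.emod_add_mul_ediv n e
    rw [h3] at h4
    exact ⟨n / e, by linarith⟩

/-- upper bound for one class -/
theorem lxc_one {D : Finset ℕ} {x E : ℕ} {S : ℝ} (h : Good D x E S) {p : ℕ} (hp : 2 * p ≤ x)
    {e : ℕ} (he : 1 ≤ e) (heE : e ≤ E) (b : ℤ) :
    ∑ n ∈ (Finset.Icc (1 : ℤ) x).filter (fun n => (e : ℤ) ∣ n - b),
        ff D x n * ff D x (n + 2 * p) ≤
      kap D ^ 2 * x / e + 4 * (D.card + 1) +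
      ∑ n ∈ (Finset.Icc (1 : ℤ) x).filter (fun n => (e : ℤ) ∣ n - b),
        f0 D x n * f0 D x (n + 2 * p) := by
  have hk0 : 0 ≤ kap D := Finset.sum_nonneg fun p _ => by positivity
  have hk2 := h.kle
  have hff : ∀ n : ℤ, ff D x n = (if 1 ≤ n ∧ n ≤ x then kap D else 0) + f0 D x n := by
    intro n
    unfold ff f0
    split_ifs <;> ring
  set A := (Finset.Icc (1 : ℤ) x).filter (fun n => (e : ℤ) ∣ n - b) with hA
  -- decomposition
  have h1 : ∑ n ∈ A, ff D x n * ff D x (n + 2 * p) =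
      kap D * ∑ n ∈ A, ff D x (n + 2 * p) +
      kap D * ∑ n ∈ A.filter (fun n : ℤ => n + 2 * p ≤ x), f0 D x n +
      ∑ n ∈ A, f0 D x n * f0 D x (n + 2 * p) := by
    rw [Finset.mul_sum, Finset.mul_sum, Finset.sum_filter (s := A), ← Finset.sum_add_distrib,
      ← Finset.sum_add_distrib]
    refine Finset.sum_congr rfl fun n hn => ?_
    rw [hA, Finset.mem_filter, Finset.mem_Icc] at hn
    have e1 := hff n
    rw [if_pos hn.1] at e1
    have e2 := hff (n + 2 * p)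
    have hn1 := hn.1.1
    by_cases hc : n + 2 * p ≤ x
    · rw [if_pos ⟨by omega, hc⟩] at e2
      rw [if_pos hc, e1, e2]; ring
    · rw [if_neg (fun hh => hc hh.2)] at e2
      rw [if_neg hc, e1, e2]; ring
  -- first sum
  have h2 : ∑ n ∈ A, ff D x (n + 2 * p) ≤ kap D * x / e + D.card := by
    have h3 := ff_class h e he heE (b + 2 * p) x le_rfl
    have h4 : ∑ n ∈ A, ff D x (n + 2 * p) ≤
        ∑ n ∈ (Finset.Icc (1 : ℤ) x).filter (fun n => (e : ℤ) ∣ n - (b + 2 * p)), ff D x n := by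
      have h5 : ∑ n ∈ A, ff D x (n + 2 * p) =
          ∑ n ∈ A.filter (fun n : ℤ => n + 2 * p ≤ x), ff D x (n + 2 * p) := by
        rw [Finset.sum_filter (s := A)]
        refine Finset.sum_congr rfl fun n _ => ?_
        split_ifs with hc
        · rfl
        · unfold ff
          rw [if_neg (fun hh => hc hh.2)]
      rw [h5, ← Finset.sum_image (f := fun n => ff D x n) (g := fun n : ℤ => n + 2 * p)
        (by intro a _ b _ hab; simpa using hab)]
      refine Finset.sum_le_sum_of_subset_of_nonneg ?_ fun n _ _ => (ff_le_one h n).1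
      intro m hm
      rw [Finset.mem_image] at hm
      obtain ⟨n, hn, rfl⟩ := hm
      rw [Finset.mem_filter, hA, Finset.mem_filter, Finset.mem_Icc] at hn
      rw [Finset.mem_filter, Finset.mem_Icc]
      refine ⟨⟨by omega, hn.2⟩, ?_⟩
      have : n + 2 * (p : ℤ) - (b + 2 * p) = n - b := by ring
      rw [this]
      exact hn.1.2
    have h6 := (abs_le.mp h3).2
    linarith
  -- second sum
  have h3 : ∑ n ∈ A.filter (fun n : ℤ => n + 2 * p ≤ x), f0 D x n ≤ D.card + 2 := by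
    have h4 := f0_class h e he heE b (x - 2 * p) (by omega)
    have h5 : A.filter (fun n : ℤ => n + 2 * p ≤ x) =
        (Finset.Icc (1 : ℤ) ((x - 2 * p : ℕ) : ℤ)).filter (fun n => (e : ℤ) ∣ n - b) := by
      ext n
      rw [hA, Finset.mem_filter, Finset.mem_filter, Finset.mem_filter, Finset.mem_Icc,
        Finset.mem_Icc]
      constructor
      · rintro ⟨⟨⟨a1, a2⟩, a3⟩, a4⟩
        exact ⟨⟨a1, by omega⟩, a3⟩
      · rintro ⟨⟨a1, a2⟩, a3⟩
        exact ⟨⟨⟨a1, by omega⟩, a3⟩, by omega⟩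
    rw [h5]
    exact (abs_le.mp h4).2
  rw [h1]
  have hD : (0 : ℝ) ≤ D.card := Nat.cast_nonneg _
  have h4 : kap D * ∑ n ∈ A, ff D x (n + 2 * p) ≤ kap D * (kap D * x / e + D.card) :=
    mul_le_mul_of_nonneg_left h2 hk0
  have h5 : kap D * ∑ n ∈ A.filter (fun n : ℤ => n + 2 * p ≤ x), f0 D x n ≤
      kap D * (D.card + 2) := mul_le_mul_of_nonneg_left h3 hk0
  have h6 : kap D * D.card ≤ 2 * D.card := mul_le_mul_of_nonneg_right hk2 hD
  have h7 : kap D * (D.card + 2) ≤ 2 * (D.card + 2) :=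
    mul_le_mul_of_nonneg_right hk2 (by linarith)
  have h8 : kap D * (kap D * x / e + D.card) = kap D ^ 2 * x / e + kap D * D.card := by ring
  linarith

/-- LXM (a): for `e ≤ E` and the classes `b mod e`,
`A_b(p) = ∑_{n ≡ b (e)} ff(n) ff(n+2p) ≤ κ² x/e + 4(|D|+3) + |R_b(p)|`,
`R_b(p) = ∑_{n ≡ b (e)} f0(n) f0(n+2p)`, `∑_p ∑_b R_b(p)² ≤ S² ∑_n f0(n)² ≤ 4 S² x` (`conv_bound` with
`a = f0` on the class `b`, then the classes partition `[1,x]`). -/
theorem LX_class : ∃ C : ℝ, 0 < C ∧ ∀ (D : Finset ℕ) (x E : ℕ) (S : ℝ), Good D x E S → 1 ≤ E →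
    ∀ P : Finset ℕ, (∀ p ∈ P, 1 ≤ p ∧ 2 * p ≤ x) → ∀ e : ℕ, 1 ≤ e → e ≤ E →
    ∑ p ∈ P, ∑ b ∈ Finset.range e,
      (∑ n ∈ (Finset.Icc (1 : ℤ) x).filter (fun n => (e : ℤ) ∣ n - b),
        ff D x n * ff D x (n + 2 * p)) ^ 2 ≤
      C * (P.card * kap D ^ 4 * x ^ 2 / e + e * P.card * (D.card + 1) ^ 2 + S ^ 2 * x) := by
  refine ⟨48, by norm_num, fun D x E S h hE P hP e he heE => ?_⟩
  have he0 : (0 : ℝ) < e := by exact_mod_cast he
  set R : ℕ → ℕ → ℝ := fun b p => ∑ n ∈ (Finset.Icc (1 : ℤ) x).filter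
    (fun n => (e : ℤ) ∣ n - b), f0 D x n * f0 D x (n + 2 * p) with hR
  have hone : ∀ p ∈ P, ∀ b ∈ Finset.range e,
      (∑ n ∈ (Finset.Icc (1 : ℤ) x).filter (fun n => (e : ℤ) ∣ n - b),
        ff D x n * ff D x (n + 2 * p)) ^ 2 ≤
      3 * ((kap D ^ 2 * x / e) ^ 2 + 16 * (D.card + 1) ^ 2 + R b p ^ 2) := by
    intro p hp b _
    have h1 := lxc_one h (hP p hp).2 he heE (b : ℤ)
    have h0 : 0 ≤ ∑ n ∈ (Finset.Icc (1 : ℤ) x).filter (fun n => (e : ℤ) ∣ n - b),
        ff D x n * ff D x (n + 2 * p) := Finset.sum_nonneg fun n _ =>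
      mul_nonneg (ff_le_one h n).1 (ff_le_one h _).1
    have h2 := pow_le_pow_left₀ h0 h1 2
    refine h2.trans ?_
    rw [hR]
    simp only
    set u := kap D ^ 2 * x / e
    set v := (D.card : ℝ) + 1
    set r := ∑ n ∈ (Finset.Icc (1 : ℤ) x).filter (fun n => (e : ℤ) ∣ n - b),
      f0 D x n * f0 D x (n + 2 * p)
    nlinarith [sq_nonneg (u - 4 * v), sq_nonneg (u - r), sq_nonneg (4 * v - r)]
  -- the error terms
  have hRb : ∀ b : ℕ, ∑ p ∈ P, R b p ^ 2 ≤ S ^ 2 *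
      ∑ n ∈ (Finset.Icc (1 : ℤ) x).filter (fun n => (e : ℤ) ∣ n - b), f0 D x n ^ 2 := by
    intro b
    have h1 := conv_bound x (f0 D x) (by
      intro n hn
      unfold f0
      rw [if_neg (by omega)]) S h.sup (P.image fun p : ℕ => (2 * p : ℤ))
      ((Finset.Icc (1 : ℤ) x).filter (fun n => (e : ℤ) ∣ n - b)) (f0 D x)
    rw [Finset.sum_image (by
      intro a _ c _ hac
      have hac' : (2 * (a : ℤ)) = 2 * c := hac
      omega)] at h1
    exact h1
  have hRtot : ∑ p ∈ P, ∑ b ∈ Finset.range e, R b p ^ 2 ≤ 4 * S ^ 2 * x := by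
    rw [Finset.sum_comm]
    calc ∑ b ∈ Finset.range e, ∑ p ∈ P, R b p ^ 2
        ≤ ∑ b ∈ Finset.range e, S ^ 2 *
          ∑ n ∈ (Finset.Icc (1 : ℤ) x).filter (fun n => (e : ℤ) ∣ n - b), f0 D x n ^ 2 :=
          Finset.sum_le_sum fun b _ => hRb b
      _ = S ^ 2 * ∑ n ∈ Finset.Icc (1 : ℤ) x, f0 D x n ^ 2 := by
          rw [← Finset.mul_sum, lxc_part e he]
      _ ≤ S ^ 2 * ∑ _n ∈ Finset.Icc (1 : ℤ) x, 4 := by
          refine mul_le_mul_of_nonneg_left (Finset.sum_le_sum fun n _ => ?_) (sq_nonneg _)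
          have h1 := f0_abs_le h n
          have h2 := abs_le.mp h1
          nlinarith
      _ = 4 * S ^ 2 * x := by
          rw [Finset.sum_const, Int.card_Icc, nsmul_eq_mul]
          have : ((x : ℤ) + 1 - 1).toNat = x := by omega
          rw [this]; ring
  calc ∑ p ∈ P, ∑ b ∈ Finset.range e,
      (∑ n ∈ (Finset.Icc (1 : ℤ) x).filter (fun n => (e : ℤ) ∣ n - b),
        ff D x n * ff D x (n + 2 * p)) ^ 2
      ≤ ∑ p ∈ P, ∑ b ∈ Finset.range e,
        3 * ((kap D ^ 2 * x / e) ^ 2 + 16 * (D.card + 1) ^ 2 + R b p ^ 2) :=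
        Finset.sum_le_sum fun p hp => Finset.sum_le_sum fun b hb => hone p hp b hb
    _ = 3 * (P.card * (e * ((kap D ^ 2 * x / e) ^ 2 + 16 * (D.card + 1) ^ 2))) +
        3 * ∑ p ∈ P, ∑ b ∈ Finset.range e, R b p ^ 2 := by
        rw [Finset.mul_sum]
        have : ∀ p ∈ P, ∑ b ∈ Finset.range e,
            3 * ((kap D ^ 2 * x / e) ^ 2 + 16 * (D.card + 1) ^ 2 + R b p ^ 2) =
            3 * (e * ((kap D ^ 2 * x / e) ^ 2 + 16 * (D.card + 1) ^ 2)) +
              3 * ∑ b ∈ Finset.range e, R b p ^ 2 := by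
          intro p _
          rw [← Finset.mul_sum, Finset.sum_add_distrib, Finset.sum_const, Finset.card_range,
            nsmul_eq_mul]
          ring
        rw [Finset.sum_congr rfl this, Finset.sum_add_distrib, Finset.sum_const, nsmul_eq_mul]
        ring
    _ ≤ 3 * (P.card * (e * ((kap D ^ 2 * x / e) ^ 2 + 16 * (D.card + 1) ^ 2))) +
        3 * (4 * S ^ 2 * x) := by linarith
    _ ≤ 48 * (P.card * kap D ^ 4 * x ^ 2 / e + e * P.card * (D.card + 1) ^ 2 + S ^ 2 * x) := by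
        have e1 : (P.card : ℝ) * (e * ((kap D ^ 2 * x / e) ^ 2 + 16 * (D.card + 1) ^ 2)) =
            P.card * kap D ^ 4 * x ^ 2 / e + 16 * (e * P.card * (D.card + 1) ^ 2) := by
          field_simp
        rw [e1]
        have h1 : 0 ≤ (P.card : ℝ) * kap D ^ 4 * x ^ 2 / e := by positivity
        have h2 : 0 ≤ S ^ 2 * (x : ℝ) := by positivity
        linarith

end Pool.Agent.TFC
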