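import Pool.Agent.TFC.GEO
import Pool.Agent.TFC.BLK

set_option autoImplicit false

namespace Pool.Agent.TFC

open Finset

/-- the exponential sum of `d`, zero outside `D` -/
noncomputable def mnrF (D : Finset ℕ) (x : ℕ) (α : ℝ) (n : ℕ) : ℝ :=
  if n ∈ D then ‖∑ m ∈ Finset.Icc 1 (x / n), ee (m * (α * n))‖ else 0

theorem mnrF_nonneg (D : Finset ℕ) (x : ℕ) (α : ℝ) (n : ℕ) : 0 ≤ mnrF D x α n := by
  unfold mnrF
  split_ifs
  · exact norm_nonneg _
  · exact le_rfl

theorem mnrF_dz (D : Finset ℕ) (x : ℕ) (α : ℝ) (n : ℕ) :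
    mnrF D x α n * (2 * dz (α * n)) ≤ 1 := by
  unfold mnrF
  split_ifs
  · exact (geom_bound (x / n) (α * n)).2
  · rw [zero_mul]; exact zero_le_one

theorem mnrF_le (D : Finset ℕ) (x : ℕ) (α : ℝ) (n : ℕ) (hn : 1 ≤ n) :
    mnrF D x α n ≤ (x : ℝ) / n := by
  have hn' : (0 : ℝ) < n := by exact_mod_cast hn
  unfold mnrF
  split_ifs
  · exact (geom_bound (x / n) (α * n)).1.trans Nat.cast_div_le
  · positivity

theorem mnr_split (F : ℕ → ℝ) (q m : ℕ) :
    ∑ n ∈ Finset.range (m * q), F n =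
      ∑ i ∈ Finset.range m, ∑ r ∈ Finset.range q, F (i * q + r) := by
  induction m with
  | zero => simp
  | succ m ih =>
    rw [Nat.succ_mul, Finset.sum_range_add, ih, Finset.sum_range_succ]

theorem mnr_block (D : Finset ℕ) (x : ℕ) (α : ℝ) (a : ℤ) (q : ℕ) (hq : 1 ≤ q)
    (hc : IsCoprime a (q : ℤ)) (h : |α - (a : ℝ) / q| ≤ 1 / (q : ℝ) ^ 2) (X : ℝ) (hX : 0 ≤ X)
    (i : ℕ) (h1 : ∀ r : ℕ, r < q → mnrF D x α (i * q + r) ≤ X) :
    ∑ r ∈ Finset.range q, mnrF D x α (i * q + r) ≤ 8 * X + 8 * q * (1 + Real.log q) := by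
  have hcast : ∀ r : ℕ, (((i * q : ℕ) : ℤ) + (r : ℤ)).toNat = i * q + r := by
    intro r
    omega
  have hb := block_bound α a q hq hc h X hX ((i * q : ℕ) : ℤ) (fun z => mnrF D x α z.toNat)
    (fun r _ => mnrF_nonneg _ _ _ _)
    (fun r hr => by
      show mnrF D x α (((i * q : ℕ) : ℤ) + (r : ℤ)).toNat ≤ X
      rw [hcast]
      exact h1 r hr)
    (fun r _ => by
      show mnrF D x α (((i * q : ℕ) : ℤ) + (r : ℤ)).toNat * _ ≤ 1
      rw [hcast]
      have h2 := mnrF_dz D x α (i * q + r)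
      have h3 : (((((i * q : ℕ) : ℤ) + (r : ℤ) : ℤ)) : ℝ) = ((i * q + r : ℕ) : ℝ) := by
        push_cast
        ring
      rw [h3]
      exact h2)
  refine le_trans (le_of_eq ?_) hb
  apply Finset.sum_congr rfl
  intro r _
  show _ = mnrF D x α (((i * q : ℕ) : ℤ) + (r : ℤ)).toNat
  rw [hcast]

/-- MNR. Minor arcs. Proof: `Φ d = ‖∑_{m ≤ x/d} e(m α d)‖` for `d ∈ D` (as integers), `0` otherwise.
`D ⊆ [x/Z, x/M]`. Split `[0, x/M]` in blocks `[i q, (i+1) q)`: block `0` has `Φ ≤ Z` (as `x/d ≤ Z`),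
block `i ≥ 1` has `Φ ≤ x/d ≤ x/(i q)`; `block_bound` gives
`8 Z + 8 q (1+log q) + ∑_{1 ≤ i ≤ x/(Mq)} (8 x/(i q) + 8 q (1 + log q))`, and
`∑_{i ≤ x} 1/i ≤ 1 + log x`. Any constant `C` is fine. -/
theorem minor_bound : ∃ C : ℝ, 0 < C ∧ ∀ (x : ℕ), 2 ≤ x → ∀ (α : ℝ) (a : ℤ) (q : ℕ), 1 ≤ q → q ≤ x →
    IsCoprime a (q : ℤ) → |α - (a : ℝ) / q| ≤ 1 / (q : ℝ) ^ 2 →
    ∀ (Z M : ℝ), 1 ≤ Z → 1 ≤ M → ∀ D : Finset ℕ,
      (∀ d ∈ D, 1 ≤ d ∧ (x : ℝ) ≤ Z * d ∧ M * d ≤ x) →
      ∑ d ∈ D, ‖∑ m ∈ Finset.Icc 1 (x / d), ee (m * (α * d))‖ ≤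
        C * (Z + q * (1 + Real.log x) + x / q * (1 + Real.log x) + x / M * (1 + Real.log x)) := by
  refine ⟨8, by norm_num, ?_⟩
  intro x hx α a q hq hqx hc hα Z M hZ hM D hD
  have hxR : (2 : ℝ) ≤ x := by exact_mod_cast hx
  have hqR : (1 : ℝ) ≤ q := by exact_mod_cast hq
  have hqxR : (q : ℝ) ≤ x := by exact_mod_cast hqx
  have hlx : 0 ≤ Real.log x := Real.log_nonneg (by linarith)
  have hlq : Real.log q ≤ Real.log x := Real.log_le_log (by linarith) hqxR
  have hlq0 : 0 ≤ Real.log q := Real.log_nonneg hqR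
  set K : ℕ := ⌊(x : ℝ) / (M * q)⌋₊ with hK
  have hMq : 0 < M * q := by positivity
  have hKle : (K : ℝ) ≤ x / (M * q) := Nat.floor_le (by positivity)
  -- the sum over `D` as a sum over blocks
  have h1 : ∑ d ∈ D, ‖∑ m ∈ Finset.Icc 1 (x / d), ee (m * (α * d))‖ ≤
      ∑ n ∈ Finset.range ((K + 1) * q), mnrF D x α n := by
    have h2 : ∑ d ∈ D, ‖∑ m ∈ Finset.Icc 1 (x / d), ee (m * (α * d))‖ =
        ∑ d ∈ D, mnrF D x α d := by
      apply Finset.sum_congr rfl
      intro d hd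
      unfold mnrF
      rw [if_pos hd]
    rw [h2]
    apply Finset.sum_le_sum_of_subset_of_nonneg
    · intro d hd
      obtain ⟨_, _, h5⟩ := hD d hd
      rw [Finset.mem_range]
      have h6 : d / q ≤ K := by
        apply Nat.le_floor
        refine Nat.cast_div_le.trans ?_
        rw [div_le_div_iff₀ (by linarith) hMq]
        have : (M * d) * q ≤ x * q := mul_le_mul_of_nonneg_right h5 (by linarith)
        linarith
      calc d < (d / q + 1) * q := by
            have := Nat.lt_div_mul_add (a := d) (b := q) (by omega)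
            rw [Nat.add_mul, one_mul]
            exact this
        _ ≤ (K + 1) * q := Nat.mul_le_mul_right _ (by omega)
    · intro n _ _
      exact mnrF_nonneg _ _ _ _
  rw [mnr_split, Finset.sum_range_succ'] at h1
  -- block zero
  have hb0 : ∑ r ∈ Finset.range q, mnrF D x α (0 * q + r) ≤ 8 * Z + 8 * q * (1 + Real.log q) := by
    apply mnr_block D x α a q hq hc hα Z (by linarith) 0
    intro r _
    unfold mnrF
    split_ifs with hr
    · obtain ⟨h2, h3, _⟩ := hD _ hr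
      have h2' : (0 : ℝ) < ((0 * q + r : ℕ) : ℝ) := by exact_mod_cast h2
      refine ((geom_bound _ _).1.trans Nat.cast_div_le).trans ?_
      rw [div_le_iff₀ h2']
      exact h3
    · linarith
  -- the other blocks
  have hbi : ∀ i ∈ Finset.range K, ∑ r ∈ Finset.range q, mnrF D x α ((i + 1) * q + r) ≤
      8 * (x / q) * ((i : ℝ) + 1)⁻¹ + 8 * q * (1 + Real.log x) := by
    intro i _
    have hi : (0 : ℝ) < (i : ℝ) + 1 := by positivity
    have h2 := mnr_block D x α a q hq hc hα ((x : ℝ) / (((i : ℝ) + 1) * q)) (by positivity) (i + 1)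
      (by
        intro r _
        have h3 : 1 ≤ (i + 1) * q + r := by
          have : 1 ≤ (i + 1) * q := Nat.one_le_iff_ne_zero.2 (by positivity)
          omega
        refine (mnrF_le D x α _ h3).trans ?_
        apply div_le_div_of_nonneg_left (by linarith) (by positivity)
        push_cast
        have : (0 : ℝ) ≤ r := Nat.cast_nonneg r
        linarith)
    refine h2.trans ?_
    have h4 : 8 * ((x : ℝ) / (((i : ℝ) + 1) * q)) = 8 * (x / q) * ((i : ℝ) + 1)⁻¹ := by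
      field_simp
    rw [h4]
    have h5 : 8 * (q : ℝ) * (1 + Real.log q) ≤ 8 * q * (1 + Real.log x) := by
      apply mul_le_mul_of_nonneg_left _ (by positivity)
      linarith
    linarith
  have hsum := Finset.sum_le_sum hbi
  rw [Finset.sum_add_distrib, ← Finset.mul_sum, Finset.sum_const, Finset.card_range,
    nsmul_eq_mul] at hsum
  -- the harmonic sum
  have hharm : ∑ i ∈ Finset.range K, ((i : ℝ) + 1)⁻¹ ≤ 1 + Real.log x := by
    have h2 := harmonic_le_one_add_log K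
    have h3 : ((harmonic K : ℚ) : ℝ) = ∑ i ∈ Finset.range K, ((i : ℝ) + 1)⁻¹ := by
      unfold harmonic
      push_cast
      rfl
    rw [h3] at h2
    refine h2.trans ?_
    rcases Nat.eq_zero_or_pos K with h0 | h0
    · rw [h0]; simp; exact hlx
    · have h4 : (K : ℝ) ≤ x := by
        refine hKle.trans ?_
        apply div_le_self (by linarith)
        nlinarith
      have h5 : (0 : ℝ) < K := by exact_mod_cast h0
      have := Real.log_le_log h5 h4
      linarith
  have e1 : 8 * ((x : ℝ) / q) * ∑ i ∈ Finset.range K, ((i : ℝ) + 1)⁻¹ ≤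
      8 * (x / q) * (1 + Real.log x) := mul_le_mul_of_nonneg_left hharm (by positivity)
  have e2 : (K : ℝ) * (8 * q * (1 + Real.log x)) ≤ 8 * (x / M) * (1 + Real.log x) := by
    have h2 : (K : ℝ) * q ≤ x / M := by
      have h3 := mul_le_mul_of_nonneg_right hKle (by linarith : (0 : ℝ) ≤ q)
      have h4 : (x : ℝ) / (M * q) * q = x / M := by
        field_simp
      linarith
    have h5 := mul_le_mul_of_nonneg_right h2 (by positivity : (0 : ℝ) ≤ 8 * (1 + Real.log x))
    nlinarith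
  have e3 : 8 * (q : ℝ) * (1 + Real.log q) ≤ 8 * q * (1 + Real.log x) := by
    apply mul_le_mul_of_nonneg_left _ (by positivity)
    linarith
  have e4 := add_le_add hsum hb0
  refine h1.trans (e4.trans ?_)
  nlinarith

end Pool.Agent.TFC
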