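import Pool.Agent.TFC.SRVA

set_option autoImplicit false

namespace Pool.Agent.TFC

open Finset

/-- local factor of the pair probability divided by the square of the one point factor -/
noncomputable def srvb_rho (q : ℕ) : ℝ := if q = 2 then 2 else 1 - 1 / ((q : ℝ) - 1) ^ 2

theorem srvb_prod_ge (z : ℕ) (hz : 2 ≤ z) : (z : ℝ) / ((z : ℝ) - 1) ≤ ∏ q ∈ pz z, srvb_rho q := by
  induction z, hz using Nat.le_induction with
  | base =>
    have h : pz 2 = {2} := by decide
    rw [h, Finset.prod_singleton]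
    unfold srvb_rho
    norm_num
  | succ z hz ih =>
    have hzr : (2:ℝ) ≤ (z:ℝ) := by exact_mod_cast hz
    have hpos : 0 ≤ ∏ q ∈ pz z, srvb_rho q := by
      refine le_trans ?_ ih
      apply div_nonneg <;> linarith
    by_cases hp : (z+1).Prime
    · have h : pz (z+1) = insert (z+1) (pz z) := by
        unfold pz
        rw [Finset.range_add_one (n := z+1), Finset.filter_insert, if_pos hp]
      rw [h, Finset.prod_insert (by simp [pz])]
      have h1 : srvb_rho (z+1) = 1 - 1 / (z:ℝ)^2 := by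
        unfold srvb_rho
        rw [if_neg (by omega)]
        push_cast
        ring_nf
      rw [h1]
      have h2 : ((z+1 : ℕ) : ℝ) / (((z+1 : ℕ):ℝ) - 1) = (1 - 1 / (z:ℝ)^2) * ((z : ℝ) / ((z : ℝ) - 1)) := by
        have h3 : (z:ℝ) ≠ 0 := by linarith
        have h4 : (z:ℝ) - 1 ≠ 0 := by linarith
        push_cast
        rw [add_sub_cancel_right]
        field_simp
        ring
      rw [h2]
      apply mul_le_mul_of_nonneg_left ih
      have : 1 / (z:ℝ)^2 ≤ 1 := by
        rw [div_le_one (by positivity)]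
        nlinarith
      linarith
    · have h : pz (z+1) = pz z := by
        unfold pz
        rw [Finset.range_add_one (n := z+1), Finset.filter_insert, if_neg hp]
      rw [h]
      refine le_trans ?_ ih
      push_cast
      rw [add_sub_cancel_right, div_le_div_iff₀ (by linarith) (by linarith)]
      nlinarith

theorem srvb_prod_one (z : ℕ) : 1 ≤ ∏ q ∈ pz z, srvb_rho q := by
  by_cases hz : 2 ≤ z
  · refine le_trans ?_ (srvb_prod_ge z hz)
    have hzr : (2:ℝ) ≤ (z:ℝ) := by exact_mod_cast hz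
    rw [le_div_iff₀ (by linarith)]
    linarith
  · have h : pz z = ∅ := by
      unfold pz
      rw [Finset.filter_eq_empty_iff]
      intro q hq hp
      have := hp.two_le
      rw [Finset.mem_range] at hq
      omega
    rw [h, Finset.prod_empty]

/-- number of residues avoiding two distinct classes -/
theorem srvb_sum_ne (q a b : ℕ) (ha : a < q) (hb : b < q) (hab : a ≠ b) :
    (∑ r ∈ Finset.range q, (if a = r ∨ b = r then (0:ℝ) else 1)) = (q:ℝ) - 2 := by
  have h1 : (∑ r ∈ Finset.range q, (if a = r ∨ b = r then (0:ℝ) else 1)) =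
      ∑ r ∈ Finset.range q, ((1:ℝ) - (if a = r then 1 else 0) - (if b = r then 1 else 0)) := by
    apply Finset.sum_congr rfl
    intro r _
    by_cases h : a = r
    · have h2 : b ≠ r := fun h2 => hab (h.trans h2.symm)
      simp [h, h2]
    · by_cases h2 : b = r
      · simp [h, h2]
      · simp [h, h2]
  rw [h1, Finset.sum_sub_distrib, Finset.sum_sub_distrib, Finset.sum_ite_eq, Finset.sum_ite_eq]
  simp only [Finset.mem_range, ha, hb, if_true, Finset.sum_const, Finset.card_range, nsmul_eq_mul]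
  ring

/-- SRV (d) a pair `n, n+2p`, `p > z` prime: the probability is `(1/2) ∏_{3 ≤ q ≤ z} (1-2/q) ≥ VV²`, since
`∏_{3 ≤ q} (1-2/q)/(1-1/q)² = ∏ (1 - 1/(q-1)²) ≥ ∏_{m ≥ 2} (1-1/m²) ≥ 1/2`. -/
theorem surv_pair (z p n : ℕ) (hp : p.Prime) (hz : z < p) :
    VV z ^ 2 ≤ Ex z (fun ω => if sc z ω n = 0 ∧ sc z ω (n + 2 * p) = 0 then 1 else 0) := by
  have h1 : (fun ω : {q : ℕ // q ∈ pz z} → ℕ => if sc z ω n = 0 ∧ sc z ω (n + 2 * p) = 0 then (1:ℝ) else 0) =
      fun ω => ∏ q : {q : ℕ // q ∈ pz z}, (if n % q.1 = ω q ∨ (n + 2 * p) % q.1 = ω q then (0:ℝ) else 1) := by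
    funext ω
    by_cases h : sc z ω n = 0 ∧ sc z ω (n + 2 * p) = 0
    · rw [if_pos h]
      rw [srva_sc_zero, srva_sc_zero] at h
      symm
      apply Finset.prod_eq_one
      intro q _
      rw [if_neg (by rintro (h2 | h2); exact h.1 q h2; exact h.2 q h2)]
    · rw [if_neg h]
      rw [srva_sc_zero, srva_sc_zero] at h
      have h2 : ∃ q : {q : ℕ // q ∈ pz z}, n % q.1 = ω q ∨ (n + 2 * p) % q.1 = ω q := by
        by_contra hc
        push Not at hc
        exact h ⟨fun q => (hc q).1, fun q => (hc q).2⟩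
      obtain ⟨q, hq⟩ := h2
      symm
      apply Finset.prod_eq_zero (Finset.mem_univ q)
      rw [if_pos hq]
  rw [h1, Ex_prod z (fun q r => if n % q.1 = r ∨ (n + 2 * p) % q.1 = r then (0:ℝ) else 1)]
  have h2 : ∀ q : {q : ℕ // q ∈ pz z}, (∑ r ∈ Finset.range q.1,
      (if n % q.1 = r ∨ (n + 2 * p) % q.1 = r then (0:ℝ) else 1)) / q.1 =
      (1 - 1 / (q.1:ℝ)) ^ 2 * srvb_rho q.1 := by
    intro q
    have hq2 := srva_pos q
    have hqp : q.1.Prime := by
      have h := q.2
      simp only [pz, Finset.mem_filter] at h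
      exact h.2
    have hqz : q.1 ≤ z := by
      have h := q.2
      simp only [pz, Finset.mem_filter, Finset.mem_range] at h
      omega
    have h3 : (2:ℝ) ≤ (q.1 : ℝ) := by exact_mod_cast hq2
    by_cases hq : q.1 = 2
    · have e1 : (n + 2 * p) % q.1 = n % q.1 := by
        rw [hq]
        omega
      rw [e1]
      simp only [or_self]
      rw [srva_sum_ne q.1 (n % q.1) (Nat.mod_lt _ (by omega))]
      unfold srvb_rho
      rw [if_pos hq, hq]
      norm_num
    · have e1 : n % q.1 ≠ (n + 2 * p) % q.1 := by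
        intro he
        have h4 : n + 2 * p ≡ n [MOD q.1] := he.symm
        have h5 : q.1 ∣ 2 * p := by
          have := (Nat.modEq_iff_dvd' (by omega : n ≤ n + 2 * p)).1 h4.symm
          simpa using this
        rcases (Nat.Prime.dvd_mul hqp).1 h5 with h6 | h6
        · exact hq ((Nat.prime_dvd_prime_iff_eq hqp Nat.prime_two).1 h6)
        · have := (Nat.prime_dvd_prime_iff_eq hqp hp).1 h6
          omega
      rw [srvb_sum_ne q.1 _ _ (Nat.mod_lt _ (by omega)) (Nat.mod_lt _ (by omega)) e1]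
      unfold srvb_rho
      rw [if_neg hq]
      have h5 : (q.1:ℝ) ≠ 0 := by linarith
      have h6 : (q.1:ℝ) - 1 ≠ 0 := by linarith
      field_simp
      ring
  rw [Finset.prod_congr rfl (fun q _ => h2 q), Finset.prod_mul_distrib]
  rw [srva_prod_sub z (fun q => (1 - 1 / (q:ℝ)) ^ 2), srva_prod_sub z srvb_rho]
  rw [Finset.prod_pow]
  have hV : 0 ≤ VV z ^ 2 := sq_nonneg _
  have := mul_le_mul_of_nonneg_left (srvb_prod_one z) hV
  rw [mul_one] at this
  exact this

end Pool.Agent.TFC
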