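import Pool.Agent.TFC.DDG
import Pool.Agent.TFC.KAPA
import Pool.Agent.TFC.CAPB
import Pool.Agent.TFC.ZPRB
import Pool.Agent.TFC.SRVA
import Pool.Agent.TFC.LTM
import Pool.Agent.TFC.SRVB

set_option autoImplicit false

namespace Pool.Agent.TFC

open Finset Filter

theorem momt_Ex_sum (z : ℕ) {ι : Type*} (s : Finset ι) (f : ι → ({q : ℕ // q ∈ pz z} → ℕ) → ℝ) :
    Ex z (fun ω => ∑ i ∈ s, f i ω) = ∑ i ∈ s, Ex z (f i) := by
  unfold Ex
  rw [Finset.sum_comm, Finset.sum_div]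

theorem momt_Ex_mono (z : ℕ) (f g : ({q : ℕ // q ∈ pz z} → ℕ) → ℝ) (h : ∀ ω, f ω ≤ g ω) :
    Ex z f ≤ Ex z g := by
  unfold Ex
  exact div_le_div_of_nonneg_right (Finset.sum_le_sum (fun ω _ => h ω)) (Nat.cast_nonneg _)

theorem momt_Ex_smul (z : ℕ) (c : ℝ) (f : ({q : ℕ // q ∈ pz z} → ℕ) → ℝ) :
    Ex z (fun ω => c * f ω) = c * Ex z f := by
  unfold Ex
  rw [← Finset.mul_sum, mul_div_assoc]

/-- the expected number of pairs, from below -/
theorem momt_lower {x E : ℕ} {S : ℝ} (h : Good (DD x) x E S) (hz : zz x * 16 ≤ x) :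
    VV (zz x) ^ 2 * ∑ p ∈ PP x, ∑ n ∈ Finset.Icc (1 : ℤ) x, ff (DD x) x n * ff (DD x) x (n + 2 * p) ≤
      Ex (zz x) (fun ω => ((EG x ω).card : ℝ)) := by
  classical
  have hcard : ∀ ω, ((EG x ω).card : ℝ) = ∑ e ∈ PP x ×ˢ Finset.Icc 1 x,
      (if e.2 ∈ SS x ω ∧ e.2 + 2 * e.1 ∈ SS x ω then (1 : ℝ) else 0) := by
    intro ω
    rw [EG, Finset.card_filter]
    push_cast
    rfl
  have hEx : Ex (zz x) (fun ω => ((EG x ω).card : ℝ)) = ∑ e ∈ PP x ×ˢ Finset.Icc 1 x,
      Ex (zz x) (fun ω => (if e.2 ∈ SS x ω ∧ e.2 + 2 * e.1 ∈ SS x ω then (1 : ℝ) else 0)) := by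
    rw [← momt_Ex_sum]
    congr 1
    funext ω
    exact hcard ω
  rw [hEx, Finset.sum_product, Finset.mul_sum]
  refine Finset.sum_le_sum ?_
  intro p hp
  have hp' := hp
  simp only [PP, Finset.mem_filter, Finset.mem_Icc] at hp'
  obtain ⟨_, hpp, hp16, hp4⟩ := hp'
  have hint : ∑ n ∈ Finset.Icc (1 : ℤ) x, ff (DD x) x n * ff (DD x) x (n + 2 * p) =
      ∑ n ∈ Finset.Icc 1 x, ff (DD x) x (n : ℤ) * ff (DD x) x ((n : ℤ) + 2 * p) := by
    symm
    refine Finset.sum_nbij' (fun n : ℕ => (n : ℤ)) (fun n : ℤ => n.toNat) ?_ ?_ ?_ ?_ ?_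
    · intro n hn
      rw [Finset.mem_Icc] at hn ⊢
      omega
    · intro n hn
      rw [Finset.mem_Icc] at hn ⊢
      omega
    · intro n hn
      simp
    · intro n hn
      rw [Finset.mem_Icc] at hn
      omega
    · intro n hn
      rfl
  rw [hint, Finset.mul_sum]
  refine Finset.sum_le_sum ?_
  intro n hn
  rw [Finset.mem_Icc] at hn
  -- values of `ff` are at most one and zero when nothing divides
  have key : ∀ m : ℕ, ff (DD x) x (m : ℤ) ≤ (if 1 ≤ m ∧ m ≤ x ∧ ∃ r ∈ DD x, r ∣ m then (1 : ℝ) else 0) := by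
    intro m
    have h1 := (ff_le_one h (m : ℤ)).2
    split_ifs with hm
    · exact h1
    · refine le_of_eq ?_
      unfold ff
      split_ifs with h2
      · have h3 : (DD x).filter (fun r : ℕ => (r : ℤ) ∣ (m : ℤ)) = ∅ := by
          rw [Finset.filter_eq_empty_iff]
          intro r hr hdvd
          exact hm ⟨by omega, by omega, r, hr, by exact_mod_cast hdvd⟩
        rw [h3]; simp
      · rfl
  have hV : 0 ≤ VV (zz x) ^ 2 := by positivity
  have hff1 := key n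
  have hff2 := key (n + 2 * p)
  have hff0 := (ff_le_one h (n : ℤ)).1
  have hff0' := (ff_le_one h (((n + 2 * p : ℕ)) : ℤ)).1
  have hcast : ((n : ℤ) + 2 * (p : ℤ)) = ((n + 2 * p : ℕ) : ℤ) := by push_cast; ring
  rw [hcast]
  have hprod := mul_le_mul hff1 hff2 hff0' (by split_ifs <;> norm_num)
  by_cases hgood : (1 ≤ n ∧ n ≤ x ∧ ∃ r ∈ DD x, r ∣ n) ∧
      (1 ≤ n + 2 * p ∧ n + 2 * p ≤ x ∧ ∃ r ∈ DD x, r ∣ n + 2 * p)
  · rw [if_pos hgood.1, if_pos hgood.2, one_mul] at hprod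
    have hzp : zz x < p := by omega
    have hs := surv_pair (zz x) p n hpp hzp
    have heq : ∀ ω, (if sc (zz x) ω n = 0 ∧ sc (zz x) ω (n + 2 * p) = 0 then (1 : ℝ) else 0) ≤
        (if n ∈ SS x ω ∧ n + 2 * p ∈ SS x ω then (1 : ℝ) else 0) := by
      intro ω
      by_cases hsc : sc (zz x) ω n = 0 ∧ sc (zz x) ω (n + 2 * p) = 0
      · rw [if_pos hsc, if_pos]
        simp only [SS, Finset.mem_filter, Finset.mem_Icc]
        exact ⟨⟨⟨hn.1, hn.2⟩, hgood.1.2.2, hsc.1⟩, ⟨⟨hgood.2.1, hgood.2.2.1⟩, hgood.2.2.2, hsc.2⟩⟩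
      · rw [if_neg hsc]; split_ifs <;> norm_num
    calc VV (zz x) ^ 2 * (ff (DD x) x (n : ℤ) * ff (DD x) x ((n + 2 * p : ℕ) : ℤ))
        ≤ VV (zz x) ^ 2 * 1 := mul_le_mul_of_nonneg_left hprod hV
      _ ≤ _ := by
        rw [mul_one]
        exact hs.trans (momt_Ex_mono _ _ _ heq)
  · have hz0 : ff (DD x) x (n : ℤ) * ff (DD x) x ((n + 2 * p : ℕ) : ℤ) ≤ 0 := by
      refine hprod.trans (le_of_eq ?_)
      rw [not_and_or] at hgood
      rcases hgood with hg | hg
      · rw [if_neg hg, zero_mul]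
      · rw [if_neg hg, mul_zero]
    have h0 : 0 ≤ Ex (zz x) (fun ω => (if n ∈ SS x ω ∧ n + 2 * p ∈ SS x ω then (1 : ℝ) else 0)) := by
      unfold Ex
      refine div_nonneg (Finset.sum_nonneg (fun ω _ => ?_)) (Nat.cast_nonneg _)
      split_ifs <;> norm_num
    exact (mul_nonpos_of_nonneg_of_nonpos hV hz0).trans h0

/-- MOM (a): expected number of pairs. `Ex |EG| = ∑_p ∑_n ff(n) ff(n+2p) P(n, n+2p survive)`, `surv_pair`, `LT`. -/
theorem mom_T : ∃ c : ℝ, 0 < c ∧ ∀ᶠ x : ℕ in atTop,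
    c * (VV (zz x) ^ 2 * kap (DD x) ^ 2 * x * (x / Real.log x)) ≤
      Ex (zz x) (fun ω => ((EG x ω).card : ℝ)) := by
  obtain ⟨c, hc, hkap⟩ := kap_lower
  refine ⟨1 / 32, by norm_num, ?_⟩
  have hlog : Tendsto (fun x : ℕ => Real.log x) atTop atTop :=
    Real.tendsto_log_atTop.comp tendsto_natCast_atTop_atTop
  have hLL : Tendsto (fun x : ℕ => Real.log (Real.log x)) atTop atTop :=
    Real.tendsto_log_atTop.comp hlog
  filter_upwards [good_DD, zz_size, kap_upper, hkap, PP_card_ge,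
    hlog.eventually_ge_atTop (max 2 (1000 / c ^ 2)), hLL.eventually_ge_atTop 1,
    eventually_ge_atTop 3] with x hG hx hk hkl hP hxL hLL1 hx3
  obtain ⟨h100, h8, hz⟩ := hx
  set L := Real.log x with hLdef
  have hL2 : 2 ≤ L := (le_max_left _ _).trans hxL
  have hLC : 1000 / c ^ 2 ≤ L := (le_max_right _ _).trans hxL
  have hL1 : 1 ≤ L := by linarith
  have hL0 : 0 < L := by linarith
  have hx0 : (0 : ℝ) < x := by exact_mod_cast (by omega : 0 < x)
  have hx1 : (1 : ℝ) ≤ x := by exact_mod_cast (by omega : 1 ≤ x)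
  have hzx : zz x * 16 ≤ x := by
    have h1 : zz x * 16 ≤ zz x * (zz x) ^ 7 := by
      refine Nat.mul_le_mul_left _ ?_
      calc 16 ≤ zz x := by omega
        _ ≤ (zz x) ^ 7 := Nat.le_self_pow (by norm_num) _
    have h2 : zz x * (zz x) ^ 7 = (zz x) ^ 8 := by ring
    omega
  refine le_trans ?_ (momt_lower hG hzx)
  have hE1 : 1 ≤ EE x := by
    unfold EE
    rw [Nat.one_le_floor_iff]
    exact one_le_pow₀ hL1
  have hPP : ∀ p ∈ PP x, 1 ≤ p ∧ 4 * p ≤ x := by
    intro p hp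
    simp only [PP, Finset.mem_filter, Finset.mem_Icc] at hp
    exact ⟨hp.1.1, hp.2.2.2⟩
  have hLT := LT hG hE1 (PP x) hPP
  have hV : 0 ≤ VV (zz x) ^ 2 := by positivity
  have hmain : 1 / 32 * (kap (DD x) ^ 2 * x * (x / L)) ≤
      ∑ p ∈ PP x, ∑ n ∈ Finset.Icc (1 : ℤ) x, ff (DD x) x n * ff (DD x) x (n + 2 * p) := by
    refine le_trans ?_ hLT
    -- card of PP
    have hPx : ((PP x).card : ℝ) ≤ x := by
      have h1 : (PP x).card ≤ x := by
        have := Finset.card_le_card (Finset.filter_subset (fun p => p.Prime ∧ x < 16 * p ∧ 4 * p ≤ x)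
          (Finset.Icc 1 x))
        simpa [PP] using this
      exact_mod_cast h1
    have hs : Real.sqrt ((PP x).card * x) ≤ x := by
      rw [Real.sqrt_le_left hx0.le, pow_two]
      exact mul_le_mul_of_nonneg_right hPx hx0.le
    set κ := kap (DD x) with hκ
    have hκ0 : 0 ≤ κ := Finset.sum_nonneg (fun _ _ => by positivity)
    have hLLp : 0 < Real.log L := by linarith
    -- κ² ≥ 60/L²
    have hLLle : (Real.log L) ^ 2 ≤ 16 * L := by
      have h1 : (Real.log L) ≤ 4 * Real.sqrt (Real.sqrt L) := by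
        have h4 : Real.log L = 4 * Real.log (Real.sqrt (Real.sqrt L)) := by
          rw [Real.log_sqrt (Real.sqrt_nonneg _), Real.log_sqrt hL0.le]; ring
        have h5 : Real.log (Real.sqrt (Real.sqrt L)) ≤ Real.sqrt (Real.sqrt L) - 1 :=
          Real.log_le_sub_one_of_pos (Real.sqrt_pos.2 (Real.sqrt_pos.2 hL0))
        linarith
      calc (Real.log L) ^ 2 ≤ (4 * Real.sqrt (Real.sqrt L)) ^ 2 := pow_le_pow_left₀ hLLp.le h1 2
        _ = 16 * Real.sqrt L := by rw [mul_pow, Real.sq_sqrt (Real.sqrt_nonneg _)]; norm_num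
        _ ≤ 16 * L := by
          refine mul_le_mul_of_nonneg_left ?_ (by norm_num)
          rw [Real.sqrt_le_left hL0.le]
          exact le_self_pow₀ hL1 (by norm_num)
    have hc2 : 1000 / L ≤ c ^ 2 := by
      rw [div_le_iff₀ (by positivity)] at hLC ⊢
      linarith
    have hκ2 : 60 / L ^ 2 ≤ κ ^ 2 := by
      calc 60 / L ^ 2 ≤ (1000 / L) / (16 * L) := by
            rw [div_div, div_le_div_iff₀ (by positivity) (by positivity)]
            nlinarith [sq_nonneg L]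
        _ ≤ c ^ 2 / (16 * L) := div_le_div_of_nonneg_right hc2 (by positivity)
        _ ≤ c ^ 2 / (Real.log L) ^ 2 := div_le_div_of_nonneg_left (by positivity) (by positivity) hLLle
        _ = (c / Real.log L) ^ 2 := by rw [div_pow]
        _ ≤ κ ^ 2 := pow_le_pow_left₀ (by positivity) hkl 2
    have hD : 16 * (((DD x).card : ℝ) + 1) ≤ κ ^ 2 * x / 8 := by
      have h1 : (1 : ℝ) ≤ x / L ^ 60 := by
        rw [one_le_div (by positivity)]
        have h8r : ((zz x : ℕ) : ℝ) ^ 8 ≤ x := by exact_mod_cast h8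
        have hzr : (1 : ℝ) ≤ zz x := by exact_mod_cast (by omega : 1 ≤ zz x)
        calc L ^ 60 ≤ L ^ 100 := pow_le_pow_right₀ hL1 (by norm_num)
          _ ≤ zz x := h100
          _ ≤ (zz x : ℝ) ^ 8 := le_self_pow₀ hzr (by norm_num)
          _ ≤ x := h8r
      have h2 : 256 / L ^ 60 ≤ κ ^ 2 := by
        refine le_trans ?_ hκ2
        rw [div_le_div_iff₀ (by positivity) (by positivity)]
        have h58 : (2 : ℝ) ^ 58 ≤ L ^ 58 := pow_le_pow_left₀ (by norm_num) hL2 58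
        calc 256 * L ^ 2 ≤ (60 * 2 ^ 58) * L ^ 2 := mul_le_mul_of_nonneg_right (by norm_num) (by positivity)
          _ = 60 * (2 ^ 58 * L ^ 2) := by ring
          _ ≤ 60 * (L ^ 58 * L ^ 2) := by
            refine mul_le_mul_of_nonneg_left (mul_le_mul_of_nonneg_right h58 (by positivity)) (by norm_num)
          _ = 60 * L ^ 60 := by ring
      have h3 := hk.2
      calc 16 * (((DD x).card : ℝ) + 1) ≤ 32 * (x / L ^ 60) := by linarith
        _ = (256 / L ^ 60) * x / 8 := by ring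
        _ ≤ κ ^ 2 * x / 8 := by
          refine div_le_div_of_nonneg_right (mul_le_mul_of_nonneg_right h2 hx0.le) (by norm_num)
    have hS : 2 * (x / L ^ 26) * Real.sqrt ((PP x).card * x) ≤ 1 / 64 * (κ ^ 2 * x * (x / L)) := by
      have h2 : 128 / L ^ 25 ≤ κ ^ 2 := by
        refine le_trans ?_ hκ2
        rw [div_le_div_iff₀ (by positivity) (by positivity)]
        have h58 : (2 : ℝ) ^ 23 ≤ L ^ 23 := pow_le_pow_left₀ (by norm_num) hL2 23
        calc 128 * L ^ 2 ≤ (60 * 2 ^ 23) * L ^ 2 := mul_le_mul_of_nonneg_right (by norm_num) (by positivity)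
          _ = 60 * (2 ^ 23 * L ^ 2) := by ring
          _ ≤ 60 * (L ^ 23 * L ^ 2) := by
            refine mul_le_mul_of_nonneg_left (mul_le_mul_of_nonneg_right h58 (by positivity)) (by norm_num)
          _ = 60 * L ^ 25 := by ring
      calc 2 * (x / L ^ 26) * Real.sqrt ((PP x).card * x) ≤ 2 * (x / L ^ 26) * x :=
            mul_le_mul_of_nonneg_left hs (by positivity)
        _ = 1 / 64 * ((128 / L ^ 25) * x * (x / L)) := by field_simp; ring
        _ ≤ 1 / 64 * (κ ^ 2 * x * (x / L)) := by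
          refine mul_le_mul_of_nonneg_left ?_ (by norm_num)
          refine mul_le_mul_of_nonneg_right ?_ (by positivity)
          exact mul_le_mul_of_nonneg_right h2 hx0.le
    have hA : κ ^ 2 * x * (3 / 8) ≤ κ ^ 2 * x / 2 - 16 * (((DD x).card : ℝ) + 1) := by linarith
    have hB : (1 / 8) * (x / L) * (κ ^ 2 * x * (3 / 8)) ≤
        ((PP x).card : ℝ) * (κ ^ 2 * x / 2 - 16 * (((DD x).card : ℝ) + 1)) :=
      mul_le_mul hP hA (by positivity) (by positivity)
    have hC : (1 / 8) * (x / L) * (κ ^ 2 * x * (3 / 8)) = 3 / 64 * (κ ^ 2 * x * (x / L)) := by ring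
    rw [hC] at hB
    linarith
  calc 1 / 32 * (VV (zz x) ^ 2 * kap (DD x) ^ 2 * x * (x / L))
      = VV (zz x) ^ 2 * (1 / 32 * (kap (DD x) ^ 2 * x * (x / L))) := by ring
    _ ≤ _ := mul_le_mul_of_nonneg_left hmain hV

end Pool.Agent.TFC
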