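import Pool.Agent.TFC.RKNA

set_option autoImplicit false

namespace Pool.Agent.TFC

open Finset

lemma rknb_log (z : ℕ) (hz : 100 ≤ z) : (4 : ℝ) ≤ Real.log z := by
  have h1 : (4 : ℝ) ≤ Real.log 100 := by
    rw [Real.le_log_iff_exp_le (by norm_num)]
    have h2 : Real.exp 4 = Real.exp 1 ^ 4 := by
      rw [← Real.exp_nat_mul]; norm_num
    rw [h2]
    have h3 := Real.exp_one_lt_d9
    have h4 : (0 : ℝ) ≤ Real.exp 1 := (Real.exp_pos 1).le
    calc Real.exp 1 ^ 4 ≤ (2.7182818286 : ℝ) ^ 4 := pow_le_pow_left₀ h4 h3.le 4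
      _ ≤ 100 := by norm_num
  refine h1.trans (Real.log_le_log (by norm_num) (by exact_mod_cast hz))

lemma rknb_r (a : ℝ) (ha : a ≤ -(3 / 4)) (q : ℕ) (hq : 2 ≤ q) : (q : ℝ) ^ a ≤ 3 / 5 := by
  have h0 : (2 : ℝ) ≤ q := by exact_mod_cast hq
  have h1 : (q : ℝ) ^ a ≤ (q : ℝ) ^ (-(3 / 4) : ℝ) :=
    Real.rpow_le_rpow_of_exponent_le (by linarith) ha
  have h2 : (q : ℝ) ^ (-(3 / 4) : ℝ) ≤ (2 : ℝ) ^ (-(3 / 4) : ℝ) :=
    Real.rpow_le_rpow_of_nonpos (by norm_num) h0 (by norm_num)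
  have h3 : (2 : ℝ) ^ (-(3 / 4) : ℝ) ≤ 3 / 5 := by
    have h4 : ((2 : ℝ) ^ (-(3 / 4) : ℝ)) ^ 4 = 1 / 8 := by
      rw [← Real.rpow_natCast, ← Real.rpow_mul (by norm_num)]
      have : (-(3 / 4) : ℝ) * ((4 : ℕ) : ℝ) = -((3 : ℕ) : ℝ) := by push_cast; ring
      rw [this, Real.rpow_neg (by norm_num), Real.rpow_natCast]
      norm_num
    have h5 : (0 : ℝ) ≤ (2 : ℝ) ^ (-(3 / 4) : ℝ) := by positivity
    by_contra h6
    push Not at h6
    have h7 : (3 / 5 : ℝ) ^ 4 ≤ ((2 : ℝ) ^ (-(3 / 4) : ℝ)) ^ 4 :=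
      pow_le_pow_left₀ (by norm_num) h6.le 4
    rw [h4] at h7
    norm_num at h7
  linarith

lemma rknb_exp (t : ℝ) (h0 : 0 ≤ t) (h1 : t ≤ 1) : Real.exp t - 1 ≤ 2 * t := by
  have h := convexOn_exp.2 (Set.mem_univ (0 : ℝ)) (Set.mem_univ (1 : ℝ))
    (by linarith : (0 : ℝ) ≤ 1 - t) h0 (by ring)
  simp only [smul_eq_mul, mul_zero, mul_one, zero_add, Real.exp_zero] at h
  have h3 := Real.exp_one_lt_d9
  nlinarith

/-- RKN (b): with the exponent `-1 + δ`, `δ = 1/log z`: the sum is `≤ ∏ (1 - q^(-1+δ))⁻¹`, and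
`∏_{q ≤ z} (1-1/q)/(1-q^(-1+δ)) ≤ exp (C ∑_{q ≤ z} (q^δ - 1)/q) ≤ C'` because `q^δ - 1 ≤ 2 δ log q` for
`q ≤ z` and `∑_{q ≤ z} log q / q ≤ C log z`. For small `z` (where `q^(-1+δ)` is near 1, e.g. `z = 2, 3`)
enlarge the constant; `z ≥ 100` is all that is needed. -/
theorem rankin_sum : ∃ C : ℝ, 0 < C ∧ ∀ (z : ℕ), 100 ≤ z → ∀ T : Finset ℕ,
    (∀ m ∈ T, 1 ≤ m ∧ ∀ q : ℕ, q.Prime → q ∣ m → q ≤ z) →
    VV z * ∑ m ∈ T, (m : ℝ) ^ (-1 + 1 / Real.log z) ≤ C := by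
  refine ⟨Real.exp 10, Real.exp_pos _, ?_⟩
  intro z hz T hT
  have hL : (4 : ℝ) ≤ Real.log z := rknb_log z hz
  set δ : ℝ := 1 / Real.log z with hδ
  have hδ0 : 0 < δ := by rw [hδ]; positivity
  have hδ1 : δ ≤ 1 / 4 := by
    rw [hδ]
    exact one_div_le_one_div_of_le (by norm_num) hL
  set a : ℝ := -1 + δ with ha
  have ha1 : a ≤ -(3 / 4) := by rw [ha]; linarith
  have hrp : ∀ p : ℕ, p.Prime → 0 ≤ (p : ℝ) ^ a ∧ (p : ℝ) ^ a < 1 := fun p hp =>
    ⟨by positivity, (rknb_r a ha1 p hp.two_le).trans_lt (by norm_num)⟩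
  have h := Pool.Agent.PnMn.sum_le_euler (fun n : ℕ => (n : ℝ) ^ a) (fun n => by positivity) (by simp)
    (fun m n _ => by push_cast; rw [Real.mul_rpow (by positivity) (by positivity)])
    (fun p => (p : ℝ) ^ a) (fun p => (p : ℝ) ^ a) hrp
    (fun p hp j => by
      push_cast
      rw [← Real.rpow_natCast, ← Real.rpow_natCast, ← Real.rpow_mul (by positivity),
        ← Real.rpow_mul (by positivity), ← Real.rpow_add (by exact_mod_cast hp.pos)]
      refine le_of_eq ?_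
      congr 1
      push_cast
      ring)
    (z + 1) T (fun d hd => ⟨by have := (hT d hd).1; omega, fun p hp hpd => Nat.lt_succ_of_le ((hT d hd).2 p hp hpd)⟩)
  rw [rkna_pz] at h
  have h0 : 0 ≤ VV z := by
    unfold VV
    refine Finset.prod_nonneg (fun p hp => ?_)
    have hp' : p.Prime := by simp only [pz, Finset.mem_filter] at hp; exact hp.2
    have h1 : (1 : ℝ) / p ≤ 1 := by
      rw [div_le_one (by exact_mod_cast hp'.pos)]; exact_mod_cast hp'.one_le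
    linarith
  refine (mul_le_mul_of_nonneg_left h h0).trans ?_
  unfold VV
  rw [← Finset.prod_mul_distrib]
  have hstep : ∀ p ∈ pz z, (1 - 1 / (p : ℝ)) * (1 + (p : ℝ) ^ a / (1 - (p : ℝ) ^ a)) ≤
      Real.exp (5 * δ * (Real.log p / p)) := by
    intro p hp
    have hp2 : p.Prime := by simp only [pz, Finset.mem_filter] at hp; exact hp.2
    have hpz : p ≤ z := by
      simp only [pz, Finset.mem_filter, Finset.mem_range] at hp; omega
    have hp0 : (0 : ℝ) < p := by exact_mod_cast hp2.pos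
    have hr := rknb_r a ha1 p hp2.two_le
    have hr0 : 0 ≤ (p : ℝ) ^ a := by positivity
    have hden : (0 : ℝ) < 1 - (p : ℝ) ^ a := by linarith
    have e1 : (p : ℝ) ^ a = (p : ℝ) ^ δ / p := by
      rw [ha, Real.rpow_add hp0, Real.rpow_neg_one]
      field_simp
    have e2 : (p : ℝ) ^ δ - 1 ≤ 2 * (δ * Real.log p) := by
      have h3 : (p : ℝ) ^ δ = Real.exp (δ * Real.log p) := by
        rw [Real.rpow_def_of_pos hp0, mul_comm]
      rw [h3]
      refine rknb_exp _ (mul_nonneg hδ0.le (Real.log_natCast_nonneg _)) ?_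
      rw [hδ, one_div, inv_mul_le_iff₀ (by linarith), mul_one]
      exact Real.log_le_log hp0 (by exact_mod_cast hpz)
    have e3 : (1 - 1 / (p : ℝ)) * (1 + (p : ℝ) ^ a / (1 - (p : ℝ) ^ a)) =
        1 + ((p : ℝ) ^ a - 1 / p) / (1 - (p : ℝ) ^ a) := by
      field_simp
      ring
    rw [e3]
    have e4 : ((p : ℝ) ^ a - 1 / p) / (1 - (p : ℝ) ^ a) ≤ 5 * δ * (Real.log p / p) := by
      rw [div_le_iff₀ hden, e1, ← sub_div]
      have h5 : 2 * (δ * Real.log p) ≤ 5 * δ * Real.log p * (1 - (p : ℝ) ^ δ / p) := by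
        rw [← e1]
        have h6 : 0 ≤ δ * Real.log p := mul_nonneg hδ0.le (Real.log_natCast_nonneg _)
        nlinarith
      calc ((p : ℝ) ^ δ - 1) / p ≤ (5 * δ * Real.log p * (1 - (p : ℝ) ^ δ / p)) / p :=
            div_le_div_of_nonneg_right (e2.trans h5) hp0.le
        _ = 5 * δ * (Real.log p / p) * (1 - (p : ℝ) ^ δ / p) := by ring
    have h7 := Real.add_one_le_exp (5 * δ * (Real.log p / p))
    linarith
  have hnn : ∀ p ∈ pz z, 0 ≤ (1 - 1 / (p : ℝ)) * (1 + (p : ℝ) ^ a / (1 - (p : ℝ) ^ a)) := by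
    intro p hp
    have hp2 : p.Prime := by simp only [pz, Finset.mem_filter] at hp; exact hp.2
    have hr := hrp p hp2
    have h1 : (1 : ℝ) / p ≤ 1 := by
      rw [div_le_one (by exact_mod_cast hp2.pos)]; exact_mod_cast hp2.one_le
    have h2 : 0 ≤ (p : ℝ) ^ a / (1 - (p : ℝ) ^ a) := div_nonneg hr.1 (by linarith [hr.2])
    exact mul_nonneg (by linarith) (by linarith)
  refine (Finset.prod_le_prod hnn hstep).trans ?_
  rw [← Real.exp_sum, ← Finset.mul_sum]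
  apply Real.exp_le_exp.2
  have hset : pz z = (Finset.Icc 1 z).filter Nat.Prime := by
    ext p
    simp only [pz, Finset.mem_filter, Finset.mem_range, Finset.mem_Icc]
    constructor
    · rintro ⟨h1, hp⟩; exact ⟨⟨hp.one_le, by omega⟩, hp⟩
    · rintro ⟨⟨_, h1⟩, hp⟩; exact ⟨by omega, hp⟩
  have hM := Pool.Agent.PnMn.sum_log_div_le z (by omega)
  rw [← hset] at hM
  have hlog4 : Real.log 4 ≤ 4 := by
    have := Real.log_le_sub_one_of_pos (by norm_num : (0 : ℝ) < 4)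
    linarith
  have h8 : ∑ p ∈ pz z, Real.log p / (p : ℝ) ≤ 2 * Real.log z := by linarith
  calc 5 * δ * ∑ p ∈ pz z, Real.log p / (p : ℝ) ≤ 5 * δ * (2 * Real.log z) :=
        mul_le_mul_of_nonneg_left h8 (by positivity)
    _ = 10 := by rw [hδ]; field_simp; norm_num
end Pool.Agent.TFC
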